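import Pool.Agent.Helper83.CP.Defs

/-!
# Project CP (helper83), module ArcAngle
The angle along a segment in the frontier.

Proof. The line `{a + s f}` does not contain `0`: if `0 = a + s0 f` then the points `(s-s0) f`, `α ≤ s ≤ β`, are in the frontier, and two different ones of them are on the same ray from `0`, contradiction to `Rad.uniq`.
So `a = λ f + κ (i f)` with real `λ = ip a f`, `κ ≠ 0`, and `a + s f = i κ f (1 - i (s+λ)/κ)`, `1 - i y = √(1+y²) e^{-i arctan y}`. Take `θ s = arg (i κ f) - arctan((s+λ)/κ)`: continuous, strictly monotone (decreasing if `κ > 0`,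
increasing if `κ < 0`), and differences are smaller than `π`. `x (θ s) = a + s f` by `Rad.uniq`.
-/

set_option autoImplicit false

open MeasureTheory Set Filter Topology Metric
open scoped RealInnerProductSpace ENNReal NNReal

namespace Pool.Agent.Helper83.CP

open Pool.Agent.Helper1.CK (E3 nEnergy V1 Content Good)

theorem arc_angle {C : Set ℂ} {x : ℝ → ℂ} (hx : Rad C x) {a f : ℂ} (hf : ‖f‖ = 1) {α β : ℝ}
    (hαβ : α < β) (hfr : ∀ s ∈ Icc α β, a + (s : ℂ) * f ∈ frontier C) :
    ∃ θ : ℝ → ℝ, ContinuousOn θ (Icc α β) ∧
      (StrictMonoOn θ (Icc α β) ∨ StrictAntiOn θ (Icc α β)) ∧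
      (∀ s ∈ Icc α β, x (θ s) = a + (s : ℂ) * f) ∧
      ∀ s ∈ Icc α β, ∀ t ∈ Icc α β, |θ s - θ t| < Real.pi := by
  have hexpf : Complex.exp ((Complex.arg f : ℝ) * Complex.I) = f := by
    have := Complex.norm_mul_exp_arg_mul_I f
    rw [hf] at this
    simpa using this
  have hff : f * (starRingEnd ℂ) f = 1 := by
    rw [Complex.mul_conj, Complex.normSq_eq_norm_sq, hf]; simp
  have hfne : f ≠ 0 := by
    intro h; rw [h] at hf; simp at hf
  obtain ⟨lam, kap, hlk⟩ : ∃ lam kap : ℝ, a = ((lam : ℂ) + kap * Complex.I) * f := by
    refine ⟨(a * (starRingEnd ℂ) f).re, (a * (starRingEnd ℂ) f).im, ?_⟩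
    rw [Complex.re_add_im, mul_assoc, mul_comm ((starRingEnd ℂ) f) f, hff, mul_one]
  have hz : ∀ s : ℝ, a + (s : ℂ) * f = (((lam + s : ℝ) : ℂ) + kap * Complex.I) * f := by
    intro s; rw [hlk]; push_cast; ring
  by_cases hk : kap = 0
  · exfalso
    -- two points of the segment on the same ray
    have hz0 : ∀ s : ℝ, a + (s : ℂ) * f = ((lam + s : ℝ) : ℂ) * f := by
      intro s; rw [hz s, hk]; simp
    have key : ∀ s t : ℝ, s ∈ Icc α β → t ∈ Icc α β → s ≠ t →
        (0 < lam + s ∧ 0 < lam + t ∨ lam + s < 0 ∧ lam + t < 0) → False := by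
      intro s t hs ht hst hsgn
      have heq : a + (s : ℂ) * f = a + (t : ℂ) * f := by
        rcases hsgn with ⟨h1, h2⟩ | ⟨h1, h2⟩
        · have e1 := hx.uniq _ (hfr s hs) (Complex.arg f) (lam + s) h1
            (by rw [hexpf]; exact hz0 s)
          have e2 := hx.uniq _ (hfr t ht) (Complex.arg f) (lam + t) h2
            (by rw [hexpf]; exact hz0 t)
          rw [e1, e2]
        · have hneg : Complex.exp (((Complex.arg f + Real.pi : ℝ) : ℂ) * Complex.I) = -f := by
            push_cast
            rw [add_mul, Complex.exp_add, Complex.exp_pi_mul_I, hexpf]; ring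
          have e1 := hx.uniq _ (hfr s hs) (Complex.arg f + Real.pi) (-(lam + s)) (by linarith)
            (by rw [hneg, hz0 s]; push_cast; ring)
          have e2 := hx.uniq _ (hfr t ht) (Complex.arg f + Real.pi) (-(lam + t)) (by linarith)
            (by rw [hneg, hz0 t]; push_cast; ring)
          rw [e1, e2]
      have h3 : (s : ℂ) * f = (t : ℂ) * f := add_left_cancel heq
      have h4 : (s : ℂ) = (t : ℂ) := mul_right_cancel₀ hfne h3
      exact hst (by exact_mod_cast h4)
    by_cases h0 : 0 ≤ lam + α
    · exact key ((α + β) / 2) β ⟨by linarith, by linarith⟩ ⟨by linarith, le_refl _⟩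
        (by intro h; linarith) (Or.inl ⟨by linarith, by linarith⟩)
    · push Not at h0
      have hm1 : min β ((α - lam) / 2) ≤ β := min_le_left _ _
      have hm2 : min β ((α - lam) / 2) ≤ (α - lam) / 2 := min_le_right _ _
      have hm3 : α < min β ((α - lam) / 2) := lt_min hαβ (by linarith)
      exact key α (min β ((α - lam) / 2)) ⟨le_refl _, hαβ.le⟩ ⟨hm3.le, hm1⟩
        (by intro h; linarith) (Or.inr ⟨h0, by linarith⟩)
  · -- the angle
    set y : ℝ → ℝ := fun s => (s + lam) / kap with hy
    set w : ℂ := (kap : ℂ) * Complex.I * f with hw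
    have hwn : ‖w‖ = |kap| := by
      rw [hw, norm_mul, norm_mul, hf, Complex.norm_I, Complex.norm_real, Real.norm_eq_abs]; ring
    have hww : w = (|kap| : ℝ) * Complex.exp ((Complex.arg w : ℝ) * Complex.I) := by
      have := Complex.norm_mul_exp_arg_mul_I w
      rw [hwn] at this
      exact this.symm
    have hexp : ∀ t : ℝ, (1 : ℂ) - t * Complex.I =
        (√(1 + t ^ 2) : ℝ) * Complex.exp (((-Real.arctan t : ℝ) : ℂ) * Complex.I) := by
      intro t
      have hp : 0 < √(1 + t ^ 2) := Real.sqrt_pos.2 (by positivity)
      have hc : √(1 + t ^ 2) * Real.cos (Real.arctan t) = 1 := by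
        rw [Real.cos_arctan]; field_simp
      have hs : √(1 + t ^ 2) * Real.sin (Real.arctan t) = t := by
        rw [Real.sin_arctan]; field_simp
      have he : Complex.exp (((-Real.arctan t : ℝ) : ℂ) * Complex.I) =
          ((Real.cos (Real.arctan t) : ℝ) : ℂ) - ((Real.sin (Real.arctan t) : ℝ) : ℂ) *
            Complex.I := by
        rw [Complex.exp_mul_I, ← Complex.ofReal_cos, ← Complex.ofReal_sin, Real.cos_neg,
          Real.sin_neg, Complex.ofReal_neg]
        ring
      rw [he, mul_sub, ← Complex.ofReal_mul, hc, ← mul_assoc, ← Complex.ofReal_mul, hs]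
      simp
    refine ⟨fun s => Complex.arg w - Real.arctan (y s), ?_, ?_, ?_, ?_⟩
    · refine Continuous.continuousOn ?_
      have : Continuous y := by fun_prop
      exact continuous_const.sub (Real.continuous_arctan.comp this)
    · rcases lt_or_gt_of_ne hk with h | h
      · left
        intro s _ t _ hst
        have : y t < y s := by
          simp only [hy]
          exact div_lt_div_of_neg_of_lt h (by linarith)
        have := Real.arctan_strictMono this
        simp only; linarith
      · right
        intro s _ t _ hst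
        have : y s < y t := by
          simp only [hy]
          exact div_lt_div_of_pos_right (by linarith) h
        have := Real.arctan_strictMono this
        simp only; linarith
    · intro s hs
      refine (hx.uniq _ (hfr s hs) _ (|kap| * √(1 + y s ^ 2)) ?_ ?_).symm
      · exact mul_pos (abs_pos.2 hk) (Real.sqrt_pos.2 (by positivity))
      · have h1 : a + (s : ℂ) * f = w * (1 - (y s : ℂ) * Complex.I) := by
          have hkc : (kap : ℂ) ≠ 0 := by exact_mod_cast hk
          rw [hz s, hw]
          simp only [hy]
          push_cast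
          field_simp
          ring_nf
          simp only [Complex.I_sq]
          ring
        rw [h1, hexp, hww]
        have h2 : (((Complex.arg w - Real.arctan (y s) : ℝ) : ℂ) * Complex.I) =
            (Complex.arg w : ℝ) * Complex.I + ((-Real.arctan (y s) : ℝ) : ℂ) * Complex.I := by
          push_cast; ring
        rw [← hww, h2, Complex.exp_add]
        nth_rewrite 1 [hww]
        push_cast
        ring
    · intro s _ t _
      have h1 := Real.arctan_lt_pi_div_two (y s)
      have h2 := Real.neg_pi_div_two_lt_arctan (y s)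
      have h3 := Real.arctan_lt_pi_div_two (y t)
      have h4 := Real.neg_pi_div_two_lt_arctan (y t)
      simp only
      rw [abs_lt]
      constructor <;> linarith

end Pool.Agent.Helper83.CP
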