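import Pool.Agent.Helper83.CP.Defs
import Pool.Agent.Helper83.CP.ArcAngle

/-!
# Project CP (helper83), module ArcSum
Sums over the sides of the inscribed `N`-gon `v k = vv x N k` with both end points on the segment `arc a f α β` of the frontier.

Proof. If `α = β` no side qualifies (`v k ≠ v (k+1)`, their directions are different). Let `α < β` and take `θ` from `arc_angle`. Let `K` be the set of `k < N` with `v k, v (k+1) ∈ arc`, `v k = a + s_k f`, `v (k+1) = a + s'_k f`,
`I_k` the interval between `s_k` and `s'_k`; the side `k` is parametrised by `I_k` (`len = |s'_k - s_k|`), so the `k`-th term is `∫_{I_k} φ(a + s f) ds`. `θ(s_k) ≡ 2πk/N`, `θ(s'_k) ≡ 2π(k+1)/N` mod `2π`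
(equal points have equal directions), and `|θ(s'_k) - θ(s_k)| < π`, `N ≥ 3`, so `θ(s'_k) - θ(s_k) = 2π/N`: `I_k` is the preimage under `θ` of `[2π j_k/N, 2π (j_k+1)/N]` with an integer `j_k ≡ k` mod `N`. The `j_k` are different, so
`θ(I_k) ∩ θ(I_l)` has at most one point and `I_k ∩ I_l` is null. So `∑ ∫_{I_k} φ ≤ ∫_α^β φ` (`arc_sum`).
`arc_lim`: choose `e` small; for large `N` let `j₀ = ⌈N θ(α)/2π⌉`, `j₁ = ⌊N θ(β)/2π⌋` (`θ` increasing), `t_j` the preimages of
`2π j/N` (intermediate value theorem); the sides `j mod N`, `j₀ ≤ j < j₁`, qualify, they are different and the sum of their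
lengths is `t_{j₁} - t_{j₀} ≥ (β - e) - (α + e)`.
-/

set_option autoImplicit false

open MeasureTheory Set Filter Topology Metric
open scoped RealInnerProductSpace ENNReal NNReal

namespace Pool.Agent.Helper83.CP

open Pool.Agent.Helper1.CK (E3 nEnergy V1 Content Good)

private lemma x_inj {C : Set ℂ} {x : ℝ → ℂ} (hx : Rad C x) {φ ψ : ℝ} (h : x φ = x ψ) :
    ∃ z : ℤ, φ = ψ + z * (2 * Real.pi) := by
  obtain ⟨r, hr, h1⟩ := hx.dir φ
  obtain ⟨r', hr', h2⟩ := hx.dir ψ
  have h3 : (r : ℂ) * Complex.exp (φ * Complex.I) = (r' : ℂ) * Complex.exp (ψ * Complex.I) := by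
    rw [← h1, ← h2, h]
  have h4 : r = r' := by
    have h5 := congrArg norm h3
    rw [norm_mul, norm_mul, Complex.norm_exp_ofReal_mul_I, Complex.norm_exp_ofReal_mul_I, mul_one,
      mul_one, Complex.norm_real, Complex.norm_real, Real.norm_eq_abs, Real.norm_eq_abs,
      abs_of_pos hr, abs_of_pos hr'] at h5
    exact h5
  subst h4
  have h6 : Complex.exp (φ * Complex.I) = Complex.exp (ψ * Complex.I) := by
    have : (r : ℂ) ≠ 0 := by exact_mod_cast hr.ne'
    exact mul_left_cancel₀ this h3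
  rw [Complex.exp_eq_exp_iff_exists_int] at h6
  obtain ⟨z, hz⟩ := h6
  refine ⟨z, ?_⟩
  have h7 : ((φ : ℂ)) * Complex.I = ((ψ + z * (2 * Real.pi) : ℝ) : ℂ) * Complex.I := by
    rw [hz]; push_cast; ring
  have h8 := mul_right_cancel₀ Complex.I_ne_zero h7
  exact_mod_cast h8

private lemma x_int {C : Set ℂ} {x : ℝ → ℂ} (hx : Rad C x) (φ : ℝ) (z : ℤ) :
    x (φ + z * (2 * Real.pi)) = x φ := by
  have h : Function.Periodic x (2 * Real.pi) := hx.per
  exact h.int_mul z φ

theorem vv_ne {C : Set ℂ} {x : ℝ → ℂ} (hx : Rad C x) {N : ℕ} (hN : 3 ≤ N) (k : ℕ) :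
    vv x N (k + 1) ≠ vv x N k := by
  intro h
  obtain ⟨z, hz⟩ := x_inj hx h
  have hN0 : (0 : ℝ) < N := by exact_mod_cast (by omega : 0 < N)
  have hpi := Real.pi_pos
  have h1 : (1 : ℝ) = z * N := by
    have h2 : 2 * Real.pi * ((k + 1 : ℕ) : ℝ) / N = 2 * Real.pi * (k : ℝ) / N + z * (2 * Real.pi) := hz
    have h3 : 2 * Real.pi * ((k + 1 : ℕ) : ℝ) / N * N =
        (2 * Real.pi * (k : ℝ) / N + z * (2 * Real.pi)) * N := by rw [h2]
    rw [div_mul_cancel₀ _ hN0.ne', add_mul, div_mul_cancel₀ _ hN0.ne'] at h3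
    push_cast at h3
    have h4 : (2 * Real.pi) * 1 = (2 * Real.pi) * (z * N) := by linarith
    exact mul_left_cancel₀ (by positivity) h4
  have h5 : (1 : ℤ) = z * (N : ℤ) := by exact_mod_cast h1
  have h6 : (N : ℤ) ∣ 1 := ⟨z, by rw [mul_comm]; exact h5⟩
  have h7 := Int.le_of_dvd (by norm_num) h6
  have : (3 : ℤ) ≤ N := by exact_mod_cast hN
  omega

/-- the data of a side on the segment, `θ` increasing -/
private lemma side_data {C : Set ℂ} {x : ℝ → ℂ} (hx : Rad C x) {a f : ℂ} {α β : ℝ} {θ : ℝ → ℝ}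
    (hmono : StrictMonoOn θ (Icc α β)) (hxθ : ∀ s ∈ Icc α β, x (θ s) = a + (s : ℂ) * f)
    (hpi : ∀ s ∈ Icc α β, ∀ t ∈ Icc α β, |θ s - θ t| < Real.pi) {N : ℕ} (hN : 3 ≤ N) {k : ℕ}
    {s t : ℝ} (hs : s ∈ Icc α β) (ht : t ∈ Icc α β) (hks : a + (s : ℂ) * f = vv x N k)
    (hkt : a + (t : ℂ) * f = vv x N (k + 1)) :
    s < t ∧ ∃ z : ℤ, θ s = 2 * Real.pi * ((k : ℝ) + z * N) / N ∧
      θ t = 2 * Real.pi * ((k : ℝ) + z * N + 1) / N := by
  have hN0 : (0 : ℝ) < N := by exact_mod_cast (by omega : 0 < N)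
  have hN3 : (3 : ℝ) ≤ N := by exact_mod_cast hN
  have hpp := Real.pi_pos
  obtain ⟨z, hz⟩ := x_inj hx ((hxθ s hs).trans hks : x (θ s) = x (2 * Real.pi * k / N))
  obtain ⟨z', hz'⟩ := x_inj hx
    ((hxθ t ht).trans hkt : x (θ t) = x (2 * Real.pi * ((k + 1 : ℕ) : ℝ) / N))
  have hd : θ t - θ s = 2 * Real.pi / N + ((z' - z : ℤ) : ℝ) * (2 * Real.pi) := by
    rw [hz, hz']; push_cast; field_simp; ring
  have hb := hpi t ht s hs
  rw [abs_lt] at hb
  have hq : 2 * Real.pi / N ≤ 2 * Real.pi / 3 := by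
    apply div_le_div_of_nonneg_left (by positivity) (by norm_num) hN3
  have hq0 : 0 < 2 * Real.pi / N := by positivity
  have hzz : z' - z = 0 := by
    rcases lt_trichotomy (z' - z) 0 with h | h | h
    · exfalso
      have h1 : ((z' - z : ℤ) : ℝ) ≤ -1 := by exact_mod_cast (by omega : z' - z ≤ -1)
      nlinarith
    · exact h
    · exfalso
      have h1 : (1 : ℝ) ≤ ((z' - z : ℤ) : ℝ) := by exact_mod_cast (by omega : 1 ≤ z' - z)
      nlinarith
  have hz2 : z' = z := by omega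
  subst hz2
  refine ⟨?_, z', ?_, ?_⟩
  · rw [← hmono.lt_iff_lt hs ht]
    rw [sub_self, Int.cast_zero, zero_mul, add_zero] at hd
    linarith
  · rw [hz]; field_simp
  · rw [hz']; push_cast; field_simp; ring

open Classical in
private lemma arc_sum_mono {C : Set ℂ} {x : ℝ → ℂ} (hx : Rad C x) {a f : ℂ} (hf : ‖f‖ = 1)
    {α β : ℝ} (hαβ : α ≤ β) {θ : ℝ → ℝ}
    (hmono : StrictMonoOn θ (Icc α β)) (hxθ : ∀ s ∈ Icc α β, x (θ s) = a + (s : ℂ) * f)
    (hpi : ∀ s ∈ Icc α β, ∀ t ∈ Icc α β, |θ s - θ t| < Real.pi) {N : ℕ} (hN : 3 ≤ N)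
    {φ : ℂ → ℝ} (hφ : Continuous φ) (hφ0 : ∀ z, 0 ≤ φ z) :
    ∑ k ∈ Finset.range N,
      (if vv x N k ∈ arc a f α β ∧ vv x N (k + 1) ∈ arc a f α β then
        ∫ t in (0 : ℝ)..len (vv x N) k, φ (side (len (vv x N)) (vv x N) k t) else 0) ≤
      ∫ s in α..β, φ (a + (s : ℂ) * f) := by
  have hN0 : (0 : ℝ) < N := by exact_mod_cast (by omega : 0 < N)
  have hpp := Real.pi_pos
  set g : ℝ → ℝ := fun s => φ (a + (s : ℂ) * f) with hg
  have hgc : Continuous g := by
    apply hφ.comp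
    fun_prop
  have hg0 : ∀ s, 0 ≤ g s := fun s => hφ0 _
  let S : ℕ → ℝ := fun k => if h : vv x N k ∈ arc a f α β then h.choose else 0
  have hS : ∀ k, vv x N k ∈ arc a f α β → S k ∈ Icc α β ∧ a + (S k : ℂ) * f = vv x N k := by
    intro k h
    have h1 : S k = h.choose := by simp only [S, dif_pos h]
    rw [h1]
    exact h.choose_spec
  rw [← Finset.sum_filter]
  set T := (Finset.range N).filter fun k => vv x N k ∈ arc a f α β ∧ vv x N (k + 1) ∈ arc a f α β
    with hT
  have hTm : ∀ k ∈ T, k < N ∧ vv x N k ∈ arc a f α β ∧ vv x N (k + 1) ∈ arc a f α β := by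
    intro k hk
    rw [hT, Finset.mem_filter, Finset.mem_range] at hk
    exact hk
  have hdat : ∀ k ∈ T, S k < S (k + 1) ∧ ∃ z : ℤ, θ (S k) = 2 * Real.pi * ((k : ℝ) + z * N) / N ∧
      θ (S (k + 1)) = 2 * Real.pi * ((k : ℝ) + z * N + 1) / N := by
    intro k hk
    obtain ⟨_, h1, h2⟩ := hTm k hk
    exact side_data hx hmono hxθ hpi hN (hS k h1).1 (hS (k + 1) h2).1 (hS k h1).2 (hS (k + 1) h2).2
  have hterm : ∀ k ∈ T, ∫ t in (0 : ℝ)..len (vv x N) k, φ (side (len (vv x N)) (vv x N) k t) =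
      ∫ u in Ioc (S k) (S (k + 1)), g u := by
    intro k hk
    obtain ⟨_, h1, h2⟩ := hTm k hk
    have hlt := (hdat k hk).1
    have hlen : len (vv x N) k = S (k + 1) - S k := by
      unfold len
      rw [← (hS k h1).2, ← (hS (k + 1) h2).2]
      have : a + (S (k + 1) : ℂ) * f - (a + (S k : ℂ) * f) = ((S (k + 1) - S k : ℝ) : ℂ) * f := by
        push_cast; ring
      rw [this, norm_mul, hf, mul_one, Complex.norm_real, Real.norm_eq_abs,
        abs_of_pos (by linarith)]
    have hpos : 0 < len (vv x N) k := by rw [hlen]; linarith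
    have hside : ∀ t : ℝ, φ (side (len (vv x N)) (vv x N) k t) = g (S k + t) := by
      intro t
      simp only [hg, side]
      congr 1
      rw [← (hS k h1).2, ← (hS (k + 1) h2).2]
      have h3 : a + (S (k + 1) : ℂ) * f - (a + (S k : ℂ) * f) =
          ((len (vv x N) k : ℝ) : ℂ) * f := by
        rw [hlen]; push_cast; ring
      rw [h3, ← mul_assoc, ← Complex.ofReal_mul, div_mul_cancel₀ _ hpos.ne']
      push_cast; ring
    simp only [hside]
    rw [intervalIntegral.integral_comp_add_left (fun u => g u), add_zero,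
      intervalIntegral.integral_of_le (by linarith), hlen]
    congr 2
    ring_nf
  rw [Finset.sum_congr rfl hterm]
  have hdisj : Set.Pairwise (↑T : Set ℕ) (Function.onFun Disjoint fun k => Ioc (S k) (S (k + 1))) := by
    intro k hk l hl hkl
    simp only [Function.onFun]
    rw [Set.disjoint_left]
    intro u hu hu'
    have hkT : k ∈ T := hk
    have hlT : l ∈ T := hl
    obtain ⟨hkN, hk1, hk2⟩ := hTm k hkT
    obtain ⟨hlN, hl1, hl2⟩ := hTm l hlT
    obtain ⟨_, z, hz1, hz2⟩ := hdat k hkT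
    obtain ⟨_, z', hz1', hz2'⟩ := hdat l hlT
    have huI : u ∈ Icc α β := ⟨(hS k hk1).1.1.trans hu.1.le, hu.2.trans (hS (k + 1) hk2).1.2⟩
    have e1 : θ (S k) < θ u := hmono (hS k hk1).1 huI hu.1
    have e2 : θ u ≤ θ (S (k + 1)) := hmono.monotoneOn huI (hS (k + 1) hk2).1 hu.2
    have e3 : θ (S l) < θ u := hmono (hS l hl1).1 huI hu'.1
    have e4 : θ u ≤ θ (S (l + 1)) := hmono.monotoneOn huI (hS (l + 1) hl2).1 hu'.2
    rw [hz1] at e1
    rw [hz2] at e2
    rw [hz1'] at e3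
    rw [hz2'] at e4
    have c1 : (k : ℝ) + z * N < (l : ℝ) + z' * N + 1 := by
      have := e1.trans_le e4
      rw [div_lt_div_iff_of_pos_right hN0] at this
      exact lt_of_mul_lt_mul_left this (by positivity)
    have c2 : (l : ℝ) + z' * N < (k : ℝ) + z * N + 1 := by
      have := e3.trans_le e2
      rw [div_lt_div_iff_of_pos_right hN0] at this
      exact lt_of_mul_lt_mul_left this (by positivity)
    have d1 : (k : ℤ) + z * N < (l : ℤ) + z' * N + 1 := by exact_mod_cast c1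
    have d2 : (l : ℤ) + z' * N < (k : ℤ) + z * N + 1 := by exact_mod_cast c2
    have d3 : (k : ℤ) + z * N = (l : ℤ) + z' * N := by omega
    have d4 : (k : ℤ) - l = (z' - z) * N := by linarith
    have d5 : z' - z = 0 := by
      rcases lt_trichotomy (z' - z) 0 with h | h | h
      · exfalso
        have : (z' - z) * (N : ℤ) ≤ -1 * N := by
          apply mul_le_mul_of_nonneg_right (by omega) (by positivity)
        omega
      · exact h
      · exfalso
        have : 1 * (N : ℤ) ≤ (z' - z) * N := by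
          apply mul_le_mul_of_nonneg_right (by omega) (by positivity)
        omega
    rw [d5, zero_mul] at d4
    exact hkl (by omega)
  rw [← integral_biUnion_finset T (fun k _ => measurableSet_Ioc) hdisj
    (fun k _ => (hgc.integrableOn_Icc (a := S k) (b := S (k + 1))).mono_set Ioc_subset_Icc_self),
    intervalIntegral.integral_of_le hαβ]
  apply setIntegral_mono_set ((hgc.integrableOn_Icc (a := α) (b := β)).mono_set Ioc_subset_Icc_self)
  · exact Filter.Eventually.of_forall fun u => hg0 u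
  · apply LE.le.eventuallyLE
    intro u hu
    simp only [Set.mem_iUnion] at hu
    obtain ⟨k, hk, hu⟩ := hu
    obtain ⟨hkN, hk1, hk2⟩ := hTm k hk
    exact ⟨(hS k hk1).1.1.trans_lt hu.1, hu.2.trans (hS (k + 1) hk2).1.2⟩

private lemma arc_neg (a f : ℂ) (α β : ℝ) : arc a (-f) (-β) (-α) = arc a f α β := by
  ext z
  simp only [arc, Set.mem_image, Set.mem_Icc]
  constructor
  · rintro ⟨s, ⟨h1, h2⟩, rfl⟩
    exact ⟨-s, ⟨by linarith, by linarith⟩, by push_cast; ring⟩
  · rintro ⟨s, ⟨h1, h2⟩, rfl⟩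
    exact ⟨-s, ⟨by linarith, by linarith⟩, by push_cast; ring⟩

open Classical in
theorem arc_sum {C : Set ℂ} {x : ℝ → ℂ} (hx : Rad C x) {a f : ℂ} (hf : ‖f‖ = 1) {α β : ℝ}
    (hαβ : α ≤ β) (hfr : ∀ s ∈ Icc α β, a + (s : ℂ) * f ∈ frontier C) {N : ℕ} (hN : 3 ≤ N)
    {φ : ℂ → ℝ} (hφ : Continuous φ) (hφ0 : ∀ z, 0 ≤ φ z) :
    ∑ k ∈ Finset.range N,
      (if vv x N k ∈ arc a f α β ∧ vv x N (k + 1) ∈ arc a f α β then
        ∫ t in (0 : ℝ)..len (vv x N) k, φ (side (len (vv x N)) (vv x N) k t) else 0) ≤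
      ∫ s in α..β, φ (a + (s : ℂ) * f) := by
  rcases hαβ.eq_or_lt with h | h
  · subst h
    rw [intervalIntegral.integral_same]
    apply le_of_eq
    apply Finset.sum_eq_zero
    intro k _
    rw [if_neg]
    rintro ⟨h1, h2⟩
    simp only [arc, Icc_self, image_singleton, mem_singleton_iff] at h1 h2
    exact vv_ne hx hN k (h2.trans h1.symm)
  · obtain ⟨θ, hc, hm, hxθ, hpi⟩ := arc_angle hx hf h hfr
    rcases hm with hm | hm
    · exact arc_sum_mono hx hf hαβ hm hxθ hpi hN hφ hφ0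
    · have hmem : ∀ s, s ∈ Icc (-β) (-α) → -s ∈ Icc α β := by
        intro s hs
        exact ⟨by linarith [hs.2], by linarith [hs.1]⟩
      have key := arc_sum_mono (C := C) (x := x) hx (a := a) (f := -f) (by rw [norm_neg, hf])
        (α := -β) (β := -α) (by linarith) (θ := fun s => θ (-s))
        (fun s hs t ht hst => hm (hmem t ht) (hmem s hs) (by linarith))
        (fun s hs => by rw [hxθ _ (hmem s hs)]; push_cast; ring)
        (fun s hs t ht => hpi _ (hmem s hs) _ (hmem t ht)) hN hφ hφ0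
      rw [arc_neg] at key
      have h2 : ∫ s in (-β)..(-α), φ (a + (s : ℂ) * (-f)) = ∫ s in α..β, φ (a + (s : ℂ) * f) := by
        have h3 := intervalIntegral.integral_comp_neg (a := -β) (b := -α)
          (fun s : ℝ => φ (a + (s : ℂ) * f))
        rw [neg_neg, neg_neg] at h3
        rw [← h3]
        congr 1
        funext s
        congr 1
        push_cast; ring
      rw [h2] at key
      exact key

open Classical in
private lemma arc_lim_mono {C : Set ℂ} {x : ℝ → ℂ} (hx : Rad C x) {a f : ℂ} (hf : ‖f‖ = 1)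
    {α β : ℝ} (hαβ : α < β) {θ : ℝ → ℝ} (hc : ContinuousOn θ (Icc α β))
    (hmono : StrictMonoOn θ (Icc α β)) (hxθ : ∀ s ∈ Icc α β, x (θ s) = a + (s : ℂ) * f)
    (hpi : ∀ s ∈ Icc α β, ∀ t ∈ Icc α β, |θ s - θ t| < Real.pi) {δ : ℝ} (hδ : 0 < δ) :
    ∀ᶠ N : ℕ in atTop, β - α - δ ≤ ∑ k ∈ Finset.range N,
      (if vv x N k ∈ arc a f α β ∧ vv x N (k + 1) ∈ arc a f α β then len (vv x N) k else 0) := by
  have hpp := Real.pi_pos
  obtain ⟨e, he0, he1, he2⟩ : ∃ e : ℝ, 0 < e ∧ e ≤ δ / 2 ∧ e ≤ (β - α) / 2 :=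
    ⟨min (δ / 2) ((β - α) / 2), lt_min (by linarith) (by linarith), min_le_left _ _,
      min_le_right _ _⟩
  have hαI : α ∈ Icc α β := ⟨le_refl _, hαβ.le⟩
  have hβI : β ∈ Icc α β := ⟨hαβ.le, le_refl _⟩
  have hαe : α + e ∈ Icc α β := ⟨by linarith, by linarith⟩
  have hβe : β - e ∈ Icc α β := ⟨by linarith, by linarith⟩
  have hη1 : 0 < θ (α + e) - θ α := by
    have := hmono hαI hαe (by linarith : α < α + e); linarith
  have hη2 : 0 < θ β - θ (β - e) := by
    have := hmono hβe hβI (by linarith : β - e < β); linarith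
  have hle : θ (α + e) ≤ θ (β - e) := hmono.monotoneOn hαe hβe (by linarith)
  have hlim := tendsto_const_div_atTop_nhds_zero_nat (2 * Real.pi)
  have ev1 := hlim.eventually (Iio_mem_nhds hη1)
  have ev2 := hlim.eventually (Iio_mem_nhds hη2)
  filter_upwards [ev1, ev2, eventually_ge_atTop 3] with N h1 h2 hN
  have h1 : 2 * Real.pi / N < θ (α + e) - θ α := h1
  have h2 : 2 * Real.pi / N < θ β - θ (β - e) := h2
  have hN0 : (0 : ℝ) < N := by exact_mod_cast (by omega : 0 < N)
  have hNn : 0 < N := by omega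
  set j₀ : ℤ := ⌈N * θ α / (2 * Real.pi)⌉ with hj₀
  set j₁ : ℤ := ⌊N * θ β / (2 * Real.pi)⌋ with hj₁
  have a1 : θ α ≤ 2 * Real.pi * j₀ / N := by
    have := Int.le_ceil (N * θ α / (2 * Real.pi))
    rw [← hj₀, div_le_iff₀ (by positivity)] at this
    rw [le_div_iff₀ hN0]
    linarith
  have a2 : 2 * Real.pi * j₀ / N < θ (α + e) := by
    have := Int.ceil_lt_add_one (N * θ α / (2 * Real.pi))
    rw [← hj₀] at this
    have h3 : 2 * Real.pi * j₀ / N < 2 * Real.pi * (N * θ α / (2 * Real.pi) + 1) / N := by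
      rw [div_lt_div_iff_of_pos_right hN0]
      exact mul_lt_mul_of_pos_left this (by positivity)
    have h4 : 2 * Real.pi * (N * θ α / (2 * Real.pi) + 1) / N = θ α + 2 * Real.pi / N := by
      field_simp
    rw [h4] at h3
    linarith
  have b1 : 2 * Real.pi * j₁ / N ≤ θ β := by
    have := Int.floor_le (N * θ β / (2 * Real.pi))
    rw [← hj₁, le_div_iff₀ (by positivity)] at this
    rw [div_le_iff₀ hN0]
    linarith
  have b2 : θ (β - e) < 2 * Real.pi * j₁ / N := by
    have := Int.lt_floor_add_one (N * θ β / (2 * Real.pi))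
    rw [← hj₁] at this
    have h3 : 2 * Real.pi * (N * θ β / (2 * Real.pi)) / N < 2 * Real.pi * (j₁ + 1) / N := by
      rw [div_lt_div_iff_of_pos_right hN0]
      exact mul_lt_mul_of_pos_left this (by positivity)
    have h4 : 2 * Real.pi * (N * θ β / (2 * Real.pi)) / N = θ β := by
      field_simp
    have h5 : 2 * Real.pi * ((j₁ : ℝ) + 1) / N = 2 * Real.pi * j₁ / N + 2 * Real.pi / N := by
      ring
    rw [h4, h5] at h3
    linarith
  have hlt : (j₀ : ℝ) < j₁ := by
    have h3 : 2 * Real.pi * j₀ / N < 2 * Real.pi * j₁ / N := by linarith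
    rw [div_lt_div_iff_of_pos_right hN0] at h3
    exact lt_of_mul_lt_mul_left h3 (by positivity)
  have hlt' : j₀ < j₁ := by exact_mod_cast hlt
  obtain ⟨n, hn⟩ : ∃ n : ℕ, j₁ = j₀ + n := ⟨(j₁ - j₀).toNat, by omega⟩
  have hnN : n ≤ N := by
    have h3 := hpi β hβI α hαI
    rw [abs_lt] at h3
    have h4 : 2 * Real.pi * j₁ / N - 2 * Real.pi * j₀ / N < Real.pi := by linarith
    have h5 : 2 * Real.pi * j₁ / N - 2 * Real.pi * j₀ / N = 2 * Real.pi * n / N := by
      rw [hn]; push_cast; ring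
    rw [h5, div_lt_iff₀ hN0] at h4
    have h6 : 2 * (n : ℝ) < N := by nlinarith
    have h7 : (n : ℝ) ≤ N := by
      have : (0 : ℝ) ≤ n := Nat.cast_nonneg n
      linarith
    exact_mod_cast h7
  -- the preimages
  have hex : ∀ i : ℕ, i ≤ n → ∃ s ∈ Icc α β, θ s = 2 * Real.pi * (j₀ + i : ℤ) / N := by
    intro i hi
    have hin : (2 * Real.pi * (j₀ + i : ℤ) / N : ℝ) ∈ Icc (θ α) (θ β) := by
      constructor
      · refine a1.trans ?_
        apply div_le_div_of_nonneg_right _ hN0.le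
        apply mul_le_mul_of_nonneg_left _ (by positivity)
        push_cast
        have : (0 : ℝ) ≤ i := Nat.cast_nonneg i
        linarith
      · refine le_trans ?_ b1
        apply div_le_div_of_nonneg_right _ hN0.le
        apply mul_le_mul_of_nonneg_left _ (by positivity)
        rw [hn]
        push_cast
        have : (i : ℝ) ≤ n := by exact_mod_cast hi
        linarith
    obtain ⟨s, hs, hs'⟩ := intermediate_value_Icc hαβ.le hc hin
    exact ⟨s, hs, hs'⟩
  choose! t ht1 ht2 using hex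
  have hmon : ∀ i, i < n → t i < t (i + 1) := by
    intro i hi
    rw [← hmono.lt_iff_lt (ht1 i hi.le) (ht1 (i + 1) hi), ht2 i hi.le, ht2 (i + 1) hi,
      div_lt_div_iff_of_pos_right hN0]
    apply mul_lt_mul_of_pos_left _ (by positivity)
    push_cast
    linarith
  -- indices modulo N
  let κ : ℕ → ℕ := fun i => ((j₀ + i) % (N : ℤ)).toNat
  have hκ : ∀ i : ℕ, ((κ i : ℕ) : ℤ) = (j₀ + i) % (N : ℤ) := fun i => by
    simp only [κ]
    rw [Int.toNat_of_nonneg (Int.emod_nonneg _ (by exact_mod_cast hNn.ne'))]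
  have hκlt : ∀ i, κ i < N := by
    intro i
    have := Int.emod_lt_of_pos (j₀ + i) (by exact_mod_cast hNn : (0 : ℤ) < N)
    rw [← hκ i] at this
    exact_mod_cast this
  have hκinj : Set.InjOn κ (↑(Finset.range n) : Set ℕ) := by
    intro i hi l hl hil
    rw [Finset.coe_range, Set.mem_Iio] at hi hl
    have h3 : (j₀ + i) % (N : ℤ) = (j₀ + l) % (N : ℤ) := by rw [← hκ i, ← hκ l, hil]
    have h4 : (N : ℤ) ∣ (j₀ + l) - (j₀ + i) := Int.ModEq.dvd h3
    obtain ⟨w, hw⟩ := h4
    have h5 : (l : ℤ) - i = N * w := by linarith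
    have h6 : w = 0 := by
      rcases lt_trichotomy w 0 with h | h | h
      · exfalso
        have : (N : ℤ) * w ≤ N * (-1) := mul_le_mul_of_nonneg_left (by omega) (by positivity)
        omega
      · exact h
      · exfalso
        have : (N : ℤ) * 1 ≤ N * w := mul_le_mul_of_nonneg_left (by omega) (by positivity)
        omega
    rw [h6, mul_zero] at h5
    omega
  have hvk : ∀ i, i ≤ n → ∀ c : ℕ, (c : ℤ) = (j₀ + i) - N * ((j₀ + i - c) / N) →
      (N : ℤ) ∣ (j₀ + i - c) → vv x N c = a + (t i : ℂ) * f := by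
    intro i hi c _ hdvd
    obtain ⟨w, hw⟩ := hdvd
    rw [← hxθ _ (ht1 i hi), ht2 i hi]
    unfold vv
    have h3 : (2 * Real.pi * (j₀ + i : ℤ) / N : ℝ) = 2 * Real.pi * c / N + w * (2 * Real.pi) := by
      have h4 : (j₀ + i : ℤ) = c + N * w := by linarith
      rw [h4]; push_cast; field_simp
    rw [h3, x_int hx]
  have hv1 : ∀ i, i ≤ n → vv x N (κ i) = a + (t i : ℂ) * f := by
    intro i hi
    have hd : (N : ℤ) ∣ (j₀ + i - κ i) := by
      rw [hκ i]
      exact Int.dvd_self_sub_emod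
    apply hvk i hi (κ i) _ hd
    rw [Int.mul_ediv_cancel' hd]; ring
  have hv2 : ∀ i, i < n → vv x N (κ i + 1) = a + (t (i + 1) : ℂ) * f := by
    intro i hi
    have hd : (N : ℤ) ∣ (j₀ + ((i + 1 : ℕ) : ℤ) - ((κ i + 1 : ℕ) : ℤ)) := by
      have : (N : ℤ) ∣ (j₀ + i - κ i) := by
        rw [hκ i]
        exact Int.dvd_self_sub_emod
      have h3 : (j₀ + ((i + 1 : ℕ) : ℤ) - ((κ i + 1 : ℕ) : ℤ)) = j₀ + i - κ i := by
        push_cast; ring
      rw [h3]; exact this
    apply hvk (i + 1) hi (κ i + 1) _ hd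
    rw [Int.mul_ediv_cancel' hd]; ring
  set F : ℕ → ℝ := fun k =>
    if vv x N k ∈ arc a f α β ∧ vv x N (k + 1) ∈ arc a f α β then len (vv x N) k else 0 with hF
  have hF0 : ∀ k, 0 ≤ F k := by
    intro k
    simp only [hF]
    split_ifs
    · exact norm_nonneg _
    · exact le_refl _
  have hFκ : ∀ i ∈ Finset.range n, F (κ i) = t (i + 1) - t i := by
    intro i hi
    rw [Finset.mem_range] at hi
    have m1 : vv x N (κ i) ∈ arc a f α β := ⟨t i, ht1 i hi.le, (hv1 i hi.le).symm⟩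
    have m2 : vv x N (κ i + 1) ∈ arc a f α β := ⟨t (i + 1), ht1 (i + 1) hi, (hv2 i hi).symm⟩
    simp only [hF]
    rw [if_pos ⟨m1, m2⟩]
    unfold len
    rw [hv1 i hi.le, hv2 i hi]
    have : a + (t (i + 1) : ℂ) * f - (a + (t i : ℂ) * f) = ((t (i + 1) - t i : ℝ) : ℂ) * f := by
      push_cast; ring
    rw [this, norm_mul, hf, mul_one, Complex.norm_real, Real.norm_eq_abs,
      abs_of_pos (by linarith [hmon i hi])]
  have hsum : ∑ i ∈ Finset.range n, F (κ i) = t n - t 0 := by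
    rw [Finset.sum_congr rfl hFκ, Finset.sum_range_sub]
  have hle2 : ∑ i ∈ Finset.range n, F (κ i) ≤ ∑ k ∈ Finset.range N, F k := by
    rw [← Finset.sum_image hκinj]
    apply Finset.sum_le_sum_of_subset_of_nonneg
    · intro k hk
      rw [Finset.mem_image] at hk
      obtain ⟨i, _, rfl⟩ := hk
      exact Finset.mem_range.2 (hκlt i)
    · intro k _ _
      exact hF0 k
  have ht0 : t 0 ≤ α + e := by
    rw [← hmono.le_iff_le (ht1 0 (Nat.zero_le _)) hαe, ht2 0 (Nat.zero_le _)]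
    push_cast
    rw [add_zero]
    exact a2.le
  have htn : β - e ≤ t n := by
    rw [← hmono.le_iff_le hβe (ht1 n (le_refl _)), ht2 n (le_refl _), ← hn]
    exact b2.le
  calc β - α - δ ≤ t n - t 0 := by linarith
    _ = ∑ i ∈ Finset.range n, F (κ i) := hsum.symm
    _ ≤ ∑ k ∈ Finset.range N, F k := hle2

open Classical in
theorem arc_lim {C : Set ℂ} {x : ℝ → ℂ} (hx : Rad C x) {a f : ℂ} (hf : ‖f‖ = 1) {α β : ℝ}
    (hαβ : α ≤ β) (hfr : ∀ s ∈ Icc α β, a + (s : ℂ) * f ∈ frontier C) {δ : ℝ} (hδ : 0 < δ) :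
    ∀ᶠ N : ℕ in atTop, β - α - δ ≤ ∑ k ∈ Finset.range N,
      (if vv x N k ∈ arc a f α β ∧ vv x N (k + 1) ∈ arc a f α β then len (vv x N) k else 0) := by
  rcases hαβ.eq_or_lt with h | h
  · subst h
    refine Filter.Eventually.of_forall fun N => ?_
    have h1 : 0 ≤ ∑ k ∈ Finset.range N,
        (if vv x N k ∈ arc a f α α ∧ vv x N (k + 1) ∈ arc a f α α then len (vv x N) k else 0) := by
      apply Finset.sum_nonneg
      intro k _
      split_ifs
      · exact norm_nonneg _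
      · exact le_refl _
    linarith
  · obtain ⟨θ, hc, hm, hxθ, hpi⟩ := arc_angle hx hf h hfr
    rcases hm with hm | hm
    · exact arc_lim_mono hx hf h hc hm hxθ hpi hδ
    · have hmem : ∀ s, s ∈ Icc (-β) (-α) → -s ∈ Icc α β := by
        intro s hs
        exact ⟨by linarith [hs.2], by linarith [hs.1]⟩
      have key := arc_lim_mono (C := C) (x := x) hx (a := a) (f := -f) (by rw [norm_neg, hf])
        (α := -β) (β := -α) (by linarith) (θ := fun s => θ (-s))
        (hc.comp continuousOn_neg hmem)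
        (fun s hs t ht hst => hm (hmem t ht) (hmem s hs) (by linarith))
        (fun s hs => by rw [hxθ _ (hmem s hs)]; push_cast; ring)
        (fun s hs t ht => hpi _ (hmem s hs) _ (hmem t ht)) hδ
      rw [arc_neg] at key
      filter_upwards [key] with N hNk
      linarith

end Pool.Agent.Helper83.CP
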