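import Pool.Agent.Helper83.CP.Defs

/-!
# Project CP (helper83), module Slice
The distribution of a coordinate on the unit ball of `E3`: the slice `{⟪g,e⟫ = s}` of the unit ball is a disc of area `π(1-s²)`.
Rotate `e` to a coordinate axis (an isometry preserves the volume, e.g. via an orthonormal basis containing `e`, or use the orthogonal decomposition `ℝ e ⊕ eᗮ`); area of a disc: `Complex.volume_ball` / `EuclideanSpace.volume_ball_fin_two`.
-/

set_option autoImplicit false

open MeasureTheory Set Filter Topology Metric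
open scoped RealInnerProductSpace ENNReal NNReal

namespace Pool.Agent.Helper83.CP

open Pool.Agent.Helper1.CK (E3 nEnergy V1 Content Good)

private theorem exists_basis {e : E3} (he : ‖e‖ = 1) :
    ∃ b : OrthonormalBasis (Fin 3) ℝ E3, b 0 = e := by
  have h := Orthonormal.exists_orthonormalBasis_extension_of_card_eq (𝕜 := ℝ) (E := E3)
    (ι := Fin 3) (by simp) (v := fun _ => e) (s := {0}) (by
      constructor
      · intro i; simpa using he
      · intro i j hij
        exact absurd (Subsingleton.elim i j) hij)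
  obtain ⟨b, hb⟩ := h
  exact ⟨b, hb 0 rfl⟩

private theorem disc (c : ℝ) :
    volume {y : Fin 2 → ℝ | ∑ i, y i ^ 2 < c} = ENNReal.ofReal (Real.pi * c) := by
  have h1 : {y : Fin 2 → ℝ | ∑ i, y i ^ 2 < c} =
      (MeasurableEquiv.toLp 2 (Fin 2 → ℝ)) ⁻¹' (ball (0 : EuclideanSpace ℝ (Fin 2)) (√c)) := by
    ext y
    rw [mem_preimage, mem_ball_zero_iff, EuclideanSpace.norm_eq]
    rcases le_or_gt c 0 with hc | hc
    · rw [Real.sqrt_eq_zero_of_nonpos hc]
      constructor
      · intro h
        exact absurd (lt_of_lt_of_le h hc)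
          (not_lt.2 (Finset.sum_nonneg fun i _ => sq_nonneg _))
      · intro h
        exact absurd h (not_lt.2 (Real.sqrt_nonneg _))
    · rw [Real.sqrt_lt_sqrt_iff (Finset.sum_nonneg fun i _ => by positivity)]
      simp
  have h2 : volume ((MeasurableEquiv.toLp 2 (Fin 2 → ℝ)) ⁻¹'
      (ball (0 : EuclideanSpace ℝ (Fin 2)) (√c))) = volume (ball (0 : EuclideanSpace ℝ (Fin 2)) (√c)) :=
    ((EuclideanSpace.volume_preserving_symm_measurableEquiv_toLp (Fin 2)).symm).measure_preimage
      measurableSet_ball.nullMeasurableSet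
  rw [h1, h2, EuclideanSpace.volume_ball_fin_two,
    ENNReal.ofReal_mul Real.pi_pos.le, mul_comm]
  congr 1
  rcases le_or_gt c 0 with hc | hc
  · rw [Real.sqrt_eq_zero_of_nonpos hc, ENNReal.ofReal_of_nonpos hc]; simp
  · rw [← ENNReal.ofReal_pow (Real.sqrt_nonneg _), Real.sq_sqrt hc.le]

theorem slice {e : E3} (he : ‖e‖ = 1) {F : ℝ → ℝ≥0∞} (hF : Measurable F) :
    ∫⁻ g in ball (0 : E3) 1, F ⟪g, e⟫ =
      ∫⁻ s in Ioo (-1 : ℝ) 1, F s * ENNReal.ofReal (Real.pi * (1 - s ^ 2)) := by
  obtain ⟨b, hb⟩ := exists_basis he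
  -- the set in coordinates
  set A : Set (ℝ × (Fin 2 → ℝ)) := {p | p.1 ^ 2 + ∑ i, p.2 i ^ 2 < 1} with hA
  have hAm : MeasurableSet A := by
    apply measurableSet_lt _ measurable_const
    fun_prop
  set T : E3 → ℝ × (Fin 2 → ℝ) := fun g =>
    MeasurableEquiv.piFinSuccAbove (fun _ => ℝ) 0 ((MeasurableEquiv.toLp 2 (Fin 3 → ℝ)).symm (b.repr g))
    with hT
  have hTp : MeasurePreserving T volume volume :=
    (volume_preserving_piFinSuccAbove (fun _ : Fin 3 => ℝ) 0).comp
      ((EuclideanSpace.volume_preserving_symm_measurableEquiv_toLp (Fin 3)).comp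
        b.measurePreserving_repr)
  have hT1 : ∀ g, (T g).1 = ⟪g, e⟫ := by
    intro g
    have : (T g).1 = b.repr g 0 := rfl
    rw [this, b.repr_apply_apply, hb, real_inner_comm]
  have hT2 : ∀ g, ∀ i : Fin 2, (T g).2 i = b.repr g i.succ := by
    intro g i
    rfl
  have hball : ∀ g : E3, g ∈ ball (0 : E3) 1 ↔ T g ∈ A := by
    intro g
    rw [mem_ball_zero_iff, hA, mem_setOf_eq]
    have h1 : (T g).1 ^ 2 + ∑ i, (T g).2 i ^ 2 = ‖g‖ ^ 2 := by
      have h2 : (T g).1 = b.repr g 0 := rfl
      have h3 : ‖g‖ ^ 2 = ∑ i : Fin 3, (b.repr g i) ^ 2 := by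
        rw [← LinearIsometryEquiv.norm_map b.repr g, EuclideanSpace.norm_sq_eq]
        simp only [Real.norm_eq_abs, sq_abs]
      rw [h3, h2, Fin.sum_univ_succ (n := 2)]
      simp only [hT2]
    rw [h1]
    constructor
    · intro h; nlinarith [norm_nonneg g]
    · intro h; nlinarith [norm_nonneg g]
  have e1 : ∫⁻ g in ball (0 : E3) 1, F ⟪g, e⟫ = ∫⁻ g, A.indicator (fun p => F p.1) (T g) := by
    rw [← lintegral_indicator measurableSet_ball]
    apply lintegral_congr
    intro g
    by_cases hg : g ∈ ball (0 : E3) 1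
    · rw [indicator_of_mem hg, indicator_of_mem ((hball g).1 hg), hT1]
    · rw [indicator_of_notMem hg, indicator_of_notMem (fun h => hg ((hball g).2 h))]
  have hmeas : Measurable (A.indicator (fun p => F p.1)) :=
    (hF.comp measurable_fst).indicator hAm
  rw [e1, hTp.lintegral_comp hmeas]
  change ∫⁻ a : ℝ × (Fin 2 → ℝ), A.indicator (fun p => F p.1) a ∂((volume : Measure ℝ).prod volume) = _
  rw [lintegral_prod _ hmeas.aemeasurable, ← lintegral_indicator measurableSet_Ioo]
  apply lintegral_congr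
  intro s
  have e2 : ∀ y : Fin 2 → ℝ, A.indicator (fun p => F p.1) (s, y) =
      {y : Fin 2 → ℝ | ∑ i, y i ^ 2 < 1 - s ^ 2}.indicator (fun _ => F s) y := by
    intro y
    by_cases hy : (s, y) ∈ A
    · rw [indicator_of_mem hy, indicator_of_mem]
      rw [mem_setOf_eq]
      have : s ^ 2 + ∑ i, y i ^ 2 < 1 := hy
      linarith
    · rw [indicator_of_notMem hy, indicator_of_notMem]
      intro h
      apply hy
      rw [mem_setOf_eq] at h
      change s ^ 2 + ∑ i, y i ^ 2 < 1
      linarith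
  simp only [e2]
  have hm2 : MeasurableSet {y : Fin 2 → ℝ | ∑ i, y i ^ 2 < 1 - s ^ 2} := by
    apply measurableSet_lt _ measurable_const
    fun_prop
  rw [lintegral_indicator_const hm2, disc]
  by_cases hs : s ∈ Ioo (-1 : ℝ) 1
  · rw [indicator_of_mem hs]
  · rw [indicator_of_notMem hs]
    have : 1 - s ^ 2 ≤ 0 := by
      rw [mem_Ioo, not_and_or, not_lt, not_lt] at hs
      rcases hs with h | h <;> nlinarith
    rw [ENNReal.ofReal_of_nonpos (by nlinarith [Real.pi_pos]), mul_zero]

end Pool.Agent.Helper83.CP
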