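import Pool.Agent.Helper83.CP.Defs
import Pool.Agent.Helper83.CP.Slice

/-!
# Project CP (helper83), module BallKK
Integrals over the unit ball, from `slice` with `e = v/|v|`: `∫_B kk(ε,⟪g,v⟫) dg = ∫_{-1}^1 kk(ε, s|v|) π (1-s²) ds`.
-/

set_option autoImplicit false

open MeasureTheory Set Filter Topology Metric
open scoped RealInnerProductSpace ENNReal NNReal

namespace Pool.Agent.Helper83.CP

open Pool.Agent.Helper1.CK (E3 nEnergy V1 Content Good)

private theorem measurable_kk (ε : ℝ) : Measurable (kk ε) := by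
  unfold kk
  refine Measurable.ite ?_ measurable_const measurable_const
  exact (isOpen_lt (by fun_prop) continuous_const).measurableSet

private theorem ball_eq {v : E3} (hv : v ≠ 0) (ε : ℝ) :
    ∫⁻ g in ball (0 : E3) 1, kk ε ⟪g, v⟫ =
      ∫⁻ s in Ioo (-1 : ℝ) 1, kk ε (‖v‖ * s) * ENNReal.ofReal (Real.pi * (1 - s ^ 2)) := by
  have hv0 : ‖v‖ ≠ 0 := norm_ne_zero_iff.2 hv
  have he : ‖(‖v‖⁻¹ • v : E3)‖ = 1 := by
    rw [norm_smul, norm_inv, norm_norm, inv_mul_cancel₀ hv0]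
  have h := slice he (F := fun s => kk ε (‖v‖ * s))
    ((measurable_kk ε).comp (measurable_const.mul measurable_id))
  rw [← h]
  refine lintegral_congr fun g => ?_
  congr 1
  rw [real_inner_smul_right, ← mul_assoc, mul_inv_cancel₀ hv0, one_mul]

theorem ball_kk_mul {ε : ℝ} (hε : 0 < ε) (v : E3) :
    (∫⁻ g in ball (0 : E3) 1, kk ε ⟪g, v⟫) * ENNReal.ofReal ‖v‖ ≤ ENNReal.ofReal Real.pi := by
  rcases eq_or_ne v 0 with rfl | hv
  · simp
  have hv0 : 0 < ‖v‖ := norm_pos_iff.2 hv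
  have hpi := Real.pi_pos
  rw [ball_eq hv]
  have h1 : ∫⁻ s in Ioo (-1 : ℝ) 1, kk ε (‖v‖ * s) * ENNReal.ofReal (Real.pi * (1 - s ^ 2)) ≤
      ∫⁻ s, (Ioo (-(ε / ‖v‖)) (ε / ‖v‖)).indicator
        (fun _ => ENNReal.ofReal (1 / (2 * ε) * Real.pi)) s := by
    refine (setLIntegral_le_lintegral _ _).trans (lintegral_mono fun s => ?_)
    by_cases hs : |‖v‖ * s| < ε
    · have h2 : s ∈ Ioo (-(ε / ‖v‖)) (ε / ‖v‖) := by
        rw [abs_mul, abs_of_pos hv0] at hs
        have h3 : |s| < ε / ‖v‖ := by rwa [lt_div_iff₀ hv0, mul_comm]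
        exact abs_lt.1 h3
      rw [indicator_of_mem h2]
      unfold kk
      have h5 : ENNReal.ofReal (1 / (2 * ε) * Real.pi) =
          ENNReal.ofReal (1 / (2 * ε)) * ENNReal.ofReal Real.pi :=
        ENNReal.ofReal_mul (by positivity)
      rw [if_pos hs, h5]
      refine mul_le_mul_right (ENNReal.ofReal_le_ofReal ?_) _
      nlinarith [sq_nonneg s]
    · unfold kk
      rw [if_neg hs, zero_mul]
      exact bot_le
  refine (mul_le_mul_left h1 _).trans ?_
  have h6 : ε / ‖v‖ - -(ε / ‖v‖) = 2 * (ε / ‖v‖) := by ring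
  rw [lintegral_indicator_const measurableSet_Ioo, Real.volume_Ioo, h6,
    ← ENNReal.ofReal_mul (by positivity), ← ENNReal.ofReal_mul (by positivity)]
  refine ENNReal.ofReal_le_ofReal (le_of_eq ?_)
  field_simp

theorem ball_kk_liminf (v : E3) :
    ENNReal.ofReal Real.pi * (‖v‖ₑ)⁻¹ ≤
      liminf (fun k => ∫⁻ g in ball (0 : E3) 1, kk (ek k) ⟪g, v⟫) atTop := by
  have hek : ∀ k, 0 < ek k := fun k => by unfold ek; positivity
  have hek0 : Tendsto ek atTop (𝓝 0) := tendsto_one_div_add_atTop_nhds_zero_nat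
  have hpi := Real.pi_pos
  rcases eq_or_ne v 0 with rfl | hv
  · -- both sides are infinite
    have h1 : ∀ k, ∫⁻ g in ball (0 : E3) 1, kk (ek k) ⟪g, (0 : E3)⟫ =
        ENNReal.ofReal (((k : ℝ) + 1) / 2) * volume (ball (0 : E3) 1) := by
      intro k
      have h2 : ∀ g : E3, kk (ek k) ⟪g, (0 : E3)⟫ = ENNReal.ofReal (((k : ℝ) + 1) / 2) := by
        intro g
        unfold kk
        rw [inner_zero_right, abs_zero, if_pos (hek k)]
        congr 1
        unfold ek
        field_simp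
      simp only [h2]
      rw [lintegral_const, Measure.restrict_apply_univ]
    simp only [h1]
    have h3 : Tendsto (fun k : ℕ => ENNReal.ofReal (((k : ℝ) + 1) / 2) *
        volume (ball (0 : E3) 1)) atTop (𝓝 (⊤ * volume (ball (0 : E3) 1))) := by
      refine ENNReal.Tendsto.mul_const ?_ (Or.inl ENNReal.top_ne_zero)
      refine ENNReal.tendsto_ofReal_atTop.comp ?_
      refine Tendsto.atTop_div_const (by norm_num) ?_
      exact tendsto_atTop_add_const_right _ _ tendsto_natCast_atTop_atTop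
    rw [h3.liminf_eq, ENNReal.top_mul (measure_ball_pos volume (0 : E3) one_pos).ne']
    exact le_top
  have hv0 : 0 < ‖v‖ := norm_pos_iff.2 hv
  have h1 : ∀ᶠ k in atTop, ENNReal.ofReal (Real.pi / ‖v‖ * (1 - (ek k / ‖v‖) ^ 2)) ≤
      ∫⁻ g in ball (0 : E3) 1, kk (ek k) ⟪g, v⟫ := by
    have h2 : ∀ᶠ k in atTop, ek k < ‖v‖ := hek0.eventually_lt_const hv0
    filter_upwards [h2] with k hk
    rw [ball_eq hv]
    set ε := ek k with hεd
    have hε : 0 < ε := hek k
    have hr : ε / ‖v‖ < 1 := (div_lt_one hv0).2 hk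
    have hr0 : 0 < ε / ‖v‖ := by positivity
    have h3 : ∫⁻ s in Ioo (-(ε / ‖v‖)) (ε / ‖v‖),
        ENNReal.ofReal (1 / (2 * ε) * (Real.pi * (1 - (ε / ‖v‖) ^ 2))) ≤
        ∫⁻ s in Ioo (-1 : ℝ) 1, kk ε (‖v‖ * s) * ENNReal.ofReal (Real.pi * (1 - s ^ 2)) := by
      have hsub : Ioo (-(ε / ‖v‖)) (ε / ‖v‖) ⊆ Ioo (-1 : ℝ) 1 := by
        intro s hs
        exact ⟨by linarith [hs.1], by linarith [hs.2]⟩
      refine le_trans ?_ (lintegral_mono_set hsub)
      refine setLIntegral_mono' measurableSet_Ioo fun s hs => ?_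
      have h4 : |s| < ε / ‖v‖ := abs_lt.2 hs
      have h5 : |‖v‖ * s| < ε := by
        rw [abs_mul, abs_of_pos hv0, mul_comm]
        exact (lt_div_iff₀ hv0).1 h4
      unfold kk
      rw [if_pos h5, ENNReal.ofReal_mul (by positivity)]
      refine mul_le_mul_right (ENNReal.ofReal_le_ofReal ?_) _
      have h6 : s ^ 2 ≤ (ε / ‖v‖) ^ 2 := by
        rw [← sq_abs s]
        exact pow_le_pow_left₀ (abs_nonneg _) h4.le 2
      exact mul_le_mul_of_nonneg_left (by linarith) hpi.le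
    refine le_trans (le_of_eq ?_) h3
    rw [setLIntegral_const, Real.volume_Ioo]
    have h7 : 0 ≤ 1 - (ε / ‖v‖) ^ 2 := by nlinarith
    rw [← ENNReal.ofReal_mul (by positivity)]
    congr 1
    field_simp
    ring
  have h2 : Tendsto (fun k => ENNReal.ofReal (Real.pi / ‖v‖ * (1 - (ek k / ‖v‖) ^ 2))) atTop
      (𝓝 (ENNReal.ofReal (Real.pi / ‖v‖ * (1 - (0 / ‖v‖) ^ 2)))) := by
    refine (ENNReal.continuous_ofReal.tendsto _).comp ?_
    exact tendsto_const_nhds.mul (tendsto_const_nhds.sub ((hek0.div_const _).pow 2))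
  have h3 : ENNReal.ofReal Real.pi * (‖v‖ₑ)⁻¹ =
      ENNReal.ofReal (Real.pi / ‖v‖ * (1 - (0 / ‖v‖) ^ 2)) := by
    rw [← ofReal_norm, ← ENNReal.ofReal_inv_of_pos hv0, ← ENNReal.ofReal_mul hpi.le]
    congr 1
    simp [div_eq_mul_inv]
  rw [h3, ← h2.liminf_eq]
  exact liminf_le_liminf h1

end Pool.Agent.Helper83.CP
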