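import Pool.Agent.Helper83.CP.Defs

/-!
# Project CP (helper83), module BallRR
`rr g n` is the distance of `g` to the axis `ℝ n`: on the slice of the unit ball at height `z`, `∫ dA/ρ = 2π √(1-z²)` (polar coordinates in the plane), and `∫_{-1}^1 2π√(1-z²) dz = π²`.
Rotate `n` to a coordinate axis (isometry) and use Fubini on `ℝ × ℝ²` and polar coordinates (`lintegral_comp_polarCoord_symm` or similar).
-/

set_option autoImplicit false

open MeasureTheory Set Filter Topology Metric
open scoped RealInnerProductSpace ENNReal NNReal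

namespace Pool.Agent.Helper83.CP

open Pool.Agent.Helper1.CK (E3 nEnergy V1 Content Good)

private theorem exists_basisRR {e : E3} (he : ‖e‖ = 1) :
    ∃ b : OrthonormalBasis (Fin 3) ℝ E3, b 0 = e := by
  have h := Orthonormal.exists_orthonormalBasis_extension_of_card_eq (𝕜 := ℝ) (E := E3)
    (ι := Fin 3) (by simp) (v := fun _ => e) (s := {0}) (by
      constructor
      · intro i; simpa using he
      · intro i j hij
        exact absurd (Subsingleton.elim i j) hij)
  obtain ⟨b, hb⟩ := h
  exact ⟨b, hb 0 rfl⟩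

/-- the integral of the inverse distance to the origin over a disc -/
private theorem planeRR (c : ℝ) :
    ∫⁻ p : ℝ × ℝ, {p : ℝ × ℝ | p.1 ^ 2 + p.2 ^ 2 < c}.indicator
        (fun p => ENNReal.ofReal (√(p.1 ^ 2 + p.2 ^ 2))⁻¹) p
      ≤ ENNReal.ofReal (2 * Real.pi * √c) := by
  rw [← lintegral_comp_polarCoord_symm]
  calc _ ≤ ∫⁻ p in polarCoord.target, (Ioo 0 (√c) ×ˢ Ioo (-Real.pi) Real.pi).indicator
          (fun _ => (1 : ℝ≥0∞)) p := by
        apply setLIntegral_mono' polarCoord.open_target.measurableSet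
        rintro ⟨r, θ⟩ hp
        rw [polarCoord_target, mem_prod] at hp
        have hr : 0 < r := hp.1
        have hθ : θ ∈ Ioo (-Real.pi) Real.pi := hp.2
        have hs : (polarCoord.symm (r, θ)).1 ^ 2 + (polarCoord.symm (r, θ)).2 ^ 2 = r ^ 2 := by
          rw [polarCoord_symm_apply]
          dsimp only
          rw [mul_pow, mul_pow, ← mul_add, Real.cos_sq_add_sin_sq, mul_one]
        by_cases hc : r ^ 2 < c
        · have hm : (r, θ) ∈ Ioo 0 (√c) ×ˢ Ioo (-Real.pi) Real.pi :=
            mem_prod.2 ⟨⟨hr, Real.lt_sqrt_of_sq_lt hc⟩, hθ⟩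
          rw [indicator_of_mem (by rw [mem_ofPred_eq, hs]; exact hc), indicator_of_mem hm, hs,
            Real.sqrt_sq hr.le, smul_eq_mul, ← ENNReal.ofReal_mul hr.le, mul_inv_cancel₀ hr.ne',
            ENNReal.ofReal_one]
        · rw [indicator_of_notMem (by rw [mem_ofPred_eq, hs]; exact hc), smul_zero]
          exact zero_le
    _ ≤ ∫⁻ p, (Ioo 0 (√c) ×ˢ Ioo (-Real.pi) Real.pi).indicator (fun _ => (1 : ℝ≥0∞)) p :=
        setLIntegral_le_lintegral _ _
    _ = ENNReal.ofReal (2 * Real.pi * √c) := by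
        rw [lintegral_indicator_const (measurableSet_Ioo.prod measurableSet_Ioo), one_mul,
          Measure.volume_eq_prod, Measure.prod_prod, Real.volume_Ioo, Real.volume_Ioo,
          ← ENNReal.ofReal_mul (by simp)]
        congr 1
        ring

theorem ball_rr {n : E3} (hn : ‖n‖ = 1) :
    ∫⁻ g in ball (0 : E3) 1, ENNReal.ofReal (rr g n)⁻¹ ≤ ENNReal.ofReal (Real.pi ^ 2) := by
  obtain ⟨b, hb⟩ := exists_basisRR hn
  set A : Set (ℝ × (ℝ × ℝ)) := {p | p.1 ^ 2 + (p.2.1 ^ 2 + p.2.2 ^ 2) < 1} with hA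
  have hAm : MeasurableSet A := by
    apply measurableSet_lt _ measurable_const
    fun_prop
  set T : E3 → ℝ × (ℝ × ℝ) := fun g =>
    Prod.map id (MeasurableEquiv.finTwoArrow (α := ℝ)) (MeasurableEquiv.piFinSuccAbove (fun _ => ℝ) 0
      ((MeasurableEquiv.toLp 2 (Fin 3 → ℝ)).symm (b.repr g))) with hT
  have hTp : MeasurePreserving T volume volume :=
    ((MeasurePreserving.id volume).prod (volume_preserving_finTwoArrow ℝ)).comp
    ((volume_preserving_piFinSuccAbove (fun _ : Fin 3 => ℝ) 0).comp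
      ((EuclideanSpace.volume_preserving_symm_measurableEquiv_toLp (Fin 3)).comp
        b.measurePreserving_repr))
  have hT1 : ∀ g, (T g).1 = ⟪g, n⟫ := by
    intro g
    have : (T g).1 = b.repr g 0 := rfl
    rw [this, b.repr_apply_apply, hb, real_inner_comm]
  have hT2 : ∀ g, (T g).2.1 = b.repr g 1 := fun g => rfl
  have hT3 : ∀ g, (T g).2.2 = b.repr g 2 := fun g => rfl
  have hnorm : ∀ g : E3, ‖g‖ ^ 2 = (T g).1 ^ 2 + ((T g).2.1 ^ 2 + (T g).2.2 ^ 2) := by
    intro g
    have h2 : (T g).1 = b.repr g 0 := rfl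
    have h3 : ‖g‖ ^ 2 = ∑ i : Fin 3, (b.repr g i) ^ 2 := by
      rw [← LinearIsometryEquiv.norm_map b.repr g, EuclideanSpace.norm_sq_eq]
      simp only [Real.norm_eq_abs, sq_abs]
    rw [h3, h2, Fin.sum_univ_three, hT2, hT3]
    ring
  have hrr : ∀ g : E3, rr g n = √((T g).2.1 ^ 2 + (T g).2.2 ^ 2) := by
    intro g
    rw [rr, hnorm, ← hT1]
    congr 1
    ring
  have hball : ∀ g : E3, g ∈ ball (0 : E3) 1 ↔ T g ∈ A := by
    intro g
    rw [mem_ball_zero_iff, hA, mem_ofPred_eq, ← hnorm]
    constructor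
    · intro h; nlinarith [norm_nonneg g]
    · intro h; nlinarith [norm_nonneg g]
  set F : ℝ × (ℝ × ℝ) → ℝ≥0∞ := fun p => ENNReal.ofReal (√(p.2.1 ^ 2 + p.2.2 ^ 2))⁻¹ with hF
  have hFm : Measurable F := by
    rw [hF]; fun_prop
  have e1 : ∫⁻ g in ball (0 : E3) 1, ENNReal.ofReal (rr g n)⁻¹ = ∫⁻ g, A.indicator F (T g) := by
    rw [← lintegral_indicator measurableSet_ball]
    apply lintegral_congr
    intro g
    by_cases hg : g ∈ ball (0 : E3) 1
    · rw [indicator_of_mem hg, indicator_of_mem ((hball g).1 hg), hrr]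
    · rw [indicator_of_notMem hg, indicator_of_notMem (fun h => hg ((hball g).2 h))]
  have hmeas : Measurable (A.indicator F) := hFm.indicator hAm
  rw [e1, hTp.lintegral_comp hmeas]
  change ∫⁻ a : ℝ × (ℝ × ℝ), A.indicator F a ∂((volume : Measure ℝ).prod volume) ≤ _
  rw [lintegral_prod _ hmeas.aemeasurable]
  calc ∫⁻ z : ℝ, ∫⁻ p : ℝ × ℝ, A.indicator F (z, p)
      ≤ ∫⁻ z : ℝ, ENNReal.ofReal (2 * Real.pi * √(1 - z ^ 2)) := by
        apply lintegral_mono
        intro z
        refine le_trans (le_of_eq ?_) (planeRR (1 - z ^ 2))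
        apply lintegral_congr
        intro p
        by_cases hp : (z, p) ∈ A
        · rw [indicator_of_mem hp, indicator_of_mem]
          have : z ^ 2 + (p.1 ^ 2 + p.2 ^ 2) < 1 := hp
          rw [mem_ofPred_eq]; linarith
        · rw [indicator_of_notMem hp, indicator_of_notMem]
          intro h
          apply hp
          rw [mem_ofPred_eq] at h
          change z ^ 2 + (p.1 ^ 2 + p.2 ^ 2) < 1
          linarith
    _ = ∫⁻ z in Ioc (-1 : ℝ) 1, ENNReal.ofReal (2 * Real.pi * √(1 - z ^ 2)) := by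
        rw [← lintegral_indicator measurableSet_Ioc]
        apply lintegral_congr
        intro z
        by_cases hz : z ∈ Ioc (-1 : ℝ) 1
        · rw [indicator_of_mem hz]
        · rw [indicator_of_notMem hz]
          have : 1 - z ^ 2 ≤ 0 := by
            rw [mem_Ioc, not_and_or, not_lt, not_le] at hz
            rcases hz with h | h <;> nlinarith
          rw [Real.sqrt_eq_zero_of_nonpos this, mul_zero, ENNReal.ofReal_zero]
    _ = ENNReal.ofReal (∫ z in Ioc (-1 : ℝ) 1, 2 * Real.pi * √(1 - z ^ 2)) := by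
        rw [ofReal_integral_eq_lintegral_ofReal]
        · have hc : Continuous fun z : ℝ => 2 * Real.pi * √(1 - z ^ 2) := by fun_prop
          exact (hc.integrableOn_Icc (a := -1) (b := 1)).mono_set Ioc_subset_Icc_self
        · exact Filter.Eventually.of_forall fun z => by
            have := Real.pi_pos
            positivity
    _ = ENNReal.ofReal (Real.pi ^ 2) := by
        rw [← intervalIntegral.integral_of_le (by norm_num), intervalIntegral.integral_const_mul,
          integral_sqrt_one_sub_sq]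
        congr 1
        ring

end Pool.Agent.Helper83.CP
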