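import Pool.Agent.Helper83.CP.Defs

/-!
# Project CP (helper83), module CdfDist
`∬ |x-y| f(x) f(y) = 2 ∫ F (M - F) dz` for `f ≥ 0` bounded measurable with bounded support, `F(z) = ∫_{x ≤ z} f`, `M = ∫ f`.

Proof: `|x-y| = ∫ (1[x ≤ z < y] + 1[y ≤ z < x]) dz`, Tonelli (or Fubini: everything is bounded with bounded support), `∫_{y > z} f = M - F z`.
-/

set_option autoImplicit false

open MeasureTheory Set Filter Topology Metric
open scoped RealInnerProductSpace ENNReal NNReal

namespace Pool.Agent.Helper83.CP

open Pool.Agent.Helper1.CK (E3 nEnergy V1 Content Good)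

private theorem integrable_bs {g : ℝ × ℝ → ℝ} (hg : Measurable g) {K a b c d : ℝ}
    (hK : ∀ p, |g p| ≤ K) (hs : ∀ p, p ∉ Icc a b ×ˢ Icc c d → g p = 0) :
    Integrable g ((volume : Measure ℝ).prod (volume : Measure ℝ)) := by
  have h1 : Function.support g ⊆ Icc a b ×ˢ Icc c d := by
    intro p hp
    by_contra h
    exact hp (hs p h)
  rw [← integrableOn_iff_integrable_of_support_subset h1]
  refine Measure.integrableOn_of_bounded (M := K) ?_ hg.aestronglyMeasurable ?_
  · rw [Measure.prod_prod, Real.volume_Icc, Real.volume_Icc]
    exact ENNReal.mul_ne_top ENNReal.ofReal_ne_top ENNReal.ofReal_ne_top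
  · exact Eventually.of_forall fun p => by
      rw [Real.norm_eq_abs]
      exact hK p

theorem dist_integral {f : ℝ → ℝ} {a b C : ℝ} (hm : Measurable f) (h0 : ∀ x, 0 ≤ f x)
    (hC : ∀ x, f x ≤ C) (hs : ∀ x, x ∉ Icc a b → f x = 0) :
    ∫ x, ∫ y, |x - y| * (f x * f y) =
      2 * ∫ z, (∫ x in Iic z, f x) * ((∫ x, f x) - ∫ x in Iic z, f x) := by
  have hC0 : 0 ≤ C := (h0 0).trans (hC 0)
  have hfi : Integrable f := by
    have h1 : Function.support f ⊆ Icc a b := by
      intro p hp
      by_contra h
      exact hp (hs p h)
    rw [← integrableOn_iff_integrable_of_support_subset h1]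
    refine Measure.integrableOn_of_bounded (M := C) ?_ hm.aestronglyMeasurable ?_
    · rw [Real.volume_Icc]; exact ENNReal.ofReal_ne_top
    · exact Eventually.of_forall fun p => by
        rw [Real.norm_eq_abs, abs_of_nonneg (h0 p)]
        exact hC p
  -- the tail
  have htail : ∀ z : ℝ, (∫ x, f x) - ∫ x in Iic z, f x = ∫ x in Ioi z, f x := by
    intro z
    have h1 := integral_add_compl (measurableSet_Iic (a := z)) hfi
    rw [compl_Iic] at h1
    linarith
  have hff : ∀ x y, |f x * f y| ≤ C * C := by
    intro x y
    rw [abs_of_nonneg (mul_nonneg (h0 x) (h0 y))]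
    exact mul_le_mul (hC x) (hC y) (h0 y) hC0
  have hh : ∀ x y, |max (y - x) 0 * (f x * f y)| ≤ |b - a| * (C * C) := by
    intro x y
    by_cases hx : x ∈ Icc a b
    · by_cases hy : y ∈ Icc a b
      · rw [abs_mul]
        refine mul_le_mul ?_ (hff x y) (abs_nonneg _) (abs_nonneg _)
        rw [abs_of_nonneg (le_max_right _ _)]
        refine max_le ?_ (abs_nonneg _)
        exact le_trans (by linarith [hx.1, hy.2]) (le_abs_self _)
      · rw [hs y hy]; simp; positivity
    · rw [hs x hx]; simp; positivity
  -- integrability of the positive part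
  have hI1 : Integrable (fun p : ℝ × ℝ => max (p.2 - p.1) 0 * (f p.1 * f p.2))
      ((volume : Measure ℝ).prod (volume : Measure ℝ)) := by
    refine integrable_bs (K := |b - a| * (C * C)) (a := a) (b := b) (c := a) (d := b) ?_ ?_ ?_
    · fun_prop
    · intro p; exact hh p.1 p.2
    · intro p hp
      by_cases hx : p.1 ∈ Icc a b
      · have hy : p.2 ∉ Icc a b := fun h => hp ⟨hx, h⟩
        simp only [hs _ hy, mul_zero]
      · simp only [hs _ hx, mul_zero, zero_mul]
  have hI2 : Integrable (fun p : ℝ × ℝ => max (p.1 - p.2) 0 * (f p.2 * f p.1))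
      ((volume : Measure ℝ).prod (volume : Measure ℝ)) := hI1.swap
  have hsplit : ∀ x y : ℝ, |x - y| * (f x * f y) =
      max (y - x) 0 * (f x * f y) + max (x - y) 0 * (f y * f x) := by
    intro x y
    rcases le_total x y with h | h
    · rw [abs_of_nonpos (by linarith), max_eq_left (by linarith), max_eq_right (by linarith)]
      ring
    · rw [abs_of_nonneg (by linarith), max_eq_right (by linarith), max_eq_left (by linarith)]
      ring
  have e1 : ∫ x, ∫ y, |x - y| * (f x * f y) =
      (∫ x, ∫ y, max (y - x) 0 * (f x * f y)) + ∫ x, ∫ y, max (x - y) 0 * (f y * f x) := by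
    rw [← integral_integral_add hI1 hI2]
    refine integral_congr_ae (Eventually.of_forall fun x => ?_)
    refine integral_congr_ae (Eventually.of_forall fun y => ?_)
    exact hsplit x y
  have e2 : ∫ x, ∫ y, max (x - y) 0 * (f y * f x) = ∫ x, ∫ y, max (y - x) 0 * (f x * f y) := by
    rw [integral_integral_swap hI2]
  -- the layer cake
  have e3 : ∀ x, ∫ y, max (y - x) 0 * (f x * f y) =
      ∫ z, (if x ≤ z then f x else 0) * ∫ y in Ioi z, f y := by
    intro x
    have h1 : ∀ y, max (y - x) 0 * (f x * f y) =
        ∫ z, (if x ≤ z then f x else 0) * (if z < y then f y else 0) := by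
      intro y
      have h2 : (fun z => (if x ≤ z then f x else 0) * (if z < y then f y else 0)) =
          (Ico x y).indicator (fun _ => f x * f y) := by
        funext z
        by_cases h3 : x ≤ z
        · by_cases h4 : z < y
          · rw [indicator_of_mem (show z ∈ Ico x y from ⟨h3, h4⟩), if_pos h3, if_pos h4]
          · rw [indicator_of_notMem (fun h : z ∈ Ico x y => h4 h.2), if_neg h4, mul_zero]
        · rw [indicator_of_notMem (fun h : z ∈ Ico x y => h3 h.1), if_neg h3, zero_mul]
      rw [h2, integral_indicator measurableSet_Ico, setIntegral_const, smul_eq_mul,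
        Real.volume_real_Ico]
    have h5 : Integrable (fun p : ℝ × ℝ =>
        (if x ≤ p.2 then f x else 0) * (if p.2 < p.1 then f p.1 else 0))
        ((volume : Measure ℝ).prod (volume : Measure ℝ)) := by
      refine integrable_bs (K := C * C) (a := a) (b := b) (c := x) (d := b) ?_ ?_ ?_
      · refine Measurable.mul ?_ ?_
        · exact Measurable.ite (measurableSet_le measurable_const measurable_snd)
            measurable_const measurable_const
        · exact Measurable.ite (measurableSet_lt measurable_snd measurable_fst)
            (hm.comp measurable_fst) measurable_const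
      · intro p
        rw [abs_mul]
        refine mul_le_mul ?_ ?_ (abs_nonneg _) hC0
        · split_ifs
          · rw [abs_of_nonneg (h0 _)]; exact hC _
          · simpa using hC0
        · split_ifs
          · rw [abs_of_nonneg (h0 _)]; exact hC _
          · simpa using hC0
      · intro p hp
        by_cases hx : p.1 ∈ Icc a b
        · by_cases h6 : x ≤ p.2
          · by_cases h7 : p.2 < p.1
            · exact absurd ⟨hx, ⟨h6, h7.le.trans hx.2⟩⟩ hp
            · rw [if_neg h7, mul_zero]
          · rw [if_neg h6, zero_mul]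
        · rw [hs _ hx]; simp
    calc ∫ y, max (y - x) 0 * (f x * f y)
        = ∫ y, ∫ z, (if x ≤ z then f x else 0) * (if z < y then f y else 0) := by
          simp_rw [h1]
      _ = ∫ z, ∫ y, (if x ≤ z then f x else 0) * (if z < y then f y else 0) :=
          integral_integral_swap h5
      _ = ∫ z, (if x ≤ z then f x else 0) * ∫ y in Ioi z, f y := by
          refine integral_congr_ae (Eventually.of_forall fun z => ?_)
          show ∫ y, (if x ≤ z then f x else 0) * (if z < y then f y else 0) = _
          rw [integral_const_mul]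
          congr 1
          rw [← integral_indicator measurableSet_Ioi]
          refine integral_congr_ae (Eventually.of_forall fun y => ?_)
          simp only [indicator, mem_Ioi]
  -- measurability of the tail
  have hGm : Measurable fun z : ℝ => ∫ y in Ioi z, f y := by
    refine Antitone.measurable fun z w h => ?_
    exact setIntegral_mono_set hfi.integrableOn (Eventually.of_forall fun y => h0 y)
      (Ioi_subset_Ioi h).eventuallyLE
  have hG0 : ∀ z : ℝ, 0 ≤ ∫ y in Ioi z, f y := fun z => integral_nonneg fun y => h0 y
  have hGle : ∀ z : ℝ, ∫ y in Ioi z, f y ≤ ∫ y, f y := fun z =>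
    setIntegral_le_integral hfi (Eventually.of_forall fun y => h0 y)
  have hGb : ∀ z : ℝ, b < z → ∫ y in Ioi z, f y = 0 := by
    intro z hz
    refine setIntegral_eq_zero_of_forall_eq_zero fun y hy => hs y fun h => ?_
    exact absurd (h.2) (not_le.mpr (hz.trans hy))
  have h8 : Integrable (fun p : ℝ × ℝ => (if p.1 ≤ p.2 then f p.1 else 0) * ∫ y in Ioi p.2, f y)
      ((volume : Measure ℝ).prod (volume : Measure ℝ)) := by
    refine integrable_bs (K := C * ∫ y, f y) (a := a) (b := b) (c := a) (d := b) ?_ ?_ ?_
    · refine Measurable.mul ?_ (hGm.comp measurable_snd)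
      exact Measurable.ite (measurableSet_le measurable_fst measurable_snd)
        (hm.comp measurable_fst) measurable_const
    · intro p
      rw [abs_mul]
      refine mul_le_mul ?_ ?_ (abs_nonneg _) hC0
      · split_ifs
        · rw [abs_of_nonneg (h0 _)]; exact hC _
        · simpa using hC0
      · rw [abs_of_nonneg (hG0 _)]; exact hGle _
    · intro p hp
      by_cases hx : p.1 ∈ Icc a b
      · by_cases h6 : p.1 ≤ p.2
        · by_cases h7 : p.2 ≤ b
          · exact absurd ⟨hx, ⟨hx.1.trans h6, h7⟩⟩ hp
          · rw [hGb _ (not_le.mp h7), mul_zero]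
        · rw [if_neg h6, zero_mul]
      · rw [hs _ hx]; simp
  have e4 : ∫ x, ∫ y, max (y - x) 0 * (f x * f y) =
      ∫ z, (∫ x in Iic z, f x) * ((∫ x, f x) - ∫ x in Iic z, f x) := by
    calc ∫ x, ∫ y, max (y - x) 0 * (f x * f y)
        = ∫ x, ∫ z, (if x ≤ z then f x else 0) * ∫ y in Ioi z, f y := by
          refine integral_congr_ae (Eventually.of_forall fun x => ?_)
          exact e3 x
      _ = ∫ z, ∫ x, (if x ≤ z then f x else 0) * ∫ y in Ioi z, f y :=
          integral_integral_swap h8
      _ = _ := by
          refine integral_congr_ae (Eventually.of_forall fun z => ?_)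
          show ∫ x, (if x ≤ z then f x else 0) * (∫ y in Ioi z, f y) = _
          rw [integral_mul_const]
          show _ = (∫ x in Iic z, f x) * ((∫ x, f x) - ∫ x in Iic z, f x)
          rw [htail z]
          congr 1
          rw [← integral_indicator measurableSet_Iic]
          refine integral_congr_ae (Eventually.of_forall fun y => ?_)
          simp only [indicator, mem_Iic]
  rw [e1, e2, e4]
  ring

end Pool.Agent.Helper83.CP
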