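import Pool.Agent.Helper83.CP.Defs

/-!
# Project CP (helper83), module CdfSqrt
`∫ √(F(M-F)) f dx = ∫_0^M √(u(M-u)) du = π M²/8` (half of the area of a disc of diameter `M`), `F(x) = ∫_{y ≤ x} f`, `M = ∫ f`.

Proof: `F` is continuous (Lipschitz) and monotone, from `0` to `M`. The image of the measure `f dx` under `F` is Lebesgue measure on `[0,M]`: it suffices to check the sets
`(-∞,u]`: for `0 ≤ u ≤ M` the set `{F ≤ u}` is a half line `(-∞,x]` with `F x = u` (or everything if `u = M`), so its `f dx`-measure is `u`.
Other way: for `G` with derivative `√(u(M-u))` the function `G ∘ F` is absolutely continuous (Lipschitz) with derivative `√(F(M-F)) f` almost everywhere (Lebesgue differentiation), hence the integral.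
`∫_0^M √(u(M-u)) du`: Mathlib has `integral_sqrt_one_sub_sq`; substitute `u = M/2 + (M/2) t`.
-/

set_option autoImplicit false

open MeasureTheory Set Filter Topology Metric
open scoped RealInnerProductSpace ENNReal NNReal

namespace Pool.Agent.Helper83.CP

open Pool.Agent.Helper1.CK (E3 nEnergy V1 Content Good)

private lemma integrable_f {f : ℝ → ℝ} {a b C : ℝ} (hm : Measurable f) (h0 : ∀ x, 0 ≤ f x)
    (hC : ∀ x, f x ≤ C) (hs : ∀ x, x ∉ Icc a b → f x = 0) : Integrable f := by
  have h1 : IntegrableOn f (Icc a b) := by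
    apply Measure.integrableOn_of_bounded (M := C)
    · exact measure_Icc_lt_top.ne
    · exact hm.aestronglyMeasurable
    · refine ae_of_all _ fun x => ?_
      rw [Real.norm_eq_abs, abs_of_nonneg (h0 x)]; exact hC x
  refine (integrableOn_iff_integrable_of_support_subset ?_).1 h1
  intro x hx
  by_contra hx'
  exact hx (hs x hx')

private lemma half_disc {M : ℝ} (hM : 0 ≤ M) :
    ∫ u in Icc (0 : ℝ) M, √(u * (M - u)) = Real.pi * M ^ 2 / 8 := by
  rcases hM.eq_or_lt with h | h
  · subst h
    simp
  · rw [integral_Icc_eq_integral_Ioc, ← intervalIntegral.integral_of_le hM]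
    have hc : M / 2 ≠ 0 := by positivity
    have e := intervalIntegral.integral_comp_mul_add (a := (-1 : ℝ)) (b := 1)
      (fun u : ℝ => √(u * (M - u))) hc (M / 2)
    have e1 : M / 2 * (-1) + M / 2 = 0 := by ring
    have e2 : M / 2 * 1 + M / 2 = M := by ring
    rw [e1, e2] at e
    have e3 : ∀ x : ℝ, √((M / 2 * x + M / 2) * (M - (M / 2 * x + M / 2))) =
        M / 2 * √(1 - x ^ 2) := by
      intro x
      have : (M / 2 * x + M / 2) * (M - (M / 2 * x + M / 2)) = (M / 2) ^ 2 * (1 - x ^ 2) := by
        ring
      rw [this, Real.sqrt_mul (by positivity), Real.sqrt_sq (by positivity)]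
    simp only [e3] at e
    rw [intervalIntegral.integral_const_mul, integral_sqrt_one_sub_sq] at e
    rw [smul_eq_mul] at e
    field_simp at e
    linarith

private lemma map_cdf {f : ℝ → ℝ} {a b : ℝ} (hm : Measurable f) (h0 : ∀ x, 0 ≤ f x)
    (hi : Integrable f) (hs : ∀ x, x ∉ Icc a b → f x = 0) (F : ℝ → ℝ)
    (hF : ∀ x, F x = ∫ y in Iic x, f y) (hFc : Continuous F) (hmono : Monotone F) :
    Measure.map F (volume.withDensity fun x => ENNReal.ofReal (f x)) =
      volume.restrict (Icc 0 (∫ y, f y)) := by
  set M := ∫ y, f y with hM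
  have hM0 : 0 ≤ M := integral_nonneg h0
  haveI : IsFiniteMeasure (volume.withDensity fun x => ENNReal.ofReal (f x)) :=
    isFiniteMeasure_withDensity_ofReal hi.2
  have hF0 : ∀ x, 0 ≤ F x := fun x => by
    rw [hF]; exact setIntegral_nonneg measurableSet_Iic fun y _ => h0 y
  have hFM : ∀ x, F x ≤ M := fun x => by
    rw [hF, hM]
    exact setIntegral_le_integral hi (ae_of_all _ h0)
  have hFb : ∀ x, b ≤ x → F x = M := by
    intro x hx
    rw [hF, hM]
    refine setIntegral_eq_integral_of_forall_compl_eq_zero fun y hy => hs y ?_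
    rw [mem_Iic, not_le] at hy
    intro h
    exact absurd h.2 (by linarith)
  have hFa : ∀ x, x < a → F x = 0 := by
    intro x hx
    rw [hF]
    refine setIntegral_eq_zero_of_forall_eq_zero fun y hy => hs y ?_
    rw [mem_Iic] at hy
    intro h
    exact absurd h.1 (by linarith)
  have hmeas : ∀ s : Set ℝ, MeasurableSet s →
      (volume.withDensity fun x => ENNReal.ofReal (f x)) s = ENNReal.ofReal (∫ y in s, f y) := by
    intro s hs'
    rw [withDensity_apply _ hs', ofReal_integral_eq_lintegral_ofReal hi.integrableOn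
      (ae_of_all _ h0)]
  refine Measure.ext_of_Iic _ _ fun u => ?_
  rw [Measure.map_apply hFc.measurable measurableSet_Iic,
    Measure.restrict_apply measurableSet_Iic]
  rcases lt_or_ge u 0 with hu | hu
  · have h1 : F ⁻¹' Iic u = ∅ := by
      ext x
      simp only [mem_preimage, mem_Iic, mem_empty_iff_false, iff_false, not_le]
      exact lt_of_lt_of_le hu (hF0 x)
    have h2 : Iic u ∩ Icc 0 M = ∅ := by
      ext x
      simp only [mem_inter_iff, mem_Iic, mem_Icc, mem_empty_iff_false, iff_false]
      rintro ⟨h, h', -⟩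
      linarith
    rw [h1, h2, measure_empty, measure_empty]
  rcases le_or_gt M u with hu' | hu'
  · have h1 : F ⁻¹' Iic u = univ := by
      ext x
      simp only [mem_preimage, mem_Iic, mem_univ, iff_true]
      exact (hFM x).trans hu'
    have h2 : Iic u ∩ Icc 0 M = Icc 0 M := by
      ext x
      simp only [mem_inter_iff, mem_Iic, mem_Icc, and_iff_right_iff_imp]
      rintro ⟨h, h'⟩
      linarith
    rw [h1, h2, hmeas _ MeasurableSet.univ, setIntegral_univ, Real.volume_Icc, sub_zero]
  · -- the main case
    set S := F ⁻¹' Iic u with hS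
    have hSc : IsClosed S := isClosed_Iic.preimage hFc
    have hSne : S.Nonempty := ⟨a - 1, by
      rw [hS, mem_preimage, mem_Iic, hFa _ (by linarith)]; exact hu⟩
    have hSb : BddAbove S := ⟨b, fun x hx => by
      by_contra hbx
      rw [hS, mem_preimage, mem_Iic, hFb x (by linarith [not_le.1 hbx])] at hx
      linarith⟩
    set x0 := sSup S with hx0
    have hx0S : x0 ∈ S := hSc.csSup_mem hSne hSb
    have hSI : S = Iic x0 := by
      ext x
      refine ⟨fun h => le_csSup hSb h, fun h => ?_⟩
      exact (hmono h).trans hx0S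
    have hFx0 : F x0 = u := by
      refine le_antisymm hx0S ?_
      by_contra hlt
      rw [not_le] at hlt
      have h1 : ∀ᶠ x in 𝓝 x0, F x < u := hFc.continuousAt.eventually_lt_const hlt
      obtain ⟨ε, hε, hball⟩ := Metric.eventually_nhds_iff.1 h1
      have h2 : F (x0 + ε / 2) < u := hball (by
        rw [Real.dist_eq]; rw [show x0 + ε / 2 - x0 = ε / 2 by ring, abs_of_pos (by linarith)]
        linarith)
      have h3 : x0 + ε / 2 ≤ x0 := le_csSup hSb (by
        rw [hS, mem_preimage, mem_Iic]; exact h2.le)
      linarith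
    have h2 : Iic u ∩ Icc 0 M = Icc 0 u := by
      ext x
      simp only [mem_inter_iff, mem_Iic, mem_Icc]
      constructor
      · rintro ⟨h, h', -⟩
        exact ⟨h', h⟩
      · rintro ⟨h, h'⟩
        exact ⟨h', h, by linarith⟩
    rw [hSI, h2, hmeas _ measurableSet_Iic, ← hF, hFx0, Real.volume_Icc, sub_zero]

theorem sqrt_integral {f : ℝ → ℝ} {a b C : ℝ} (hm : Measurable f) (h0 : ∀ x, 0 ≤ f x)
    (hC : ∀ x, f x ≤ C) (hs : ∀ x, x ∉ Icc a b → f x = 0) :
    ∫ x, √((∫ y in Iic x, f y) * ((∫ y, f y) - ∫ y in Iic x, f y)) * f x =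
      Real.pi * (∫ y, f y) ^ 2 / 8 := by
  have hi : Integrable f := integrable_f hm h0 hC hs
  set F : ℝ → ℝ := fun x => ∫ y in Iic x, f y with hF
  set M := ∫ y, f y with hM
  have hM0 : 0 ≤ M := integral_nonneg h0
  have hFc : Continuous F := by
    have h1 : F = fun x => F 0 + ∫ y in (0 : ℝ)..x, f y := by
      ext x
      rw [← intervalIntegral.integral_Iic_sub_Iic hi.integrableOn hi.integrableOn]
      simp only [hF]
      ring
    rw [h1]
    exact continuous_const.add (intervalIntegral.continuous_primitive
      (fun _ _ => hi.intervalIntegrable) 0)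
  have hmono : Monotone F := by
    intro x y hxy
    exact setIntegral_mono_set hi.integrableOn (ae_of_all _ h0)
      (Iic_subset_Iic.2 hxy).eventuallyLE
  have hmap := map_cdf hm h0 hi hs F (fun _ => rfl) hFc hmono
  rw [← hM] at hmap
  rw [← half_disc hM0, ← hmap, integral_map hFc.measurable.aemeasurable]
  · rw [integral_withDensity_eq_integral_toReal_smul]
    · refine integral_congr_ae (ae_of_all _ fun x => ?_)
      simp only [smul_eq_mul, ENNReal.toReal_ofReal (h0 x)]
      ring
    · exact hm.ennreal_ofReal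
    · exact ae_of_all _ fun x => ENNReal.ofReal_lt_top
  · refine Continuous.aestronglyMeasurable ?_
    exact Real.continuous_sqrt.comp (continuous_id.mul (continuous_const.sub continuous_id))

end Pool.Agent.Helper83.CP
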