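import Pool.Agent.Helper83.CP.Defs
import Pool.Agent.Helper83.CP.CdfDist
import Pool.Agent.Helper83.CP.CdfSqrt

/-!
# Project CP (helper83), module Cdf
`f ≥ 0` bounded, measurable, zero outside `[a,b]`, `M = ∫ f`: `(π²/32) M⁴ ≤ (∫ f²) ∬ |x-y| f(x) f(y)`.

Proof. `F(x) = ∫_{y ≤ x} f`. Cauchy-Schwarz: `(∫ √(F(M-F)) f)² ≤ ∫ F(M-F) · ∫ f²` (all integrals over `[a,b]`), `∫ F(M-F) = (1/2) ∬ |x-y| f f` (`dist_integral`),
`∫ √(F(M-F)) f = π M²/8` (`sqrt_integral`). So `π² M⁴/64 ≤ (1/2) ∬ |x-y| f f · ∫ f²`.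
-/

set_option autoImplicit false

open MeasureTheory Set Filter Topology Metric
open scoped RealInnerProductSpace ENNReal NNReal

namespace Pool.Agent.Helper83.CP

open Pool.Agent.Helper1.CK (E3 nEnergy V1 Content Good)

private theorem cdf_int_of_bdd {g : ℝ → ℝ} {a b C : ℝ} (hm : Measurable g)
    (hC : ∀ x, |g x| ≤ C) (hs : ∀ x, x ∉ Icc a b → g x = 0) : Integrable g := by
  have h1 : IntegrableOn g (Icc a b) volume := by
    refine Measure.integrableOn_of_bounded (M := C) ?_ hm.aestronglyMeasurable ?_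
    · exact measure_Icc_lt_top.ne
    · exact Eventually.of_forall fun x => by simpa [Real.norm_eq_abs] using hC x
  exact (integrableOn_iff_integrable_of_support_subset
    (fun x hx => by
      by_contra h
      exact hx (hs x h))).1 h1

theorem cdf_ineq {f : ℝ → ℝ} {a b C : ℝ} (hm : Measurable f) (h0 : ∀ x, 0 ≤ f x)
    (hC : ∀ x, f x ≤ C) (hs : ∀ x, x ∉ Icc a b → f x = 0) :
    Real.pi ^ 2 / 32 * (∫ x, f x) ^ 4 ≤ (∫ x, f x ^ 2) * ∫ x, ∫ y, |x - y| * (f x * f y) := by
  have hC0 : 0 ≤ C := (h0 0).trans (hC 0)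
  have hfi : Integrable f := cdf_int_of_bdd (C := C) hm
    (fun x => by rw [abs_of_nonneg (h0 x)]; exact hC x) hs
  set M : ℝ := ∫ x, f x with hM
  set F : ℝ → ℝ := fun z => ∫ x in Iic z, f x with hF
  have hF0 : ∀ z, 0 ≤ F z := fun z => integral_nonneg fun x => h0 x
  have hFM : ∀ z, F z ≤ M := fun z =>
    setIntegral_le_integral hfi (Eventually.of_forall fun x => h0 x)
  have hFmono : Monotone F := fun x y hxy =>
    setIntegral_mono_set hfi.integrableOn (Eventually.of_forall fun x => h0 x)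
      (Eventually.of_forall (Iic_subset_Iic.2 hxy))
  have hM0 : 0 ≤ M := integral_nonneg fun x => h0 x
  have hFmeas : Measurable F := hFmono.measurable
  set G : ℝ → ℝ := fun z => F z * (M - F z) with hG
  have hG0 : ∀ z, 0 ≤ G z := fun z => mul_nonneg (hF0 z) (sub_nonneg.2 (hFM z))
  have hGmeas : Measurable G := hFmeas.mul (measurable_const.sub hFmeas)
  have hGle : ∀ z, G z ≤ M ^ 2 := fun z => by
    have h1 := hF0 z
    have h2 := hFM z
    simp only [hG]
    nlinarith
  have hGs : ∀ z, z ∉ Icc a b → G z = 0 := by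
    intro z hz
    rcases lt_or_ge z a with h | h
    · have : F z = 0 := by
        refine setIntegral_eq_zero_of_forall_eq_zero fun x hx => hs x fun hx' => ?_
        exact absurd (hx'.1.trans hx) (not_le.2 h)
      simp [hG, this]
    · have hb : b < z := by
        by_contra hb
        exact hz ⟨h, not_lt.1 hb⟩
      have : F z = M := by
        refine setIntegral_eq_integral_of_forall_compl_eq_zero fun x hx => hs x fun hx' => hx ?_
        exact (hx'.2.trans hb.le : x ≤ z)
      simp [hG, this]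
  have hGi : Integrable G := cdf_int_of_bdd (C := M ^ 2) hGmeas
    (fun x => by rw [abs_of_nonneg (hG0 x)]; exact hGle x) hGs
  have hf2i : Integrable fun x => f x ^ 2 := cdf_int_of_bdd (C := C ^ 2) (hm.pow_const 2)
    (fun x => by
      rw [abs_of_nonneg (sq_nonneg _)]
      exact pow_le_pow_left₀ (h0 x) (hC x) 2) (a := a) (b := b)
    (fun x hx => by rw [hs x hx]; norm_num)
  have hsf : Integrable fun x => √(G x) * f x := cdf_int_of_bdd (C := √(M ^ 2) * C)
    (hGmeas.sqrt.mul hm)
    (fun x => by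
      rw [abs_of_nonneg (mul_nonneg (Real.sqrt_nonneg _) (h0 x))]
      exact mul_le_mul (Real.sqrt_le_sqrt (hGle x)) (hC x) (h0 x) (Real.sqrt_nonneg _))
    (a := a) (b := b) (fun x hx => by rw [hs x hx, mul_zero])
  set A : ℝ := ∫ z, G z with hA
  set B : ℝ := ∫ x, f x ^ 2 with hB
  set P : ℝ := ∫ x, √(G x) * f x with hP
  have hA0 : 0 ≤ A := integral_nonneg hG0
  have hquad : ∀ t : ℝ, 0 ≤ A * (t * t) + (-(2 * P)) * t + B := by
    intro t
    have h1 : 0 ≤ ∫ x, (t * √(G x) - f x) ^ 2 := integral_nonneg fun x => sq_nonneg _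
    have h2 : (∫ x, (t * √(G x) - f x) ^ 2) =
        ∫ x, ((t * t) * G x - (2 * t) * (√(G x) * f x)) + f x ^ 2 := by
      refine integral_congr_ae (Eventually.of_forall fun x => ?_)
      simp only
      have : √(G x) ^ 2 = G x := Real.sq_sqrt (hG0 x)
      calc (t * √(G x) - f x) ^ 2 = t * t * √(G x) ^ 2 - 2 * t * (√(G x) * f x) + f x ^ 2 := by ring
        _ = _ := by rw [this]
    have i1 : Integrable fun x => (t * t) * G x := hGi.const_mul _
    have i2 : Integrable fun x => (2 * t) * (√(G x) * f x) := hsf.const_mul _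
    have i3 : Integrable fun x => (t * t) * G x - (2 * t) * (√(G x) * f x) := i1.sub i2
    have e3 : (∫ x, ((t * t) * G x - (2 * t) * (√(G x) * f x)) + f x ^ 2) =
        (t * t) * A - (2 * t) * P + B := by
      rw [integral_add i3 hf2i, integral_sub i1 i2, integral_const_mul, integral_const_mul]
    rw [h2, e3] at h1
    linarith
  have hdisc := discrim_le_zero hquad
  have hPAB : P ^ 2 ≤ A * B := by
    unfold discrim at hdisc
    nlinarith
  have e1 : (∫ x, ∫ y, |x - y| * (f x * f y)) = 2 * A := dist_integral hm h0 hC hs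
  have e2 : P = Real.pi * M ^ 2 / 8 := sqrt_integral hm h0 hC hs
  rw [e1]
  rw [e2] at hPAB
  nlinarith

end Pool.Agent.Helper83.CP
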