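import Pool.Agent.Helper83.CP.Defs

/-!
# Project CP (helper83), module Conf
The set of convex closed polygons with first vertex 0 and given side lengths is compact.

Proof. Closed: every condition is closed (`cyc`: weak inequality between continuous functions; `chord`: the set of `(p,q,r,s)` with `[p,q] ∩ [r,s] ≠ ∅` is closed, because it is the image of a closed set under
the projection along the compact `[0,1]²`; intersections over all indices). Bounded: `‖x k‖ ≤ ∑_{i<n} l i` by the triangle inequality along the polygon.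
-/

set_option autoImplicit false

open MeasureTheory Set Filter Topology Metric
open scoped RealInnerProductSpace ENNReal NNReal

namespace Pool.Agent.Helper83.CP

open Pool.Agent.Helper1.CK (E3 nEnergy V1 Content Good)

private theorem continuous_ext {n : ℕ} (hn : 0 < n) (i : ℕ) :
    Continuous fun x : Fin n → ℂ => ext hn x i := by
  unfold ext
  exact continuous_apply _

private theorem isClosed_chord {n : ℕ} (f g h k : (Fin n → ℂ) → ℂ) (hf : Continuous f)
    (hg : Continuous g) (hh : Continuous h) (hk : Continuous k) :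
    IsClosed {x : Fin n → ℂ | (segment ℝ (f x) (g x) ∩ segment ℝ (h x) (k x)).Nonempty} := by
  have hC : IsClosed {q : (unitInterval × unitInterval) × (Fin n → ℂ) |
      f q.2 + ((q.1.1 : ℝ) : ℂ) * (g q.2 - f q.2) =
        h q.2 + ((q.1.2 : ℝ) : ℂ) * (k q.2 - h q.2)} := by
    refine isClosed_eq ?_ ?_ <;> fun_prop
  have hi := isClosedMap_snd_of_compactSpace (X := unitInterval × unitInterval)
    (Y := Fin n → ℂ) _ hC
  convert hi using 1
  ext x
  simp only [Set.mem_ofPred_eq, Set.mem_image]
  constructor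
  · rintro ⟨z, hz1, hz2⟩
    rw [segment_eq_image'] at hz1 hz2
    obtain ⟨a, ha, ha2⟩ := hz1
    obtain ⟨b, hb, hb2⟩ := hz2
    refine ⟨((⟨a, ha⟩, ⟨b, hb⟩), x), ?_, rfl⟩
    have e1 : f x + (a : ℂ) * (g x - f x) = z := by
      rw [← ha2]
      simp only [Complex.real_smul]
    have e2 : h x + (b : ℂ) * (k x - h x) = z := by
      rw [← hb2]
      simp only [Complex.real_smul]
    change f x + (a : ℂ) * (g x - f x) = h x + (b : ℂ) * (k x - h x)
    rw [e1, e2]
  · rintro ⟨⟨⟨a, b⟩, y⟩, hq, rfl⟩
    refine ⟨f y + ((a : ℝ) : ℂ) * (g y - f y), ?_, ?_⟩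
    · rw [segment_eq_image']
      exact ⟨a, a.2, by simp only [Complex.real_smul]⟩
    · rw [segment_eq_image']
      refine ⟨b, b.2, ?_⟩
      simp only [Complex.real_smul]
      exact hq.symm

theorem isCompact_conf {n : ℕ} (hn : 0 < n) (l : ℕ → ℝ) :
    IsCompact {x : Fin n → ℂ | ext hn x 0 = 0 ∧ CPoly n (ext hn x) ∧
      ∀ i, len (ext hn x) i = l i} := by
  have hc := continuous_ext hn
  have e : {x : Fin n → ℂ | ext hn x 0 = 0 ∧ CPoly n (ext hn x) ∧
      ∀ i, len (ext hn x) i = l i} =
      {x : Fin n → ℂ | ext hn x 0 = 0} ∩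
      (⋂ i : ℕ, {x : Fin n → ℂ | ext hn x (i + n) = ext hn x i}) ∩
      (⋂ (i : ℕ) (j : ℕ) (k : ℕ) (_ : i < j) (_ : j < k) (_ : k < i + n),
        {x : Fin n → ℂ | 0 ≤ cr (ext hn x j - ext hn x i) (ext hn x k - ext hn x i)}) ∩
      (⋂ (i : ℕ) (j : ℕ) (k : ℕ) (m : ℕ) (_ : i < j) (_ : j < k) (_ : k < m) (_ : m < i + n),
        {x : Fin n → ℂ | (segment ℝ (ext hn x i) (ext hn x k) ∩
          segment ℝ (ext hn x j) (ext hn x m)).Nonempty}) ∩
      (⋂ i : ℕ, {x : Fin n → ℂ | len (ext hn x) i = l i}) := by
    ext x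
    simp only [Set.mem_ofPred_eq, Set.mem_inter_iff, Set.mem_iInter]
    constructor
    · rintro ⟨h1, h2, h3⟩
      exact ⟨⟨⟨⟨h1, h2.per⟩, h2.cyc⟩, h2.chord⟩, h3⟩
    · rintro ⟨⟨⟨⟨h1, h2⟩, h3⟩, h4⟩, h5⟩
      exact ⟨h1, ⟨h2, h3, h4⟩, h5⟩
  refine Metric.isCompact_of_isClosed_isBounded ?_ ?_
  · rw [e]
    refine IsClosed.inter (IsClosed.inter (IsClosed.inter (IsClosed.inter ?_ ?_) ?_) ?_) ?_
    · exact isClosed_eq (hc 0) continuous_const
    · exact isClosed_iInter fun i => isClosed_eq (hc _) (hc _)
    · refine isClosed_iInter fun i => isClosed_iInter fun j => isClosed_iInter fun k =>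
        isClosed_iInter fun _ => isClosed_iInter fun _ => isClosed_iInter fun _ => ?_
      refine isClosed_le continuous_const ?_
      unfold cr
      have h1 := hc i
      have h2 := hc j
      have h3 := hc k
      fun_prop
    · refine isClosed_iInter fun i => isClosed_iInter fun j => isClosed_iInter fun k =>
        isClosed_iInter fun m => isClosed_iInter fun _ => isClosed_iInter fun _ =>
        isClosed_iInter fun _ => isClosed_iInter fun _ => ?_
      exact isClosed_chord _ _ _ _ (hc i) (hc k) (hc j) (hc m)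
    · refine isClosed_iInter fun i => isClosed_eq ?_ continuous_const
      unfold len
      exact ((hc _).sub (hc _)).norm
  · refine (Metric.isBounded_closedBall (x := (0 : Fin n → ℂ))
      (r := ∑ i ∈ Finset.range n, |l i|)).subset ?_
    rintro x ⟨h1, h2, h3⟩
    rw [mem_closedBall_zero_iff, pi_norm_le_iff_of_nonneg
      (Finset.sum_nonneg fun i _ => abs_nonneg _)]
    have key : ∀ m : ℕ, ‖ext hn x m‖ ≤ ∑ i ∈ Finset.range m, |l i| := by
      intro m
      induction m with
      | zero => simp [h1]
      | succ m ih =>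
        rw [Finset.sum_range_succ]
        have h4 := h3 m
        unfold len at h4
        calc ‖ext hn x (m + 1)‖ = ‖ext hn x m + (ext hn x (m + 1) - ext hn x m)‖ := by
              congr 1; ring
          _ ≤ ‖ext hn x m‖ + ‖ext hn x (m + 1) - ext hn x m‖ := norm_add_le _ _
          _ ≤ _ := by
              rw [h4]
              exact add_le_add ih (le_abs_self _)
    intro k
    have hk : ext hn x k = x k := by
      unfold ext
      congr 1
      exact Fin.ext (Nat.mod_eq_of_lt k.2)
    rw [← hk]
    exact (key k).trans (Finset.sum_le_sum_of_subset_of_nonneg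
      (Finset.range_mono k.2.le) fun i _ _ => abs_nonneg _)

end Pool.Agent.Helper83.CP
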