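import Pool.Agent.Helper83.CP.Defs

/-!
# Project CP (helper83), module Face
Facts on the parametrisation of the plane `⟪n,x⟫ = c`.

`ww g n` is orthogonal to `n`, `⟪g, ww⟫ = 1`, `‖ww‖ = 1/rr`; `ff g n` is a unit vector orthogonal to `g` and `n` (exists because the dimension is 3; `Classical.epsilon_spec`).
-/

set_option autoImplicit false

open MeasureTheory Set Filter Topology Metric
open scoped RealInnerProductSpace ENNReal NNReal

namespace Pool.Agent.Helper83.CP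

open Pool.Agent.Helper1.CK (E3 nEnergy V1 Content Good)

theorem ff_spec (g n : E3) : ‖ff g n‖ = 1 ∧ ⟪g, ff g n⟫ = 0 ∧ ⟪n, ff g n⟫ = 0 := by
  have hex : ∃ f : E3, ‖f‖ = 1 ∧ ⟪g, f⟫ = 0 ∧ ⟪n, f⟫ = 0 := by
    set K : Submodule ℝ E3 := Submodule.span ℝ {g, n} with hK
    have h2 : Module.finrank ℝ K ≤ 2 := by
      have h := finrank_span_finset_le_card (R := ℝ) ({g, n} : Finset E3)
      have h3 : ({g, n} : Finset E3).card ≤ 2 := Finset.card_le_two
      have h4 : Submodule.span ℝ (({g, n} : Finset E3) : Set E3) = K := by simp [hK]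
      rw [Set.finrank, h4] at h
      omega
    have h3 : Module.finrank ℝ E3 = 3 := by simp
    have h1 : Module.finrank ℝ K + Module.finrank ℝ Kᗮ = 3 :=
      K.finrank_add_finrank_orthogonal.trans h3
    have hne : Kᗮ ≠ ⊥ := by
      intro h
      rw [h, finrank_bot] at h1
      omega
    obtain ⟨f, hf, hf0⟩ := Submodule.exists_mem_ne_zero_of_ne_bot hne
    have hg : ⟪g, f⟫ = 0 := (Submodule.mem_orthogonal K f).1 hf g
      (Submodule.subset_span (by simp))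
    have hn : ⟪n, f⟫ = 0 := (Submodule.mem_orthogonal K f).1 hf n
      (Submodule.subset_span (by simp))
    have hn0 : ‖f‖ ≠ 0 := norm_ne_zero_iff.2 hf0
    refine ⟨‖f‖⁻¹ • f, ?_, ?_, ?_⟩
    · rw [norm_smul, norm_inv, norm_norm, inv_mul_cancel₀ hn0]
    · rw [real_inner_smul_right, hg, mul_zero]
    · rw [real_inner_smul_right, hn, mul_zero]
  exact Classical.epsilon_spec hex

theorem rr_pos {g n : E3} (h : ⟪g, n⟫ ^ 2 < ‖g‖ ^ 2) : 0 < rr g n :=
  Real.sqrt_pos.2 (sub_pos.2 h)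

private theorem rr_sq {g n : E3} (h : ⟪g, n⟫ ^ 2 < ‖g‖ ^ 2) :
    rr g n ^ 2 = ‖g‖ ^ 2 - ⟪g, n⟫ ^ 2 :=
  Real.sq_sqrt (sub_pos.2 h).le

theorem ww_spec {g n : E3} (hn : ‖n‖ = 1) (h : ⟪g, n⟫ ^ 2 < ‖g‖ ^ 2) :
    ⟪g, ww g n⟫ = 1 ∧ ⟪n, ww g n⟫ = 0 ∧ ‖ww g n‖ = (rr g n)⁻¹ := by
  have hr := rr_pos h
  have hr2 := rr_sq h
  have hnn : ⟪n, n⟫ = 1 := by rw [real_inner_self_eq_norm_sq, hn, one_pow]
  have hgg : ⟪g, g⟫ = ‖g‖ ^ 2 := real_inner_self_eq_norm_sq g
  have hng : ⟪n, g⟫ = ⟪g, n⟫ := real_inner_comm g n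
  have h1 : ⟪g, g - ⟪g, n⟫ • n⟫ = rr g n ^ 2 := by
    rw [inner_sub_right, real_inner_smul_right, hgg, hr2]
    ring
  have h2 : ⟪n, g - ⟪g, n⟫ • n⟫ = 0 := by
    rw [inner_sub_right, real_inner_smul_right, hnn, hng]
    ring
  have h3 : ‖g - ⟪g, n⟫ • n‖ = rr g n := by
    have h4 : ‖g - ⟪g, n⟫ • n‖ ^ 2 = rr g n ^ 2 := by
      rw [← real_inner_self_eq_norm_sq, inner_sub_left, h1, real_inner_smul_left, h2]
      ring
    exact (sq_eq_sq₀ (norm_nonneg _) hr.le).1 h4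
  refine ⟨?_, ?_, ?_⟩
  · rw [ww, real_inner_smul_right, h1]
    exact inv_mul_cancel₀ (pow_pos hr 2).ne'
  · rw [ww, real_inner_smul_right, h2, mul_zero]
  · rw [ww, norm_smul, h3, norm_inv, norm_pow, Real.norm_of_nonneg hr.le]
    field_simp

theorem inner_AA {g n : E3} (hn : ‖n‖ = 1) (hg : ⟪g, n⟫ ^ 2 < ‖g‖ ^ 2) (c h s : ℝ) :
    ⟪g, AA g n c h s⟫ = h ∧ ⟪n, AA g n c h s⟫ = c := by
  obtain ⟨w1, w2, -⟩ := ww_spec hn hg
  obtain ⟨-, f1, f2⟩ := ff_spec g n
  have hnn : ⟪n, n⟫ = 1 := by rw [real_inner_self_eq_norm_sq, hn, one_pow]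
  constructor
  · rw [AA, inner_add_right, inner_add_right, real_inner_smul_right, real_inner_smul_right,
      real_inner_smul_right, inner_sub_right, real_inner_smul_right, w1, f1]
    ring
  · rw [AA, inner_add_right, inner_add_right, real_inner_smul_right, real_inner_smul_right,
      real_inner_smul_right, inner_sub_right, real_inner_smul_right, w2, f2, hnn]
    ring

theorem continuous_AA (g n : E3) (c : ℝ) : Continuous fun p : ℝ × ℝ => AA g n c p.1 p.2 := by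
  unfold AA
  fun_prop

theorem isClosed_QQ {ι : Type} (m : ι → E3) (c : ι → ℝ) : IsClosed (QQ m c) := by
  have h : QQ m c = ⋂ i, {x : E3 | ⟪m i, x⟫ ≤ c i} := by
    ext x
    simp [QQ]
  rw [h]
  refine isClosed_iInter fun i => isClosed_le ?_ continuous_const
  fun_prop

theorem convex_QQ {ι : Type} (m : ι → E3) (c : ι → ℝ) : Convex ℝ (QQ m c) := by
  intro x hx y hy a b ha hb hab i
  have h1 := hx i
  have h2 := hy i
  rw [inner_add_right, real_inner_smul_right, real_inner_smul_right]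
  calc a * ⟪m i, x⟫ + b * ⟪m i, y⟫ ≤ a * c i + b * c i :=
        add_le_add (mul_le_mul_of_nonneg_left h1 ha) (mul_le_mul_of_nonneg_left h2 hb)
    _ = c i := by rw [← add_mul, hab, one_mul]

theorem isClosed_Us {ι : Type} (m : ι → E3) (c : ι → ℝ) (g : E3) (i : ι) :
    IsClosed {p : ℝ × ℝ | p.2 ∈ Us m c g i p.1} :=
  (isClosed_QQ m c).preimage (continuous_AA g (m i) (c i))

private theorem AA_comb (g n : E3) (c : ℝ) (p q : ℝ × ℝ) (a b : ℝ) (hab : a + b = 1) :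
    AA g n c (a • p + b • q).1 (a • p + b • q).2 = a • AA g n c p.1 p.2 + b • AA g n c q.1 q.2 := by
  have hb : b = 1 - a := by linarith
  subst hb
  simp only [AA, Prod.fst_add, Prod.smul_fst, Prod.snd_add, Prod.smul_snd, smul_eq_mul]
  module

theorem convex_Us {ι : Type} (m : ι → E3) (c : ι → ℝ) (g : E3) (i : ι) :
    Convex ℝ {p : ℝ × ℝ | p.2 ∈ Us m c g i p.1} := by
  intro p hp q hq a b ha hb hab
  have hp' : AA g (m i) (c i) p.1 p.2 ∈ QQ m c := hp
  have hq' : AA g (m i) (c i) q.1 q.2 ∈ QQ m c := hq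
  change AA g (m i) (c i) (a • p + b • q).1 (a • p + b • q).2 ∈ QQ m c
  rw [AA_comb g (m i) (c i) p q a b hab]
  exact convex_QQ m c hp' hq' ha hb hab

theorem bounded_Us {ι : Type} {m : ι → E3} {c : ι → ℝ} (hb : Bornology.IsBounded (QQ m c))
    {g : E3} {i : ι} (hn : ‖m i‖ = 1) (hg : ⟪g, m i⟫ ^ 2 < ‖g‖ ^ 2) :
    Bornology.IsBounded {p : ℝ × ℝ | p.2 ∈ Us m c g i p.1} := by
  obtain ⟨R, hR⟩ := hb.exists_norm_le
  refine isBounded_iff_forall_norm_le.2 ⟨max (‖g‖ * R) R, ?_⟩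
  rintro ⟨h, s⟩ hp
  have hx : AA g (m i) (c i) h s ∈ QQ m c := hp
  have hxR := hR _ hx
  obtain ⟨h1, -⟩ := inner_AA hn hg (c i) h s
  obtain ⟨f0, f1, f2⟩ := ff_spec g (m i)
  have hf : ⟪ff g (m i), AA g (m i) (c i) h s⟫ = s := by
    have e1 : ⟪ff g (m i), m i⟫ = 0 := by rw [real_inner_comm]; exact f2
    have e2 : ⟪ff g (m i), g⟫ = 0 := by rw [real_inner_comm]; exact f1
    have e3 : ⟪ff g (m i), ww g (m i)⟫ = 0 := by
      rw [ww, real_inner_smul_right, inner_sub_right, real_inner_smul_right, e1, e2]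
      ring
    have e4 : ⟪ff g (m i), ff g (m i)⟫ = 1 := by rw [real_inner_self_eq_norm_sq, f0, one_pow]
    rw [AA, inner_add_right, inner_add_right, real_inner_smul_right, real_inner_smul_right,
      real_inner_smul_right, inner_sub_right, real_inner_smul_right, e1, e3, e4]
    ring
  have hh : |h| ≤ ‖g‖ * R := by
    calc |h| = |⟪g, AA g (m i) (c i) h s⟫| := by rw [h1]
      _ ≤ ‖g‖ * ‖AA g (m i) (c i) h s‖ := abs_real_inner_le_norm _ _
      _ ≤ ‖g‖ * R := mul_le_mul_of_nonneg_left hxR (norm_nonneg _)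
  have hs : |s| ≤ R := by
    calc |s| = |⟪ff g (m i), AA g (m i) (c i) h s⟫| := by rw [hf]
      _ ≤ ‖ff g (m i)‖ * ‖AA g (m i) (c i) h s‖ := abs_real_inner_le_norm _ _
      _ = ‖AA g (m i) (c i) h s‖ := by rw [f0, one_mul]
      _ ≤ R := hxR
  rw [Prod.norm_def]
  exact max_le_max hh hs

end Pool.Agent.Helper83.CP
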