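import Pool.Agent.Helper83.CP.Defs
import Pool.Agent.Helper83.CP.Face

/-!
# Project CP (helper83), module FaceInt
The face measure in the coordinates `(h,s)`.

`AA g n c h s - c n = (h - c⟪g,n⟫) ww + s ff`, and `rr ww`, `ff` is an orthonormal basis of the plane `(ℝ ∙ n)ᗮ` orthogonal to `n`, so in the orthonormal coordinates
`p = (h - c⟪g,n⟫)/rr`, `s` of the plane one gets `∫ F d sg_i = rr⁻¹ ∫ dh ∫_{Us_i(h)} F(AA(h,s)) ds` (an orthonormal basis gives a measure preserving equivalence with `EuclideanSpace ℝ (Fin 2)`, then `ℝ × ℝ`; the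
affine substitution in `p`). `sg` is finite because `{y : c n + y ∈ QQ}` is bounded.
-/

set_option autoImplicit false

open MeasureTheory Set Filter Topology Metric
open scoped RealInnerProductSpace ENNReal NNReal

namespace Pool.Agent.Helper83.CP

open Pool.Agent.Helper1.CK (E3 nEnergy V1 Content Good)

private theorem faceInt_plane {W : Submodule ℝ E3} (b : OrthonormalBasis (Fin 2) ℝ W)
    {ψ : W → ℝ≥0∞} (hψ : Measurable ψ) :
    ∫⁻ y, ψ y = ∫⁻ p : ℝ, ∫⁻ s : ℝ, ψ (p • b 0 + s • b 1) := by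
  have h1 : MeasurePreserving (⇑(MeasurableEquiv.finTwoArrow (α := ℝ)).symm) volume volume :=
    (volume_preserving_finTwoArrow ℝ).symm _
  have h2 : MeasurePreserving (@WithLp.toLp 2 (Fin 2 → ℝ)) := PiLp.volume_preserving_toLp (Fin 2)
  have h3 := b.measurePreserving_repr_symm
  have h4 := h3.comp (h2.comp h1)
  rw [← h4.lintegral_comp hψ]
  have h5 : ∀ p : ℝ × ℝ, (⇑b.repr.symm ∘ (WithLp.toLp 2 ∘
      ⇑(MeasurableEquiv.finTwoArrow (α := ℝ)).symm)) p = p.1 • b 0 + p.2 • b 1 := by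
    intro p
    simp only [Function.comp]
    rw [← b.sum_repr_symm]
    simp [Fin.sum_univ_two, MeasurableEquiv.finTwoArrow]
  simp only [h5]
  rw [Measure.volume_eq_prod, lintegral_prod]
  have hm : Measurable fun p : ℝ × ℝ => p.1 • b 0 + p.2 • b 1 := by
    have hc : Continuous fun p : ℝ × ℝ => p.1 • b 0 + p.2 • b 1 := by fun_prop
    exact hc.measurable
  exact (hψ.comp hm).aemeasurable

private theorem faceInt_affine {r a : ℝ} (hr : 0 < r) {Φ : ℝ → ℝ≥0∞} (hΦ : Measurable Φ) :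
    ∫⁻ p : ℝ, Φ (r * p + a) = ENNReal.ofReal r⁻¹ * ∫⁻ h : ℝ, Φ h := by
  have h1 : ∫⁻ p : ℝ, Φ (r * p + a) = ∫⁻ q, Φ (q + a) ∂(Measure.map (r * ·) volume) := by
    exact (lintegral_map (f := fun q => Φ (q + a)) (hΦ.comp (measurable_add_const a))
      (measurable_const_mul r)).symm
  rw [h1, Real.map_volume_mul_left hr.ne', lintegral_smul_measure,
    lintegral_add_right_eq_self (fun q => Φ q) a, abs_of_pos (inv_pos.2 hr), smul_eq_mul]

private theorem faceInt_isClosed_QQ {ι : Type} (m : ι → E3) (c : ι → ℝ) : IsClosed (QQ m c) := by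
  have : QQ m c = ⋂ i, {x | ⟪m i, x⟫ ≤ c i} := by
    ext x; simp [QQ]
  rw [this]
  exact isClosed_iInter fun i => isClosed_le (by fun_prop) continuous_const

private theorem faceInt_meas (n : E3) (c : ℝ) :
    Measurable (fun y : (ℝ ∙ n)ᗮ => c • n + (y : E3)) := by
  have : Continuous (fun y : (ℝ ∙ n)ᗮ => c • n + (y : E3)) := by fun_prop
  exact this.measurable

theorem lintegral_sg {ι : Type} (m : ι → E3) (c : ι → ℝ) {i : ι} (hn : ‖m i‖ = 1) {g : E3}
    (hg : ⟪g, m i⟫ ^ 2 < ‖g‖ ^ 2) {F : E3 → ℝ≥0∞} (hF : Measurable F) :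
    ∫⁻ x, F x ∂(sg m c i) = ENNReal.ofReal (rr g (m i))⁻¹ *
      ∫⁻ h, ∫⁻ s in Us m c g i h, F (AA g (m i) (c i) h s) := by
  have hr : 0 < rr g (m i) := rr_pos hg
  obtain ⟨hw1, hw2, hw3⟩ := ww_spec hn hg
  obtain ⟨hf1, hf2, hf3⟩ := ff_spec g (m i)
  set r := rr g (m i) with hrdef
  set w := ww g (m i) with hwdef
  set f := ff g (m i) with hfdef
  have hQ : MeasurableSet (QQ m c) := (faceInt_isClosed_QQ m c).measurableSet
  have hwf : ⟪w, f⟫ = 0 := by
    rw [hwdef, ww, inner_smul_left, inner_sub_left, inner_smul_left, hf2, hf3]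
    simp
  -- the orthonormal basis
  have hmem1 : r • w ∈ (ℝ ∙ m i)ᗮ := by
    rw [Submodule.mem_orthogonal_singleton_iff_inner_right, inner_smul_right, hw2, mul_zero]
  have hmem2 : f ∈ (ℝ ∙ m i)ᗮ := by
    rw [Submodule.mem_orthogonal_singleton_iff_inner_right, hf3]
  have hon : Orthonormal ℝ ![(⟨r • w, hmem1⟩ : (ℝ ∙ m i)ᗮ), ⟨f, hmem2⟩] := by
    rw [orthonormal_iff_ite]
    intro j k
    fin_cases j <;> fin_cases k
    · have h1 : ‖r • w‖ = 1 := by
        rw [norm_smul, hw3, Real.norm_of_nonneg hr.le, mul_inv_cancel₀ hr.ne']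
      simpa using Or.inl h1
    · simp [Submodule.coe_inner, inner_smul_left, hwf]
    · have : ⟪f, w⟫ = 0 := by rw [real_inner_comm]; exact hwf
      simp [Submodule.coe_inner, inner_smul_right, this]
    · simpa using Or.inl hf1
  have hne : m i ≠ 0 := by
    intro h
    rw [h, norm_zero] at hn
    exact zero_ne_one hn
  have hdim : Module.finrank ℝ (ℝ ∙ m i)ᗮ = 2 := by
    have : Fact (Module.finrank ℝ E3 = 2 + 1) := ⟨by simp [E3]⟩
    exact Submodule.finrank_orthogonal_span_singleton hne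
  have hcard : Fintype.card (Fin 2) = Module.finrank ℝ (ℝ ∙ m i)ᗮ := by simp [hdim]
  let b0 := basisOfOrthonormalOfCardEqFinrank hon hcard
  have hb0 : ⇑b0 = ![(⟨r • w, hmem1⟩ : (ℝ ∙ m i)ᗮ), ⟨f, hmem2⟩] :=
    coe_basisOfOrthonormalOfCardEqFinrank hon hcard
  let b := b0.toOrthonormalBasis (by rw [hb0]; exact hon)
  have hb : ⇑b = ![(⟨r • w, hmem1⟩ : (ℝ ∙ m i)ᗮ), ⟨f, hmem2⟩] := by
    rw [← hb0]; exact Module.Basis.coe_toOrthonormalBasis _ _
  have hS : MeasurableSet {y : (ℝ ∙ m i)ᗮ | c i • m i + (y : E3) ∈ QQ m c} :=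
    faceInt_meas (m i) (c i) hQ
  have hAA : ∀ p s : ℝ, c i • m i + ((p • b 0 + s • b 1 : (ℝ ∙ m i)ᗮ) : E3) =
      AA g (m i) (c i) (r * p + c i * ⟪g, m i⟫) s := by
    intro p s
    rw [hb]
    simp only [AA, ← hwdef, ← hfdef, Matrix.cons_val_zero, Matrix.cons_val_one,
      Submodule.coe_add, Submodule.coe_smul]
    module
  have hcAA : Measurable fun p : ℝ × ℝ => AA g (m i) (c i) p.1 p.2 :=
    (continuous_AA g (m i) (c i)).measurable
  have hind : Measurable ((QQ m c).indicator F) := hF.indicator hQ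
  have e1 : ∫⁻ x, F x ∂(sg m c i) =
      ∫⁻ y : (ℝ ∙ m i)ᗮ, (QQ m c).indicator F (c i • m i + (y : E3)) := by
    rw [sg, lintegral_map hF (faceInt_meas (m i) (c i)), ← lintegral_indicator hS]
    refine lintegral_congr fun y => ?_
    by_cases hy : c i • m i + (y : E3) ∈ QQ m c
    · rw [indicator_of_mem hy]
      exact indicator_of_mem (s := {y : (ℝ ∙ m i)ᗮ | c i • m i + (y : E3) ∈ QQ m c}) hy _
    · rw [indicator_of_notMem hy]
      exact indicator_of_notMem (s := {y : (ℝ ∙ m i)ᗮ | c i • m i + (y : E3) ∈ QQ m c}) hy _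
  rw [e1]
  refine (faceInt_plane b (hind.comp (faceInt_meas (m i) (c i)))).trans ?_
  simp only [Function.comp, hAA]
  have hΦ : Measurable fun h : ℝ => ∫⁻ s : ℝ, (QQ m c).indicator F (AA g (m i) (c i) h s) :=
    (hind.comp hcAA).lintegral_prod_right'
  rw [faceInt_affine hr hΦ]
  congr 1
  refine lintegral_congr fun h => ?_
  have hU : MeasurableSet (Us m c g i h) := by
    have : Measurable fun s : ℝ => AA g (m i) (c i) h s :=
      hcAA.comp (measurable_const.prodMk measurable_id)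
    exact this hQ
  rw [← lintegral_indicator hU]
  refine lintegral_congr fun s => ?_
  by_cases hs : AA g (m i) (c i) h s ∈ QQ m c
  · rw [indicator_of_mem hs, indicator_of_mem (s := Us m c g i h) hs]
  · rw [indicator_of_notMem hs, indicator_of_notMem (s := Us m c g i h) hs]

theorem sg_univ_lt_top {ι : Type} {m : ι → E3} {c : ι → ℝ}
    (hb : Bornology.IsBounded (QQ m c)) (i : ι) : sg m c i univ < ⊤ := by
  rw [sg, Measure.map_apply (faceInt_meas (m i) (c i)) MeasurableSet.univ, preimage_univ,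
    Measure.restrict_apply_univ]
  refine Bornology.IsBounded.measure_lt_top ?_
  obtain ⟨R, hR⟩ := hb.exists_norm_le
  refine isBounded_iff_forall_norm_le.2 ⟨R + ‖c i • m i‖, fun y hy => ?_⟩
  have h1 := hR _ hy
  have h2 : (y : E3) = (c i • m i + (y : E3)) - c i • m i := by abel
  calc ‖y‖ = ‖(y : E3)‖ := rfl
    _ = ‖(c i • m i + (y : E3)) - c i • m i‖ := by rw [← h2]
    _ ≤ ‖c i • m i + (y : E3)‖ + ‖c i • m i‖ := norm_sub_le _ _
    _ ≤ R + ‖c i • m i‖ := by linarith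

theorem sg_compl {ι : Type} (m : ι → E3) (c : ι → ℝ) (i : ι) : sg m c i (QQ m c)ᶜ = 0 := by
  have hQ : MeasurableSet (QQ m c) := (faceInt_isClosed_QQ m c).measurableSet
  have hm := faceInt_meas (m i) (c i)
  rw [sg, Measure.map_apply hm hQ.compl, Measure.restrict_apply (hm hQ.compl)]
  convert measure_empty (μ := (volume : Measure (ℝ ∙ m i)ᗮ))
  ext y
  simp

theorem sgm_univ_lt_top {ι : Type} [Fintype ι] {m : ι → E3} {c : ι → ℝ}
    (hb : Bornology.IsBounded (QQ m c)) : sgm m c univ < ⊤ := by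
  rw [sgm, Measure.finsetSum_apply]
  exact ENNReal.sum_lt_top.2 fun i _ => sg_univ_lt_top hb i

theorem sgm_compl {ι : Type} [Fintype ι] (m : ι → E3) (c : ι → ℝ) :
    sgm m c (QQ m c)ᶜ = 0 := by
  rw [sgm, Measure.finsetSum_apply]
  exact Finset.sum_eq_zero fun i _ => sg_compl m c i

end Pool.Agent.Helper83.CP
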