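import Pool.Agent.Helper83.CP.Defs

/-!
# Project CP (helper83), module Outer
Outer approximation of a compact convex set by polytopes.

Proof. Every point `y` of the compact set `D = {d(x,K) = η}` (thin spheres are enough) is strictly separated from the compact convex set `K_{η/2}` by a half space `{⟪m,.⟫ ≤ c}`, `‖m‖ = 1`,
with `K_{η/2} ⊆ {⟪m,.⟫ ≤ c}`, `⟪m,y⟫ > c`; finitely many of these open conditions cover `D`. `Q` = intersection of the finitely many half spaces: convex, contains `K_{η/2}` (so it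
has interior points), misses `D`, so it is contained in `{d < η}` (connectedness of `Q`: the segment from a point of `K` to a point of `Q` outside would meet `D`). Take `ι` =
the finite set of pairs `(m,c)` as a type, so `inj` holds. (Alternatively: all `m` in a fine finite net of the sphere with `c = ` support function of `K_{η/2}`.)
-/

set_option autoImplicit false

open MeasureTheory Set Filter Topology Metric
open scoped RealInnerProductSpace ENNReal NNReal

namespace Pool.Agent.Helper83.CP

open Pool.Agent.Helper1.CK (E3 nEnergy V1 Content Good)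

private lemma mem_cth {K : Set E3} (hne : K.Nonempty) {δ : ℝ} (hδ : 0 ≤ δ) (x : E3) :
    x ∈ cthickening δ K ↔ infDist x K ≤ δ := by
  rw [mem_cthickening_iff, infDist]
  exact ENNReal.le_ofReal_iff_toReal_le (infEDist_ne_top hne) hδ

private lemma sep_unit {K : Set E3} (hK : Good K) {y : E3} (hy : y ∉ K) :
    ∃ (m : E3) (c : ℝ), ‖m‖ = 1 ∧ (∀ a ∈ K, ⟪m, a⟫ < c) ∧ c < ⟪m, y⟫ := by
  obtain ⟨f, u, hfu, huy⟩ := geometric_hahn_banach_closed_point hK.cvx hK.cpt.isClosed hy
  obtain ⟨a0, ha0⟩ := hK.ne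
  set w : E3 := (InnerProductSpace.toDual ℝ E3).symm f with hw
  have hin : ∀ x, ⟪w, x⟫ = f x := fun x => by
    rw [hw]; exact InnerProductSpace.toDual_symm_apply
  have hw0 : w ≠ 0 := by
    intro h0
    have h1 := hfu a0 ha0
    rw [← hin, h0, inner_zero_left] at h1
    rw [← hin, h0, inner_zero_left] at huy
    linarith
  have hn : 0 < ‖w‖ := norm_pos_iff.mpr hw0
  refine ⟨‖w‖⁻¹ • w, u / ‖w‖, ?_, ?_, ?_⟩
  · rw [norm_smul, norm_inv, norm_norm, inv_mul_cancel₀ hn.ne']
  · intro a ha
    rw [real_inner_smul_left, hin, inv_mul_eq_div]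
    exact (div_lt_div_iff_of_pos_right hn).mpr (hfu a ha)
  · rw [real_inner_smul_left, hin, inv_mul_eq_div]
    exact (div_lt_div_iff_of_pos_right hn).mpr huy

theorem exists_outer {K : Set E3} (hK : Good K) {η : ℝ} (hη : 0 < η) :
    ∃ (ι : Type) (_ : Fintype ι) (m : ι → E3) (c : ι → ℝ),
      Ply m c ∧ K ⊆ QQ m c ∧ QQ m c ⊆ cthickening η K := by
  classical
  have hη2 : 0 < η / 2 := by positivity
  -- the thickened set
  have hK2 : Good (cthickening (η / 2) K) :=
    ⟨hK.cpt.cthickening, hK.cvx.cthickening _, hK.ne.mono (self_subset_cthickening K)⟩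
  -- the compact set
  set D : Set E3 := {y | infDist y K = η} with hD
  have hDc : IsCompact D := by
    refine IsCompact.of_isClosed_subset (hK.cpt.cthickening (r := η)) ?_ ?_
    · exact isClosed_eq (continuous_infDist_pt K) continuous_const
    · intro y hy
      exact (mem_cth hK.ne hη.le y).mpr (le_of_eq hy)
  have hsep : ∀ y ∈ D, ∃ p : E3 × ℝ, ‖p.1‖ = 1 ∧
      (∀ a ∈ cthickening (η / 2) K, ⟪p.1, a⟫ < p.2) ∧ p.2 < ⟪p.1, y⟫ := by
    intro y hy
    have hy' : y ∉ cthickening (η / 2) K := by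
      rw [mem_cth hK.ne hη2.le]
      have : infDist y K = η := hy
      rw [this]; linarith
    obtain ⟨m, c, h1, h2, h3⟩ := sep_unit hK2 hy'
    exact ⟨(m, c), h1, h2, h3⟩
  choose! p hp1 hp2 hp3 using hsep
  obtain ⟨t, ht, hcov⟩ := hDc.elim_nhds_subcover (fun y => {x : E3 | (p y).2 < ⟪(p y).1, x⟫})
    (fun y hy => by
      refine IsOpen.mem_nhds ?_ (hp3 y hy)
      exact isOpen_lt continuous_const (continuous_const.inner continuous_id))
  let T : Finset (E3 × ℝ) := t.image p
  have hsub1 : cthickening (η / 2) K ⊆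
      QQ (fun i : {q // q ∈ T} => i.1.1) (fun i : {q // q ∈ T} => i.1.2) := by
    intro x hx i
    obtain ⟨y, hy, hyi⟩ := Finset.mem_image.mp i.2
    show ⟪i.1.1, x⟫ ≤ i.1.2
    rw [← hyi]
    exact (hp2 y (ht y hy) x hx).le
  have hsub2 : QQ (fun i : {q // q ∈ T} => i.1.1) (fun i : {q // q ∈ T} => i.1.2) ⊆
      cthickening η K := by
    intro q hq
    rw [mem_cth hK.ne hη.le]
    by_contra hlt
    push Not at hlt
    obtain ⟨a, ha⟩ := hK.ne
    have haQ := hsub1 (self_subset_cthickening K ha)
    have hpre : IsPreconnected (segment ℝ a q) := (convex_segment a q).isPreconnected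
    have hiv := hpre.intermediate_value (left_mem_segment ℝ a q) (right_mem_segment ℝ a q)
      (continuous_infDist_pt K).continuousOn
    have hmem : η ∈ Icc (infDist a K) (infDist q K) := by
      rw [infDist_zero_of_mem ha]
      exact ⟨hη.le, hlt.le⟩
    obtain ⟨z, hz, hzη⟩ := hiv hmem
    have hzD : z ∈ D := hzη
    have hzc := hcov hzD
    simp only [mem_iUnion] at hzc
    obtain ⟨y, hy, hyz⟩ := hzc
    have hyz' : (p y).2 < ⟪(p y).1, z⟫ := hyz
    have hyT : p y ∈ T := Finset.mem_image_of_mem p hy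
    obtain ⟨s, r, hs, hr, hsr, rfl⟩ := hz
    have h1 : ⟪(p y).1, a⟫ ≤ (p y).2 := haQ ⟨p y, hyT⟩
    have h2 : ⟪(p y).1, q⟫ ≤ (p y).2 := hq ⟨p y, hyT⟩
    rw [inner_add_right, real_inner_smul_right, real_inner_smul_right] at hyz'
    have h3 : (p y).2 = s * (p y).2 + r * (p y).2 := by rw [← add_mul, hsr, one_mul]
    have h4 := mul_le_mul_of_nonneg_left h1 hs
    have h5 := mul_le_mul_of_nonneg_left h2 hr
    linarith
  refine ⟨{q // q ∈ T}, inferInstance, fun i => i.1.1, fun i => i.1.2, ?_,
    fun x hx => hsub1 (self_subset_cthickening K hx), hsub2⟩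
  refine ⟨?_, ?_, ?_, ?_⟩
  · intro i
    obtain ⟨y, hy, hyi⟩ := Finset.mem_image.mp i.2
    show ‖i.1.1‖ = 1
    rw [← hyi]
    exact hp1 y (ht y hy)
  · intro i j hij
    exact Subtype.ext hij
  · exact (hK.cpt.cthickening.isBounded).subset hsub2
  · refine (hK.ne.mono ?_ : (thickening (η / 2) K).Nonempty).mono ?_
    · exact self_subset_thickening hη2 K
    · exact interior_maximal ((thickening_subset_cthickening _ _).trans hsub1) isOpen_thickening

end Pool.Agent.Helper83.CP
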