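import Pool.Agent.Helper83.CP.Defs
import Pool.Agent.Helper83.CP.Outer

/-!
# Project CP (helper83), module Mono
Monotonicity of the volume of the shell: `K ⊆ Q` compact convex: `vol K_ε + vol Q ≤ vol Q_ε + vol K`.

Proof. Half-space cut: let `Q' = Q ∩ {x : ⟪m,x⟫ ≤ h}`, `‖m‖ = 1`, `K ⊆ Q'`. Then `(Q minus Q') + ε m ⊆ Q_ε minus Q'_ε` (the points have `⟪m,.⟫ > h+ε`), so
`vol Q - vol Q' ≤ vol Q_ε - vol Q'_ε` (all volumes are finite, the sets closed), i.e. `vol Q'_ε + vol Q ≤ vol Q_ε + vol Q'`. By induction over finitely many cuts the same holds for `Q' = Q ∩ QQ m c`, `m` a finite family of unit vectors.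
`exists_outer` with `η = 1/(k+1)`: `K ⊆ Q_k := Q ∩ QQ m c ⊆ K_η`, so `vol K_ε + vol Q ≤ vol (Q_k)_ε + vol Q ≤ vol Q_ε + vol Q_k ≤ vol Q_ε + vol K_η`, and `vol K_η → vol K` (`tendsto_measure_cthickening_of_isCompact` or similar).
-/

set_option autoImplicit false

open MeasureTheory Set Filter Topology Metric
open scoped RealInnerProductSpace ENNReal NNReal

namespace Pool.Agent.Helper83.CP

open Pool.Agent.Helper1.CK (E3 nEnergy V1 Content Good)

private theorem cut {Q : Set E3} (hQ : IsCompact Q) {m : E3} (hm : ‖m‖ = 1) (h : ℝ) {ε : ℝ}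
    (hε : 0 ≤ ε) :
    volume (cthickening ε (Q ∩ {x | ⟪m, x⟫ ≤ h})) + volume Q ≤
      volume (cthickening ε Q) + volume (Q ∩ {x | ⟪m, x⟫ ≤ h}) := by
  have hcl : IsClosed {x : E3 | ⟪m, x⟫ ≤ h} :=
    isClosed_le (continuous_const.inner continuous_id) continuous_const
  have hc' : IsCompact (Q ∩ {x : E3 | ⟪m, x⟫ ≤ h}) := hQ.inter_right hcl
  set T : Set E3 := (fun x : E3 => x + -(ε • m)) ⁻¹' (Q \ {x : E3 | ⟪m, x⟫ ≤ h}) with hT
  have hvT : volume T = volume (Q \ {x : E3 | ⟪m, x⟫ ≤ h}) := by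
    rw [hT]
    exact measure_preimage_add_right volume (-(ε • m)) _
  have hTsub : T ⊆ cthickening ε Q := by
    intro y hy
    rw [hT, mem_preimage] at hy
    refine mem_cthickening_of_dist_le y (y + -(ε • m)) ε Q hy.1 ?_
    rw [dist_eq_norm]
    have : y - (y + -(ε • m)) = ε • m := by abel
    rw [this, norm_smul, hm, mul_one, Real.norm_eq_abs, abs_of_nonneg hε]
  have hdisj : Disjoint T (cthickening ε (Q ∩ {x : E3 | ⟪m, x⟫ ≤ h})) := by
    rw [Set.disjoint_left]
    intro y hy hy2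
    rw [hc'.cthickening_eq_biUnion_closedBall hε] at hy2
    simp only [mem_iUnion, mem_closedBall] at hy2
    obtain ⟨z, hz, hyz⟩ := hy2
    rw [hT, mem_preimage] at hy
    have h1 : h < ⟪m, y + -(ε • m)⟫ := not_le.mp hy.2
    have h2 : ⟪m, z⟫ ≤ h := hz.2
    have h3 : ⟪m, y - z⟫ ≤ ε := by
      calc ⟪m, y - z⟫ ≤ ‖m‖ * ‖y - z‖ := real_inner_le_norm _ _
        _ ≤ 1 * ε := by
            rw [hm]
            have := hyz
            rw [dist_eq_norm] at this
            linarith
        _ = ε := one_mul _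
    rw [inner_add_right, inner_neg_right, inner_smul_right, real_inner_self_eq_norm_sq, hm] at h1
    rw [inner_sub_right] at h3
    linarith
  have hsplit : volume Q = volume (Q ∩ {x : E3 | ⟪m, x⟫ ≤ h}) +
      volume (Q \ {x : E3 | ⟪m, x⟫ ≤ h}) :=
    (measure_inter_add_sdiff Q hcl.measurableSet).symm
  have hun : volume T + volume (cthickening ε (Q ∩ {x : E3 | ⟪m, x⟫ ≤ h})) ≤
      volume (cthickening ε Q) := by
    rw [← measure_union hdisj isClosed_cthickening.measurableSet]
    exact measure_mono (union_subset hTsub (cthickening_subset_of_subset ε inter_subset_left))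
  calc volume (cthickening ε (Q ∩ {x | ⟪m, x⟫ ≤ h})) + volume Q
      = (volume T + volume (cthickening ε (Q ∩ {x : E3 | ⟪m, x⟫ ≤ h}))) +
        volume (Q ∩ {x : E3 | ⟪m, x⟫ ≤ h}) := by
        rw [hsplit, hvT]
        ring
    _ ≤ volume (cthickening ε Q) + volume (Q ∩ {x | ⟪m, x⟫ ≤ h}) := add_le_add_left hun _

private theorem cuts {ι : Type} {Q : Set E3} (hQ : IsCompact Q) {m : ι → E3} (hm : ∀ i, ‖m i‖ = 1)
    (c : ι → ℝ) {ε : ℝ} (hε : 0 ≤ ε) (s : Finset ι) :
    IsCompact (Q ∩ {x | ∀ i ∈ s, ⟪m i, x⟫ ≤ c i}) ∧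
    volume (cthickening ε (Q ∩ {x | ∀ i ∈ s, ⟪m i, x⟫ ≤ c i})) + volume Q ≤
      volume (cthickening ε Q) + volume (Q ∩ {x | ∀ i ∈ s, ⟪m i, x⟫ ≤ c i}) := by
  classical
  induction s using Finset.induction_on with
  | empty =>
    have : (Q ∩ {x : E3 | ∀ i ∈ (∅ : Finset ι), ⟪m i, x⟫ ≤ c i}) = Q := by
      ext x
      simp
    rw [this]
    exact ⟨hQ, le_rfl⟩
  | insert a s ha ih =>
    obtain ⟨ihc, ih⟩ := ih
    have heq : (Q ∩ {x : E3 | ∀ i ∈ insert a s, ⟪m i, x⟫ ≤ c i}) =
        (Q ∩ {x : E3 | ∀ i ∈ s, ⟪m i, x⟫ ≤ c i}) ∩ {x : E3 | ⟪m a, x⟫ ≤ c a} := by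
      ext x
      simp only [mem_inter_iff, mem_ofPred_eq, Finset.mem_insert, forall_eq_or_imp]
      tauto
    have hcl : IsClosed {x : E3 | ⟪m a, x⟫ ≤ c a} :=
      isClosed_le (continuous_const.inner continuous_id) continuous_const
    rw [heq]
    refine ⟨ihc.inter_right hcl, ?_⟩
    have h1 := cut ihc (hm a) (c a) hε
    set A := Q ∩ {x : E3 | ∀ i ∈ s, ⟪m i, x⟫ ≤ c i} with hA
    have hfin : volume A + volume (cthickening ε A) ≠ ⊤ :=
      ENNReal.add_ne_top.mpr ⟨ihc.measure_lt_top.ne, ihc.cthickening.measure_lt_top.ne⟩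
    have h2 := add_le_add h1 ih
    have h3 : (volume (cthickening ε (A ∩ {x | ⟪m a, x⟫ ≤ c a})) + volume Q) +
        (volume A + volume (cthickening ε A)) ≤
        (volume (cthickening ε Q) + volume (A ∩ {x | ⟪m a, x⟫ ≤ c a})) +
        (volume A + volume (cthickening ε A)) := by
      calc (volume (cthickening ε (A ∩ {x | ⟪m a, x⟫ ≤ c a})) + volume Q) +
        (volume A + volume (cthickening ε A))
          = volume (cthickening ε (A ∩ {x | ⟪m a, x⟫ ≤ c a})) + volume A +
            (volume (cthickening ε A) + volume Q) := by ring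
        _ ≤ volume (cthickening ε A) + volume (A ∩ {x | ⟪m a, x⟫ ≤ c a}) +
            (volume (cthickening ε Q) + volume A) := h2
        _ = (volume (cthickening ε Q) + volume (A ∩ {x | ⟪m a, x⟫ ≤ c a})) +
        (volume A + volume (cthickening ε A)) := by ring
    exact (ENNReal.add_le_add_iff_right hfin).mp h3

theorem vol_mono {K Q : Set E3} (hK : Good K) (hQ : Good Q) (h : K ⊆ Q) {ε : ℝ} (hε : 0 ≤ ε) :
    volume (cthickening ε K) + volume Q ≤ volume (cthickening ε Q) + volume K := by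
  have key : ∀ η : ℝ, 0 < η → volume (cthickening ε K) + volume Q ≤
      volume (cthickening ε Q) + volume (cthickening η K) := by
    intro η hη
    obtain ⟨ι, hι, m, c, hP, hKQ, hQK⟩ := exists_outer hK hη
    have h1 := (cuts hQ.cpt hP.unit c hε Finset.univ).2
    have hset : {x : E3 | ∀ i ∈ (Finset.univ : Finset ι), ⟪m i, x⟫ ≤ c i} = QQ m c := by
      ext x
      simp [QQ]
    rw [hset] at h1
    calc volume (cthickening ε K) + volume Q
        ≤ volume (cthickening ε (Q ∩ QQ m c)) + volume Q :=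
          add_le_add_left (measure_mono (cthickening_subset_of_subset ε (subset_inter h hKQ))) _
      _ ≤ volume (cthickening ε Q) + volume (Q ∩ QQ m c) := h1
      _ ≤ volume (cthickening ε Q) + volume (cthickening η K) :=
          add_le_add_right (measure_mono (inter_subset_right.trans hQK)) _
  have ht : Tendsto (fun η : ℝ => volume (cthickening ε Q) + volume (cthickening η K)) (𝓝[>] 0)
      (𝓝 (volume (cthickening ε Q) + volume K)) := by
    have h1 : Tendsto (fun η : ℝ => volume (cthickening η K)) (𝓝[>] 0) (𝓝 (volume K)) :=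
      (tendsto_measure_cthickening_of_isCompact hK.cpt).mono_left nhdsWithin_le_nhds
    exact Tendsto.add tendsto_const_nhds h1
  refine ge_of_tendsto ht ?_
  filter_upwards [self_mem_nhdsWithin] with η hη
  exact key η hη

end Pool.Agent.Helper83.CP
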