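import Pool.Agent.Helper83.CP.Defs
import Pool.Agent.Helper83.CP.Face

/-!
# Project CP (helper83), module SteinerCyl
The cylinder of height `ε` over a face: `x = p + t m_i`, `p` in the face, `0 < t ≤ ε`.

Proof. `x = (c i + t) m i + y` with `y ∈ (ℝ ∙ m i)ᗮ`, `c i • m i + y = p ∈ QQ`. Orthogonal decomposition `E3 = ℝ m_i ⊕ (ℝ ∙ m i)ᗮ` is measure preserving (isometry with the `L²` product; or orthonormal bases), Fubini: volume `= ε · volume {y | ...}`, and
`sg m c i univ = volume {y : (ℝ ∙ m i)ᗮ | c i • m i + y ∈ QQ m c}`.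
-/

set_option autoImplicit false

open MeasureTheory Set Filter Topology Metric
open scoped RealInnerProductSpace ENNReal NNReal

namespace Pool.Agent.Helper83.CP

open Pool.Agent.Helper1.CK (E3 nEnergy V1 Content Good)

theorem volume_cyl {ι : Type} (m : ι → E3) (c : ι → ℝ) {i : ι} (hn : ‖m i‖ = 1) {ε : ℝ}
    (hε : 0 ≤ ε) :
    volume {x : E3 | ∃ p ∈ QQ m c, ⟪m i, p⟫ = c i ∧ ∃ t ∈ Ioc 0 ε, x = p + t • m i} ≤
      ENNReal.ofReal ε * sg m c i univ := by
  set n : E3 := m i with hndef
  set K : Submodule ℝ E3 := ℝ ∙ n with hK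
  have hnn : ⟪n, n⟫ = 1 := by rw [real_inner_self_eq_norm_sq, hn, one_pow]
  have hnK : n ∈ K := Submodule.mem_span_singleton_self n
  -- the orthogonal decomposition
  have hmp1 : MeasurePreserving (K.orthogonalDecomposition : E3 → WithLp 2 (K × Kᗮ)) volume volume :=
    K.orthogonalDecomposition.measurePreserving
  have hmp2 : MeasurePreserving (WithLp.ofLp : WithLp 2 (K × Kᗮ) → K × Kᗮ) volume volume :=
    WithLp.volume_preserving_ofLp _ _
  have hmp : MeasurePreserving (fun x : E3 => (K.orthogonalDecomposition x).ofLp) volume volume :=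
    hmp2.comp hmp1
  have hdec : ∀ x : E3, (K.orthogonalDecomposition x).ofLp =
      (K.orthogonalProjectionOnto x, Kᗮ.orthogonalProjectionOnto x) := by
    intro x
    rw [Submodule.orthogonalDecomposition_apply]
  -- the line
  let e : ℝ ≃ₗᵢ[ℝ] K := LinearIsometryEquiv.toSpanUnitSingleton n hn
  have he : ∀ r : ℝ, ((e r : K) : E3) = r • n := fun r => rfl
  have hmpe : MeasurePreserving (e : ℝ → K) volume volume := e.measurePreserving
  set Y : Set Kᗮ := {y : Kᗮ | c i • n + (y : E3) ∈ QQ m c} with hY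
  have hYm : MeasurableSet Y := by
    have hc : Continuous fun y : Kᗮ => c i • n + (y : E3) := by fun_prop
    exact ((isClosed_QQ m c).preimage hc).measurableSet
  set A : Set K := (e.symm : K → ℝ) ⁻¹' Ioc (c i) (c i + ε) with hA
  have hAm : MeasurableSet A := e.symm.continuous.measurable measurableSet_Ioc
  have hAvol : volume A = ENNReal.ofReal ε := by
    have h1 : volume ((e : ℝ → K) ⁻¹' A) = volume A := hmpe.measure_preimage hAm.nullMeasurableSet
    have h2 : (e : ℝ → K) ⁻¹' A = Ioc (c i) (c i + ε) := by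
      ext r
      simp [hA]
    rw [← h1, h2, Real.volume_Ioc]
    congr 1
    ring
  -- the inclusion
  have hsub : {x : E3 | ∃ p ∈ QQ m c, ⟪n, p⟫ = c i ∧ ∃ t ∈ Ioc 0 ε, x = p + t • n} ⊆
      (fun x : E3 => (K.orthogonalDecomposition x).ofLp) ⁻¹' (A ×ˢ Y) := by
    rintro x ⟨p, hp, hpc, t, ht, rfl⟩
    have hperp : p - c i • n ∈ Kᗮ := by
      rw [Submodule.mem_orthogonal_singleton_iff_inner_right, inner_sub_right,
        real_inner_smul_right, hnn, hpc]
      ring
    have hK1 : (c i + t) • n ∈ K := K.smul_mem _ hnK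
    have hx : p + t • n = (c i + t) • n + (p - c i • n) := by module
    have hP1 : K.orthogonalProjectionOnto (p + t • n) = ⟨(c i + t) • n, hK1⟩ := by
      apply Subtype.ext
      rw [hx, map_add]
      have e1 : K.orthogonalProjectionOnto ((c i + t) • n) = ⟨(c i + t) • n, hK1⟩ := by
        exact K.orthogonalProjectionOnto_mem_subspace_eq_self ⟨(c i + t) • n, hK1⟩
      have e2 : K.orthogonalProjectionOnto (p - c i • n) = 0 :=
        K.orthogonalProjectionOnto_eq_zero_iff.2 hperp
      rw [e1, e2, add_zero]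
    have hP2 : Kᗮ.orthogonalProjectionOnto (p + t • n) = ⟨p - c i • n, hperp⟩ := by
      apply Subtype.ext
      rw [hx, map_add]
      have e1 : Kᗮ.orthogonalProjectionOnto (p - c i • n) = ⟨p - c i • n, hperp⟩ := by
        exact Kᗮ.orthogonalProjectionOnto_mem_subspace_eq_self ⟨p - c i • n, hperp⟩
      have e2 : Kᗮ.orthogonalProjectionOnto ((c i + t) • n) = 0 := by
        rw [Submodule.orthogonalProjectionOnto_eq_zero_iff]
        exact K.le_orthogonal_orthogonal hK1
      rw [e1, e2, zero_add]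
    rw [mem_preimage, hdec, hP1, hP2]
    refine ⟨?_, ?_⟩
    · have h3 : (⟨(c i + t) • n, hK1⟩ : K) = e (c i + t) := by
        apply Subtype.ext
        rw [he]
      change (⟨(c i + t) • n, hK1⟩ : K) ∈ A
      rw [h3, hA, mem_preimage, LinearIsometryEquiv.symm_apply_apply]
      exact ⟨by linarith [ht.1], by linarith [ht.2]⟩
    · change c i • n + (p - c i • n) ∈ QQ m c
      rw [add_sub_cancel]
      exact hp
  have hsg : sg m c i univ = volume Y := by
    have hc : Continuous fun y : (ℝ ∙ m i)ᗮ => c i • m i + (y : E3) := by fun_prop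
    rw [sg, Measure.map_apply hc.measurable MeasurableSet.univ, preimage_univ,
      Measure.restrict_apply MeasurableSet.univ, univ_inter]
  calc volume {x : E3 | ∃ p ∈ QQ m c, ⟪n, p⟫ = c i ∧ ∃ t ∈ Ioc 0 ε, x = p + t • n}
      ≤ volume ((fun x : E3 => (K.orthogonalDecomposition x).ofLp) ⁻¹' (A ×ˢ Y)) :=
        measure_mono hsub
    _ = volume (A ×ˢ Y) := hmp.measure_preimage (hAm.prod hYm).nullMeasurableSet
    _ = volume A * volume Y := Measure.prod_prod A Y
    _ = ENNReal.ofReal ε * sg m c i univ := by rw [hAvol, hsg]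

end Pool.Agent.Helper83.CP
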