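import Pool.Agent.Helper83.CP.Defs

/-!
# Project CP (helper83), module SteinerEdge
The `ε`-neighbourhood of a bounded piece of a line has volume `≤ C ε²` for `0 < ε ≤ 1`.

Proof. The set of `p` with `⟪m1,p⟫ = c1`, `⟪m2,p⟫ = c2`, `‖p‖ ≤ R` is contained in a line `p0 + ℝ e`, `‖e‖ = 1`, `e` orthogonal to `m1, m2` (the orthogonal complement of their span is one-dimensional), if it is not empty. Cover the piece of length
`≤ 2R` by at most `2R/ε + 2` balls of radius `ε` with centres on the line: then the neighbourhood is covered by the balls of radius `2ε`, whose volume is a constant times `ε³`: total `≤ C ε²`.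
-/

set_option autoImplicit false

open MeasureTheory Set Filter Topology Metric
open scoped RealInnerProductSpace ENNReal NNReal

namespace Pool.Agent.Helper83.CP

open Pool.Agent.Helper1.CK (E3 nEnergy V1 Content Good)

private theorem edge_dir {m1 m2 : E3} (h : LinearIndependent ℝ ![m1, m2]) :
    ∃ e : E3, ‖e‖ = 1 ∧ ∀ q : E3, ⟪m1, q⟫ = 0 → ⟪m2, q⟫ = 0 → ∃ t : ℝ, q = t • e := by
  set W : Submodule ℝ E3 := Submodule.span ℝ (Set.range ![m1, m2]) with hW
  have h2 : Module.finrank ℝ W = 2 := by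
    rw [hW, finrank_span_eq_card h]; rfl
  have h3 : Module.finrank ℝ E3 = 3 := by
    simp
  have h4 := Submodule.finrank_add_finrank_orthogonal W
  have h5 : Module.finrank ℝ Wᗮ = 1 := by omega
  obtain ⟨v, hv, hv'⟩ := finrank_eq_one_iff'.1 h5
  have hvn : ‖(v : E3)‖ ≠ 0 := by
    rw [norm_ne_zero_iff]
    intro h0
    exact hv (Subtype.ext h0)
  refine ⟨‖(v : E3)‖⁻¹ • (v : E3), ?_, ?_⟩
  · rw [norm_smul, norm_inv, norm_norm, inv_mul_cancel₀ hvn]
  · intro q h6 h7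
    have hq : q ∈ Wᗮ := by
      rw [Submodule.mem_orthogonal]
      intro u hu
      induction hu using Submodule.span_induction with
      | mem x hx =>
        obtain ⟨i, rfl⟩ := hx
        fin_cases i
        · exact h6
        · exact h7
      | zero => exact inner_zero_left _
      | add x y _ _ hx hy => rw [inner_add_left, hx, hy, add_zero]
      | smul a x _ hx => rw [inner_smul_left, hx, mul_zero]
    obtain ⟨c, hc⟩ := hv' ⟨q, hq⟩
    refine ⟨c * ‖(v : E3)‖, ?_⟩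
    have := congrArg (Subtype.val) hc
    simp only [Submodule.coe_smul] at this
    rw [smul_smul, mul_assoc, mul_inv_cancel₀ hvn, mul_one, this]

theorem volume_edge {m1 m2 : E3} (h : LinearIndependent ℝ ![m1, m2]) (c1 c2 R : ℝ) :
    ∃ C : ℝ, 0 ≤ C ∧ ∀ ε ∈ Ioc (0 : ℝ) 1,
      volume {x : E3 | ∃ p : E3, ‖p‖ ≤ R ∧ ⟪m1, p⟫ = c1 ∧ ⟪m2, p⟫ = c2 ∧ dist x p ≤ ε} ≤
        ENNReal.ofReal (C * ε ^ 2) := by
  by_cases hP : ∃ p0 : E3, ‖p0‖ ≤ R ∧ ⟪m1, p0⟫ = c1 ∧ ⟪m2, p0⟫ = c2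
  swap
  · refine ⟨0, le_rfl, fun ε _ => ?_⟩
    have : {x : E3 | ∃ p : E3, ‖p‖ ≤ R ∧ ⟪m1, p⟫ = c1 ∧ ⟪m2, p⟫ = c2 ∧ dist x p ≤ ε} = ∅ := by
      ext x
      simp only [Set.mem_ofPred_eq, Set.mem_empty_iff_false, iff_false]
      rintro ⟨p, h1, h2, h3, _⟩
      exact hP ⟨p, h1, h2, h3⟩
    rw [this]
    simp
  obtain ⟨p0, hp0, h1, h2⟩ := hP
  have hR : 0 ≤ R := (norm_nonneg _).trans hp0
  obtain ⟨e, he, hspan⟩ := edge_dir h
  set V : ℝ := (volume (ball (0 : E3) 1)).toReal with hV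
  have hVtop : volume (ball (0 : E3) 1) ≠ ⊤ := measure_ball_lt_top.ne
  have hV0 : 0 ≤ V := ENNReal.toReal_nonneg
  refine ⟨(4 * R + 5) * 8 * V, by positivity, fun ε hε => ?_⟩
  obtain ⟨hε0, hε1⟩ := hε
  set N : ℕ := ⌈2 * R / ε⌉₊ + 1 with hN
  have hNle : (N : ℝ) ≤ 2 * R / ε + 2 := by
    rw [hN]
    push_cast
    have := (Nat.ceil_lt_add_one (a := 2 * R / ε) (by positivity)).le
    linarith
  have hsub : {x : E3 | ∃ p : E3, ‖p‖ ≤ R ∧ ⟪m1, p⟫ = c1 ∧ ⟪m2, p⟫ = c2 ∧ dist x p ≤ ε} ⊆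
      ⋃ k ∈ Finset.Icc (-(N : ℤ)) N, closedBall (p0 + ((k : ℝ) * ε) • e) (2 * ε) := by
    rintro x ⟨p, hp, hp1, hp2, hx⟩
    obtain ⟨t, ht⟩ := hspan (p - p0) (by rw [inner_sub_right, hp1, h1, sub_self])
      (by rw [inner_sub_right, hp2, h2, sub_self])
    have htR : |t| ≤ 2 * R := by
      have h3 : ‖p - p0‖ = |t| := by rw [ht, norm_smul, he, mul_one, Real.norm_eq_abs]
      have h4 := norm_sub_le p p0
      linarith
    obtain ⟨ht1, ht2⟩ := abs_le.1 htR
    have hceil : 2 * R / ε ≤ ((⌈2 * R / ε⌉₊ : ℕ) : ℝ) := Nat.le_ceil _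
    have hfl := Int.floor_le (t / ε)
    have hfl2 := Int.lt_floor_add_one (t / ε)
    have h5 : t / ε ≤ 2 * R / ε := div_le_div_of_nonneg_right ht2 hε0.le
    have h6 : -(2 * R / ε) ≤ t / ε := by
      rw [← neg_div]; exact div_le_div_of_nonneg_right ht1 hε0.le
    simp only [Set.mem_iUnion]
    refine ⟨⌊t / ε⌋, ?_, ?_⟩
    · rw [Finset.mem_Icc, hN]
      constructor
      · have : (-((⌈2 * R / ε⌉₊ : ℕ) : ℤ) - 1 : ℝ) ≤ (⌊t / ε⌋ : ℝ) := by
          push_cast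
          linarith
        have h7 : (-((⌈2 * R / ε⌉₊ : ℕ) : ℤ) - 1 : ℤ) ≤ ⌊t / ε⌋ := by exact_mod_cast this
        push_cast
        linarith
      · have : (⌊t / ε⌋ : ℝ) ≤ ((⌈2 * R / ε⌉₊ : ℕ) : ℝ) := by linarith
        have h7 : ⌊t / ε⌋ ≤ ((⌈2 * R / ε⌉₊ : ℕ) : ℤ) := by exact_mod_cast this
        push_cast
        linarith
    · rw [mem_closedBall]
      have h8 : p = p0 + t • e := by rw [← ht]; abel
      have h9 : dist p (p0 + ((⌊t / ε⌋ : ℝ) * ε) • e) ≤ ε := by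
        rw [h8, dist_add_left, dist_eq_norm, ← sub_smul, norm_smul, he, mul_one,
          Real.norm_eq_abs, abs_le]
        have h10 : t = t / ε * ε := by field_simp
        constructor
        · nlinarith
        · nlinarith
      have h11 := dist_triangle x p (p0 + ((⌊t / ε⌋ : ℝ) * ε) • e)
      linarith
  have hvol : ∀ k : ℤ, volume (closedBall (p0 + ((k : ℝ) * ε) • e) (2 * ε)) =
      ENNReal.ofReal (8 * ε ^ 3 * V) := by
    intro k
    rw [Measure.addHaar_closedBall _ _ (by positivity : (0 : ℝ) ≤ 2 * ε)]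
    have h3 : Module.finrank ℝ E3 = 3 := by simp
    rw [h3, ← ENNReal.ofReal_toReal hVtop, ← ENNReal.ofReal_mul (by positivity)]
    congr 1
    rw [← hV]
    ring
  refine (measure_mono hsub).trans ((measure_biUnion_finset_le _ _).trans ?_)
  simp only [hvol]
  rw [Finset.sum_const, Int.card_Icc, nsmul_eq_mul, ← ENNReal.ofReal_natCast,
    ← ENNReal.ofReal_mul (Nat.cast_nonneg _)]
  refine ENNReal.ofReal_le_ofReal ?_
  have hcard : (((N : ℤ) + 1 - -(N : ℤ)).toNat : ℝ) = 2 * N + 1 := by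
    have : ((N : ℤ) + 1 - -(N : ℤ)).toNat = 2 * N + 1 := by omega
    rw [this]
    push_cast
    ring
  rw [hcard]
  have h12 : (2 * (N : ℝ) + 1) * ε ≤ 4 * R + 5 := by
    have h13 : (2 * (N : ℝ) + 1) * ε ≤ (2 * (2 * R / ε + 2) + 1) * ε :=
      mul_le_mul_of_nonneg_right (by linarith) hε0.le
    have h14 : (2 * (2 * R / ε + 2) + 1) * ε = 4 * R + 5 * ε := by
      field_simp
      ring
    linarith
  have h15 : (2 * (N : ℝ) + 1) * (8 * ε ^ 3 * V) = ((2 * (N : ℝ) + 1) * ε) * (8 * V * ε ^ 2) := by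
    ring
  have h16 : (4 * R + 5) * 8 * V * ε ^ 2 = (4 * R + 5) * (8 * V * ε ^ 2) := by ring
  rw [h15, h16]
  exact mul_le_mul_of_nonneg_right h12 (by positivity)

end Pool.Agent.Helper83.CP
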