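import Pool.Agent.Helper83.CP.Defs
import Pool.Agent.Helper83.CP.SteinerCyl
import Pool.Agent.Helper83.CP.SteinerEdge

/-!
# Project CP (helper83), module Steiner
Upper bound for the volume of the `ε`-neighbourhood of a polytope.

Proof. Let `Q = QQ m c` (compact), `x ∈ Q_ε` minus `Q`, nearest point `p ∈ Q`, `0 < |x-p| ≤ ε`. There is an `i` with `⟪m i,p⟫ = c i` (otherwise `p` is an interior point of `Q` and not nearest). If only one `i` has this property then near `p` the set `Q` is the
half space `{⟪m i,.⟫ ≤ c i}`, so `x - p` is a positive multiple of `m i` (the component of `x-p` orthogonal to `m i` must vanish, otherwise move `p` a little in this direction; and the factor is not negative), `x = p + t m_i`, `0 < t ≤ ε`: `volume_cyl`.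
Otherwise `p` satisfies two different equations `⟪m i,p⟫ = c i`, `⟪m j,p⟫ = c j`, `i ≠ j`; here `m i`, `m j` are linearly independent because if `m j = m i` then `c i = c j`, contradiction to `Ply.inj`, and if `m j = -m i` then `c j = -c i` and `Q` is contained in a plane,
contradiction to `Ply.int`; so `x` is in the set of `volume_edge` (`R` a bound for `Q`). Sum over all `i` and all pairs.
-/

set_option autoImplicit false

open MeasureTheory Set Filter Topology Metric
open scoped RealInnerProductSpace ENNReal NNReal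

namespace Pool.Agent.Helper83.CP

open Pool.Agent.Helper1.CK (E3 nEnergy V1 Content Good)

private theorem st_closed {ι : Type} (m : ι → E3) (c : ι → ℝ) : IsClosed (QQ m c) := by
  have h : QQ m c = ⋂ i, {x : E3 | ⟪m i, x⟫ ≤ c i} := by
    ext x
    simp [QQ]
  rw [h]
  exact isClosed_iInter fun i =>
    isClosed_le (continuous_const.inner continuous_id) continuous_const

private theorem st_convex {ι : Type} (m : ι → E3) (c : ι → ℝ) : Convex ℝ (QQ m c) := by
  intro x hx y hy a b ha hb hab i
  have h1 := mul_le_mul_of_nonneg_left (hx i) ha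
  have h2 := mul_le_mul_of_nonneg_left (hy i) hb
  rw [inner_add_right, inner_smul_right, inner_smul_right]
  calc a * ⟪m i, x⟫ + b * ⟪m i, y⟫ ≤ a * c i + b * c i := add_le_add h1 h2
    _ = c i := by rw [← add_mul, hab, one_mul]

private theorem st_var {K : Set E3} (hK : Convex ℝ K) {x p : E3} (hp : p ∈ K)
    (h : ∀ y ∈ K, dist x p ≤ dist x y) : ∀ y ∈ K, ⟪x - p, y - p⟫ ≤ 0 := by
  refine (norm_eq_iInf_iff_real_inner_le_zero hK hp).1 ?_
  haveI : Nonempty K := ⟨⟨p, hp⟩⟩
  refine le_antisymm (le_ciInf fun w => ?_) ?_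
  · have := h w w.2
    rwa [dist_eq_norm, dist_eq_norm] at this
  · exact ciInf_le ⟨0, by rintro _ ⟨w, rfl⟩; exact norm_nonneg _⟩ (⟨p, hp⟩ : K)

/-- moving `p` in the direction `w` -/
private theorem st_move {ι : Type} [Fintype ι] {m : ι → E3} {c : ι → ℝ} {x p w : E3}
    (hp : p ∈ QQ m c) (hv : ∀ y ∈ QQ m c, ⟪x - p, y - p⟫ ≤ 0)
    (hw : ∀ i, ⟪m i, p⟫ = c i → ⟪m i, w⟫ ≤ 0) : ⟪x - p, w⟫ ≤ 0 := by
  have h1 : ∀ᶠ t : ℝ in 𝓝[>] 0, ∀ i, ⟪m i, p + t • w⟫ ≤ c i := by
    refine Filter.eventually_all.2 fun i => ?_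
    rcases (hp i).lt_or_eq with hlt | heq
    · have hc : Continuous fun t : ℝ => ⟪m i, p + t • w⟫ := by fun_prop
      have h0 : (fun t : ℝ => ⟪m i, p + t • w⟫) 0 < c i := by simpa using hlt
      have := (hc.tendsto 0).eventually (gt_mem_nhds h0)
      exact (this.filter_mono nhdsWithin_le_nhds).mono fun t ht => ht.le
    · filter_upwards [self_mem_nhdsWithin] with t ht
      have ht' : (0 : ℝ) < t := ht
      rw [inner_add_right, inner_smul_right, heq]
      have := mul_nonpos_of_nonneg_of_nonpos ht'.le (hw i heq)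
      linarith
  obtain ⟨t, ht, ht0⟩ := (h1.and self_mem_nhdsWithin).exists
  have ht0' : (0 : ℝ) < t := ht0
  have h2 := hv (p + t • w) ht
  rw [add_sub_cancel_left, inner_smul_right] at h2
  by_contra hcon
  have := mul_pos ht0' (not_le.1 hcon)
  linarith

private theorem st_indep {ι : Type} {m : ι → E3} {c : ι → ℝ} (hP : Ply m c) {i j : ι}
    (hij : i ≠ j) {p : E3} (hi : ⟪m i, p⟫ = c i) (hj : ⟪m j, p⟫ = c j) :
    LinearIndependent ℝ ![m i, m j] := by
  rw [LinearIndependent.pair_iff]
  intro s t hst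
  have ht : t = 0 := by
    by_contra ht
    have h1 : m j = (-(s / t)) • m i := by
      have h2 : t • m j = (-s) • m i := by
        rw [neg_smul]; exact eq_neg_of_add_eq_zero_right hst
      calc m j = t⁻¹ • (t • m j) := by rw [smul_smul, inv_mul_cancel₀ ht, one_smul]
        _ = (-(s / t)) • m i := by
          rw [h2, smul_smul]; ring_nf
    have h3 : |(-(s / t))| = 1 := by
      have := congrArg norm h1
      rw [norm_smul, hP.unit, hP.unit, mul_one, Real.norm_eq_abs] at this
      exact this.symm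
    rcases eq_or_eq_neg_of_abs_eq h3 with h4 | h4
    · rw [h4, one_smul] at h1
      apply hij
      apply hP.inj
      have : c i = c j := by rw [← hi, ← hj, h1]
      simp only [Prod.mk.injEq]
      exact ⟨h1.symm, this⟩
    · rw [h4, neg_smul, one_smul] at h1
      have hcj : c j = - c i := by rw [← hi, ← hj, h1, inner_neg_left]
      obtain ⟨z, hz⟩ := hP.int
      have h5 : ∀ᶠ t : ℝ in 𝓝[>] 0, z + t • m i ∈ QQ m c := by
        have hc : Continuous fun t : ℝ => z + t • m i := by fun_prop
        have h0 : QQ m c ∈ 𝓝 ((fun t : ℝ => z + t • m i) 0) := by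
          simpa using mem_interior_iff_mem_nhds.1 hz
        exact ((hc.tendsto 0).eventually h0).filter_mono nhdsWithin_le_nhds
      obtain ⟨r, hr, hr0⟩ := (h5.and self_mem_nhdsWithin).exists
      have hr0' : (0 : ℝ) < r := hr0
      have h6 := hr i
      have h7 := (interior_subset hz) j
      rw [h1, inner_neg_left, hcj] at h7
      rw [inner_add_right, inner_smul_right, real_inner_self_eq_norm_sq, hP.unit] at h6
      linarith
  subst ht
  rw [zero_smul, add_zero] at hst
  refine ⟨?_, rfl⟩
  rcases smul_eq_zero.1 hst with h | h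
  · exact h
  · exfalso
    have := hP.unit i
    rw [h, norm_zero] at this
    exact zero_ne_one this

theorem steiner {ι : Type} [Fintype ι] {m : ι → E3} {c : ι → ℝ} (hP : Ply m c) :
    ∃ C : ℝ, 0 ≤ C ∧ ∀ ε ∈ Ioc (0 : ℝ) 1, volume (cthickening ε (QQ m c)) ≤
      volume (QQ m c) + ENNReal.ofReal ε * sgm m c univ + ENNReal.ofReal (C * ε ^ 2) := by
  classical
  obtain ⟨R, hR⟩ := hP.bdd.exists_norm_le
  have hcpt : IsCompact (QQ m c) := isCompact_of_isClosed_isBounded (st_closed m c) hP.bdd
  have hedge : ∀ q : ι × ι, ∃ C : ℝ, 0 ≤ C ∧ (LinearIndependent ℝ ![m q.1, m q.2] →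
      ∀ ε ∈ Ioc (0 : ℝ) 1,
      volume {x : E3 | ∃ p : E3, ‖p‖ ≤ R ∧ ⟪m q.1, p⟫ = c q.1 ∧ ⟪m q.2, p⟫ = c q.2 ∧
        dist x p ≤ ε} ≤ ENNReal.ofReal (C * ε ^ 2)) := by
    intro q
    by_cases hl : LinearIndependent ℝ ![m q.1, m q.2]
    · obtain ⟨C, hC, h⟩ := volume_edge hl (c q.1) (c q.2) R
      exact ⟨C, hC, fun _ => h⟩
    · exact ⟨0, le_rfl, fun h => absurd h hl⟩
  choose C hC0 hC using hedge
  refine ⟨∑ q, C q, Finset.sum_nonneg fun q _ => hC0 q, fun ε hε => ?_⟩
  set E : ι × ι → Set E3 := fun q =>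
    if LinearIndependent ℝ ![m q.1, m q.2] then
      {x : E3 | ∃ p : E3, ‖p‖ ≤ R ∧ ⟪m q.1, p⟫ = c q.1 ∧ ⟪m q.2, p⟫ = c q.2 ∧ dist x p ≤ ε}
    else ∅ with hE
  set Y : ι → Set E3 := fun i =>
    {x : E3 | ∃ p ∈ QQ m c, ⟪m i, p⟫ = c i ∧ ∃ t ∈ Ioc 0 ε, x = p + t • m i} with hY
  have hsub : cthickening ε (QQ m c) ⊆ QQ m c ∪ (⋃ i, Y i) ∪ ⋃ q, E q := by
    intro x hx
    by_cases hxQ : x ∈ QQ m c
    · exact Or.inl (Or.inl hxQ)
    have hne : (QQ m c).Nonempty := hP.int.mono interior_subset
    obtain ⟨p, hp, hpd⟩ := hcpt.exists_infDist_eq_dist hne x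
    have hpε : dist x p ≤ ε := by
      rw [hcpt.cthickening_eq_biUnion_closedBall hε.1.le] at hx
      simp only [mem_iUnion, mem_closedBall] at hx
      obtain ⟨y, hy, hxy⟩ := hx
      rw [← hpd]
      exact (infDist_le_dist_of_mem hy).trans hxy
    have hvar := st_var (st_convex m c) hp (fun y hy => by
      rw [← hpd]; exact infDist_le_dist_of_mem hy)
    have hd : x - p ≠ 0 := by
      intro h
      rw [sub_eq_zero] at h
      exact hxQ (h ▸ hp)
    have hex : ∃ i, ⟪m i, p⟫ = c i := by
      by_contra hno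
      push_neg at hno
      have := st_move (w := x - p) hp hvar (fun i hi => absurd hi (hno i))
      rw [real_inner_self_eq_norm_sq] at this
      have h2 : 0 < ‖x - p‖ ^ 2 := by positivity
      linarith
    obtain ⟨i, hi⟩ := hex
    by_cases hone : ∀ j, ⟪m j, p⟫ = c j → j = i
    · left; right
      rw [mem_iUnion]
      refine ⟨i, p, hp, hi, ⟪m i, x - p⟫, ?_, ?_⟩
      all_goals
        have hv0 : (x - p) - ⟪m i, x - p⟫ • m i = 0 := by
          have hmv : ⟪m i, (x - p) - ⟪m i, x - p⟫ • m i⟫ = 0 := by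
            rw [inner_sub_right, inner_smul_right, real_inner_self_eq_norm_sq, hP.unit]
            ring
          have h1 := st_move (w := (x - p) - ⟪m i, x - p⟫ • m i) hp hvar (fun j hj => by
            rw [hone j hj, hmv])
          have h2 : ⟪x - p, (x - p) - ⟪m i, x - p⟫ • m i⟫ =
              ‖(x - p) - ⟪m i, x - p⟫ • m i‖ ^ 2 := by
            rw [← real_inner_self_eq_norm_sq ((x - p) - ⟪m i, x - p⟫ • m i)]
            nth_rewrite 2 [inner_sub_left]
            rw [inner_smul_left, hmv]
            simp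
          rw [h2] at h1
          have h3 : ‖(x - p) - ⟪m i, x - p⟫ • m i‖ = 0 := by
            have := norm_nonneg ((x - p) - ⟪m i, x - p⟫ • m i)
            nlinarith
          exact norm_eq_zero.1 h3
        rw [sub_eq_zero] at hv0
      · have hs0 : 0 ≤ ⟪m i, x - p⟫ := by
          have h1 := st_move (w := - m i) hp hvar (fun j hj => by
            rw [hone j hj, inner_neg_right, real_inner_self_eq_norm_sq, hP.unit]; norm_num)
          rw [inner_neg_right, real_inner_comm] at h1
          linarith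
        have hnorm : ‖x - p‖ = ⟪m i, x - p⟫ := by
          have h5 := congrArg norm hv0
          rw [norm_smul, hP.unit, mul_one, Real.norm_eq_abs, abs_of_nonneg hs0] at h5
          exact h5
        rw [← hnorm]
        exact ⟨norm_pos_iff.2 hd, by rw [← dist_eq_norm]; exact hpε⟩
      · rw [← hv0]; abel
    · push_neg at hone
      obtain ⟨j, hj, hji⟩ := hone
      right
      rw [mem_iUnion]
      refine ⟨(i, j), ?_⟩
      have hl := st_indep hP (Ne.symm hji) hi hj
      simp only [hE]
      rw [if_pos hl]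
      exact ⟨p, hR p hp, hi, hj, hpε⟩
  have hY' : ∀ i, volume (Y i) ≤ ENNReal.ofReal ε * sg m c i univ := fun i =>
    volume_cyl m c (hP.unit i) hε.1.le
  have hE' : ∀ q, volume (E q) ≤ ENNReal.ofReal (C q * ε ^ 2) := by
    intro q
    simp only [hE]
    split_ifs with hl
    · exact hC q hl ε hε
    · simp
  calc volume (cthickening ε (QQ m c)) ≤ volume (QQ m c ∪ (⋃ i, Y i) ∪ ⋃ q, E q) :=
        measure_mono hsub
    _ ≤ volume (QQ m c) + volume (⋃ i, Y i) + volume (⋃ q, E q) :=
        (measure_union_le _ _).trans (add_le_add (measure_union_le _ _) le_rfl)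
    _ ≤ volume (QQ m c) + ∑ i, volume (Y i) + ∑ q, volume (E q) :=
        add_le_add (add_le_add le_rfl (measure_iUnion_fintype_le _ _))
          (measure_iUnion_fintype_le _ _)
    _ ≤ volume (QQ m c) + ∑ i, ENNReal.ofReal ε * sg m c i univ +
          ∑ q, ENNReal.ofReal (C q * ε ^ 2) :=
        add_le_add (add_le_add le_rfl (Finset.sum_le_sum fun i _ => hY' i))
          (Finset.sum_le_sum fun q _ => hE' q)
    _ = volume (QQ m c) + ENNReal.ofReal ε * sgm m c univ +
          ENNReal.ofReal ((∑ q, C q) * ε ^ 2) := by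
        rw [← Finset.mul_sum, ← ENNReal.ofReal_sum_of_nonneg (fun q _ => by
          have := hC0 q; positivity), ← Finset.sum_mul]
        simp only [sgm, Measure.coe_finset_sum, Finset.sum_apply]

end Pool.Agent.Helper83.CP
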