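import Pool.Agent.Helper83.CP.Defs
import Pool.Agent.Helper83.CP.Mono
import Pool.Agent.Helper83.CP.Steiner
import Pool.Agent.Helper83.CP.FaceInt

/-!
# Project CP (helper83), module ContentLe
The surface area (outer Minkowski content) of `K` is at most the surface area of a polytope containing `K`.

Proof. By `vol_mono` and `steiner`, for `0 < ε ≤ 1`: `(vol K_ε - vol K)/ε ≤ (vol Q_ε - vol Q)/ε ≤ sgm(univ) + C ε` (real numbers; `sgm m c univ < ⊤` by `sgm_univ_lt_top`), let `ε → 0`.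
-/

set_option autoImplicit false

open MeasureTheory Set Filter Topology Metric
open scoped RealInnerProductSpace ENNReal NNReal

namespace Pool.Agent.Helper83.CP

open Pool.Agent.Helper1.CK (E3 nEnergy V1 Content Good)

private theorem cl_good {ι : Type} {m : ι → E3} {c : ι → ℝ} (hP : Ply m c) : Good (QQ m c) := by
  have hcl : IsClosed (QQ m c) := by
    have h : QQ m c = ⋂ i, {x : E3 | ⟪m i, x⟫ ≤ c i} := by
      ext x
      simp [QQ]
    rw [h]
    exact isClosed_iInter fun i =>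
      isClosed_le (continuous_const.inner continuous_id) continuous_const
  refine ⟨isCompact_of_isClosed_isBounded hcl hP.bdd, ?_, hP.int.mono interior_subset⟩
  intro x hx y hy a b ha hb hab i
  have h1 := mul_le_mul_of_nonneg_left (hx i) ha
  have h2 := mul_le_mul_of_nonneg_left (hy i) hb
  rw [inner_add_right, inner_smul_right, inner_smul_right]
  calc a * ⟪m i, x⟫ + b * ⟪m i, y⟫ ≤ a * c i + b * c i := add_le_add h1 h2
    _ = c i := by rw [← add_mul, hab, one_mul]

theorem content_le {K : Set E3} (hK : Good K) {S : ℝ} (hC : Content K S) {ι : Type} [Fintype ι]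
    {m : ι → E3} {c : ι → ℝ} (hP : Ply m c) (h : K ⊆ QQ m c) :
    ENNReal.ofReal S ≤ sgm m c univ := by
  have hQ : Good (QQ m c) := cl_good hP
  obtain ⟨C, hC0, hCε⟩ := steiner hP
  have hfin : sgm m c univ ≠ ⊤ := (sgm_univ_lt_top hP.bdd).ne
  have hKf : volume K ≠ ⊤ := hK.cpt.measure_lt_top.ne
  have hQf : volume (QQ m c) ≠ ⊤ := hQ.cpt.measure_lt_top.ne
  have hlim : Tendsto (fun ε : ℝ => (sgm m c univ).toReal + C * ε) (𝓝[>] (0 : ℝ))
      (𝓝 ((sgm m c univ).toReal)) := by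
    have h1 : Tendsto (fun ε : ℝ => (sgm m c univ).toReal + C * ε) (𝓝 (0 : ℝ))
        (𝓝 ((sgm m c univ).toReal + C * 0)) :=
      (by fun_prop : Continuous fun ε : ℝ => (sgm m c univ).toReal + C * ε).tendsto 0
    rw [mul_zero, add_zero] at h1
    exact h1.mono_left nhdsWithin_le_nhds
  have hle : ∀ᶠ ε : ℝ in 𝓝[>] (0 : ℝ),
      ((volume (cthickening ε K)).toReal - (volume K).toReal) / ε ≤
        (sgm m c univ).toReal + C * ε := by
    have hIoc : ∀ᶠ ε : ℝ in 𝓝[>] (0 : ℝ), ε ∈ Ioc (0 : ℝ) 1 :=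
      Ioc_mem_nhdsGT zero_lt_one
    filter_upwards [hIoc] with ε hε
    have hKεf : volume (cthickening ε K) ≠ ⊤ := hK.cpt.cthickening.measure_lt_top.ne
    have hQεf : volume (cthickening ε (QQ m c)) ≠ ⊤ := hQ.cpt.cthickening.measure_lt_top.ne
    have h1 := ENNReal.toReal_mono (ENNReal.add_ne_top.2 ⟨hQεf, hKf⟩)
      (vol_mono hK hQ h hε.1.le)
    rw [ENNReal.toReal_add hKεf hQf, ENNReal.toReal_add hQεf hKf] at h1
    have hmul : ENNReal.ofReal ε * sgm m c univ ≠ ⊤ :=
      ENNReal.mul_ne_top ENNReal.ofReal_ne_top hfin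
    have h2 := ENNReal.toReal_mono (ENNReal.add_ne_top.2
      ⟨ENNReal.add_ne_top.2 ⟨hQf, hmul⟩, ENNReal.ofReal_ne_top⟩) (hCε ε hε)
    rw [ENNReal.toReal_add (ENNReal.add_ne_top.2 ⟨hQf, hmul⟩) ENNReal.ofReal_ne_top,
      ENNReal.toReal_add hQf hmul, ENNReal.toReal_mul, ENNReal.toReal_ofReal hε.1.le,
      ENNReal.toReal_ofReal (by positivity)] at h2
    rw [div_le_iff₀ hε.1]
    nlinarith [h1, h2]
  have hS : S ≤ (sgm m c univ).toReal := le_of_tendsto_of_tendsto hC hlim hle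
  calc ENNReal.ofReal S ≤ ENNReal.ofReal (sgm m c univ).toReal := ENNReal.ofReal_le_ofReal hS
    _ = sgm m c univ := ENNReal.ofReal_toReal hfin

end Pool.Agent.Helper83.CP
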