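import Pool.Agent.Helper1.CK.Defs

/-!
# Project CP (helper83): capacity versus surface area, the constant `8/√π` (MP_68da2e_an)

Definitions. The mathematical text is `helper83_CP_Guide.md` in the team store.
-/

set_option autoImplicit false

open MeasureTheory Set Filter Topology Metric
open scoped RealInnerProductSpace ENNReal NNReal

namespace Pool.Agent.Helper83.CP

open Pool.Agent.Helper1.CK (E3 nEnergy V1 Content)

/-! ## Part A: convex polygons in the plane -/

/-- the cross product of two plane vectors -/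
def cr (a b : ℂ) : ℝ := a.re * b.im - a.im * b.re

/-- the real inner product of two plane vectors -/
def ip (a b : ℂ) : ℝ := a.re * b.re + a.im * b.im

/-- Convex closed polygon with `n` vertices `v 0, …, v (n-1)` (counterclockwise, degenerate polygons
such as double segments are allowed), as an `n`-periodic sequence. -/
structure CPoly (n : ℕ) (v : ℕ → ℂ) : Prop where
  per : ∀ i, v (i + n) = v i
  cyc : ∀ i j k, i < j → j < k → k < i + n → 0 ≤ cr (v j - v i) (v k - v i)
  chord : ∀ i j k l, i < j → j < k → k < l → l < i + n →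
    (segment ℝ (v i) (v k) ∩ segment ℝ (v j) (v l)).Nonempty

/-- the length of the side `i` -/
noncomputable def len (v : ℕ → ℂ) (i : ℕ) : ℝ := ‖v (i + 1) - v i‖

/-- the point at distance `t` from `v i` on the side `i`, for side lengths `l` -/
noncomputable def side (l : ℕ → ℝ) (v : ℕ → ℂ) (i : ℕ) (t : ℝ) : ℂ :=
  v i + ((t / l i : ℝ) : ℂ) * (v (i + 1) - v i)

/-- admissible densities: `b i t` is the density at the point at distance `t` from `v i` on side `i` -/
structure Dens (n : ℕ) (b : ℕ → ℝ → ℝ) : Prop where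
  per : ∀ i, b (i + n) = b i
  meas : ∀ i, Measurable (b i)
  bdd : ∃ C : ℝ, ∀ i t, 0 ≤ b i t ∧ b i t ≤ C

/-- total mass -/
noncomputable def Mm (n : ℕ) (l : ℕ → ℝ) (b : ℕ → ℝ → ℝ) : ℝ :=
  ∑ i ∈ Finset.range n, ∫ t in (0 : ℝ)..l i, b i t

/-- integral of the squared density -/
noncomputable def Bm (n : ℕ) (l : ℕ → ℝ) (b : ℕ → ℝ → ℝ) : ℝ :=
  ∑ i ∈ Finset.range n, ∫ t in (0 : ℝ)..l i, b i t ^ 2

/-- the double integral of the distance -/
noncomputable def Tm (n : ℕ) (l : ℕ → ℝ) (v : ℕ → ℂ) (b : ℕ → ℝ → ℝ) : ℝ :=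
  ∑ i ∈ Finset.range n, ∑ j ∈ Finset.range n,
    ∫ t in (0 : ℝ)..l i, ∫ s in (0 : ℝ)..l j, ‖side l v i t - side l v j s‖ * (b i t * b j s)

/-- the planar lemma for polygons with `n` vertices -/
def PL (n : ℕ) : Prop :=
  ∀ (v : ℕ → ℂ) (b : ℕ → ℝ → ℝ), CPoly n v → (∀ i, v (i + 1) ≠ v i) → Dens n b →
    Real.pi ^ 2 / 64 * Mm n (len v) b ^ 4 ≤ Bm n (len v) b * Tm n (len v) v b

/-- the point dividing the side `i` in the ratio `t : 1 - t` -/
noncomputable def pt (v : ℕ → ℂ) (i : ℕ) (t : ℝ) : ℂ := ((1 - t : ℝ) : ℂ) * v i + (t : ℂ) * v (i + 1)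

/-- no vertex lies between its two neighbours -/
def NoFlat (v : ℕ → ℂ) : Prop := ∀ i, v (i + 1) ∉ segment ℝ (v i) (v (i + 2))

/-- strictly convex -/
def Strict (n : ℕ) (v : ℕ → ℂ) : Prop :=
  ∀ i j k, i < j → j < k → k < i + n → 0 < cr (v j - v i) (v k - v i)

/-- `v` with the vertices `1` and `2` (mod `n`) replaced by `p` and `q` -/
def upd (n : ℕ) (v : ℕ → ℂ) (p q : ℂ) (i : ℕ) : ℂ :=
  if i % n = 1 then p else if i % n = 2 then q else v i

/-- the `n`-periodic extension of a sequence of length `n` -/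
def ext {n : ℕ} (hn : 0 < n) (x : Fin n → ℂ) (i : ℕ) : ℂ := x ⟨i % n, Nat.mod_lt i hn⟩

/-- the frontier of `C` as a function `x` of the angle -/
structure Rad (C : Set ℂ) (x : ℝ → ℂ) : Prop where
  cont : Continuous x
  per : ∀ φ, x (φ + 2 * Real.pi) = x φ
  mem : ∀ φ, x φ ∈ frontier C
  dir : ∀ φ : ℝ, ∃ r : ℝ, 0 < r ∧ x φ = r * Complex.exp (φ * Complex.I)
  uniq : ∀ z ∈ frontier C, ∀ φ r : ℝ, 0 < r → z = r * Complex.exp (φ * Complex.I) → z = x φ

/-- the vertices of the inscribed polygon with equal angles -/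
noncomputable def vv (x : ℝ → ℂ) (N k : ℕ) : ℂ := x (2 * Real.pi * k / N)

/-- the segment `{a + s f : α ≤ s ≤ β}` -/
def arc (a f : ℂ) (α β : ℝ) : Set ℂ := (fun s : ℝ => a + (s : ℂ) * f) '' Icc α β

/-- sixteen times the squared area of the triangle with sides `a`, `b`, `√X`, divided by `X` -/
noncomputable def uu (a b X : ℝ) : ℝ := -X + 2 * (a ^ 2 + b ^ 2) - (a ^ 2 - b ^ 2) ^ 2 / X

/-- the square of the second diagonal of a convex quadrilateral with sides `a, b, c, e` (in this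
order) as a function of the square `X` of the first diagonal, which has `a, b` on one side and
`c, e` on the other -/
noncomputable def YY (a b c e X : ℝ) : ℝ :=
  a ^ 2 + e ^ 2 - (X + (a ^ 2 - b ^ 2) + (e ^ 2 - c ^ 2) +
    (a ^ 2 - b ^ 2) * (e ^ 2 - c ^ 2) / X) / 2 + √(uu a b X) * √(uu e c X) / 2

/-! ## Part S: polytopes, face measures, plane sections -/

/-- the polytope `{x : ⟪m i, x⟫ ≤ c i for all i}` -/
def QQ {ι : Type} (m : ι → E3) (c : ι → ℝ) : Set E3 := {x | ∀ i, ⟪m i, x⟫ ≤ c i}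

/-- hypotheses on the polytope -/
structure Ply {ι : Type} (m : ι → E3) (c : ι → ℝ) : Prop where
  unit : ∀ i, ‖m i‖ = 1
  inj : Function.Injective fun i => (m i, c i)
  bdd : Bornology.IsBounded (QQ m c)
  int : (interior (QQ m c)).Nonempty

/-- area measure on the face `i` -/
noncomputable def sg {ι : Type} (m : ι → E3) (c : ι → ℝ) (i : ι) : Measure E3 :=
  Measure.map (fun y : (ℝ ∙ m i)ᗮ => c i • m i + (y : E3))
    (volume.restrict {y : (ℝ ∙ m i)ᗮ | c i • m i + (y : E3) ∈ QQ m c})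

/-- area measure on the boundary of the polytope -/
noncomputable def sgm {ι : Type} [Fintype ι] (m : ι → E3) (c : ι → ℝ) : Measure E3 :=
  ∑ i, sg m c i

/-- the length of the component of `g` orthogonal to the unit vector `n` -/
noncomputable def rr (g n : E3) : ℝ := √(‖g‖ ^ 2 - ⟪g, n⟫ ^ 2)

/-- the vector orthogonal to `n` in the plane of `g, n` with `⟪g, ww g n⟫ = 1` -/
noncomputable def ww (g n : E3) : E3 := (rr g n ^ 2)⁻¹ • (g - ⟪g, n⟫ • n)

/-- a unit vector orthogonal to `g` and `n` -/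
noncomputable def ff (g n : E3) : E3 :=
  Classical.epsilon (fun f : E3 => ‖f‖ = 1 ∧ ⟪g, f⟫ = 0 ∧ ⟪n, f⟫ = 0)

/-- parametrisation of the plane `⟪n, x⟫ = c` with `⟪g, AA g n c h s⟫ = h` -/
noncomputable def AA (g n : E3) (c h s : ℝ) : E3 :=
  c • (n - ⟪g, n⟫ • ww g n) + h • ww g n + s • ff g n

/-- the mollified delta function -/
noncomputable def kk (ε s : ℝ) : ℝ≥0∞ := if |s| < ε then ENNReal.ofReal (1 / (2 * ε)) else 0

/-- directions in general position -/
structure Gen {ι : Type} (m : ι → E3) (g : E3) : Prop where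
  ne : g ≠ 0
  par : ∀ i, ⟪g, m i⟫ ^ 2 < ‖g‖ ^ 2
  pair : ∀ i j, LinearIndependent ℝ ![m i, m j] → g ∉ Submodule.span ℝ {m i, m j}

/-- the parameters of the section of the face `i` at height `h` -/
def Us {ι : Type} (m : ι → E3) (c : ι → ℝ) (g : E3) (i : ι) (h : ℝ) : Set ℝ :=
  {s | AA g (m i) (c i) h s ∈ QQ m c}

/-- the mass of the section at height `h` -/
noncomputable def Bh {ι : Type} [Fintype ι] (m : ι → E3) (c : ι → ℝ) (g : E3) (h : ℝ) : ℝ≥0∞ :=
  ∑ i, ENNReal.ofReal (rr g (m i))⁻¹ * volume (Us m c g i h)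

/-- the integral of the squared density over the section at height `h` -/
noncomputable def bh {ι : Type} [Fintype ι] (m : ι → E3) (c : ι → ℝ) (g : E3) (h : ℝ) : ℝ≥0∞ :=
  ∑ i, ENNReal.ofReal (rr g (m i))⁻¹ ^ 2 * volume (Us m c g i h)

/-- the double integral of the distance over the section at height `h` -/
noncomputable def Th {ι : Type} [Fintype ι] (m : ι → E3) (c : ι → ℝ) (g : E3) (h : ℝ) : ℝ≥0∞ :=
  ∑ i, ∑ j, ENNReal.ofReal (rr g (m i))⁻¹ * ENNReal.ofReal (rr g (m j))⁻¹ *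
    ∫⁻ s in Us m c g i h, ∫⁻ s' in Us m c g j h,
      edist (AA g (m i) (c i) h s) (AA g (m j) (c j) h s')

/-- the mollified energy in the direction `g` -/
noncomputable def Je (σ : Measure E3) (ε : ℝ) (g : E3) : ℝ≥0∞ :=
  ∫⁻ x, ∫⁻ y, kk ε ⟪g, x - y⟫ ∂σ ∂σ

/-- the mollified distance integral in the direction `g` -/
noncomputable def Te (σ : Measure E3) (ε : ℝ) (g : E3) : ℝ≥0∞ :=
  ∫⁻ x, ∫⁻ y, kk ε ⟪g, x - y⟫ * edist x y ∂σ ∂σ

/-- the integral of the squared density, summed over the faces -/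
noncomputable def be {ι : Type} [Fintype ι] (m : ι → E3) (c : ι → ℝ) (g : E3) : ℝ≥0∞ :=
  ∑ i, ENNReal.ofReal (rr g (m i))⁻¹ * sg m c i univ

/-- `ε_k = 1/(k+1)` -/
noncomputable def ek (k : ℕ) : ℝ := 1 / ((k : ℝ) + 1)

end Pool.Agent.Helper83.CP
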