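import Pool.Agent.Helper83.CP.Defs
import Pool.Agent.Helper83.CP.FaceInt

/-!
# Project CP (helper83), module JeLe
`Je(σ,ε,g) = ∬ kk(ε,h-h') Bh(h) Bh(h') dh dh' ≤ ∫ Bh²` (by `lintegral_sg` twice; `a b ≤ (a²+b²)/2` and `∫ kk(ε,t) dt = 1`), and `∫ bh dh = be`
(`lintegral_sg` with `F = 1`). Measurability: `volume (Us i h)` is a measurable function of `h` (`measurable_measure_prodMk_left` for the closed set in `isClosed_Us`).
-/

set_option autoImplicit false

open MeasureTheory Set Filter Topology Metric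
open scoped RealInnerProductSpace ENNReal NNReal

namespace Pool.Agent.Helper83.CP

open Pool.Agent.Helper1.CK (E3 nEnergy V1 Content Good)

private theorem measurable_vUs {ι : Type} (m : ι → E3) (c : ι → ℝ) (g : E3) (i : ι) :
    Measurable fun h : ℝ => volume (Us m c g i h) :=
  measurable_measure_prodMk_left (isClosed_Us m c g i).measurableSet

theorem measurable_Bh {ι : Type} [Fintype ι] (m : ι → E3) (c : ι → ℝ) (g : E3) :
    Measurable (Bh m c g) := by
  unfold Bh
  exact Finset.measurable_fun_sum _ fun i _ => (measurable_vUs m c g i).const_mul _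

theorem measurable_bh {ι : Type} [Fintype ι] (m : ι → E3) (c : ι → ℝ) (g : E3) :
    Measurable (bh m c g) := by
  unfold bh
  exact Finset.measurable_fun_sum _ fun i _ => (measurable_vUs m c g i).const_mul _

private theorem measurable_kk (ε : ℝ) : Measurable (kk ε) := by
  unfold kk
  exact Measurable.ite (measurableSet_lt measurable_norm measurable_const) measurable_const
    measurable_const

/-- integral over a face of a function of the height -/
private theorem lint_height {ι : Type} (m : ι → E3) (c : ι → ℝ) {i : ι} (hn : ‖m i‖ = 1)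
    {g : E3} (hg : ⟪g, m i⟫ ^ 2 < ‖g‖ ^ 2) {Φ : ℝ → ℝ≥0∞} (hΦ : Measurable Φ) :
    ∫⁻ x, Φ ⟪g, x⟫ ∂(sg m c i) =
      ∫⁻ h, Φ h * (ENNReal.ofReal (rr g (m i))⁻¹ * volume (Us m c g i h)) := by
  have hF : Measurable fun x : E3 => Φ ⟪g, x⟫ :=
    hΦ.comp (continuous_const.inner continuous_id).measurable
  rw [lintegral_sg m c hn hg hF, ← lintegral_const_mul]
  · refine lintegral_congr fun h => ?_
    have : ∀ s : ℝ, Φ ⟪g, AA g (m i) (c i) h s⟫ = Φ h := fun s => by
      rw [(inner_AA hn hg (c i) h s).1]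
    simp only [this, setLIntegral_const]
    ring
  · have : (fun h : ℝ => ∫⁻ s in Us m c g i h, Φ ⟪g, AA g (m i) (c i) h s⟫) =
        fun h : ℝ => Φ h * volume (Us m c g i h) := by
      funext h
      have : ∀ s : ℝ, Φ ⟪g, AA g (m i) (c i) h s⟫ = Φ h := fun s => by
        rw [(inner_AA hn hg (c i) h s).1]
      simp only [this, setLIntegral_const]
    rw [this]
    exact hΦ.mul (measurable_vUs m c g i)

/-- integral over the boundary of a function of the height -/
private theorem lint_height_all {ι : Type} [Fintype ι] {m : ι → E3} {c : ι → ℝ} (hP : Ply m c)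
    {g : E3} (hg : ∀ i, ⟪g, m i⟫ ^ 2 < ‖g‖ ^ 2) {Φ : ℝ → ℝ≥0∞} (hΦ : Measurable Φ) :
    ∫⁻ x, Φ ⟪g, x⟫ ∂(sgm m c) = ∫⁻ h, Φ h * Bh m c g h := by
  unfold sgm
  rw [lintegral_finsetSum_measure]
  have h1 : ∀ i ∈ Finset.univ, ∫⁻ x, Φ ⟪g, x⟫ ∂(sg m c i) =
      ∫⁻ h, Φ h * (ENNReal.ofReal (rr g (m i))⁻¹ * volume (Us m c g i h)) := fun i _ =>
    lint_height m c (hP.unit i) (hg i) hΦ
  rw [Finset.sum_congr rfl h1, ← lintegral_finsetSum]
  · refine lintegral_congr fun h => ?_
    unfold Bh
    rw [Finset.mul_sum]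
  · intro i _
    exact hΦ.mul ((measurable_vUs m c g i).const_mul _)

private theorem lint_kk {ε : ℝ} (hε : 0 < ε) (h : ℝ) : ∫⁻ h', kk ε (h - h') = 1 := by
  have h1 : (fun h' => kk ε (h - h')) =
      (Ioo (h - ε) (h + ε)).indicator fun _ => ENNReal.ofReal (1 / (2 * ε)) := by
    funext h'
    unfold kk
    by_cases hh : |h - h'| < ε
    · have hm : h' ∈ Ioo (h - ε) (h + ε) := by
        rw [abs_lt] at hh
        constructor <;> linarith [hh.1, hh.2]
      rw [if_pos hh, indicator_of_mem hm]
    · have hm : h' ∉ Ioo (h - ε) (h + ε) := by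
        intro hm
        apply hh
        rw [abs_lt]
        constructor <;> linarith [hm.1, hm.2]
      rw [if_neg hh, indicator_of_notMem hm]
  rw [h1, lintegral_indicator measurableSet_Ioo, setLIntegral_const, Real.volume_Ioo,
    ← ENNReal.ofReal_mul (by positivity)]
  have : 1 / (2 * ε) * (h + ε - (h - ε)) = 1 := by
    field_simp
    ring
  rw [this, ENNReal.ofReal_one]

private theorem kk_symm (ε a b : ℝ) : kk ε (a - b) = kk ε (b - a) := by
  unfold kk
  rw [abs_sub_comm]

private theorem two_mul_le' (a b : ℝ≥0∞) : 2 * (a * b) ≤ a ^ 2 + b ^ 2 := by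
  rcases le_total a b with h | h
  · obtain ⟨d, rfl⟩ := exists_add_of_le h
    calc 2 * (a * (a + d)) = a ^ 2 + (a ^ 2 + 2 * a * d) := by ring
      _ ≤ a ^ 2 + ((a ^ 2 + 2 * a * d) + d ^ 2) := add_le_add le_rfl le_self_add
      _ = _ := by ring
  · obtain ⟨d, rfl⟩ := exists_add_of_le h
    calc 2 * ((b + d) * b) = (b ^ 2 + 2 * b * d) + b ^ 2 := by ring
      _ ≤ ((b ^ 2 + 2 * b * d) + d ^ 2) + b ^ 2 := add_le_add le_self_add le_rfl
      _ = _ := by ring

theorem Je_le {ι : Type} [Fintype ι] {m : ι → E3} {c : ι → ℝ} (hP : Ply m c) {g : E3}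
    (hg : ∀ i, ⟪g, m i⟫ ^ 2 < ‖g‖ ^ 2) {ε : ℝ} (hε : 0 < ε) :
    Je (sgm m c) ε g ≤ ∫⁻ h, Bh m c g h ^ 2 := by
  have hB := measurable_Bh m c g
  have hk := measurable_kk ε
  -- inner integral
  have hin : ∀ x : E3, ∫⁻ y, kk ε ⟪g, x - y⟫ ∂(sgm m c) =
      ∫⁻ h', kk ε (⟪g, x⟫ - h') * Bh m c g h' := by
    intro x
    have := lint_height_all (Φ := fun t => kk ε (⟪g, x⟫ - t)) hP hg
      (hk.comp (measurable_const.sub measurable_id))
    simp only [inner_sub_right]
    exact this
  have hpair : Measurable fun p : ℝ × ℝ => kk ε (p.1 - p.2) * Bh m c g p.2 :=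
    (hk.comp (measurable_fst.sub measurable_snd)).mul (hB.comp measurable_snd)
  have hΨ : Measurable fun t : ℝ => ∫⁻ h', kk ε (t - h') * Bh m c g h' :=
    hpair.lintegral_prod_right'
  have hJ : Je (sgm m c) ε g =
      ∫⁻ h, (∫⁻ h', kk ε (h - h') * Bh m c g h') * Bh m c g h := by
    unfold Je
    simp only [hin]
    exact lint_height_all (Φ := fun t => ∫⁻ h', kk ε (t - h') * Bh m c g h') hP hg hΨ
  have hJ2 : Je (sgm m c) ε g =
      ∫⁻ h, ∫⁻ h', kk ε (h - h') * (Bh m c g h * Bh m c g h') := by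
    rw [hJ]
    refine lintegral_congr fun h => ?_
    rw [← lintegral_mul_const]
    · refine lintegral_congr fun h' => ?_
      ring
    · exact (hk.comp (measurable_const.sub measurable_id)).mul hB
  have hkp : Measurable fun p : ℝ × ℝ => kk ε (p.1 - p.2) :=
    hk.comp (measurable_fst.sub measurable_snd)
  have hA : ∫⁻ h, ∫⁻ h', kk ε (h - h') * Bh m c g h ^ 2 = ∫⁻ h, Bh m c g h ^ 2 := by
    refine lintegral_congr fun h => ?_
    rw [lintegral_mul_const, lint_kk hε, one_mul]
    exact hk.comp (measurable_const.sub measurable_id)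
  have hA' : ∫⁻ h, ∫⁻ h', kk ε (h - h') * Bh m c g h' ^ 2 = ∫⁻ h, Bh m c g h ^ 2 := by
    rw [lintegral_lintegral_swap]
    · calc ∫⁻ h', ∫⁻ h, kk ε (h - h') * Bh m c g h' ^ 2
          = ∫⁻ h', ∫⁻ h, kk ε (h' - h) * Bh m c g h' ^ 2 := by
            refine lintegral_congr fun h' => lintegral_congr fun h => ?_
            rw [kk_symm]
        _ = _ := hA
    · exact (hkp.mul ((hB.comp measurable_snd).pow_const 2)).aemeasurable
  have h2 : 2 * Je (sgm m c) ε g ≤ 2 * ∫⁻ h, Bh m c g h ^ 2 := by
    calc 2 * Je (sgm m c) ε g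
        = ∫⁻ h, ∫⁻ h', kk ε (h - h') * (2 * (Bh m c g h * Bh m c g h')) := by
          rw [hJ2, ← lintegral_const_mul]
          · refine lintegral_congr fun h => ?_
            rw [← lintegral_const_mul]
            · refine lintegral_congr fun h' => ?_
              ring
            · exact (hk.comp (measurable_const.sub measurable_id)).mul (measurable_const.mul hB)
          · exact Measurable.lintegral_prod_right'
              (f := fun p : ℝ × ℝ => kk ε (p.1 - p.2) * (Bh m c g p.1 * Bh m c g p.2))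
              (hkp.mul ((hB.comp measurable_fst).mul (hB.comp measurable_snd)))
      _ ≤ ∫⁻ h, ∫⁻ h', (kk ε (h - h') * Bh m c g h ^ 2 + kk ε (h - h') * Bh m c g h' ^ 2) := by
          refine lintegral_mono fun h => lintegral_mono fun h' => ?_
          rw [← mul_add]
          exact mul_le_mul_right (two_mul_le' _ _) _
      _ = 2 * ∫⁻ h, Bh m c g h ^ 2 := by
          have : ∀ h, ∫⁻ h', (kk ε (h - h') * Bh m c g h ^ 2 + kk ε (h - h') * Bh m c g h' ^ 2) =
              (∫⁻ h', kk ε (h - h') * Bh m c g h ^ 2) +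
                ∫⁻ h', kk ε (h - h') * Bh m c g h' ^ 2 := by
            intro h
            rw [lintegral_add_left]
            exact (hk.comp (measurable_const.sub measurable_id)).mul measurable_const
          simp only [this]
          rw [lintegral_add_left, hA, hA', two_mul]
          exact Measurable.lintegral_prod_right'
            (f := fun p : ℝ × ℝ => kk ε (p.1 - p.2) * Bh m c g p.1 ^ 2)
            (hkp.mul ((hB.comp measurable_fst).pow_const 2))
  exact (ENNReal.mul_le_mul_iff_right two_ne_zero ENNReal.ofNat_ne_top).1 h2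

theorem lintegral_bh {ι : Type} [Fintype ι] {m : ι → E3} {c : ι → ℝ} (hP : Ply m c) {g : E3}
    (hg : ∀ i, ⟪g, m i⟫ ^ 2 < ‖g‖ ^ 2) : ∫⁻ h, bh m c g h = be m c g := by
  unfold bh be
  rw [lintegral_finsetSum]
  · refine Finset.sum_congr rfl fun i _ => ?_
    have h1 := lint_height m c (hP.unit i) (hg i) (Φ := fun _ => 1) measurable_const
    simp only [one_mul, lintegral_const] at h1
    rw [h1, ← lintegral_const_mul]
    · refine lintegral_congr fun h => ?_
      ring
    · exact (measurable_vUs m c g i).const_mul _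
  · intro i _
    exact (measurable_vUs m c g i).const_mul _

end Pool.Agent.Helper83.CP
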