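import Pool.Agent.Helper83.CP.Defs

/-!
# Project CP (helper83), module MergeLast
Deleting the flat vertex `n-1`.

Proof. `v''(k) = v(k + k/(n-1))` with the integer division (the increasing enumeration of the indices that are not `= n-1` mod `n`): strictly increasing index map `e(k) = k + k/(n-1)`, `e(k+(n-1)) = e(k)+n`,
`k < i+(n-1)` implies `e(k) < e(i)+n`, so `CPoly (n-1) v''` is inherited. `e(k) = k` for `k ≤ n-2`, `e(n-1) = n`. The side `k < n-2` of `v''` is the side `k` of `v`; the side `n-2` of `v''` goes from `v(n-2)` to `v(n)`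
and is the union of the sides `n-2`, `n-1` of `v` (flat: the lengths add up, the directions are equal; nonzero because `v(n-2) = v(n)` would imply `v(n-1) = v(n-2)`).
`b''(k) = b(k)` for `k < n-2`, `b''(n-2)(t) = b(n-2)(t)` for `t ≤ l(n-2)` and `b(n-1)(t - l(n-2))` beyond, extended `(n-1)`-periodically. Then `Mm`, `Bm`, `Tm` are the same (split the integral over
the last side at `l(n-2)` and substitute), and `PL (n-1)` applies.
-/

set_option autoImplicit false

open MeasureTheory Set Filter Topology Metric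
open scoped RealInnerProductSpace ENNReal NNReal

namespace Pool.Agent.Helper83.CP

open Pool.Agent.Helper1.CK (E3 nEnergy V1 Content Good)

/-- bounded measurable functions are interval integrable -/
private lemma ii_of_bdd {f : ℝ → ℝ} {a b C : ℝ} (hf : Measurable f)
    (h : ∀ t ∈ uIcc a b, |f t| ≤ C) : IntervalIntegrable f volume a b := by
  rw [intervalIntegrable_iff]
  refine Measure.integrableOn_of_bounded (M := C) ?_ hf.aestronglyMeasurable ?_
  · rw [uIoc]
    exact measure_Ioc_lt_top.ne
  · refine ae_restrict_of_forall_mem measurableSet_uIoc ?_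
    intro t ht
    rw [Real.norm_eq_abs]
    exact h t (uIoc_subset_uIcc ht)

/-- the inner integrand is interval integrable -/
private lemma ii_inner {Q : ℝ → ℂ} {γ : ℝ → ℝ} {C : ℝ} (hQ : Continuous Q) (hγ : Measurable γ)
    (hC : ∀ t, |γ t| ≤ C) (x : ℂ) (c a b : ℝ) :
    IntervalIntegrable (fun s => ‖x - Q s‖ * (c * γ s)) volume a b := by
  have h1 : IntervalIntegrable γ volume a b := ii_of_bdd hγ (fun t _ => hC t)
  have h2 : IntervalIntegrable (fun s => c * γ s) volume a b := h1.const_mul c
  exact h2.continuousOn_mul (continuous_const.sub hQ).norm.continuousOn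

/-- the outer integrand is interval integrable -/
private lemma ii_outer {P Q : ℝ → ℂ} {β γ : ℝ → ℝ} {C D : ℝ} (hP : Continuous P)
    (hQ : Continuous Q) (hβ : Measurable β) (hγ : Measurable γ)
    (hC : ∀ t, |β t| ≤ C) (hD : ∀ t, |γ t| ≤ D) (a b c d : ℝ) :
    IntervalIntegrable (fun t => ∫ s in c..d, ‖P t - Q s‖ * (β t * γ s)) volume a b := by
  have hmeas : Measurable (fun t => ∫ s in c..d, ‖P t - Q s‖ * (β t * γ s)) := by
    have hK : StronglyMeasurable (Function.uncurry
        (fun (t s : ℝ) => ‖P t - Q s‖ * (β t * γ s))) := by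
      apply Measurable.stronglyMeasurable
      have h1 : Measurable (fun z : ℝ × ℝ => P z.1) := hP.measurable.comp measurable_fst
      have h2 : Measurable (fun z : ℝ × ℝ => Q z.2) := hQ.measurable.comp measurable_snd
      have h3 : Measurable (fun z : ℝ × ℝ => β z.1) := hβ.comp measurable_fst
      have h4 : Measurable (fun z : ℝ × ℝ => γ z.2) := hγ.comp measurable_snd
      exact (h1.sub h2).norm.mul (h3.mul h4)
    have h5 : ∀ (μ : Measure ℝ) [SFinite μ],
        Measurable (fun t => ∫ s, ‖P t - Q s‖ * (β t * γ s) ∂μ) := by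
      intro μ _
      exact (hK.integral_prod_right (ν := μ)).measurable
    have h6 := h5 (volume.restrict (Ioc c d))
    have h7 := h5 (volume.restrict (Ioc d c))
    exact h6.sub h7
  obtain ⟨A, hA⟩ := (isCompact_uIcc (a := a) (b := b)).exists_bound_of_continuousOn
    hP.continuousOn
  obtain ⟨B, hB⟩ := (isCompact_uIcc (a := c) (b := d)).exists_bound_of_continuousOn
    hQ.continuousOn
  refine ii_of_bdd (C := (A + B) * (C * D) * |d - c|) hmeas ?_
  intro t ht
  rw [← Real.norm_eq_abs]
  refine intervalIntegral.norm_integral_le_of_norm_le_const ?_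
  intro s hs
  have hs' : s ∈ uIcc c d := uIoc_subset_uIcc hs
  have h1 : ‖P t - Q s‖ ≤ A + B := (norm_sub_le _ _).trans (add_le_add (hA t ht) (hB s hs'))
  have h2 : |β t * γ s| ≤ C * D := by
    rw [abs_mul]
    exact mul_le_mul (hC t) (hD s) (abs_nonneg _) ((abs_nonneg _).trans (hC t))
  rw [norm_mul, norm_norm, Real.norm_eq_abs]
  exact mul_le_mul h1 h2 (abs_nonneg _) ((norm_nonneg _).trans h1)

/-- splitting an integral over a concatenated piece -/
private lemma split_int {f g h : ℝ → ℝ} {l₁ l₂ : ℝ} (h₁ : 0 ≤ l₁) (h₂ : 0 ≤ l₂)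
    (hi : IntervalIntegrable f volume 0 (l₁ + l₂))
    (hg : ∀ t, 0 ≤ t → t ≤ l₁ → f t = g t)
    (hh : ∀ t, 0 < t → t ≤ l₂ → f (t + l₁) = h t) :
    ∫ t in (0 : ℝ)..(l₁ + l₂), f t = (∫ t in (0 : ℝ)..l₁, g t) + ∫ t in (0 : ℝ)..l₂, h t := by
  have i1 : IntervalIntegrable f volume 0 l₁ :=
    hi.mono_set (by rw [uIcc_of_le h₁, uIcc_of_le (add_nonneg h₁ h₂)]; exact Icc_subset_Icc le_rfl (by linarith))
  have i2 : IntervalIntegrable f volume l₁ (l₁ + l₂) :=
    hi.mono_set (by
      rw [uIcc_of_le (le_add_of_nonneg_right h₂), uIcc_of_le (add_nonneg h₁ h₂)]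
      exact Icc_subset_Icc h₁ le_rfl)
  rw [← intervalIntegral.integral_add_adjacent_intervals i1 i2]
  congr 1
  · refine intervalIntegral.integral_congr ?_
    intro t ht
    rw [uIcc_of_le h₁] at ht
    exact hg t ht.1 ht.2
  · have h3 : ∫ t in (0 : ℝ)..l₂, f (t + l₁) = ∫ t in l₁..(l₁ + l₂), f t := by
      rw [intervalIntegral.integral_comp_add_right]
      rw [zero_add, add_comm l₂ l₁]
    rw [← h3]
    refine intervalIntegral.integral_congr_ae ?_
    refine Filter.Eventually.of_forall ?_
    intro t ht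
    rw [uIoc_of_le h₂] at ht
    exact hh t ht.1 ht.2

private lemma side_cont (l : ℕ → ℝ) (v : ℕ → ℂ) (i : ℕ) : Continuous (side l v i) := by
  unfold side
  fun_prop

private lemma merge_core {p : ℕ} (hp : 2 ≤ p) (hPL : PL (p + 1)) {v : ℕ → ℂ} {b : ℕ → ℝ → ℝ}
    (hv : CPoly (p + 2) v) (hne : ∀ i, v (i + 1) ≠ v i) (hb : Dens (p + 2) b)
    (hf : v (p + 1) ∈ segment ℝ (v p) (v (p + 2))) :
    Real.pi ^ 2 / 64 * Mm (p + 2) (len v) b ^ 4 ≤
      Bm (p + 2) (len v) b * Tm (p + 2) (len v) v b := by
  have hp1 : 0 < p + 1 := Nat.succ_pos p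
  set e : ℕ → ℕ := fun k => k + k / (p + 1) with he
  have e_add : ∀ k, e (k + (p + 1)) = e k + (p + 2) := by
    intro k
    simp only [he]
    rw [Nat.add_div_right _ hp1]
    omega
  have e_mono : StrictMono e := by
    intro i j hij
    simp only [he]
    have := Nat.div_le_div_right (c := p + 1) hij.le
    omega
  have e_lt : ∀ i k, k < i + (p + 1) → e k < e i + (p + 2) := by
    intro i k h
    rw [← e_add]
    exact e_mono h
  have e_small : ∀ k, k ≤ p → e k = k := by
    intro k hk
    simp only [he]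
    rw [Nat.div_eq_of_lt (by omega)]
    rfl
  have e_last : e (p + 1) = p + 2 := by
    simp only [he]
    rw [Nat.div_self hp1]
  set w : ℕ → ℂ := fun k => v (e k) with hw
  have w_small : ∀ k, k ≤ p → w k = v k := by
    intro k hk
    simp only [hw]
    rw [e_small k hk]
  have w_last : w (p + 1) = v (p + 2) := by
    simp only [hw]
    rw [e_last]
  have hwC : CPoly (p + 1) w := by
    refine ⟨?_, ?_, ?_⟩
    · intro i
      simp only [hw]
      rw [e_add, hv.per]
    · intro i j k hij hjk hki
      exact hv.cyc (e i) (e j) (e k) (e_mono hij) (e_mono hjk) (e_lt i k hki)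
    · intro i j k l hij hjk hkl hli
      exact hv.chord (e i) (e j) (e k) (e l) (e_mono hij) (e_mono hjk) (e_mono hkl) (e_lt i l hli)
  -- the flat vertex
  obtain ⟨θ, hθ, hθv⟩ : ∃ θ : ℝ, (0 ≤ θ ∧ θ ≤ 1) ∧
      v (p + 1) = v p + (θ : ℂ) * (v (p + 2) - v p) := by
    rw [segment_eq_image'] at hf
    obtain ⟨θ, hθ, h⟩ := hf
    refine ⟨θ, hθ, ?_⟩
    rw [← h]
    simp [Complex.real_smul]
  set z : ℂ := v (p + 2) - v p with hz
  have d1 : v (p + 1) - v p = (θ : ℂ) * z := by rw [hθv]; ring
  have d2 : v (p + 2) - v (p + 1) = ((1 - θ : ℝ) : ℂ) * z := by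
    rw [hθv, hz]; push_cast; ring
  have hz0 : z ≠ 0 := by
    intro h0
    apply hne p
    rw [← sub_eq_zero, d1, h0, mul_zero]
  have hθ0 : θ ≠ 0 := by
    intro h0
    apply hne p
    rw [← sub_eq_zero, d1, h0]
    simp
  have hθ1 : 1 - θ ≠ 0 := by
    intro h0
    apply hne (p + 1)
    rw [← sub_eq_zero]
    show v (p + 2) - v (p + 1) = 0
    rw [d2, h0]
    simp
  have hzn : ‖z‖ ≠ 0 := norm_ne_zero_iff.2 hz0
  have l1 : len v p = θ * ‖z‖ := by
    unfold len
    rw [d1, norm_mul, Complex.norm_real, Real.norm_eq_abs, abs_of_nonneg hθ.1]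
  have l2 : len v (p + 1) = (1 - θ) * ‖z‖ := by
    unfold len
    show ‖v (p + 2) - v (p + 1)‖ = _
    rw [d2, norm_mul, Complex.norm_real, Real.norm_eq_abs, abs_of_nonneg (by linarith [hθ.2])]
  have l3 : len w p = ‖z‖ := by
    unfold len
    rw [w_last, w_small p le_rfl]
  have l12 : len w p = len v p + len v (p + 1) := by rw [l1, l2, l3]; ring
  have l1nn : 0 ≤ len v p := norm_nonneg _
  have l2nn : 0 ≤ len v (p + 1) := norm_nonneg _
  have l_small : ∀ k, k < p → len w k = len v k := by
    intro k hk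
    unfold len
    rw [w_small (k + 1) (by omega), w_small k (by omega)]
  have hwne : ∀ i, w (i + 1) ≠ w i := by
    have h1 : ∀ i, i < p + 1 → w (i + 1) ≠ w i := by
      intro i hi
      rcases Nat.lt_or_ge i p with h | h
      · rw [w_small (i + 1) (by omega), w_small i (by omega)]
        exact hne i
      · have : i = p := by omega
        subst this
        rw [w_last, w_small _ le_rfl]
        intro h0
        exact hz0 (by rw [hz, h0, sub_self])
    intro i
    induction i using Nat.strong_induction_on with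
    | _ i ih =>
      rcases Nat.lt_or_ge i (p + 1) with h | h
      · exact h1 i h
      · obtain ⟨j, rfl⟩ := Nat.exists_eq_add_of_le' h
        have h2 := ih j (by omega)
        have h3 := hwC.per j
        have h4 := hwC.per (j + 1)
        rw [h3]
        have h5 : j + (p + 1) + 1 = j + 1 + (p + 1) := by ring
        rw [h5, h4]
        exact h2
  -- the density
  set g : ℝ → ℝ := fun t => if t ≤ len v p then b p t else b (p + 1) (t - len v p) with hg
  set c : ℕ → ℝ → ℝ := fun k => if k % (p + 1) = p then g else b (k % (p + 1)) with hc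
  have c_small : ∀ k, k < p → c k = b k := by
    intro k hk
    simp only [hc]
    rw [Nat.mod_eq_of_lt (by omega), if_neg (by omega)]
  have c_last : c p = g := by
    simp only [hc]
    rw [Nat.mod_eq_of_lt (by omega), if_pos rfl]
  have g_meas : Measurable g := by
    simp only [hg]
    exact Measurable.ite measurableSet_Iic (hb.meas p) ((hb.meas (p + 1)).comp (measurable_id.sub_const _))
  obtain ⟨C, hC⟩ := hb.bdd
  have g_bdd : ∀ t, 0 ≤ g t ∧ g t ≤ C := by
    intro t
    simp only [hg]
    split_ifs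
    · exact hC p t
    · exact hC (p + 1) _
  have hcD : Dens (p + 1) c := by
    refine ⟨?_, ?_, C, ?_⟩
    · intro i
      simp only [hc]
      rw [Nat.add_mod_right]
    · intro i
      simp only [hc]
      split_ifs
      · exact g_meas
      · exact hb.meas _
    · intro i t
      simp only [hc]
      split_ifs
      · exact g_bdd t
      · exact hC _ t
  have main := hPL w c hwC hwne hcD
  have babs : ∀ i t, |b i t| ≤ C := fun i t => by
    rw [abs_of_nonneg (hC i t).1]
    exact (hC i t).2
  have gabs : ∀ t, |g t| ≤ C := fun t => by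
    rw [abs_of_nonneg (g_bdd t).1]
    exact (g_bdd t).2
  have gi : ∀ a d, IntervalIntegrable g volume a d := fun a d => ii_of_bdd g_meas (fun t _ => gabs t)
  have gi2 : ∀ a d, IntervalIntegrable (fun t => g t ^ 2) volume a d := fun a d =>
    ii_of_bdd (C := C ^ 2) (g_meas.pow_const 2) (fun t _ => by
      rw [abs_pow]
      exact pow_le_pow_left₀ (abs_nonneg _) (gabs t) 2)
  have g_first : ∀ t, 0 ≤ t → t ≤ len v p → g t = b p t := by
    intro t _ ht
    simp only [hg]
    rw [if_pos ht]
  have g_second : ∀ t, 0 < t → t ≤ len v (p + 1) → g (t + len v p) = b (p + 1) t := by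
    intro t ht _
    simp only [hg]
    rw [if_neg (by linarith), add_sub_cancel_right]
  -- the positions
  have s_small : ∀ k, k < p → side (len w) w k = side (len v) v k := by
    intro k hk
    funext t
    unfold side
    rw [l_small k hk, w_small (k + 1) (by omega), w_small k (by omega)]
  have s_first : ∀ t, side (len w) w p t = side (len v) v p t := by
    intro t
    unfold side
    rw [w_last, w_small p le_rfl, l3, l1, d1, ← hz]
    have hθc : (θ : ℂ) ≠ 0 := by exact_mod_cast hθ0
    have hzc : ((‖z‖ : ℝ) : ℂ) ≠ 0 := by exact_mod_cast hzn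
    push_cast
    field_simp
  have s_second : ∀ t, side (len w) w p (t + len v p) = side (len v) v (p + 1) t := by
    intro t
    unfold side
    have h2 : v (p + 1 + 1) - v (p + 1) = ((1 - θ : ℝ) : ℂ) * z := d2
    rw [h2, w_last, w_small p le_rfl, l3, l1, l2, hθv, ← hz]
    have hθc : ((1 - θ : ℝ) : ℂ) ≠ 0 := by exact_mod_cast hθ1
    have hzc : ((‖z‖ : ℝ) : ℂ) ≠ 0 := by exact_mod_cast hzn
    push_cast at hθc ⊢
    field_simp
    ring
  -- mass
  have hM : Mm (p + 1) (len w) c = Mm (p + 2) (len v) b := by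
    unfold Mm
    rw [Finset.sum_range_succ, Finset.sum_range_succ _ (p + 1), Finset.sum_range_succ _ p,
      add_assoc]
    congr 1
    · refine Finset.sum_congr rfl ?_
      intro k hk
      rw [Finset.mem_range] at hk
      rw [c_small k hk, l_small k hk]
    · rw [c_last, l12]
      exact split_int l1nn l2nn (gi _ _) g_first g_second
  have hB : Bm (p + 1) (len w) c = Bm (p + 2) (len v) b := by
    unfold Bm
    rw [Finset.sum_range_succ, Finset.sum_range_succ _ (p + 1), Finset.sum_range_succ _ p,
      add_assoc]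
    congr 1
    · refine Finset.sum_congr rfl ?_
      intro k hk
      rw [Finset.mem_range] at hk
      rw [c_small k hk, l_small k hk]
    · rw [c_last, l12]
      refine split_int (f := fun t => g t ^ 2) (g := fun t => b p t ^ 2)
        (h := fun t => b (p + 1) t ^ 2) l1nn l2nn (gi2 _ _) ?_ ?_
      · intro t h1 h2
        rw [g_first t h1 h2]
      · intro t h1 h2
        rw [g_second t h1 h2]
  -- abstract double integral of two pieces
  have cabs : ∀ i t, |c i t| ≤ C := fun i t => by
    obtain ⟨h1, h2⟩ : 0 ≤ c i t ∧ c i t ≤ C := by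
      simp only [hc]
      split_ifs
      · exact g_bdd t
      · exact hC _ t
    rw [abs_of_nonneg h1]
    exact h2
  -- inner splitting
  have inner : ∀ (x : ℂ) (a : ℝ),
      ∫ s in (0 : ℝ)..(len w p), ‖x - side (len w) w p s‖ * (a * c p s) =
      (∫ s in (0 : ℝ)..(len v p), ‖x - side (len v) v p s‖ * (a * b p s)) +
      ∫ s in (0 : ℝ)..(len v (p + 1)), ‖x - side (len v) v (p + 1) s‖ * (a * b (p + 1) s) := by
    intro x a
    rw [c_last, l12]
    refine split_int l1nn l2nn (ii_inner (side_cont _ _ _) g_meas gabs x a _ _) ?_ ?_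
    · intro t h1 h2
      rw [g_first t h1 h2, s_first]
    · intro t h1 h2
      rw [g_second t h1 h2, s_second]
  have outer : ∀ (Q : ℝ → ℂ) (γ : ℝ → ℝ) (d : ℝ), Continuous Q → Measurable γ →
      (∀ t, |γ t| ≤ C) →
      ∫ t in (0 : ℝ)..(len w p), ∫ s in (0 : ℝ)..d, ‖side (len w) w p t - Q s‖ * (c p t * γ s) =
      (∫ t in (0 : ℝ)..(len v p), ∫ s in (0 : ℝ)..d, ‖side (len v) v p t - Q s‖ * (b p t * γ s)) +
      ∫ t in (0 : ℝ)..(len v (p + 1)), ∫ s in (0 : ℝ)..d,
        ‖side (len v) v (p + 1) t - Q s‖ * (b (p + 1) t * γ s) := by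
    intro Q γ d hQ hγ hγC
    rw [c_last, l12]
    refine split_int l1nn l2nn
      (ii_outer (side_cont _ _ _) hQ g_meas hγ gabs hγC _ _ _ _) ?_ ?_
    · intro t h1 h2
      rw [g_first t h1 h2, s_first]
    · intro t h1 h2
      rw [g_second t h1 h2, s_second]
  have inner2 : ∀ (P : ℝ → ℂ) (β : ℝ → ℝ) (d : ℝ), Continuous P → Measurable β →
      (∀ t, |β t| ≤ C) →
      ∫ t in (0 : ℝ)..d, ∫ s in (0 : ℝ)..(len w p), ‖P t - side (len w) w p s‖ * (β t * c p s) =
      (∫ t in (0 : ℝ)..d, ∫ s in (0 : ℝ)..(len v p), ‖P t - side (len v) v p s‖ * (β t * b p s)) +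
      ∫ t in (0 : ℝ)..d, ∫ s in (0 : ℝ)..(len v (p + 1)),
        ‖P t - side (len v) v (p + 1) s‖ * (β t * b (p + 1) s) := by
    intro P β d hP hβ hβC
    rw [← intervalIntegral.integral_add
      (ii_outer hP (side_cont _ _ _) hβ (hb.meas _) hβC (babs _) _ _ _ _)
      (ii_outer hP (side_cont _ _ _) hβ (hb.meas _) hβC (babs _) _ _ _ _)]
    refine intervalIntegral.integral_congr ?_
    intro t _
    exact inner (P t) (β t)
  have hT : Tm (p + 1) (len w) w c = Tm (p + 2) (len v) v b := by
    -- replace the outer piece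
    have step1 : ∀ j, ∑ i ∈ Finset.range (p + 1),
        ∫ t in (0 : ℝ)..(len w i), ∫ s in (0 : ℝ)..(len w j),
          ‖side (len w) w i t - side (len w) w j s‖ * (c i t * c j s) =
        ∑ i ∈ Finset.range (p + 2),
        ∫ t in (0 : ℝ)..(len v i), ∫ s in (0 : ℝ)..(len w j),
          ‖side (len v) v i t - side (len w) w j s‖ * (b i t * c j s) := by
      intro j
      rw [Finset.sum_range_succ, Finset.sum_range_succ _ (p + 1), Finset.sum_range_succ _ p,
        add_assoc]
      congr 1
      · refine Finset.sum_congr rfl ?_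
        intro k hk
        rw [Finset.mem_range] at hk
        rw [c_small k hk, l_small k hk, s_small k hk]
      · exact outer _ _ _ (side_cont _ _ _) (hcD.meas j) (cabs j)
    have step2 : ∀ i, ∑ j ∈ Finset.range (p + 1),
        ∫ t in (0 : ℝ)..(len v i), ∫ s in (0 : ℝ)..(len w j),
          ‖side (len v) v i t - side (len w) w j s‖ * (b i t * c j s) =
        ∑ j ∈ Finset.range (p + 2),
        ∫ t in (0 : ℝ)..(len v i), ∫ s in (0 : ℝ)..(len v j),
          ‖side (len v) v i t - side (len v) v j s‖ * (b i t * b j s) := by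
      intro i
      rw [Finset.sum_range_succ, Finset.sum_range_succ _ (p + 1), Finset.sum_range_succ _ p,
        add_assoc]
      congr 1
      · refine Finset.sum_congr rfl ?_
        intro k hk
        rw [Finset.mem_range] at hk
        rw [c_small k hk, l_small k hk, s_small k hk]
      · exact inner2 _ _ _ (side_cont _ _ _) (hb.meas i) (babs i)
    unfold Tm
    rw [Finset.sum_comm, Finset.sum_congr rfl (fun j _ => step1 j), Finset.sum_comm]
    exact Finset.sum_congr rfl (fun i _ => step2 i)
  rw [← hM, ← hB, ← hT]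
  exact main

theorem merge_last {n : ℕ} (hn : 4 ≤ n) (hPL : PL (n - 1)) {v : ℕ → ℂ} {b : ℕ → ℝ → ℝ}
    (hv : CPoly n v) (hne : ∀ i, v (i + 1) ≠ v i) (hb : Dens n b)
    (hf : v (n - 1) ∈ segment ℝ (v (n - 2)) (v n)) :
    Real.pi ^ 2 / 64 * Mm n (len v) b ^ 4 ≤ Bm n (len v) b * Tm n (len v) v b := by
  obtain ⟨p, rfl⟩ : ∃ p, n = p + 2 := ⟨n - 2, by omega⟩
  exact merge_core (by omega) hPL hv hne hb hf

end Pool.Agent.Helper83.CP
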