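import Pool.Agent.Helper83.CP.Defs

/-!
# Project CP (helper83), module FlexPos
The positions of two flexed vertices `P h` (for `V1`) and `Q h` (for `V2`), as functions of the increment `h` of the square of the
diagonal `V0 V2`; `V0`, `V3` are fixed.

`a = |V1-V0|`, `b = |V2-V1|`, `c = |V3-V2|`, `e = |V3-V0|`, `X = |V2-V0|²`. All of `a, e, X` are positive. For `X' = X + h` near `X` put
`U = (V3-V0)/e`, `Q h = V0 + U (p3 - i q3)`, `p3 = (X'+e²-c²)/(2e)`, `q3 = √(X'-p3²)`, and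
`P h = V0 + ((Q h - V0)/√X') (p2 - i q2)`, `p2 = (X'+a²-b²)/(2√X')`, `q2 = √(a²-p2²)`
(`V2` lies to the right of `V0 → V3`, and `V1` to the right of `V0 → V2`). Then `|Q-V0|² = X'`, `|Q-V3| = c`, `|P-V0| = a`, `|P-Q| = b`.
`|P-V3|² = YY a b c e X'`: turn `V2 - V0` into the positive real direction: `V3 - V0` becomes `r + i s`, `P - V0` becomes `p2 - i q2`,
`|P-V3|² = a² + e² - 2 p2 r + 2 q2 s`, with `4 q2² = uu a b X'`, `4 s² = uu e c X'`, `2 p2 r = (X'+α)(X'+β)/(2X')`, `s, q2 > 0`.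
All functions are continuous in `X'` near `X`, and at `X' = X` one gets `V1`, `V2` (the two signs are right by the
hypotheses on `cr`: `cr (V1-V0) (V2-V0) > 0` means that `q2 > 0` is the right root, `cr (V2-V0) (V3-V0) > 0` means the same for `q3`).
-/

set_option autoImplicit false

open MeasureTheory Set Filter Topology Metric
open scoped RealInnerProductSpace ENNReal NNReal

namespace Pool.Agent.Helper83.CP

open Pool.Agent.Helper1.CK (E3 nEnergy V1 Content Good)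

namespace FlexPos

private lemma nsq (z : ℂ) : ‖z‖ ^ 2 = z.re ^ 2 + z.im ^ 2 := by
  rw [Complex.sq_norm, Complex.normSq_apply]; ring

private noncomputable def fA (e c X : ℝ) : ℝ := (X + (e ^ 2 - c ^ 2)) / (2 * e ^ 2)

private noncomputable def fB (e c X : ℝ) : ℝ := √(uu e c X) * √X / (2 * e ^ 2)

private noncomputable def fC (a b X : ℝ) : ℝ := (X + (a ^ 2 - b ^ 2)) / (2 * X)

private noncomputable def fD (a b X : ℝ) : ℝ := √(uu a b X) / (2 * √X)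

private lemma key1 {e c X : ℝ} (he : 0 < e) (hX : 0 < X) (hu : 0 ≤ uu e c X) :
    e ^ 2 * (fA e c X ^ 2 + fB e c X ^ 2) = X := by
  have h1 : fB e c X ^ 2 = uu e c X * X / (2 * e ^ 2) ^ 2 := by
    rw [fB, div_pow, mul_pow, Real.sq_sqrt hu, Real.sq_sqrt hX.le]
  rw [h1, fA, uu]
  field_simp
  ring

private lemma key2 {a b X : ℝ} (hX : 0 < X) (hu : 0 ≤ uu a b X) :
    X * (fC a b X ^ 2 + fD a b X ^ 2) = a ^ 2 := by
  have h1 : fD a b X ^ 2 = uu a b X / (4 * X) := by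
    rw [fD, div_pow, mul_pow, Real.sq_sqrt hu, Real.sq_sqrt hX.le]; norm_num
  rw [h1, fC, uu]
  field_simp
  ring

private lemma main {w3 : ℂ} {a b c X : ℝ} (he : 0 < ‖w3‖) (hX : 0 < X) (hu : 0 ≤ uu a b X)
    (hv : 0 ≤ uu ‖w3‖ c X) (ha : 0 ≤ a) (hb : 0 ≤ b) (hc : 0 ≤ c) (z y : ℂ)
    (hz : z = w3 * ((fA ‖w3‖ c X : ℂ) - fB ‖w3‖ c X * Complex.I))
    (hy : y = z * ((fC a b X : ℂ) - fD a b X * Complex.I)) :
    ‖y‖ = a ∧ ‖z - y‖ = b ∧ ‖w3 - z‖ = c ∧ ‖z‖ ^ 2 = X ∧ ‖w3 - y‖ ^ 2 = YY a b c ‖w3‖ X := by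
  have k1 := key1 he hX hv
  have k2 := key2 hX hu
  set A := fA ‖w3‖ c X with hA
  set B := fB ‖w3‖ c X with hB
  set C := fC a b X with hC
  set D := fD a b X with hD
  have z2 : ‖z‖ ^ 2 = X := by
    rw [hz, norm_mul, mul_pow, nsq ((A : ℂ) - B * Complex.I)]
    simp only [Complex.sub_re, Complex.ofReal_re, Complex.mul_re, Complex.I_re, mul_zero,
      Complex.ofReal_im, Complex.I_im, mul_one, sub_zero, Complex.sub_im, Complex.mul_im,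
      add_zero, zero_sub, zero_mul, sub_self]
    rw [← k1]; ring
  have y2 : ‖y‖ ^ 2 = a ^ 2 := by
    rw [hy, norm_mul, mul_pow, nsq ((C : ℂ) - D * Complex.I), z2]
    simp only [Complex.sub_re, Complex.ofReal_re, Complex.mul_re, Complex.I_re, mul_zero,
      Complex.ofReal_im, Complex.I_im, mul_one, sub_zero, Complex.sub_im, Complex.mul_im,
      add_zero, zero_sub, zero_mul, sub_self]
    rw [← k2]; ring
  have hCv : 2 * X * C = X + (a ^ 2 - b ^ 2) := by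
    rw [hC, fC]; field_simp
  have hAv : 2 * ‖w3‖ ^ 2 * A = X + (‖w3‖ ^ 2 - c ^ 2) := by
    rw [hA, fA]; field_simp
  have zy2 : ‖z - y‖ ^ 2 = b ^ 2 := by
    have h1 : z - y = z * ((((1 - C : ℝ)) : ℂ) + D * Complex.I) := by
      rw [hy]; push_cast; ring
    rw [h1, norm_mul, mul_pow, z2, nsq ((((1 - C : ℝ)) : ℂ) + D * Complex.I)]
    simp only [Complex.add_re, Complex.ofReal_re, Complex.mul_re, Complex.I_re, mul_zero,
      Complex.ofReal_im, Complex.I_im, mul_one, sub_zero, Complex.add_im, Complex.mul_im,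
      add_zero, zero_add, zero_mul, sub_self]
    nlinarith [k2, hCv]
  have wz2 : ‖w3 - z‖ ^ 2 = c ^ 2 := by
    have h1 : w3 - z = w3 * ((((1 - A : ℝ)) : ℂ) + B * Complex.I) := by
      rw [hz]; push_cast; ring
    rw [h1, norm_mul, mul_pow, nsq ((((1 - A : ℝ)) : ℂ) + B * Complex.I)]
    simp only [Complex.add_re, Complex.ofReal_re, Complex.mul_re, Complex.I_re, mul_zero,
      Complex.ofReal_im, Complex.I_im, mul_one, sub_zero, Complex.add_im, Complex.mul_im,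
      add_zero, zero_add, zero_mul, sub_self]
    nlinarith [k1, hAv]
  refine ⟨?_, ?_, ?_, z2, ?_⟩
  · exact (sq_eq_sq₀ (norm_nonneg _) ha).1 y2
  · exact (sq_eq_sq₀ (norm_nonneg _) hb).1 zy2
  · exact (sq_eq_sq₀ (norm_nonneg _) hc).1 wz2
  · have h1 : w3 - y = w3 * ((((1 - (A * C - B * D) : ℝ)) : ℂ) + ((A * D + B * C : ℝ) : ℂ) * Complex.I) := by
      rw [hy, hz]; push_cast
      ring_nf
      rw [Complex.I_sq]
      ring
    have h2 : ‖w3 - y‖ ^ 2 = ‖w3‖ ^ 2 * ((1 - (A * C - B * D)) ^ 2 + (A * D + B * C) ^ 2) := by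
      rw [h1, norm_mul, mul_pow, nsq ((((1 - (A * C - B * D) : ℝ)) : ℂ) + ((A * D + B * C : ℝ) : ℂ) * Complex.I)]
      simp only [Complex.add_re, Complex.ofReal_re, Complex.mul_re, Complex.I_re, mul_zero,
        Complex.ofReal_im, Complex.I_im, mul_one, sub_zero, Complex.add_im, Complex.mul_im,
        add_zero, zero_add, zero_mul, sub_self]
    have h3 : ‖w3‖ ^ 2 * ((1 - (A * C - B * D)) ^ 2 + (A * D + B * C) ^ 2) =
        ‖w3‖ ^ 2 - 2 * ‖w3‖ ^ 2 * A * C + 2 * ‖w3‖ ^ 2 * B * D + a ^ 2 := by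
      have h4 : ‖w3‖ ^ 2 * ((1 - (A * C - B * D)) ^ 2 + (A * D + B * C) ^ 2) =
        ‖w3‖ ^ 2 - 2 * ‖w3‖ ^ 2 * A * C + 2 * ‖w3‖ ^ 2 * B * D +
          (‖w3‖ ^ 2 * (A ^ 2 + B ^ 2)) * (C ^ 2 + D ^ 2) := by ring
      rw [h4, k1, k2]
    have h5 : 2 * ‖w3‖ ^ 2 * A * C = (X + (a ^ 2 - b ^ 2) + (‖w3‖ ^ 2 - c ^ 2) +
        (a ^ 2 - b ^ 2) * (‖w3‖ ^ 2 - c ^ 2) / X) / 2 := by
      rw [hAv, hC, fC]
      field_simp
      ring
    have h6 : 2 * ‖w3‖ ^ 2 * B * D = √(uu a b X) * √(uu ‖w3‖ c X) / 2 := by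
      have h7 : √X ≠ 0 := (Real.sqrt_pos.2 hX).ne'
      rw [hB, hD, fB, fD]
      field_simp
    rw [h2, h3, h5, h6, YY]
    ring

private lemma uu_eq (z w : ℂ) (hz : 0 < ‖z‖) :
    uu ‖w‖ ‖w - z‖ (‖z‖ ^ 2) * ‖z‖ ^ 2 = 4 * cr w z ^ 2 := by
  have h1 : uu ‖w‖ ‖w - z‖ (‖z‖ ^ 2) * ‖z‖ ^ 2 = -(‖z‖ ^ 2) ^ 2 + 2 * (‖w‖ ^ 2 + ‖w - z‖ ^ 2) * ‖z‖ ^ 2 -
      (‖w‖ ^ 2 - ‖w - z‖ ^ 2) ^ 2 := by
    rw [uu]; field_simp
  rw [h1, nsq z, nsq w, nsq (w - z), cr, Complex.sub_re, Complex.sub_im]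
  ring

private lemma at0 {w2 w3 : ℂ} (h : 0 < cr w2 w3) (h3 : 0 < ‖w3‖) (h2 : 0 < ‖w2‖) :
    w2 = w3 * ((fA ‖w3‖ ‖w3 - w2‖ (‖w2‖ ^ 2) : ℂ) - fB ‖w3‖ ‖w3 - w2‖ (‖w2‖ ^ 2) * Complex.I) := by
  have hB : fB ‖w3‖ ‖w3 - w2‖ (‖w2‖ ^ 2) = cr w2 w3 / ‖w3‖ ^ 2 := by
    have h4 : √(uu ‖w3‖ ‖w3 - w2‖ (‖w2‖ ^ 2)) * √(‖w2‖ ^ 2) = 2 * cr w2 w3 := by
      rw [← Real.sqrt_mul' _ (sq_nonneg _), uu_eq w2 w3 h2]
      rw [show 4 * cr w3 w2 ^ 2 = (2 * cr w2 w3) ^ 2 by unfold cr; ring]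
      exact Real.sqrt_sq (by positivity)
    rw [fB, h4]
    field_simp
  have hA : fA ‖w3‖ ‖w3 - w2‖ (‖w2‖ ^ 2) = (w2.re * w3.re + w2.im * w3.im) / ‖w3‖ ^ 2 := by
    rw [fA]
    rw [nsq (w3 - w2), nsq w2, nsq w3, Complex.sub_re, Complex.sub_im]
    rw [div_eq_div_iff (by rw [← nsq]; positivity) (by rw [← nsq]; positivity)]
    ring
  rw [hA, hB]
  have h5 : (w3.re ^ 2 + w3.im ^ 2) ≠ 0 := by rw [← nsq]; positivity
  apply Complex.ext
  · simp only [Complex.mul_re, Complex.sub_re, Complex.ofReal_re, Complex.I_re, mul_zero,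
      Complex.ofReal_im, Complex.I_im, mul_one, sub_zero, Complex.sub_im, Complex.mul_im,
      add_zero, zero_sub, zero_mul, sub_self]
    rw [nsq w3, cr]
    field_simp
    ring
  · simp only [Complex.mul_re, Complex.sub_re, Complex.ofReal_re, Complex.I_re, mul_zero,
      Complex.ofReal_im, Complex.I_im, mul_one, sub_zero, Complex.sub_im, Complex.mul_im,
      add_zero, zero_sub, zero_mul, sub_self]
    rw [nsq w3, cr]
    field_simp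
    ring

private lemma at1 {w1 w2 : ℂ} (h : 0 < cr w1 w2) (h2 : 0 < ‖w2‖) :
    w1 = w2 * ((fC ‖w1‖ ‖w2 - w1‖ (‖w2‖ ^ 2) : ℂ) - fD ‖w1‖ ‖w2 - w1‖ (‖w2‖ ^ 2) * Complex.I) := by
  have hD : fD ‖w1‖ ‖w2 - w1‖ (‖w2‖ ^ 2) = cr w1 w2 / ‖w2‖ ^ 2 := by
    have h4 : √(uu ‖w1‖ ‖w2 - w1‖ (‖w2‖ ^ 2)) * √(‖w2‖ ^ 2) = 2 * cr w1 w2 := by
      rw [norm_sub_rev w2 w1, ← Real.sqrt_mul' _ (sq_nonneg _), uu_eq w2 w1 h2]
      rw [show 4 * cr w1 w2 ^ 2 = (2 * cr w1 w2) ^ 2 by ring]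
      exact Real.sqrt_sq (by positivity)
    rw [fD]
    rw [Real.sqrt_sq h2.le] at h4 ⊢
    rw [div_eq_div_iff (by positivity) (by positivity)]
    calc √(uu ‖w1‖ ‖w2 - w1‖ (‖w2‖ ^ 2)) * ‖w2‖ ^ 2 =
        (√(uu ‖w1‖ ‖w2 - w1‖ (‖w2‖ ^ 2)) * ‖w2‖) * ‖w2‖ := by ring
      _ = _ := by rw [h4]; ring
  have hC : fC ‖w1‖ ‖w2 - w1‖ (‖w2‖ ^ 2) = (w1.re * w2.re + w1.im * w2.im) / ‖w2‖ ^ 2 := by
    rw [fC]
    rw [nsq (w2 - w1), nsq w1, nsq w2, Complex.sub_re, Complex.sub_im]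
    rw [div_eq_div_iff (by rw [← nsq]; positivity) (by rw [← nsq]; positivity)]
    ring
  rw [hC, hD]
  have h5 : (w2.re ^ 2 + w2.im ^ 2) ≠ 0 := by rw [← nsq]; positivity
  apply Complex.ext
  · simp only [Complex.mul_re, Complex.sub_re, Complex.ofReal_re, Complex.I_re, mul_zero,
      Complex.ofReal_im, Complex.I_im, mul_one, sub_zero, Complex.sub_im, Complex.mul_im,
      add_zero, zero_sub, zero_mul, sub_self]
    rw [nsq w2, cr]
    field_simp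
    ring
  · simp only [Complex.mul_re, Complex.sub_re, Complex.ofReal_re, Complex.I_re, mul_zero,
      Complex.ofReal_im, Complex.I_im, mul_one, sub_zero, Complex.sub_im, Complex.mul_im,
      add_zero, zero_sub, zero_mul, sub_self]
    rw [nsq w2, cr]
    field_simp
    ring

private lemma uu_cont (a b X : ℝ) (hX : 0 < X) : ContinuousAt (fun h : ℝ => uu a b (X + h)) 0 := by
  unfold uu
  have : X + 0 ≠ 0 := by simpa using hX.ne'
  fun_prop (disch := assumption)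

end FlexPos

open FlexPos in
theorem flex_pos {V0 V1 V2 V3 : ℂ} (h1 : 0 < cr (V1 - V0) (V2 - V0))
    (h2 : 0 < cr (V2 - V0) (V3 - V0)) :
    ∃ P Q : ℝ → ℂ, Tendsto P (𝓝 0) (𝓝 V1) ∧ Tendsto Q (𝓝 0) (𝓝 V2) ∧
      (∀ᶠ h in 𝓝 (0 : ℝ), ‖P h - V0‖ = ‖V1 - V0‖ ∧ ‖Q h - P h‖ = ‖V2 - V1‖ ∧
        ‖V3 - Q h‖ = ‖V3 - V2‖ ∧ ‖Q h - V0‖ ^ 2 = ‖V2 - V0‖ ^ 2 + h ∧
        0 < uu ‖V1 - V0‖ ‖V2 - V1‖ (‖V2 - V0‖ ^ 2 + h) ∧
        0 < uu ‖V3 - V0‖ ‖V3 - V2‖ (‖V2 - V0‖ ^ 2 + h) ∧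
        ‖V3 - P h‖ ^ 2 =
          YY ‖V1 - V0‖ ‖V2 - V1‖ ‖V3 - V2‖ ‖V3 - V0‖ (‖V2 - V0‖ ^ 2 + h)) ∧
      ‖V3 - V1‖ ^ 2 = YY ‖V1 - V0‖ ‖V2 - V1‖ ‖V3 - V2‖ ‖V3 - V0‖ (‖V2 - V0‖ ^ 2) := by
  have p3 : 0 < ‖V3 - V0‖ := by
    rw [norm_pos_iff]; rintro h; rw [h] at h2; simp [cr] at h2
  have p2 : 0 < ‖V2 - V0‖ := by
    rw [norm_pos_iff]; rintro h; rw [h] at h2; simp [cr] at h2
  have hX : 0 < ‖V2 - V0‖ ^ 2 := by positivity
  have e21 : ‖V2 - V1‖ = ‖(V2 - V0) - (V1 - V0)‖ := by congr 1; ring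
  have e32 : ‖V3 - V2‖ = ‖(V3 - V0) - (V2 - V0)‖ := by congr 1; ring
  have u1 : 0 < uu ‖V1 - V0‖ ‖V2 - V1‖ (‖V2 - V0‖ ^ 2) := by
    have h := uu_eq (V2 - V0) (V1 - V0) p2
    rw [norm_sub_rev (V1 - V0) (V2 - V0), ← e21] at h
    have h' : 0 < 4 * cr (V1 - V0) (V2 - V0) ^ 2 := by positivity
    rw [← h] at h'
    exact pos_of_mul_pos_left h' hX.le
  have u2 : 0 < uu ‖V3 - V0‖ ‖V3 - V2‖ (‖V2 - V0‖ ^ 2) := by
    have h := uu_eq (V2 - V0) (V3 - V0) p2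
    rw [← e32] at h
    have h' : 0 < 4 * cr (V3 - V0) (V2 - V0) ^ 2 := by
      have : cr (V3 - V0) (V2 - V0) = - cr (V2 - V0) (V3 - V0) := by unfold cr; ring
      rw [this, neg_sq]; positivity
    rw [← h] at h'
    exact pos_of_mul_pos_left h' hX.le
  have z0 := at0 h2 p3 p2
  have y0 := at1 h1 p2
  rw [← e32] at z0
  rw [← e21] at y0
  set a := ‖V1 - V0‖ with ha
  set b := ‖V2 - V1‖ with hb
  set c := ‖V3 - V2‖ with hc
  set e := ‖V3 - V0‖ with he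
  set X := ‖V2 - V0‖ ^ 2 with hXd
  let Z : ℝ → ℂ := fun h => (V3 - V0) * ((fA e c (X + h) : ℂ) - fB e c (X + h) * Complex.I)
  let Y : ℝ → ℂ := fun h => Z h * ((fC a b (X + h) : ℂ) - fD a b (X + h) * Complex.I)
  have Z0 : Z 0 = V2 - V0 := by
    simp only [Z, add_zero]
    exact z0.symm
  have Y0 : Y 0 = V1 - V0 := by
    simp only [Y, add_zero]
    rw [Z0]
    exact y0.symm
  have cu1 := uu_cont a b X hX
  have cu2 := uu_cont e c X hX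
  have cX : ContinuousAt (fun h : ℝ => X + h) 0 := by fun_prop
  have cZ : ContinuousAt Z 0 := by
    have c1 : ContinuousAt (fun h : ℝ => fA e c (X + h)) 0 := by unfold fA; fun_prop
    have c2 : ContinuousAt (fun h : ℝ => fB e c (X + h)) 0 := by
      unfold fB
      exact ((cu2.sqrt).mul cX.sqrt).div_const _
    exact continuousAt_const.mul ((Complex.continuous_ofReal.continuousAt.comp c1).sub
      ((Complex.continuous_ofReal.continuousAt.comp c2).mul continuousAt_const))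
  have cY : ContinuousAt Y 0 := by
    have c1 : ContinuousAt (fun h : ℝ => fC a b (X + h)) 0 := by
      unfold fC
      refine ContinuousAt.div (by fun_prop) (by fun_prop) ?_
      simpa using hX.ne'
    have c2 : ContinuousAt (fun h : ℝ => fD a b (X + h)) 0 := by
      unfold fD
      refine ContinuousAt.div cu1.sqrt (continuousAt_const.mul cX.sqrt) ?_
      have : √(X + 0) ≠ 0 := by
        rw [add_zero]; exact (Real.sqrt_pos.2 hX).ne'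
      simpa using this
    exact cZ.mul ((Complex.continuous_ofReal.continuousAt.comp c1).sub
      ((Complex.continuous_ofReal.continuousAt.comp c2).mul continuousAt_const))
  have ev : ∀ᶠ h in 𝓝 (0 : ℝ), ‖(V0 + Y h) - V0‖ = a ∧ ‖(V0 + Z h) - (V0 + Y h)‖ = b ∧
        ‖V3 - (V0 + Z h)‖ = c ∧ ‖(V0 + Z h) - V0‖ ^ 2 = X + h ∧
        0 < uu a b (X + h) ∧ 0 < uu e c (X + h) ∧
        ‖V3 - (V0 + Y h)‖ ^ 2 = YY a b c e (X + h) := by
    have e0 : ∀ᶠ h in 𝓝 (0 : ℝ), 0 < X + h := cX.eventually_const_lt (by simpa using hX)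
    have e1 : ∀ᶠ h in 𝓝 (0 : ℝ), 0 < uu a b (X + h) := cu1.eventually_const_lt (by simpa using u1)
    have e2 : ∀ᶠ h in 𝓝 (0 : ℝ), 0 < uu e c (X + h) := cu2.eventually_const_lt (by simpa using u2)
    filter_upwards [e0, e1, e2] with h g0 g1 g2
    obtain ⟨m1, m2, m3, m4, m5⟩ := main (w3 := V3 - V0) (a := a) (b := b) (c := c) (X := X + h) p3 g0
      g1.le g2.le (norm_nonneg _) (norm_nonneg _) (norm_nonneg _) (Z h) (Y h) rfl rfl
    refine ⟨?_, ?_, ?_, ?_, g1, g2, ?_⟩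
    · rw [show (V0 + Y h) - V0 = Y h by ring]; exact m1
    · rw [show (V0 + Z h) - (V0 + Y h) = Z h - Y h by ring]; exact m2
    · rw [show V3 - (V0 + Z h) = (V3 - V0) - Z h by ring]; exact m3
    · rw [show (V0 + Z h) - V0 = Z h by ring]; exact m4
    · rw [show V3 - (V0 + Y h) = (V3 - V0) - Y h by ring]; exact m5
  refine ⟨fun h => V0 + Y h, fun h => V0 + Z h, ?_, ?_, ev, ?_⟩
  · have h := (continuousAt_const (y := V0)).add cY
    have h' : Tendsto (fun h => V0 + Y h) (𝓝 0) (𝓝 (V0 + Y 0)) := h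
    rw [Y0] at h'
    simpa using h'
  · have h := (continuousAt_const (y := V0)).add cZ
    have h' : Tendsto (fun h => V0 + Z h) (𝓝 0) (𝓝 (V0 + Z 0)) := h
    rw [Z0] at h'
    simpa using h'
  · have h := ev.self_of_nhds
    obtain ⟨-, -, -, -, -, -, h7⟩ := h
    rw [Y0, add_zero] at h7
    rw [← h7]
    congr 2
    ring

end Pool.Agent.Helper83.CP
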