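import Pool.Agent.Helper83.CP.Defs

/-!
# Project CP (helper83), module FourBar
The four-bar inequality: for a quadrilateral with fixed side lengths the square of one diagonal is a concave function
of the square of the other one.

Proof. Put `u = uu a b`, `w = uu e c`, `α = a²-b²`, `β = e²-c²`. For `τ > 0`: `√(u X') √(w X') ≤ (τ u X' + w X' / τ)/2`, with equality
at `X' = X` for `τ = √(w X)/√(u X)`. For this fixed `τ` it suffices to prove that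
`G X' = -(X' + α β / X')/2 + (τ u X' + w X' / τ)/4` satisfies `G (X+η) + G (X-η) ≤ 2 G X`. Up to an affine function of `X'`,
`G X' = -(2αβ + τ α² + β²/τ)/(4X') = -(√τ α + β/√τ)²/(4X')`, and `1/(X+η) + 1/(X-η) ≥ 2/X`.
-/

set_option autoImplicit false

open MeasureTheory Set Filter Topology Metric
open scoped RealInnerProductSpace ENNReal NNReal

namespace Pool.Agent.Helper83.CP

open Pool.Agent.Helper1.CK (E3 nEnergy V1 Content Good)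

theorem fourbar {a b c e X η : ℝ} (hX : 0 < X) (hη : 0 ≤ η) (hηX : η < X)
    (h1 : 0 < uu a b X) (h2 : 0 < uu e c X)
    (h1p : 0 ≤ uu a b (X + η)) (h1m : 0 ≤ uu a b (X - η))
    (h2p : 0 ≤ uu e c (X + η)) (h2m : 0 ≤ uu e c (X - η)) :
    YY a b c e (X + η) + YY a b c e (X - η) ≤ 2 * YY a b c e X := by
  have hXp : 0 < X + η := by linarith
  have hXm : 0 < X - η := by linarith
  obtain ⟨s, hs⟩ : ∃ s, s = √(uu a b X) := ⟨_, rfl⟩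
  obtain ⟨t, ht⟩ : ∃ t, t = √(uu e c X) := ⟨_, rfl⟩
  obtain ⟨P, hP⟩ : ∃ P, P = √(uu a b (X + η)) := ⟨_, rfl⟩
  obtain ⟨Q, hQ⟩ : ∃ Q, Q = √(uu e c (X + η)) := ⟨_, rfl⟩
  obtain ⟨P', hP'⟩ : ∃ P', P' = √(uu a b (X - η)) := ⟨_, rfl⟩
  obtain ⟨Q', hQ'⟩ : ∃ Q', Q' = √(uu e c (X - η)) := ⟨_, rfl⟩
  have hs0 : 0 < s := by rw [hs]; exact Real.sqrt_pos.2 h1
  have ht0 : 0 < t := by rw [ht]; exact Real.sqrt_pos.2 h2
  have hs2 : s ^ 2 = uu a b X := by rw [hs]; exact Real.sq_sqrt h1.le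
  have ht2 : t ^ 2 = uu e c X := by rw [ht]; exact Real.sq_sqrt h2.le
  have hP2 : P ^ 2 = uu a b (X + η) := by rw [hP]; exact Real.sq_sqrt h1p
  have hQ2 : Q ^ 2 = uu e c (X + η) := by rw [hQ]; exact Real.sq_sqrt h2p
  have hP2' : P' ^ 2 = uu a b (X - η) := by rw [hP']; exact Real.sq_sqrt h1m
  have hQ2' : Q' ^ 2 = uu e c (X - η) := by rw [hQ']; exact Real.sq_sqrt h2m
  have hD : 0 ≤ (X + η)⁻¹ + (X - η)⁻¹ - 2 * X⁻¹ := by
    have : (X + η)⁻¹ + (X - η)⁻¹ - 2 * X⁻¹ = 2 * η ^ 2 / (X * ((X + η) * (X - η))) := by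
      field_simp
      ring
    rw [this]
    positivity
  obtain ⟨D, hDd⟩ : ∃ D, D = (X + η)⁻¹ + (X - η)⁻¹ - 2 * X⁻¹ := ⟨_, rfl⟩
  rw [← hDd] at hD
  have hPP : P ^ 2 + P' ^ 2 = 2 * s ^ 2 - (a ^ 2 - b ^ 2) ^ 2 * D := by
    rw [hP2, hP2', hs2, hDd]
    unfold uu
    ring
  have hQQ : Q ^ 2 + Q' ^ 2 = 2 * t ^ 2 - (e ^ 2 - c ^ 2) ^ 2 * D := by
    rw [hQ2, hQ2', ht2, hDd]
    unfold uu
    ring
  have hst : 0 < s * t := mul_pos hs0 ht0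
  have key : P * Q + P' * Q' ≤ 2 * (s * t) + D * ((a ^ 2 - b ^ 2) * (e ^ 2 - c ^ 2)) := by
    have h5 : 2 * (s * t) * (P * Q + P' * Q') ≤
        2 * (s * t) * (2 * (s * t) + D * ((a ^ 2 - b ^ 2) * (e ^ 2 - c ^ 2))) := by
      have e1 := sq_nonneg (t * P - s * Q)
      have e2 := sq_nonneg (t * P' - s * Q')
      have e3 := mul_nonneg hD (sq_nonneg (t * (a ^ 2 - b ^ 2) + s * (e ^ 2 - c ^ 2)))
      have e4 : t ^ 2 * (P ^ 2 + P' ^ 2) = t ^ 2 * (2 * s ^ 2 - (a ^ 2 - b ^ 2) ^ 2 * D) := by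
        rw [hPP]
      have e5 : s ^ 2 * (Q ^ 2 + Q' ^ 2) = s ^ 2 * (2 * t ^ 2 - (e ^ 2 - c ^ 2) ^ 2 * D) := by
        rw [hQQ]
      nlinarith [e1, e2, e3, e4, e5]
    exact le_of_mul_le_mul_left h5 (by linarith)
  unfold YY
  rw [← hs, ← ht, ← hP, ← hQ, ← hP', ← hQ']
  have e6 : (a ^ 2 - b ^ 2) * (e ^ 2 - c ^ 2) / (X + η) + (a ^ 2 - b ^ 2) * (e ^ 2 - c ^ 2) / (X - η)
      = (a ^ 2 - b ^ 2) * (e ^ 2 - c ^ 2) * D + 2 * ((a ^ 2 - b ^ 2) * (e ^ 2 - c ^ 2) / X) := by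
    rw [hDd]
    ring
  have e7 : D * ((a ^ 2 - b ^ 2) * (e ^ 2 - c ^ 2)) = (a ^ 2 - b ^ 2) * (e ^ 2 - c ^ 2) * D := by
    ring
  linarith [key, e6, e7]

end Pool.Agent.Helper83.CP
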