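import Pool.Agent.Helper83.CP.Defs

/-!
# Project CP (helper83), module Interp
From vertices to points of the sides: `x = (1-t)P + tP'`, `y = (1-s)R + sR'`:
`|x-y|² = (1-t)(1-s)|P-R|² + (1-t)s|P-R'|² + t(1-s)|P'-R|² + ts|P'-R'|² - t(1-t)|P-P'|² - s(1-s)|R-R'|²`,
so `∑_k |x_k-y_k|² ≤ 2|x-y|²`, and `∑_k |x_k-y_k| ≤ √2 √(∑_k |x_k-y_k|²) ≤ 2|x-y|`.
-/

set_option autoImplicit false

open MeasureTheory Set Filter Topology Metric
open scoped RealInnerProductSpace ENNReal NNReal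

namespace Pool.Agent.Helper83.CP

open Pool.Agent.Helper1.CK (E3 nEnergy V1 Content Good)

private theorem normsq_eq (z : ℂ) : ‖z‖ ^ 2 = z.re * z.re + z.im * z.im := by
  rw [Complex.sq_norm, Complex.normSq_apply]

private theorem interp_id (v : ℕ → ℂ) (i j : ℕ) (t s : ℝ) :
    ‖pt v i t - pt v j s‖ ^ 2 =
      (1 - t) * (1 - s) * ‖v i - v j‖ ^ 2 + (1 - t) * s * ‖v i - v (j + 1)‖ ^ 2 +
        t * (1 - s) * ‖v (i + 1) - v j‖ ^ 2 + t * s * ‖v (i + 1) - v (j + 1)‖ ^ 2 -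
        t * (1 - t) * len v i ^ 2 - s * (1 - s) * len v j ^ 2 := by
  simp only [pt, len, normsq_eq, Complex.sub_re, Complex.sub_im, Complex.add_re, Complex.add_im,
    Complex.mul_re, Complex.mul_im, Complex.ofReal_re, Complex.ofReal_im]
  ring

theorem interp {v v1 v2 : ℕ → ℂ} (h1 : ∀ i, len v1 i = len v i) (h2 : ∀ i, len v2 i = len v i)
    (h : ∀ i j, ‖v1 i - v1 j‖ ^ 2 + ‖v2 i - v2 j‖ ^ 2 ≤ 2 * ‖v i - v j‖ ^ 2) (i j : ℕ)
    {t s : ℝ} (ht : t ∈ Icc (0 : ℝ) 1) (hs : s ∈ Icc (0 : ℝ) 1) :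
    ‖pt v1 i t - pt v1 j s‖ + ‖pt v2 i t - pt v2 j s‖ ≤ 2 * ‖pt v i t - pt v j s‖ := by
  obtain ⟨ht0, ht1⟩ := ht
  obtain ⟨hs0, hs1⟩ := hs
  have e0 := interp_id v i j t s
  have e1 := interp_id v1 i j t s
  have e2 := interp_id v2 i j t s
  rw [h1 i, h1 j] at e1
  rw [h2 i, h2 j] at e2
  have a1 : 0 ≤ (1 - t) * (1 - s) := mul_nonneg (by linarith) (by linarith)
  have a2 : 0 ≤ (1 - t) * s := mul_nonneg (by linarith) hs0
  have a3 : 0 ≤ t * (1 - s) := mul_nonneg ht0 (by linarith)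
  have a4 : 0 ≤ t * s := mul_nonneg ht0 hs0
  have b1 := mul_le_mul_of_nonneg_left (h i j) a1
  have b2 := mul_le_mul_of_nonneg_left (h i (j + 1)) a2
  have b3 := mul_le_mul_of_nonneg_left (h (i + 1) j) a3
  have b4 := mul_le_mul_of_nonneg_left (h (i + 1) (j + 1)) a4
  have key : ‖pt v1 i t - pt v1 j s‖ ^ 2 + ‖pt v2 i t - pt v2 j s‖ ^ 2 ≤
      2 * ‖pt v i t - pt v j s‖ ^ 2 := by
    nlinarith [b1, b2, b3, b4]
  have n0 := norm_nonneg (pt v i t - pt v j s)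
  have n1 := norm_nonneg (pt v1 i t - pt v1 j s)
  have n2 := norm_nonneg (pt v2 i t - pt v2 j s)
  refine le_of_sq_le_sq ?_ (by positivity)
  nlinarith [sq_nonneg (‖pt v1 i t - pt v1 j s‖ - ‖pt v2 i t - pt v2 j s‖)]

end Pool.Agent.Helper83.CP
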