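import Pool.Agent.Helper83.CP.Defs

/-!
# Project CP (helper83), module StrictOpen
(1) A strictly convex polygon is a `CPoly`. `cyc` is clear; chord condition: for `i<j<k<l<i+n` let `A = cr(i,j,k)`, `B = cr(i,k,l)`,
  `C = cr(i,j,l)`, `D = cr(j,k,l)` (notation `cr(i,j,k) = cr (v j - v i) (v k - v i)`), all positive (`D`: the triple `j<k<l`, `l < j+n`), `A+B = C+D` (identity), and
  `v_j + (A/(A+B)) (v_l-v_j) = v_i + (C/(C+D)) (v_k-v_i)` (identity after clearing denominators).
(2) Strictness is an open condition: by periodicity (`upd n v p q` is `n`-periodic because `v` is) it suffices to consider the triples `i<j<k<i+n` with `i < n`, which are finitely many, and each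
  `cr` is a continuous function of `(p,q)` with a positive value at `(v 1, v 2)` (`upd n v (v 1) (v 2) = v` by periodicity).
-/

set_option autoImplicit false

open MeasureTheory Set Filter Topology Metric
open scoped RealInnerProductSpace ENNReal NNReal

namespace Pool.Agent.Helper83.CP

open Pool.Agent.Helper1.CK (E3 nEnergy V1 Content Good)

theorem cpoly_of_strict {n : ℕ} {v : ℕ → ℂ} (hp : ∀ i, v (i + n) = v i) (hs : Strict n v) :
    CPoly n v := by
  refine ⟨hp, fun i j k h1 h2 h3 => (hs i j k h1 h2 h3).le, ?_⟩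
  intro i j k l hij hjk hkl hli
  have hA := hs i j k hij hjk (by omega)
  have hB := hs i k l (by omega) hkl hli
  have hC := hs i j l hij (by omega) hli
  have hD := hs j k l hjk hkl (by omega)
  set A := cr (v j - v i) (v k - v i) with hAd
  set B := cr (v k - v i) (v l - v i) with hBd
  set C := cr (v j - v i) (v l - v i) with hCd
  set D := cr (v k - v j) (v l - v j) with hDd
  have hS : A + B = C + D := by
    simp only [hAd, hBd, hCd, hDd, cr, Complex.sub_re, Complex.sub_im]
    ring
  have hpos : 0 < A + B := by linarith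
  refine ⟨v i + ((C / (C + D) : ℝ) : ℂ) * (v k - v i), ?_, ?_⟩
  · rw [segment_eq_image']
    refine ⟨C / (C + D), ⟨by positivity, ?_⟩, ?_⟩
    · rw [div_le_one (by linarith)]; linarith
    · simp only [Complex.real_smul]
  · have key : v i + ((C / (C + D) : ℝ) : ℂ) * (v k - v i) =
        v j + ((A / (A + B) : ℝ) : ℂ) * (v l - v j) := by
      rw [← hS]
      have e1 : C * ((v k).re - (v i).re) =
          (A + B) * ((v j).re - (v i).re) + A * ((v l).re - (v j).re) := by
        simp only [hAd, hBd, hCd, cr, Complex.sub_re, Complex.sub_im]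
        ring
      have e2 : C * ((v k).im - (v i).im) =
          (A + B) * ((v j).im - (v i).im) + A * ((v l).im - (v j).im) := by
        simp only [hAd, hBd, hCd, cr, Complex.sub_re, Complex.sub_im]
        ring
      have hne : A + B ≠ 0 := hpos.ne'
      apply Complex.ext
      · simp only [Complex.add_re, Complex.re_ofReal_mul, Complex.sub_re]
        field_simp
        linarith [e1]
      · simp only [Complex.add_im, Complex.im_ofReal_mul, Complex.sub_im]
        field_simp
        linarith [e2]
    rw [key, segment_eq_image']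
    refine ⟨A / (A + B), ⟨by positivity, ?_⟩, ?_⟩
    · rw [div_le_one hpos]; linarith
    · simp only [Complex.real_smul]

theorem upd_per {n : ℕ} {v : ℕ → ℂ} (hp : ∀ i, v (i + n) = v i) (p q : ℂ) (i : ℕ) :
    upd n v p q (i + n) = upd n v p q i := by
  unfold upd
  rw [Nat.add_mod_right, hp]

theorem strict_upd {n : ℕ} (hn : 4 ≤ n) {v : ℕ → ℂ} (hp : ∀ i, v (i + n) = v i)
    (hs : Strict n v) : ∀ᶠ z : ℂ × ℂ in 𝓝 (v 1, v 2), Strict n (upd n v z.1 z.2) := by
  have hper : ∀ (w : ℕ → ℂ), (∀ i, w (i + n) = w i) → ∀ i q, w (i + n * q) = w i := by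
    intro w hw i q
    induction q with
    | zero => simp
    | succ q ih => rw [Nat.mul_succ, ← Nat.add_assoc, hw, ih]
  have hv : upd n v (v 1) (v 2) = v := by
    funext i
    unfold upd
    split_ifs with h1 h2
    · conv_rhs => rw [← Nat.mod_add_div i n, h1, hper v hp]
    · conv_rhs => rw [← Nat.mod_add_div i n, h2, hper v hp]
    · rfl
  have hcont : ∀ i, Continuous (fun z : ℂ × ℂ => upd n v z.1 z.2 i) := by
    intro i
    unfold upd
    split_ifs
    · exact continuous_fst
    · exact continuous_snd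
    · exact continuous_const
  have hfin : ∀ᶠ z : ℂ × ℂ in 𝓝 (v 1, v 2), ∀ t ∈ (Finset.range n) ×ˢ (Finset.range (2 * n)) ×ˢ
      (Finset.range (2 * n)), t.1 < t.2.1 → t.2.1 < t.2.2 → t.2.2 < t.1 + n →
      0 < cr (upd n v z.1 z.2 t.2.1 - upd n v z.1 z.2 t.1)
        (upd n v z.1 z.2 t.2.2 - upd n v z.1 z.2 t.1) := by
    rw [Filter.eventually_all_finset]
    intro t _
    by_cases h1 : t.1 < t.2.1 ∧ t.2.1 < t.2.2 ∧ t.2.2 < t.1 + n
    · have hc : Continuous (fun z : ℂ × ℂ => cr (upd n v z.1 z.2 t.2.1 - upd n v z.1 z.2 t.1)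
          (upd n v z.1 z.2 t.2.2 - upd n v z.1 z.2 t.1)) := by
        have c1 := hcont t.1
        have c2 := hcont t.2.1
        have c3 := hcont t.2.2
        unfold cr
        fun_prop
      have h2 : 0 < (fun z : ℂ × ℂ => cr (upd n v z.1 z.2 t.2.1 - upd n v z.1 z.2 t.1)
          (upd n v z.1 z.2 t.2.2 - upd n v z.1 z.2 t.1)) (v 1, v 2) := by
        simp only [hv]
        exact hs _ _ _ h1.1 h1.2.1 h1.2.2
      filter_upwards [hc.continuousAt.eventually (lt_mem_nhds h2)] with z hz _ _ _
      exact hz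
    · refine Filter.Eventually.of_forall fun z a b c => ?_
      exact absurd ⟨a, b, c⟩ h1
  filter_upwards [hfin] with z hz
  intro i j k hij hjk hki
  have hper' := hper (upd n v z.1 z.2) (fun i => upd_per hp z.1 z.2 i)
  obtain ⟨i0, q, hi0, rfl⟩ : ∃ i0 q, i0 < n ∧ i = i0 + n * q :=
    ⟨i % n, i / n, Nat.mod_lt i (by omega), (Nat.mod_add_div i n).symm⟩
  obtain ⟨j0, rfl⟩ : ∃ j0, j = j0 + n * q := ⟨j - n * q, by omega⟩
  obtain ⟨k0, rfl⟩ : ∃ k0, k = k0 + n * q := ⟨k - n * q, by omega⟩
  rw [hper', hper', hper']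
  refine hz (i0, j0, k0) ?_ (by simp only; omega) (by simp only; omega) (by simp only; omega)
  simp only [Finset.mem_product, Finset.mem_range]
  omega

end Pool.Agent.Helper83.CP
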