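import Pool.Agent.Helper83.CP.Defs

/-!
# Project CP (helper83), module VertexIneq
The distances of the vertices under a flex of `v 1`, `v 2` (`v 0`, `v 3` and all others fixed).

For `i`, `j` arbitrary: by periodicity `i, j < n`. Both in `{0,3,4,…}`: equality. Sides `{0,1}`, `{1,2}`, `{2,3}`: equality. `{0,2}`: `hX`. `{1,3}`: `hY`.
`{1,j}`, `4 ≤ j < n`: `w = v1-v0`, `d = v3-v0`, `z = v_j-v0`: `z = λ d - μ w` with
`λ = cr(w,z)/cr(w,d) ≥ 0`, `μ = cr(d,z)/cr(w,d) ≥ 0` (strictness: triples `0<1<3`, `0<1<j`, `0<3<j`). With `w_k = P_k - v_0`, `|w_k| = |w|`: `∑_k <w_k,d> ≥ 2<w,d>` (this is `hY`), `<w_k,w> ≤ |w|²`, so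
`∑_k <w_k,z> ≥ 2<w,z>`, and this is the claim. `{2,j}`, `4 ≤ j < n`: the same with base point `v3`: `w' = v2-v3`, `d' = v0-v3`, `z' = v_j-v3 = λ d' - μ w'`,
`λ = cr(z',w')/cr(d',w') ≥ 0`, `μ = cr(z',d')/cr(d',w') ≥ 0` (orientations of `2,3,j`, of `3,j,n` with `v n = v 0`, and of `2,3,n`; for `j` up to `n-1`), `∑_k <w'_k,d'> = 2<w',d'>` (from `hX`), `w'_k = Q_k - v3`.
-/

set_option autoImplicit false

open MeasureTheory Set Filter Topology Metric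
open scoped RealInnerProductSpace ENNReal NNReal

namespace Pool.Agent.Helper83.CP

open Pool.Agent.Helper1.CK (E3 nEnergy V1 Content Good)

private lemma core_ineq (w1 w2 d1 d2 z1 z2 a1 a2 b1 b2 : ℝ)
    (hwd : 0 < w1 * d2 - w2 * d1) (hwz : 0 ≤ w1 * z2 - w2 * z1)
    (hdz : 0 ≤ d1 * z2 - d2 * z1)
    (ha : a1 ^ 2 + a2 ^ 2 = w1 ^ 2 + w2 ^ 2) (hb : b1 ^ 2 + b2 ^ 2 = w1 ^ 2 + w2 ^ 2)
    (hd : 2 * (w1 * d1 + w2 * d2) ≤ (a1 * d1 + a2 * d2) + (b1 * d1 + b2 * d2)) :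
    2 * (w1 * z1 + w2 * z2) ≤ (a1 * z1 + a2 * z2) + (b1 * z1 + b2 * z2) := by
  have key : (w1 * d2 - w2 * d1) * ((a1 * z1 + a2 * z2) + (b1 * z1 + b2 * z2)
      - 2 * (w1 * z1 + w2 * z2)) =
      (w1 * z2 - w2 * z1) * ((a1 * d1 + a2 * d2) + (b1 * d1 + b2 * d2)
        - 2 * (w1 * d1 + w2 * d2)) +
      (d1 * z2 - d2 * z1) * (2 * (w1 ^ 2 + w2 ^ 2) - (a1 * w1 + a2 * w2)
        - (b1 * w1 + b2 * w2)) := by ring
  have h1 : 0 ≤ 2 * (w1 ^ 2 + w2 ^ 2) - (a1 * w1 + a2 * w2) - (b1 * w1 + b2 * w2) := by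
    nlinarith [sq_nonneg (a1 - w1), sq_nonneg (a2 - w2), sq_nonneg (b1 - w1),
      sq_nonneg (b2 - w2)]
  have h2 : 0 ≤ (w1 * d2 - w2 * d1) * ((a1 * z1 + a2 * z2) + (b1 * z1 + b2 * z2)
      - 2 * (w1 * z1 + w2 * z2)) := by
    rw [key]
    exact add_nonneg (mul_nonneg hwz (sub_nonneg.2 hd)) (mul_nonneg hdz h1)
  have h3 := nonneg_of_mul_nonneg_right h2 hwd
  linarith

private lemma nsq (z : ℂ) : ‖z‖ ^ 2 = z.re ^ 2 + z.im ^ 2 := by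
  rw [Complex.sq_norm, Complex.normSq_apply]; ring

private lemma nsq' {z w : ℂ} (h : ‖z‖ = ‖w‖) : z.re ^ 2 + z.im ^ 2 = w.re ^ 2 + w.im ^ 2 := by
  rw [← nsq, ← nsq, h]

/-- the case of a vertex `z` seen from the base point `o`; `s = 1` or `s = -1` is the orientation -/
private lemma base_ineq (s : ℝ) (hs : s ^ 2 = 1) (o w d z p q : ℂ)
    (hwd : 0 < s * cr (w - o) (d - o)) (hwz : 0 ≤ s * cr (w - o) (z - o))
    (hdz : 0 ≤ s * cr (d - o) (z - o))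
    (hp : ‖p - o‖ = ‖w - o‖) (hq : ‖q - o‖ = ‖w - o‖)
    (hd : ‖d - p‖ ^ 2 + ‖d - q‖ ^ 2 ≤ 2 * ‖d - w‖ ^ 2) :
    ‖p - z‖ ^ 2 + ‖q - z‖ ^ 2 ≤ 2 * ‖w - z‖ ^ 2 := by
  have hp' := nsq' hp
  have hq' := nsq' hq
  simp only [nsq, Complex.sub_re, Complex.sub_im] at hd hp' hq' ⊢
  simp only [cr, Complex.sub_re, Complex.sub_im] at hwd hwz hdz
  have hc := core_ineq (w.re - o.re) (s * (w.im - o.im)) (d.re - o.re) (s * (d.im - o.im))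
    (z.re - o.re) (s * (z.im - o.im)) (p.re - o.re) (s * (p.im - o.im)) (q.re - o.re)
    (s * (q.im - o.im)) (by linarith) (by linarith) (by linarith)
    (by rw [mul_pow, mul_pow, hs]; linarith) (by rw [mul_pow, mul_pow, hs]; linarith)
    (by
      have e : ∀ x y : ℝ, s * x * (s * y) = x * y := by
        intro x y
        calc s * x * (s * y) = s ^ 2 * (x * y) := by ring
          _ = x * y := by rw [hs, one_mul]
      simp only [e]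
      nlinarith)
  have e : ∀ x y : ℝ, s * x * (s * y) = x * y := by
    intro x y
    calc s * x * (s * y) = s ^ 2 * (x * y) := by ring
      _ = x * y := by rw [hs, one_mul]
  simp only [e] at hc
  nlinarith

private lemma per_mul {n : ℕ} {v : ℕ → ℂ} (hp : ∀ i, v (i + n) = v i) (i k : ℕ) :
    v (i + n * k) = v i := by
  induction k with
  | zero => simp
  | succ k ih => rw [Nat.mul_succ, ← add_assoc, hp, ih]

private lemma v_mod {n : ℕ} {v : ℕ → ℂ} (hp : ∀ i, v (i + n) = v i) (i : ℕ) :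
    v i = v (i % n) := by
  conv_lhs => rw [← Nat.mod_add_div i n]
  exact per_mul hp _ _

private lemma upd_mod {n : ℕ} {v : ℕ → ℂ} (hp : ∀ i, v (i + n) = v i) (p q : ℂ) (i : ℕ) :
    upd n v p q i = upd n v p q (i % n) := by
  unfold upd
  rw [Nat.mod_mod, ← v_mod hp i]

/-- the vertex `1` against a vertex `j < n` -/
private lemma one_ineq {n : ℕ} (hn : 4 ≤ n) {v : ℕ → ℂ}
    (hs : Strict n v) {P1 Q1 P2 Q2 : ℂ}
    (ha1 : ‖P1 - v 0‖ = ‖v 1 - v 0‖) (ha2 : ‖P2 - v 0‖ = ‖v 1 - v 0‖)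
    (hb1 : ‖Q1 - P1‖ = ‖v 2 - v 1‖) (hb2 : ‖Q2 - P2‖ = ‖v 2 - v 1‖)
    (hY : ‖v 3 - P1‖ ^ 2 + ‖v 3 - P2‖ ^ 2 ≤ 2 * ‖v 3 - v 1‖ ^ 2) (j : ℕ) (hj : j < n) :
    ‖P1 - upd n v P1 Q1 j‖ ^ 2 + ‖P2 - upd n v P2 Q2 j‖ ^ 2 ≤
      2 * ‖v 1 - v j‖ ^ 2 := by
  unfold upd
  rw [Nat.mod_eq_of_lt hj]
  by_cases h1 : j = 1
  · subst h1; simp
  by_cases h2 : j = 2
  · subst h2
    simp only [if_neg h1, if_true]
    rw [norm_sub_rev P1, norm_sub_rev P2, norm_sub_rev (v 1), hb1, hb2]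
    linarith
  simp only [if_neg h1, if_neg h2]
  by_cases h0 : j = 0
  · subst h0
    rw [ha1, ha2]; linarith
  by_cases h3 : j = 3
  · subst h3
    rw [norm_sub_rev P1, norm_sub_rev P2, norm_sub_rev (v 1)]
    exact hY
  refine base_ineq 1 (by norm_num) (v 0) (v 1) (v 3) (v j) P1 P2 ?_ ?_ ?_ ha1 ha2 hY
  · rw [one_mul]; exact hs 0 1 3 (by omega) (by omega) (by omega)
  · rw [one_mul]; exact (hs 0 1 j (by omega) (by omega) (by omega)).le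
  · rw [one_mul]; exact (hs 0 3 j (by omega) (by omega) (by omega)).le

/-- the vertex `2` against a vertex `j < n` -/
private lemma two_ineq {n : ℕ} (hn : 4 ≤ n) {v : ℕ → ℂ} (hp : ∀ i, v (i + n) = v i)
    (hs : Strict n v) {P1 Q1 P2 Q2 : ℂ}
    (hb1 : ‖Q1 - P1‖ = ‖v 2 - v 1‖) (hb2 : ‖Q2 - P2‖ = ‖v 2 - v 1‖)
    (hc1 : ‖v 3 - Q1‖ = ‖v 3 - v 2‖) (hc2 : ‖v 3 - Q2‖ = ‖v 3 - v 2‖)
    (hX : ‖Q1 - v 0‖ ^ 2 + ‖Q2 - v 0‖ ^ 2 = 2 * ‖v 2 - v 0‖ ^ 2) (j : ℕ) (hj : j < n) :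
    ‖Q1 - upd n v P1 Q1 j‖ ^ 2 + ‖Q2 - upd n v P2 Q2 j‖ ^ 2 ≤
      2 * ‖v 2 - v j‖ ^ 2 := by
  unfold upd
  rw [Nat.mod_eq_of_lt hj]
  by_cases h1 : j = 1
  · subst h1
    simp only [if_true]
    rw [hb1, hb2]; linarith
  by_cases h2 : j = 2
  · subst h2; simp
  simp only [if_neg h1, if_neg h2]
  by_cases h0 : j = 0
  · subst h0
    exact hX.le
  by_cases h3 : j = 3
  · subst h3
    rw [norm_sub_rev Q1, norm_sub_rev Q2, norm_sub_rev (v 2), hc1, hc2]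
    linarith
  have e0 : v n = v 0 := by simpa using hp 0
  have e2 : v (n + 2) = v 2 := by rw [add_comm]; exact hp 2
  have c1 := hs 3 n (n + 2) (by omega) (by omega) (by omega)
  have c2 := hs 3 j (n + 2) (by omega) (by omega) (by omega)
  have c3 := hs 3 j n (by omega) (by omega) (by omega)
  rw [e0, e2] at c1
  rw [e2] at c2
  rw [e0] at c3
  have sw : ∀ a b : ℂ, (-1 : ℝ) * cr a b = cr b a := by
    intro a b; unfold cr; ring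
  refine base_ineq (-1) (by norm_num) (v 3) (v 2) (v 0) (v j) Q1 Q2 ?_ ?_ ?_ ?_ ?_ ?_
  · rw [sw]; exact c1
  · rw [sw]; exact c2.le
  · rw [sw]; exact c3.le
  · rw [norm_sub_rev Q1, norm_sub_rev (v 2)]; exact hc1
  · rw [norm_sub_rev Q2, norm_sub_rev (v 2)]; exact hc2
  · rw [norm_sub_rev (v 0) Q1, norm_sub_rev (v 0) Q2, norm_sub_rev (v 0) (v 2)]
    exact hX.le

theorem vertex_ineq {n : ℕ} (hn : 4 ≤ n) {v : ℕ → ℂ} (hp : ∀ i, v (i + n) = v i)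
    (hs : Strict n v) {P1 Q1 P2 Q2 : ℂ}
    (ha1 : ‖P1 - v 0‖ = ‖v 1 - v 0‖) (ha2 : ‖P2 - v 0‖ = ‖v 1 - v 0‖)
    (hb1 : ‖Q1 - P1‖ = ‖v 2 - v 1‖) (hb2 : ‖Q2 - P2‖ = ‖v 2 - v 1‖)
    (hc1 : ‖v 3 - Q1‖ = ‖v 3 - v 2‖) (hc2 : ‖v 3 - Q2‖ = ‖v 3 - v 2‖)
    (hX : ‖Q1 - v 0‖ ^ 2 + ‖Q2 - v 0‖ ^ 2 = 2 * ‖v 2 - v 0‖ ^ 2)
    (hY : ‖v 3 - P1‖ ^ 2 + ‖v 3 - P2‖ ^ 2 ≤ 2 * ‖v 3 - v 1‖ ^ 2) (i j : ℕ) :
    ‖upd n v P1 Q1 i - upd n v P1 Q1 j‖ ^ 2 + ‖upd n v P2 Q2 i - upd n v P2 Q2 j‖ ^ 2 ≤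
      2 * ‖v i - v j‖ ^ 2 := by
  have hn0 : 0 < n := by omega
  have key : ∀ i j : ℕ, i < n → j < n →
      ‖upd n v P1 Q1 i - upd n v P1 Q1 j‖ ^ 2 + ‖upd n v P2 Q2 i - upd n v P2 Q2 j‖ ^ 2 ≤
      2 * ‖v i - v j‖ ^ 2 := by
    intro i j hi hj
    have u1 : ∀ p q : ℂ, upd n v p q 1 = p := by
      intro p q; unfold upd; rw [Nat.mod_eq_of_lt (by omega)]; simp
    have u2 : ∀ p q : ℂ, upd n v p q 2 = q := by
      intro p q; unfold upd; rw [Nat.mod_eq_of_lt (by omega)]; simp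
    by_cases h1 : i = 1
    · subst h1
      rw [u1, u1]
      exact one_ineq hn hs ha1 ha2 hb1 hb2 hY j hj
    by_cases h2 : i = 2
    · subst h2
      rw [u2, u2]
      exact two_ineq hn hp hs hb1 hb2 hc1 hc2 hX j hj
    have ui : ∀ p q : ℂ, upd n v p q i = v i := by
      intro p q; unfold upd; rw [Nat.mod_eq_of_lt hi]; simp [h1, h2]
    by_cases k1 : j = 1
    · subst k1
      have h := one_ineq hn hs ha1 ha2 hb1 hb2 hY i hi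
      rw [ui, ui] at h
      rw [u1, u1, ui, ui, norm_sub_rev (v i) P1, norm_sub_rev (v i) P2, norm_sub_rev (v i) (v 1)]
      exact h
    by_cases k2 : j = 2
    · subst k2
      have h := two_ineq hn hp hs hb1 hb2 hc1 hc2 hX i hi
      rw [ui, ui] at h
      rw [u2, u2, ui, ui, norm_sub_rev (v i) Q1, norm_sub_rev (v i) Q2, norm_sub_rev (v i) (v 2)]
      exact h
    have uj : ∀ p q : ℂ, upd n v p q j = v j := by
      intro p q; unfold upd; rw [Nat.mod_eq_of_lt hj]; simp [k1, k2]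
    rw [ui, ui, uj, uj]
    linarith
  rw [upd_mod hp P1 Q1 i, upd_mod hp P1 Q1 j, upd_mod hp P2 Q2 i, upd_mod hp P2 Q2 j,
    v_mod hp i, v_mod hp j]
  exact key _ _ (Nat.mod_lt _ hn0) (Nat.mod_lt _ hn0)

end Pool.Agent.Helper83.CP
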