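import Pool.Agent.Helper83.CP.Defs
import Pool.Agent.Helper83.CP.FourBar
import Pool.Agent.Helper83.CP.FlexPos
import Pool.Agent.Helper83.CP.StrictOpen
import Pool.Agent.Helper83.CP.VertexIneq
import Pool.Agent.Helper83.CP.Interp

/-!
# Project CP (helper83), module Flex
`n ≥ 4`, `v` a strictly convex closed polygon: two flexes with the same side lengths, one of them with a longer diagonal `v 0 v 2`, whose mean does not increase distances.

Proof. `V0 = v 0`, `V1 = v 1`, `V2 = v 2`, `V3 = v 3`, positions `P h`, `Q h` from `flex_pos` (strictness: triples `0<1<2`, `0<2<3`). `v1 := upd n v (P h) (Q h)`, `v2 := upd n v (P (-h)) (Q (-h))` for a small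
`h > 0`: such that the eventual statement of `flex_pos` holds at `h` and `-h`, `h < X = |v 2 - v 0|²`, and both are strict (`strict_upd` and the limits of `P`, `Q`), so `CPoly` (`cpoly_of_strict`, `upd_per`).
`|v1_2-v_0|² = X+h > X`. The vertex inequality is `vertex_ineq`, where `hX` is `X+h + X-h = 2X` and `hY` is `fourbar`. The side lengths are unchanged
(sides `0,1`, `1,2`, `2,3` by `flex_pos`; use periodicity for the indices mod `n`; for `n ≥ 4` the vertices `0` and `3` are not moved). Then `interp`.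
-/

set_option autoImplicit false

open MeasureTheory Set Filter Topology Metric
open scoped RealInnerProductSpace ENNReal NNReal

namespace Pool.Agent.Helper83.CP

open Pool.Agent.Helper1.CK (E3 nEnergy V1 Content Good)

private lemma per_mod {n : ℕ} {v : ℕ → ℂ} (hp : ∀ i, v (i + n) = v i) (i : ℕ) :
    v i = v (i % n) := by
  have h : Function.Periodic v n := hp
  exact (h.map_mod_nat i).symm

private lemma len_upd {n : ℕ} (hn : 4 ≤ n) {v : ℕ → ℂ} (hp : ∀ i, v (i + n) = v i) {P Q : ℂ}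
    (ha : ‖P - v 0‖ = ‖v 1 - v 0‖) (hb : ‖Q - P‖ = ‖v 2 - v 1‖) (hc : ‖v 3 - Q‖ = ‖v 3 - v 2‖)
    (i : ℕ) : len (upd n v P Q) i = len v i := by
  unfold len
  have hi := per_mod hp i
  have hi1 := per_mod hp (i + 1)
  have hlt : i % n < n := Nat.mod_lt i (by omega)
  have hsucc : (i + 1) % n = if i % n + 1 = n then 0 else i % n + 1 := by
    rw [Nat.add_mod, Nat.mod_eq_of_lt (show 1 < n by omega)]
    split_ifs with h
    · rw [h, Nat.mod_self]
    · exact Nat.mod_eq_of_lt (by omega)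
  rcases (by omega : i % n = 0 ∨ i % n = 1 ∨ i % n = 2 ∨ 3 ≤ i % n) with h | h | h | h
  · have h1 : (i + 1) % n = 1 := by
      rw [hsucc, h, if_neg (by omega)]
    rw [hi1, h1, hi, h]
    have e1 : upd n v P Q (i + 1) = P := by
      unfold upd; rw [if_pos h1]
    have e0 : upd n v P Q i = v 0 := by
      unfold upd
      rw [if_neg (by omega), if_neg (by omega), hi, h]
    rw [e1, e0, ha]
  · have h1 : (i + 1) % n = 2 := by
      rw [hsucc, h, if_neg (by omega)]
    rw [hi1, h1, hi, h]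
    have e1 : upd n v P Q (i + 1) = Q := by
      unfold upd; rw [if_neg (by omega), if_pos h1]
    have e0 : upd n v P Q i = P := by
      unfold upd
      rw [if_pos h]
    rw [e1, e0, hb]
  · have h1 : (i + 1) % n = 3 := by
      rw [hsucc, h, if_neg (by omega)]
    rw [hi1, h1, hi, h]
    have e1 : upd n v P Q (i + 1) = v 3 := by
      unfold upd; rw [if_neg (by omega), if_neg (by omega), hi1, h1]
    have e0 : upd n v P Q i = Q := by
      unfold upd
      rw [if_neg (by omega), if_pos h]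
    rw [e1, e0, hc]
  · have h1 : (i + 1) % n ≠ 1 ∧ (i + 1) % n ≠ 2 := by
      rw [hsucc]
      split_ifs <;> omega
    have e1 : upd n v P Q (i + 1) = v (i + 1) := by
      unfold upd; rw [if_neg h1.1, if_neg h1.2]
    have e0 : upd n v P Q i = v i := by
      unfold upd
      rw [if_neg (by omega), if_neg (by omega)]
    rw [e1, e0]

theorem flex {n : ℕ} (hn : 4 ≤ n) {v : ℕ → ℂ} (hv : CPoly n v) (hs : Strict n v) :
    ∃ v1 v2 : ℕ → ℂ, CPoly n v1 ∧ CPoly n v2 ∧ (∀ i, len v1 i = len v i) ∧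
      (∀ i, len v2 i = len v i) ∧ v1 0 = v 0 ∧ v2 0 = v 0 ∧ ‖v 2 - v 0‖ < ‖v1 2 - v1 0‖ ∧
      ∀ i j, ∀ t ∈ Icc (0 : ℝ) 1, ∀ s ∈ Icc (0 : ℝ) 1,
        ‖pt v1 i t - pt v1 j s‖ + ‖pt v2 i t - pt v2 j s‖ ≤ 2 * ‖pt v i t - pt v j s‖ := by
  have hp := hv.per
  have h1 : 0 < cr (v 1 - v 0) (v 2 - v 0) := hs 0 1 2 (by omega) (by omega) (by omega)
  have h2 : 0 < cr (v 2 - v 0) (v 3 - v 0) := hs 0 2 3 (by omega) (by omega) (by omega)
  obtain ⟨P, Q, hP, hQ, hev, hYY⟩ := flex_pos h1 h2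
  have hst : ∀ᶠ h in 𝓝 (0 : ℝ), Strict n (upd n v (P h) (Q h)) :=
    (hP.prodMk_nhds hQ).eventually (strict_upd hn hp hs)
  have hne : v 2 - v 0 ≠ 0 := by
    intro h0
    rw [h0] at h1
    simp [cr] at h1
  have hX : 0 < ‖v 2 - v 0‖ ^ 2 := by positivity
  have hneg : Tendsto (fun h : ℝ => -h) (𝓝 0) (𝓝 0) := by
    have := (continuous_neg (G := ℝ)).tendsto 0
    rwa [neg_zero] at this
  have h00 := hev.self_of_nhds
  have hall := (((hev.and hst).and (hneg.eventually (hev.and hst))).and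
    (eventually_lt_nhds hX)).filter_mono (nhdsWithin_le_nhds (s := Ioi (0 : ℝ)))
  obtain ⟨h, ⟨⟨⟨⟨a1, b1, c1, X1, u1, w1, Y1⟩, s1⟩, ⟨a2, b2, c2, X2, u2, w2, Y2⟩, s2⟩, hlt⟩, hpos⟩ :=
    (hall.and self_mem_nhdsWithin).exists
  have hpos' : 0 < h := hpos
  refine ⟨upd n v (P h) (Q h), upd n v (P (-h)) (Q (-h)), cpoly_of_strict (upd_per hp _ _) s1,
    cpoly_of_strict (upd_per hp _ _) s2, len_upd hn hp a1 b1 c1, len_upd hn hp a2 b2 c2, ?_, ?_,
    ?_, ?_⟩
  · simp [upd]
  · simp [upd]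
  · have e0 : upd n v (P h) (Q h) 0 = v 0 := by simp [upd]
    have e2 : upd n v (P h) (Q h) 2 = Q h := by
      unfold upd
      rw [Nat.mod_eq_of_lt (show 2 < n by omega), if_neg (by omega), if_pos rfl]
    rw [e0, e2]
    refine lt_of_pow_lt_pow_left₀ 2 (norm_nonneg _) ?_
    rw [X1]
    linarith
  · intro i j t ht s hs'
    refine interp (len_upd hn hp a1 b1 c1) (len_upd hn hp a2 b2 c2) ?_ i j ht hs'
    intro i j
    refine vertex_ineq hn hp hs a1 a2 b1 b2 c1 c2 ?_ ?_ i j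
    · rw [X1, X2]; ring
    · rw [Y1, Y2, hYY]
      have hfb := fourbar (a := ‖v 1 - v 0‖) (b := ‖v 2 - v 1‖) (c := ‖v 3 - v 2‖)
        (e := ‖v 3 - v 0‖) (X := ‖v 2 - v 0‖ ^ 2) (η := h) hX hpos'.le hlt
        (by have := h00.2.2.2.2.1; rwa [add_zero] at this)
        (by have := h00.2.2.2.2.2.1; rwa [add_zero] at this)
        u1.le (by rw [sub_eq_add_neg]; exact u2.le) w1.le (by rw [sub_eq_add_neg]; exact w2.le)
      rw [sub_eq_add_neg] at hfb
      exact hfb

end Pool.Agent.Helper83.CP
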