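import Pool.Agent.Helper83.CP.Defs

/-!
# Project CP (helper83), module NoFlat
`n ≥ 4`, `v` a convex closed polygon with nonzero sides and no flat vertex. Then `v` is strictly convex.

Proof. Suppose `cr(v j - v i, v k - v i) = 0` for some `i<j<k<i+n`.
(a) If two of the three points coincide, say (after a cyclic renaming `(i,j,k) → (j,k,i+n)`) `v_i = v_j`: then `i+1 < j < i+n-1` (nonzero sides), and
 `chord(i,i+1,j,i+n-1)` gives `v_i ∈ [v_{i+1}, v_{i+n-1}]`: flat. So they are different and one lies strictly between the two others; after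
 a cyclic renaming `v_j` is strictly between `v_i` and `v_k`.
(b) Every `v_m`, `i<m<k`, is on the line: put `v_i = 0`, `v_j = B`, `v_k = C` real, `0<B<C`, `v_m = (x,y)`. `i<m<j`: `cyc(i,m,j)`: `-yB ≥ 0`, `cyc(m,j,k)`: `y(C-B) ≥ 0`.
 `j<m<k`: `cyc(i,j,m)`: `By ≥ 0`, `cyc(j,m,k)`: `-y(C-B) ≥ 0`. So `y = 0`.
(c) `v_{j-1}, v_j, v_{j+1}` are on the line (`i ≤ j-1`, `j+1 ≤ k`), `v_j` is not between them: `v_{j+1}-v_j = α d`, `v_{j-1}-v_j = β d`, `α, β > 0`.
 For every other `m` (`j+1<m<j-1+n`): `cyc(j,j+1,m)` gives `cr(d,v_m-v_j) ≥ 0` and `cyc(j-1,j,m)` gives `≤ 0`: all vertices are on one line.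
(d) All on a line, coordinates `x_i`, consecutive ones different, no flat vertex: the `x_i` are alternately strict local minima and maxima. Shift so that `x_0 < x_1`
 (so `x_1 > x_2 < x_3 > x_4`). `chord(0,1,2,3)`: `min(x_1,x_3) ≤ max(x_0,x_2)`, and `x_1 > x_0, x_2`, `x_3 > x_2`: so `x_3 ≤ x_0`.
 `chord(1,2,3,4)`: `min(x_1,x_3) ≤ max(x_2,x_4)`, and `x_3 ≤ x_0 < x_1`, `x_3 > x_2`, `x_3 > x_4`: contradiction.
(`CPoly`, `NoFlat`, nonzero sides are invariant under the shift `v(·+1)`. Nothing is assumed about indices below 0; use `j-1+n` for the predecessor of `j = 0` etc.)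
-/

set_option autoImplicit false

open MeasureTheory Set Filter Topology Metric
open scoped RealInnerProductSpace ENNReal NNReal

namespace Pool.Agent.Helper83.CP

open Pool.Agent.Helper1.CK (E3 nEnergy V1 Content Good)

private theorem ex_real {w d : ℂ} (hd : d ≠ 0) (h : cr d w = 0) : ∃ s : ℝ, w = (s : ℂ) * d := by
  have hn : d.re ^ 2 + d.im ^ 2 ≠ 0 := by
    intro h0
    apply hd
    have h1 : d.re = 0 := by nlinarith [sq_nonneg d.re, sq_nonneg d.im]
    have h2 : d.im = 0 := by nlinarith [sq_nonneg d.re, sq_nonneg d.im]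
    exact Complex.ext h1 h2
  unfold cr at h
  refine ⟨(w.re * d.re + w.im * d.im) / (d.re ^ 2 + d.im ^ 2), Complex.ext ?_ ?_⟩
  · simp only [Complex.mul_re, Complex.ofReal_re, Complex.ofReal_im, zero_mul, sub_zero]
    field_simp
    linear_combination (-d.im) * h
  · simp only [Complex.mul_im, Complex.ofReal_re, Complex.ofReal_im, zero_mul, add_zero]
    field_simp
    linear_combination (d.re) * h

private theorem ne_of_lt {n : ℕ} {v : ℕ → ℂ} (hv : CPoly n v)
    (hne : ∀ i, v (i + 1) ≠ v i) (hf : NoFlat v) {i j : ℕ} (hij : i < j) (hjn : j < i + n) :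
    v j ≠ v i := by
  intro h
  have h1 : j ≠ i + 1 := by
    rintro rfl
    exact hne i h
  have h2 : j + 1 ≠ i + n := by
    intro h3
    apply hne j
    rw [h3, hv.per, h]
  obtain ⟨z, hz1, hz2⟩ := hv.chord i (i + 1) j (i + n - 1) (by omega) (by omega) (by omega)
    (by omega)
  rw [h, segment_same, Set.mem_singleton_iff] at hz1
  subst hz1
  apply hf (i + n - 1)
  have e1 : i + n - 1 + 1 = i + n := by omega
  have e2 : i + n - 1 + 2 = i + 1 + n := by omega
  rw [e1, e2, hv.per, hv.per, segment_symm]
  exact hz2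

private theorem mid_false {n : ℕ} (hn : 4 ≤ n) {v : ℕ → ℂ} (hv : CPoly n v)
    (hne : ∀ i, v (i + 1) ≠ v i) (hf : NoFlat v) {i j k : ℕ} (hij : i < j) (hjk : j < k)
    (hkn : k < i + n) {s : ℝ} (hs0 : 0 < s) (hs1 : s < 1)
    (h : v j - v i = (s : ℂ) * (v k - v i)) : False := by
  have hd : v k - v i ≠ 0 := sub_ne_zero.2 (ne_of_lt hv hne hf (hij.trans hjk) hkn)
  have hjr : (v j).re = (v i).re + s * ((v k).re - (v i).re) := by
    have := congrArg Complex.re h
    simp only [Complex.sub_re, Complex.mul_re, Complex.ofReal_re, Complex.ofReal_im, zero_mul,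
      sub_zero] at this
    linarith
  have hji : (v j).im = (v i).im + s * ((v k).im - (v i).im) := by
    have := congrArg Complex.im h
    simp only [Complex.sub_im, Complex.mul_im, Complex.ofReal_re, Complex.ofReal_im, zero_mul,
      add_zero] at this
    linarith
  have hy : ∀ m, i ≤ m → m ≤ k → cr (v k - v i) (v m - v i) = 0 := by
    intro m hm1 hm2
    rcases hm1.eq_or_lt with rfl | hm1
    · simp [cr]
    rcases hm2.eq_or_lt with rfl | hm2
    · simp only [cr]; ring
    rcases lt_trichotomy m j with hm | rfl | hm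
    · have h1 := hv.cyc i m j hm1 hm (by omega)
      have h2 := hv.cyc m j k hm hjk (by omega)
      simp only [cr, Complex.sub_re, Complex.sub_im] at h1 h2 ⊢
      rw [hjr, hji] at h1 h2
      have h3 : ((v k).re - (v i).re) * ((v m).im - (v i).im) -
          ((v k).im - (v i).im) * ((v m).re - (v i).re) ≤ 0 := by
        by_contra h4
        push Not at h4
        have h5 := mul_pos hs0 h4
        nlinarith
      have h4 : 0 ≤ ((v k).re - (v i).re) * ((v m).im - (v i).im) -
          ((v k).im - (v i).im) * ((v m).re - (v i).re) := by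
        by_contra h4
        push Not at h4
        have h5 := mul_neg_of_pos_of_neg (sub_pos.2 hs1) h4
        nlinarith
      linarith
    · simp only [cr, Complex.sub_re, Complex.sub_im]
      rw [hjr, hji]
      ring
    · have h1 := hv.cyc i j m hij hm (by omega)
      have h2 := hv.cyc j m k hm hm2 (by omega)
      simp only [cr, Complex.sub_re, Complex.sub_im] at h1 h2 ⊢
      rw [hjr, hji] at h1 h2
      have h3 : 0 ≤ ((v k).re - (v i).re) * ((v m).im - (v i).im) -
          ((v k).im - (v i).im) * ((v m).re - (v i).re) := by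
        by_contra h4
        push Not at h4
        have h5 := mul_neg_of_pos_of_neg hs0 h4
        nlinarith
      have h4 : ((v k).re - (v i).re) * ((v m).im - (v i).im) -
          ((v k).im - (v i).im) * ((v m).re - (v i).re) ≤ 0 := by
        by_contra h4
        push Not at h4
        have h5 := mul_pos (sub_pos.2 hs1) h4
        nlinarith
      linarith
  obtain ⟨j', rfl⟩ : ∃ j', j = j' + 1 := ⟨j - 1, by omega⟩
  have hcr : ∀ a b, i ≤ a → a ≤ k → i ≤ b → b ≤ k → cr (v k - v i) (v a - v b) = 0 := by
    intro a b ha ha' hb hb'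
    have h1 := hy a ha ha'
    have h2 := hy b hb hb'
    simp only [cr, Complex.sub_re, Complex.sub_im] at h1 h2 ⊢
    linarith
  have he : v (j' + 2) - v (j' + 1) ≠ 0 := sub_ne_zero.2 (hne (j' + 1))
  obtain ⟨a, ha⟩ := ex_real hd (hcr (j' + 2) (j' + 1) (by omega) (by omega) (by omega) (by omega))
  obtain ⟨b, hb⟩ := ex_real hd (hcr j' (j' + 1) (by omega) (by omega) (by omega) (by omega))
  have ha0 : a ≠ 0 := by
    rintro rfl
    apply he
    rw [ha]
    simp
  obtain ⟨γ, hγ⟩ : ∃ γ : ℝ, v j' - v (j' + 1) = (γ : ℂ) * (v (j' + 2) - v (j' + 1)) := by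
    refine ⟨b / a, ?_⟩
    rw [ha, hb]
    have : (a : ℂ) ≠ 0 := by exact_mod_cast ha0
    push_cast
    field_simp
  have hγ0 : γ ≠ 0 := by
    rintro rfl
    apply hne j'
    have : v j' - v (j' + 1) = 0 := by rw [hγ]; simp
    exact (sub_eq_zero.1 this).symm
  have hγp : 0 < γ := by
    by_contra hneg
    have hγn : γ < 0 := lt_of_le_of_ne (not_lt.1 hneg) hγ0
    apply hf j'
    have h1 : 0 < 1 - γ := by linarith
    refine ⟨1 / (1 - γ), -γ / (1 - γ), by positivity, by
      apply div_nonneg <;> linarith, by field_simp; ring, ?_⟩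
    have e1 : v j' = v (j' + 1) + (γ : ℂ) * (v (j' + 2) - v (j' + 1)) := by
      rw [← hγ]; ring
    have h2 : (1 - (γ : ℂ)) ≠ 0 := by
      have : ((1 - γ : ℝ) : ℂ) ≠ 0 := by exact_mod_cast h1.ne'
      push_cast at this
      exact this
    rw [Complex.real_smul, Complex.real_smul]
    push_cast
    rw [e1]
    field_simp
    ring
  set e := v (j' + 2) - v (j' + 1) with hedef
  have key : ∀ m, j' ≤ m → ∃ t : ℝ, v m - v (j' + 1) = (t : ℂ) * e := by
    intro m
    induction m using Nat.strong_induction_on with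
    | _ m ih =>
      intro hm
      by_cases hmn : m < j' + n
      · rcases hm.eq_or_lt with rfl | hm
        · exact ⟨γ, hγ⟩
        by_cases h1 : m = j' + 1
        · subst h1
          exact ⟨0, by simp⟩
        by_cases h2 : m = j' + 2
        · subst h2
          exact ⟨1, by rw [hedef]; simp⟩
        apply ex_real he
        have h3 := hv.cyc (j' + 1) (j' + 2) m (by omega) (by omega) (by omega)
        have h4 := hv.cyc j' (j' + 1) m (by omega) (by omega) (by omega)
        have er : (v j').re - (v (j' + 1)).re = γ * e.re := by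
          have := congrArg Complex.re hγ
          simpa only [Complex.sub_re, Complex.mul_re, Complex.ofReal_re, Complex.ofReal_im,
            zero_mul, sub_zero] using this
        have ei : (v j').im - (v (j' + 1)).im = γ * e.im := by
          have := congrArg Complex.im hγ
          simpa only [Complex.sub_im, Complex.mul_im, Complex.ofReal_re, Complex.ofReal_im,
            zero_mul, add_zero] using this
        rw [← hedef] at h3
        have h5 : cr (v (j' + 1) - v j') (v m - v j') = - (γ * cr e (v m - v (j' + 1))) := by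
          simp only [cr, Complex.sub_re, Complex.sub_im]
          have e1 : (v (j' + 1)).re - (v j').re = -(γ * e.re) := by linarith
          have e2 : (v (j' + 1)).im - (v j').im = -(γ * e.im) := by linarith
          have e3 : (v m).re - (v j').re = (v m).re - (v (j' + 1)).re - γ * e.re := by linarith
          have e4 : (v m).im - (v j').im = (v m).im - (v (j' + 1)).im - γ * e.im := by linarith
          rw [e1, e2, e3, e4]
          ring
        rw [h5] at h4
        have h6 : cr e (v m - v (j' + 1)) ≤ 0 := by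
          by_contra h7
          push Not at h7
          have := mul_pos hγp h7
          linarith
        linarith
      · have h1 := ih (m - n) (by omega) (by omega)
        have h2 : v m = v (m - n) := by
          have := hv.per (m - n)
          rw [Nat.sub_add_cancel (by omega)] at this
          exact this
        rw [h2]
        exact h1
  have key2 : ∀ q : ℕ, ∃ t : ℝ, v (j' + q) - v (j' + 1) = (t : ℂ) * e := fun q =>
    key (j' + q) (by omega)
  choose t ht using key2
  have hvt : ∀ q, v (j' + q) = v (j' + 1) + (t q : ℂ) * e := fun q => by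
    rw [← ht q]; ring
  have F1 : ∀ q, t (q + 1) ∉ Set.uIcc (t q) (t (q + 2)) := by
    intro q hq
    rw [← segment_eq_uIcc] at hq
    obtain ⟨x, y, hx, hy', hxy, hq⟩ := hq
    apply hf (j' + q)
    refine ⟨x, y, hx, hy', hxy, ?_⟩
    have e1 : j' + q + 2 = j' + (q + 2) := by ring
    have e2 : j' + q + 1 = j' + (q + 1) := by ring
    rw [e1, e2, hvt q, hvt (q + 2), hvt (q + 1), ← hq]
    have hxy' : (x : ℂ) = 1 - y := by
      have : x = 1 - y := by linarith
      rw [this]; push_cast; ring
    simp only [Complex.real_smul, smul_eq_mul]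
    push_cast
    rw [hxy']
    ring
  have F2 : ∀ a b c f, a < b → b < c → c < f → f < a + n →
      ∃ r, r ∈ Set.uIcc (t a) (t c) ∧ r ∈ Set.uIcc (t b) (t f) := by
    intro a b c f hab hbc hcf hfn
    obtain ⟨z, hz1, hz2⟩ := hv.chord (j' + a) (j' + b) (j' + c) (j' + f) (by omega) (by omega)
      (by omega) (by omega)
    obtain ⟨x, y, hx, hy', hxy, hz1⟩ := hz1
    obtain ⟨x', y', hx', hy'', hxy', hz2⟩ := hz2
    refine ⟨x * t a + y * t c, ?_, ?_⟩
    · rw [← segment_eq_uIcc]
      exact ⟨x, y, hx, hy', hxy, rfl⟩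
    · rw [← segment_eq_uIcc]
      refine ⟨x', y', hx', hy'', hxy', ?_⟩
      rw [hvt a, hvt c] at hz1
      rw [hvt b, hvt f] at hz2
      rw [← hz1] at hz2
      have e1 : (x : ℂ) = 1 - y := by
        have : x = 1 - y := by linarith
        rw [this]; push_cast; ring
      have e2 : (x' : ℂ) = 1 - y' := by
        have : x' = 1 - y' := by linarith
        rw [this]; push_cast; ring
      simp only [Complex.real_smul] at hz2
      have e3 : ((x' * t b + y' * t f : ℝ) : ℂ) * e = ((x * t a + y * t c : ℝ) : ℂ) * e := by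
        push_cast
        have h1 : (x' : ℂ) * v (j' + 1) + y' * v (j' + 1) = v (j' + 1) := by rw [e2]; ring
        have h2 : (x : ℂ) * v (j' + 1) + y * v (j' + 1) = v (j' + 1) := by rw [e1]; ring
        linear_combination hz2 - h1 + h2
      have e4 := mul_right_cancel₀ he e3
      have e5 : x' * t b + y' * t f = x * t a + y * t c := by exact_mod_cast e4
      simpa only [smul_eq_mul] using e5
  have t1 : t 1 = 0 := by
    have h1 := ht 1
    rw [sub_self] at h1
    rcases mul_eq_zero.1 h1.symm with h2 | h2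
    · exact_mod_cast h2
    · exact absurd h2 he
  have t2 : t 2 = 1 := by
    have h1 := ht 2
    have h2 : ((t 2 : ℝ) : ℂ) * e = ((1 : ℝ) : ℂ) * e := by
      rw [← h1, hedef]; simp
    exact_mod_cast mul_right_cancel₀ he h2
  have a1 := F1 1
  have a2 := F1 2
  have a3 := F1 3
  simp only [Set.mem_uIcc, not_or, not_and, not_le, Nat.reduceAdd] at a1 a2 a3
  have h32 : t 3 < t 2 := a1.1 (by rw [t1, t2]; norm_num)
  have h34 : t 3 < t 4 := by
    by_contra h
    push Not at h
    exact absurd (a2.2 h) (not_lt.2 h32.le)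
  have h54 : t 5 < t 4 := a3.1 h34.le
  obtain ⟨r, hr1, hr2⟩ := F2 1 2 3 4 (by omega) (by omega) (by omega) (by omega)
  obtain ⟨r', hr3, hr4⟩ := F2 2 3 4 5 (by omega) (by omega) (by omega) (by omega)
  rw [Set.mem_uIcc] at hr1 hr2 hr3 hr4
  rcases hr1 with hr1 | hr1 <;> rcases hr2 with hr2 | hr2 <;> rcases hr3 with hr3 | hr3 <;>
    rcases hr4 with hr4 | hr4 <;> linarith [hr1.1, hr1.2, hr2.1, hr2.2, hr3.1, hr3.2, hr4.1,
      hr4.2]

theorem strict_of_noFlat {n : ℕ} (hn : 4 ≤ n) {v : ℕ → ℂ} (hv : CPoly n v)
    (hne : ∀ i, v (i + 1) ≠ v i) (hf : NoFlat v) : Strict n v := by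
  intro i j k hij hjk hkn
  have h0 := hv.cyc i j k hij hjk hkn
  by_contra hneg
  have h1 : cr (v j - v i) (v k - v i) = 0 := le_antisymm (not_lt.1 hneg) h0
  have hki : v k ≠ v i := ne_of_lt hv hne hf (hij.trans hjk) hkn
  have hji : v j ≠ v i := ne_of_lt hv hne hf hij (by omega)
  have hkj : v k ≠ v j := ne_of_lt hv hne hf hjk (by omega)
  have hd : v k - v i ≠ 0 := sub_ne_zero.2 hki
  have h2 : cr (v k - v i) (v j - v i) = 0 := by
    simp only [cr] at h1 ⊢
    linarith
  obtain ⟨s, hs⟩ := ex_real hd h2
  have hs0 : s ≠ 0 := by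
    rintro rfl
    apply hji
    have : v j - v i = 0 := by rw [hs]; simp
    exact sub_eq_zero.1 this
  have hs1 : s ≠ 1 := by
    rintro rfl
    apply hkj
    have : v j - v i = v k - v i := by rw [hs]; simp
    exact (sub_left_inj.1 this).symm
  rcases lt_or_gt_of_ne hs0 with h | h
  · -- v i between v j and v k
    have h3 : 0 < 1 - s := by linarith
    have h3' : (1 - (s : ℂ)) ≠ 0 := by
      have : ((1 - s : ℝ) : ℂ) ≠ 0 := by exact_mod_cast h3.ne'
      push_cast at this
      exact this
    refine mid_false hn hv hne hf (i := k) (j := i + n) (k := j + n) hkn (by omega) (by omega)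
      (s := 1 / (1 - s)) (by positivity) (by rw [div_lt_one h3]; linarith) ?_
    rw [hv.per, hv.per]
    have e1 : v j = v i + (s : ℂ) * (v k - v i) := by rw [← hs]; ring
    rw [e1]
    push_cast
    field_simp
    ring
  · rcases lt_or_gt_of_ne hs1 with h' | h'
    · exact mid_false hn hv hne hf hij hjk hkn h h' hs
    · have h3 : (s : ℂ) ≠ 0 := by exact_mod_cast hs0
      refine mid_false hn hv hne hf (i := j) (j := k) (k := i + n) hjk hkn (by omega)
        (s := (s - 1) / s) (by apply div_pos <;> linarith)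
        (by rw [div_lt_one h]; linarith) ?_
      rw [hv.per]
      have e1 : v j = v i + (s : ℂ) * (v k - v i) := by rw [← hs]; ring
      rw [e1]
      push_cast
      field_simp
      ring

end Pool.Agent.Helper83.CP
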