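import Pool.Agent.Helper83.CP.Defs

/-!
# Project CP (helper83), module TmCont
For fixed lengths `l`, `Tm` is a continuous function of the vertices, and the integrals may be written with `pt`.

(1) Dominated convergence (all integrands are bounded by a constant times the bound of `b`²; the variables run over bounded intervals; measurable in `(t,s)`), or directly a Lipschitz bound:
 `|Tm x - Tm x'| ≤ K max_i |x i - x' i|`, since `|‖p-q‖ - ‖p'-q'‖| ≤ ‖p-p'‖ + ‖q-q'‖` and `‖side l x i t - side l x' i t‖ ≤ ` max over two vertices for `0 ≤ t ≤ l i`.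
(2) If `l i > 0`, `side l v i t = pt v i (t / l i)`; if for all `i j` and `t, s ∈ [0,1]` the distances of `v1` and `v2` add up to at most twice the distance of `v`, then `Tm v1 + Tm v2 ≤ 2 Tm v`
 (monotonicity of the integral; integrability as in (1)).
(3) translation invariance.
-/

set_option autoImplicit false

open MeasureTheory Set Filter Topology Metric
open scoped RealInnerProductSpace ENNReal NNReal

namespace Pool.Agent.Helper83.CP

open Pool.Agent.Helper1.CK (E3 nEnergy V1 Content Good)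

/-- the integrand as a function of two variables -/
private noncomputable def FF (l : ℕ → ℝ) (v : ℕ → ℂ) (b : ℕ → ℝ → ℝ) (i j : ℕ) (p : ℝ × ℝ) : ℝ :=
  ‖side l v i p.1 - side l v j p.2‖ * (b i p.1 * b j p.2)

/-- the product measure -/
private noncomputable def MM (l : ℕ → ℝ) (i j : ℕ) : Measure (ℝ × ℝ) :=
  (volume.restrict (Ioc (0 : ℝ) (l i))).prod (volume.restrict (Ioc (0 : ℝ) (l j)))

private instance (l : ℕ → ℝ) (i j : ℕ) : IsFiniteMeasure (MM l i j) := by
  unfold MM; infer_instance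

private theorem continuous_side (l : ℕ → ℝ) (v : ℕ → ℂ) (i : ℕ) :
    Continuous fun t : ℝ => side l v i t := by
  unfold side
  fun_prop

private theorem measurable_FF {n : ℕ} (l : ℕ → ℝ) (v : ℕ → ℂ) {b : ℕ → ℝ → ℝ} (hb : Dens n b)
    (i j : ℕ) : Measurable (FF l v b i j) := by
  unfold FF
  have h1 : Measurable fun p : ℝ × ℝ => side l v i p.1 :=
    (continuous_side l v i).measurable.comp measurable_fst
  have h2 : Measurable fun p : ℝ × ℝ => side l v j p.2 :=
    (continuous_side l v j).measurable.comp measurable_snd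
  exact ((h1.sub h2).norm).mul
    (((hb.meas i).comp measurable_fst).mul ((hb.meas j).comp measurable_snd))

private theorem ae_mem (l : ℕ → ℝ) (i j : ℕ) :
    ∀ᵐ p ∂(MM l i j), p.1 ∈ Ioc (0 : ℝ) (l i) ∧ p.2 ∈ Ioc (0 : ℝ) (l j) := by
  unfold MM
  rw [Measure.prod_restrict]
  filter_upwards [ae_restrict_mem (measurableSet_Ioc.prod measurableSet_Ioc)] with p hp
  exact hp

private theorem norm_side_le {l : ℕ → ℝ} (v : ℕ → ℂ) {i : ℕ} {t : ℝ}
    (ht : t ∈ Ioc (0 : ℝ) (l i)) : ‖side l v i t‖ ≤ ‖v i‖ + ‖v (i + 1) - v i‖ := by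
  unfold side
  have hl : 0 < l i := lt_of_lt_of_le ht.1 ht.2
  have h1 : ‖((t / l i : ℝ) : ℂ)‖ ≤ 1 := by
    rw [Complex.norm_real, Real.norm_eq_abs, abs_of_nonneg (div_nonneg ht.1.le hl.le)]
    exact (div_le_one hl).2 ht.2
  calc ‖v i + ((t / l i : ℝ) : ℂ) * (v (i + 1) - v i)‖
      ≤ ‖v i‖ + ‖((t / l i : ℝ) : ℂ) * (v (i + 1) - v i)‖ := norm_add_le _ _
    _ = ‖v i‖ + ‖((t / l i : ℝ) : ℂ)‖ * ‖v (i + 1) - v i‖ := by rw [norm_mul]
    _ ≤ ‖v i‖ + 1 * ‖v (i + 1) - v i‖ := by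
        gcongr
    _ = _ := by rw [one_mul]

private theorem norm_FF_le {l : ℕ → ℝ} (v : ℕ → ℂ) {b : ℕ → ℝ → ℝ} {C : ℝ}
    (hC : ∀ i t, 0 ≤ b i t ∧ b i t ≤ C) {i j : ℕ} {p : ℝ × ℝ}
    (hp : p.1 ∈ Ioc (0 : ℝ) (l i) ∧ p.2 ∈ Ioc (0 : ℝ) (l j)) :
    ‖FF l v b i j p‖ ≤
      (‖v i‖ + ‖v (i + 1) - v i‖ + (‖v j‖ + ‖v (j + 1) - v j‖)) * (C * C) := by
  unfold FF
  have h1 := norm_side_le v hp.1
  have h2 := norm_side_le v hp.2
  have h3 : ‖side l v i p.1 - side l v j p.2‖ ≤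
      ‖v i‖ + ‖v (i + 1) - v i‖ + (‖v j‖ + ‖v (j + 1) - v j‖) :=
    (norm_sub_le _ _).trans (add_le_add h1 h2)
  have hC0 : 0 ≤ C := (hC i p.1).1.trans (hC i p.1).2
  have h4 : b i p.1 * b j p.2 ≤ C * C :=
    mul_le_mul (hC i p.1).2 (hC j p.2).2 (hC j p.2).1 hC0
  have h5 : 0 ≤ b i p.1 * b j p.2 := mul_nonneg (hC i p.1).1 (hC j p.2).1
  rw [norm_mul, norm_norm, Real.norm_eq_abs, abs_of_nonneg h5]
  exact mul_le_mul h3 h4 h5 (by positivity)

private theorem integrable_FF {n : ℕ} (l : ℕ → ℝ) (v : ℕ → ℂ) {b : ℕ → ℝ → ℝ} (hb : Dens n b)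
    (i j : ℕ) : Integrable (FF l v b i j) (MM l i j) := by
  obtain ⟨C, hC⟩ := hb.bdd
  refine Integrable.of_bound (measurable_FF l v hb i j).aestronglyMeasurable
    ((‖v i‖ + ‖v (i + 1) - v i‖ + (‖v j‖ + ‖v (j + 1) - v j‖)) * (C * C)) ?_
  filter_upwards [ae_mem l i j] with p hp
  exact norm_FF_le v hC hp

private theorem term_eq {n : ℕ} {l : ℕ → ℝ} (hl : ∀ i, 0 < l i) (v : ℕ → ℂ) {b : ℕ → ℝ → ℝ}
    (hb : Dens n b) (i j : ℕ) :
    (∫ t in (0 : ℝ)..l i, ∫ s in (0 : ℝ)..l j, ‖side l v i t - side l v j s‖ * (b i t * b j s)) =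
      ∫ p, FF l v b i j p ∂(MM l i j) := by
  have h := integral_prod (FF l v b i j) (integrable_FF l v hb i j)
  unfold MM at h ⊢
  rw [h, intervalIntegral.integral_of_le (hl i).le]
  refine integral_congr_ae (Eventually.of_forall fun t => ?_)
  simp only
  rw [intervalIntegral.integral_of_le (hl j).le]
  rfl

private theorem Tm_eq {n : ℕ} {l : ℕ → ℝ} (hl : ∀ i, 0 < l i) (v : ℕ → ℂ) {b : ℕ → ℝ → ℝ}
    (hb : Dens n b) :
    Tm n l v b = ∑ i ∈ Finset.range n, ∑ j ∈ Finset.range n,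
      ∫ p, FF l v b i j p ∂(MM l i j) := by
  unfold Tm
  exact Finset.sum_congr rfl fun i _ => Finset.sum_congr rfl fun j _ => term_eq hl v hb i j

theorem continuous_Tm {n : ℕ} (hn : 0 < n) {l : ℕ → ℝ} (hl : ∀ i, 0 < l i) {b : ℕ → ℝ → ℝ}
    (hb : Dens n b) : Continuous fun x : Fin n → ℂ => Tm n l (ext hn x) b := by
  have e : (fun x : Fin n → ℂ => Tm n l (ext hn x) b) = fun x : Fin n → ℂ =>
      ∑ i ∈ Finset.range n, ∑ j ∈ Finset.range n,
        ∫ p, FF l (ext hn x) b i j p ∂(MM l i j) := by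
    funext x
    exact Tm_eq hl (ext hn x) hb
  rw [e]
  refine continuous_finset_sum _ fun i _ => continuous_finset_sum _ fun j _ => ?_
  obtain ⟨C, hC⟩ := hb.bdd
  refine continuous_iff_continuousAt.2 fun x0 => ?_
  have hext : ∀ (x : Fin n → ℂ) (k : ℕ), ‖ext hn x k‖ ≤ ‖x‖ := fun x k => norm_le_pi_norm x _
  have hce : ∀ k : ℕ, Continuous fun x : Fin n → ℂ => ext hn x k := fun k => continuous_apply _
  refine continuousAt_of_dominated (bound := fun _ => (6 * (‖x0‖ + 1)) * (C * C)) ?_ ?_ ?_ ?_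
  · exact Eventually.of_forall fun x => (measurable_FF l (ext hn x) hb i j).aestronglyMeasurable
  · have hev : ∀ᶠ x : Fin n → ℂ in 𝓝 x0, ‖x‖ < ‖x0‖ + 1 :=
      continuous_norm.continuousAt.eventually_lt continuousAt_const (by linarith)
    filter_upwards [hev] with x hx
    filter_upwards [ae_mem l i j] with p hp
    refine (norm_FF_le (ext hn x) hC hp).trans ?_
    have a1 := hext x i
    have a2 := hext x (i + 1)
    have a3 := hext x j
    have a4 := hext x (j + 1)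
    have a5 := norm_sub_le (ext hn x (i + 1)) (ext hn x i)
    have a6 := norm_sub_le (ext hn x (j + 1)) (ext hn x j)
    have hCC : 0 ≤ C * C := mul_self_nonneg C
    refine mul_le_mul_of_nonneg_right ?_ hCC
    linarith
  · exact integrable_const _
  · refine Eventually.of_forall fun p => ?_
    refine Continuous.continuousAt ?_
    unfold FF side
    have b1 := hce i
    have b2 := hce (i + 1)
    have b3 := hce j
    have b4 := hce (j + 1)
    exact (((b1.add (continuous_const.mul (b2.sub b1))).sub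
      (b3.add (continuous_const.mul (b4.sub b3)))).norm).mul continuous_const

private theorem side_eq_pt {l : ℕ → ℝ} (v : ℕ → ℂ) (i : ℕ) (t : ℝ) :
    side l v i t = pt v i (t / l i) := by
  unfold side pt
  push_cast
  ring

theorem Tm_add_le {n : ℕ} {l : ℕ → ℝ} (hl : ∀ i, 0 < l i) {b : ℕ → ℝ → ℝ} (hb : Dens n b)
    {v v1 v2 : ℕ → ℂ} (h : ∀ i j, ∀ t ∈ Icc (0 : ℝ) 1, ∀ s ∈ Icc (0 : ℝ) 1,
      ‖pt v1 i t - pt v1 j s‖ + ‖pt v2 i t - pt v2 j s‖ ≤ 2 * ‖pt v i t - pt v j s‖) :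
    Tm n l v1 b + Tm n l v2 b ≤ 2 * Tm n l v b := by
  obtain ⟨C, hC⟩ := hb.bdd
  rw [Tm_eq hl v1 hb, Tm_eq hl v2 hb, Tm_eq hl v hb, ← Finset.sum_add_distrib, Finset.mul_sum]
  refine Finset.sum_le_sum fun i _ => ?_
  rw [← Finset.sum_add_distrib, Finset.mul_sum]
  refine Finset.sum_le_sum fun j _ => ?_
  rw [← integral_add (integrable_FF l v1 hb i j) (integrable_FF l v2 hb i j),
    ← integral_const_mul]
  refine integral_mono_ae ((integrable_FF l v1 hb i j).add (integrable_FF l v2 hb i j))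
    ((integrable_FF l v hb i j).const_mul 2) ?_
  filter_upwards [ae_mem l i j] with p hp
  have t1 : p.1 / l i ∈ Icc (0 : ℝ) 1 :=
    ⟨div_nonneg hp.1.1.le (hl i).le, (div_le_one (hl i)).2 hp.1.2⟩
  have t2 : p.2 / l j ∈ Icc (0 : ℝ) 1 :=
    ⟨div_nonneg hp.2.1.le (hl j).le, (div_le_one (hl j)).2 hp.2.2⟩
  have hh := h i j _ t1 _ t2
  have h5 : 0 ≤ b i p.1 * b j p.2 := mul_nonneg (hC i p.1).1 (hC j p.2).1
  simp only [FF, side_eq_pt]
  have := mul_le_mul_of_nonneg_right hh h5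
  linarith

theorem Tm_translate (n : ℕ) (l : ℕ → ℝ) (v : ℕ → ℂ) (b : ℕ → ℝ → ℝ) (z : ℂ) :
    Tm n l (fun i => v i + z) b = Tm n l v b := by
  have hs : ∀ (i : ℕ) (t : ℝ), side l (fun i => v i + z) i t = side l v i t + z := by
    intro i t
    unfold side
    ring
  unfold Tm
  simp only [hs, add_sub_add_right_eq_sub]

end Pool.Agent.Helper83.CP
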