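import Pool.Agent.Helper83.CP.Defs
import Pool.Agent.Helper83.CP.Flex
import Pool.Agent.Helper83.CP.NoFlat
import Pool.Agent.Helper83.CP.TmCont
import Pool.Agent.Helper83.CP.Conf

/-!
# Project CP (helper83), module Min
`n ≥ 4`: there is a convex closed polygon with the same side lengths, not larger `Tm`, and a flat vertex.

Proof. The set `X` of all `x : Fin n → ℂ` with `x 0 = 0` whose `n`-periodic extension is a `CPoly` with the given side lengths is compact (`isCompact_conf`) and contains the translate `v - v 0`.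
`Tm n l x b` (for the fixed `l = len v`) is continuous in `x` (`continuous_Tm`). Minimise `Tm` over `X`, and among the minimisers
(a compact set) maximise `|x 2 - x 0|`. If the maximiser `w` had no flat vertex it would be strict (`strict_of_noFlat`; its sides are nonzero because
the lengths are those of `v`), and `flex` would give `v1`, `v2` with `Tm v1 + Tm v2 ≤ 2 Tm w` (`Tm_add_le`), so both
are minimisers (`v1 0 = 0`) and `|v1 2 - v1 0| > |w 2 - w 0|`: contradiction. `Tm w ≤ Tm (v - v 0) = Tm v` (`Tm_translate`).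
-/

set_option autoImplicit false

open MeasureTheory Set Filter Topology Metric
open scoped RealInnerProductSpace ENNReal NNReal

namespace Pool.Agent.Helper83.CP

open Pool.Agent.Helper1.CK (E3 nEnergy V1 Content Good)

private theorem mem_segment_translate' {a b z c : ℂ} :
    (z + c ∈ segment ℝ (a + c) (b + c)) = (z ∈ segment ℝ a b) := by
  have h1 := mem_segment_translate ℝ c (x := z) (b := a) (c := b)
  rw [add_comm c z, add_comm c a, add_comm c b] at h1
  exact propext h1

private theorem ext_per {n : ℕ} (hn : 0 < n) {v : ℕ → ℂ} (hper : ∀ i, v (i + n) = v i) :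
    ext hn (fun i : Fin n => v i) = v := by
  have h1 : ∀ k i, v (i + n * k) = v i := by
    intro k
    induction k with
    | zero => intro i; simp
    | succ k ih =>
      intro i
      have h2 : i + n * (k + 1) = (i + n * k) + n := by ring
      rw [h2, hper, ih]
  funext i
  show v (i % n) = v i
  have h2 := h1 (i / n) (i % n)
  rw [Nat.mod_add_div] at h2
  exact h2.symm

theorem exists_min {n : ℕ} (hn : 4 ≤ n) {v : ℕ → ℂ} {b : ℕ → ℝ → ℝ} (hv : CPoly n v)
    (hne : ∀ i, v (i + 1) ≠ v i) (hb : Dens n b) :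
    ∃ v' : ℕ → ℂ, CPoly n v' ∧ (∀ i, len v' i = len v i) ∧
      Tm n (len v) v' b ≤ Tm n (len v) v b ∧ ¬ NoFlat v' := by
  have hn0 : 0 < n := by omega
  have hl : ∀ i, 0 < len v i := fun i => norm_pos_iff.2 (sub_ne_zero.2 (hne i))
  set l : ℕ → ℝ := len v with hldef
  set X : Set (Fin n → ℂ) := {x : Fin n → ℂ | ext hn0 x 0 = 0 ∧ CPoly n (ext hn0 x) ∧
    ∀ i, len (ext hn0 x) i = l i} with hX
  have hXc : IsCompact X := isCompact_conf hn0 l
  -- the translate of `v`
  have hv0 : CPoly n (fun i => v i + -(v 0)) := by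
    constructor
    · intro i
      show v (i + n) + -(v 0) = v i + -(v 0)
      rw [hv.per]
    · intro i j k h1 h2 h3
      show 0 ≤ cr ((v j + -(v 0)) - (v i + -(v 0))) ((v k + -(v 0)) - (v i + -(v 0)))
      rw [add_sub_add_right_eq_sub, add_sub_add_right_eq_sub]
      exact hv.cyc i j k h1 h2 h3
    · intro i j k m h1 h2 h3 h4
      obtain ⟨z, hz1, hz2⟩ := hv.chord i j k m h1 h2 h3 h4
      refine ⟨z + -(v 0), ?_, ?_⟩
      · rw [mem_segment_translate' ] <;> assumption
      · rw [mem_segment_translate' ] <;> assumption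
  have hx0e : ext hn0 (fun i : Fin n => v i + -(v 0)) = fun i => v i + -(v 0) :=
    ext_per hn0 (v := fun i => v i + -(v 0)) hv0.per
  have hx0 : (fun i : Fin n => v i + -(v 0)) ∈ X := by
    refine ⟨?_, ?_, ?_⟩
    · rw [hx0e]
      show v 0 + -(v 0) = 0
      ring
    · rw [hx0e]; exact hv0
    · intro i
      rw [hx0e]
      show ‖(v (i + 1) + -(v 0)) - (v i + -(v 0))‖ = l i
      rw [add_sub_add_right_eq_sub]
      rfl
  have hcont := continuous_Tm hn0 hl hb
  obtain ⟨y, hyX, hymin⟩ := hXc.exists_isMinOn ⟨_, hx0⟩ hcont.continuousOn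
  have hymin' : ∀ x ∈ X, Tm n l (ext hn0 y) b ≤ Tm n l (ext hn0 x) b := fun x hx => hymin hx
  set X1 : Set (Fin n → ℂ) := X ∩ {x | Tm n l (ext hn0 x) b ≤ Tm n l (ext hn0 y) b} with hX1
  have hX1c : IsCompact X1 := hXc.inter_right (isClosed_le hcont continuous_const)
  have hyX1 : y ∈ X1 := ⟨hyX, le_refl (Tm n l (ext hn0 y) b)⟩
  have hg : Continuous fun x : Fin n → ℂ => ‖ext hn0 x 2 - ext hn0 x 0‖ := by
    have h1 : ∀ i, Continuous fun x : Fin n → ℂ => ext hn0 x i := fun i =>
      continuous_apply (⟨i % n, Nat.mod_lt i hn0⟩ : Fin n)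
    exact ((h1 2).sub (h1 0)).norm
  obtain ⟨w, hwX1, hwmax⟩ := hX1c.exists_isMaxOn ⟨_, hyX1⟩ hg.continuousOn
  obtain ⟨hwX, hwle⟩ := hwX1
  obtain ⟨hw0, hwP, hwl⟩ := hwX
  have hwle' : Tm n l (ext hn0 w) b ≤ Tm n l (ext hn0 y) b := hwle
  refine ⟨ext hn0 w, hwP, hwl, ?_, ?_⟩
  · have h1 := hymin' _ hx0
    rw [hx0e, Tm_translate] at h1
    exact hwle'.trans h1
  · intro hf
    have hwne : ∀ i, ext hn0 w (i + 1) ≠ ext hn0 w i := by
      intro i h1
      have h2 : len (ext hn0 w) i = 0 := by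
        show ‖ext hn0 w (i + 1) - ext hn0 w i‖ = 0
        rw [h1, sub_self, norm_zero]
      rw [hwl i] at h2
      exact absurd h2 (hl i).ne'
    have hst := strict_of_noFlat hn hwP hwne hf
    obtain ⟨v1, v2, hv1, hv2, hl1, hl2, h10, h20, hlt, hdist⟩ := flex hn hwP hst
    have he1 : ext hn0 (fun i : Fin n => v1 i) = v1 := ext_per hn0 hv1.per
    have he2 : ext hn0 (fun i : Fin n => v2 i) = v2 := ext_per hn0 hv2.per
    have hm1 : (fun i : Fin n => v1 i) ∈ X := by
      refine ⟨?_, ?_, ?_⟩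
      · rw [he1, h10]; exact hw0
      · rw [he1]; exact hv1
      · intro i; rw [he1, hl1 i]; exact hwl i
    have hm2 : (fun i : Fin n => v2 i) ∈ X := by
      refine ⟨?_, ?_, ?_⟩
      · rw [he2, h20]; exact hw0
      · rw [he2]; exact hv2
      · intro i; rw [he2, hl2 i]; exact hwl i
    have hadd := Tm_add_le (n := n) hl hb hdist
    have hc1 := hymin' _ hm1
    have hc2 := hymin' _ hm2
    rw [he1] at hc1
    rw [he2] at hc2
    have hmem : (fun i : Fin n => v1 i) ∈ X1 := by
      refine ⟨hm1, ?_⟩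
      show Tm n l (ext hn0 fun i : Fin n => v1 i) b ≤ Tm n l (ext hn0 y) b
      rw [he1]
      linarith
    have h3 : ‖ext hn0 (fun i : Fin n => v1 i) 2 - ext hn0 (fun i : Fin n => v1 i) 0‖ ≤
        ‖ext hn0 w 2 - ext hn0 w 0‖ := hwmax hmem
    rw [he1] at h3
    exact absurd hlt (not_lt.2 h3)

end Pool.Agent.Helper83.CP
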