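import Pool.Agent.Helper83.CP.Defs

/-!
# Project CP (helper83), module Rot
Rotation of the indices by one: everything is invariant (sums over a full period).
-/

set_option autoImplicit false

open MeasureTheory Set Filter Topology Metric
open scoped RealInnerProductSpace ENNReal NNReal

namespace Pool.Agent.Helper83.CP

open Pool.Agent.Helper1.CK (E3 nEnergy V1 Content Good)

private theorem sum_rot {n : ℕ} (f : ℕ → ℝ) (hf : f n = f 0) :
    ∑ i ∈ Finset.range n, f (i + 1) = ∑ i ∈ Finset.range n, f i := by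
  have h1 := Finset.sum_range_succ' f n
  have h2 := Finset.sum_range_succ f n
  linarith

theorem Mm_rot {n : ℕ} {l : ℕ → ℝ} {b : ℕ → ℝ → ℝ} (hl : ∀ i, l (i + n) = l i)
    (hb : ∀ i, b (i + n) = b i) : Mm n (fun i => l (i + 1)) (fun i => b (i + 1)) = Mm n l b := by
  have hl0 : l n = l 0 := by simpa using hl 0
  have hb0 : b n = b 0 := by simpa using hb 0
  unfold Mm
  exact sum_rot (fun i => ∫ t in (0 : ℝ)..l i, b i t) (by simp only [hl0, hb0])

theorem Bm_rot {n : ℕ} {l : ℕ → ℝ} {b : ℕ → ℝ → ℝ} (hl : ∀ i, l (i + n) = l i)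
    (hb : ∀ i, b (i + n) = b i) : Bm n (fun i => l (i + 1)) (fun i => b (i + 1)) = Bm n l b := by
  have hl0 : l n = l 0 := by simpa using hl 0
  have hb0 : b n = b 0 := by simpa using hb 0
  unfold Bm
  exact sum_rot (fun i => ∫ t in (0 : ℝ)..l i, b i t ^ 2) (by simp only [hl0, hb0])

theorem Tm_rot {n : ℕ} {l : ℕ → ℝ} {v : ℕ → ℂ} {b : ℕ → ℝ → ℝ} (hl : ∀ i, l (i + n) = l i)
    (hv : ∀ i, v (i + n) = v i) (hb : ∀ i, b (i + n) = b i) :
    Tm n (fun i => l (i + 1)) (fun i => v (i + 1)) (fun i => b (i + 1)) = Tm n l v b := by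
  have hl0 : l n = l 0 := by simpa using hl 0
  have hb0 : b n = b 0 := by simpa using hb 0
  have hs : ∀ t, side l v n t = side l v 0 t := by
    intro t
    have h0 : v n = v 0 := by simpa using hv 0
    have h1 : v (n + 1) = v (0 + 1) := by
      have := hv 1
      rw [add_comm 1 n] at this
      simpa using this
    unfold side
    rw [hl0, h0, h1]
  have hsh : ∀ i t, side (fun i => l (i + 1)) (fun i => v (i + 1)) i t = side l v (i + 1) t :=
    fun i t => rfl
  have e1 : Tm n (fun i => l (i + 1)) (fun i => v (i + 1)) (fun i => b (i + 1)) =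
      ∑ i ∈ Finset.range n, ∑ j ∈ Finset.range n,
        ∫ t in (0 : ℝ)..l (i + 1), ∫ s in (0 : ℝ)..l (j + 1),
          ‖side l v (i + 1) t - side l v (j + 1) s‖ * (b (i + 1) t * b (j + 1) s) := rfl
  rw [e1]
  have e2 : ∀ i, ∑ j ∈ Finset.range n,
        ∫ t in (0 : ℝ)..l (i + 1), ∫ s in (0 : ℝ)..l (j + 1),
          ‖side l v (i + 1) t - side l v (j + 1) s‖ * (b (i + 1) t * b (j + 1) s) =
      ∑ j ∈ Finset.range n,
        ∫ t in (0 : ℝ)..l (i + 1), ∫ s in (0 : ℝ)..l j,
          ‖side l v (i + 1) t - side l v j s‖ * (b (i + 1) t * b j s) := fun i =>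
    sum_rot (fun j => ∫ t in (0 : ℝ)..l (i + 1), ∫ s in (0 : ℝ)..l j,
          ‖side l v (i + 1) t - side l v j s‖ * (b (i + 1) t * b j s))
      (by simp only [hl0, hb0, hs])
  rw [Finset.sum_congr rfl fun i _ => e2 i]
  unfold Tm
  exact sum_rot (fun i => ∑ j ∈ Finset.range n,
        ∫ t in (0 : ℝ)..l i, ∫ s in (0 : ℝ)..l j,
          ‖side l v i t - side l v j s‖ * (b i t * b j s))
    (by simp only [hl0, hb0, hs])

theorem CPoly_rot {n : ℕ} {v : ℕ → ℂ} (hv : CPoly n v) : CPoly n (fun i => v (i + 1)) where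
  per i := by
    have := hv.per (i + 1)
    rwa [add_right_comm] at this
  cyc i j k hij hjk hki := hv.cyc (i + 1) (j + 1) (k + 1) (by omega) (by omega) (by omega)
  chord i j k l hij hjk hkl hli :=
    hv.chord (i + 1) (j + 1) (k + 1) (l + 1) (by omega) (by omega) (by omega) (by omega)

theorem Dens_rot {n : ℕ} {b : ℕ → ℝ → ℝ} (hb : Dens n b) : Dens n (fun i => b (i + 1)) where
  per i := by
    have := hb.per (i + 1)
    rwa [add_right_comm] at this
  meas i := hb.meas (i + 1)
  bdd := by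
    obtain ⟨C, hC⟩ := hb.bdd
    exact ⟨C, fun i t => hC (i + 1) t⟩

end Pool.Agent.Helper83.CP
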