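import Pool.Agent.Helper83.CP.Defs
import Pool.Agent.Helper83.CP.Cdf

/-!
# Project CP (helper83), module TriOne
One linear functional on a triangle: `x ↦ ip x g` has speed `s` along the sides 0 and 1 and speed `-r` along side 2.

Proof. Write `X0 = ip (v 0) g`, `L = s (l0 + l1) = r l2` (`l_i = len v i`). The point at parameter `t` of side 0 has value `X0 + s t`, of side 1 `X0 + s (l0 + t)`, of side 2 `X0 + L - r t`.
Let `f'(X) = b 0 t` for `X = X0 + s t`, `0 < t ≤ l0`, `f'(X) = b 1 t` for `X = X0 + s(l0+t)`, `0 < t ≤ l1`, and `f''(X) = b 2 t` for `X = X0 + L - r t`, `0 < t ≤ l2`, zero elsewhere, and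
`f = f'/s + f''/r` (the density of the image of `b ds` under the functional). For every measurable bounded `H`: `∫ H f = ∑_i ∫_0^{l_i} H(value) b i t dt`. So `∫ f = Mm`,
`∬ |X-Y| f(X) f(Y)` is the double sum on the right, and `f² ≤ (1/s+1/r) (f'²/s + f''²/r)` (Cauchy-Schwarz) gives `∫ f² ≤ (1/s+1/r) Bm`. Apply `cdf_ineq`.
-/

set_option autoImplicit false

open MeasureTheory Set Filter Topology Metric
open scoped RealInnerProductSpace ENNReal NNReal

namespace Pool.Agent.Helper83.CP

open Pool.Agent.Helper1.CK (E3 nEnergy V1 Content Good)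

private noncomputable def ph (p c l : ℝ) (β : ℝ → ℝ) (X : ℝ) : ℝ :=
  |c|⁻¹ * (Ioc 0 l).indicator β ((X - p) / c)

private lemma ph_int {p c l : ℝ} {β : ℝ → ℝ} (hc : c ≠ 0) (hl : 0 ≤ l) (H : ℝ → ℝ) :
    ∫ X, ph p c l β X * H X = ∫ t in (0 : ℝ)..l, H (p + c * t) * β t := by
  have h1 : ∀ X, ph p c l β X * H X =
      |c|⁻¹ * (fun t => (Ioc 0 l).indicator (fun t => H (p + c * t) * β t) t) ((X - p) / c) := by
    intro X
    have hX : p + c * ((X - p) / c) = X := by field_simp; ring
    simp only [ph]
    by_cases h : (X - p) / c ∈ Ioc 0 l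
    · rw [indicator_of_mem h, indicator_of_mem h, hX]; ring
    · rw [indicator_of_notMem h, indicator_of_notMem h]; ring
  rw [integral_congr_ae (Eventually.of_forall h1), integral_const_mul]
  have h2 : ∫ X : ℝ, (fun t => (Ioc 0 l).indicator (fun t => H (p + c * t) * β t) t) ((X - p) / c)
      = ∫ X : ℝ, (fun t => (Ioc 0 l).indicator (fun t => H (p + c * t) * β t) t) (X / c) :=
    integral_sub_right_eq_self
      (fun X : ℝ => (fun t => (Ioc 0 l).indicator (fun t => H (p + c * t) * β t) t) (X / c)) p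
  rw [h2, Measure.integral_comp_div, smul_eq_mul, ← mul_assoc,
    inv_mul_cancel₀ (abs_ne_zero.2 hc), one_mul, integral_indicator measurableSet_Ioc,
    intervalIntegral.integral_of_le hl]

private lemma ph_meas {p c l : ℝ} {β : ℝ → ℝ} (hβ : Measurable β) : Measurable (ph p c l β) := by
  unfold ph
  exact ((hβ.indicator measurableSet_Ioc).comp
    ((measurable_id.sub_const p).div_const c)).const_mul _

private lemma ph_nonneg {p c l : ℝ} {β : ℝ → ℝ} (hβ : ∀ t, 0 ≤ β t) (X : ℝ) :
    0 ≤ ph p c l β X := by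
  unfold ph
  exact mul_nonneg (inv_nonneg.2 (abs_nonneg _)) (indicator_nonneg (fun t _ => hβ t) _)

private lemma ph_le {p c l C : ℝ} {β : ℝ → ℝ} (hβ : ∀ t, 0 ≤ β t ∧ β t ≤ C) (X : ℝ) :
    ph p c l β X ≤ |c|⁻¹ * C := by
  unfold ph
  refine mul_le_mul_of_nonneg_left ?_ (inv_nonneg.2 (abs_nonneg _))
  refine indicator_le' (fun t _ => (hβ t).2) (fun t _ => le_trans (hβ t).1 (hβ t).2) _

private lemma ph_zero {p c l : ℝ} {β : ℝ → ℝ} {X : ℝ} (h : (X - p) / c ∉ Ioc 0 l) :
    ph p c l β X = 0 := by
  unfold ph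
  rw [indicator_of_notMem h, mul_zero]

/-- bounded functions supported in an interval times locally bounded functions are integrable -/
private lemma ph_integrable {f H : ℝ → ℝ} {A B C D : ℝ} (hf : Measurable f)
    (h0 : ∀ x, 0 ≤ f x) (hC : ∀ x, f x ≤ C) (hs : ∀ x, x ∉ Icc A B → f x = 0)
    (hH : Measurable H) (hD : ∀ x ∈ Icc A B, |H x| ≤ D) :
    Integrable (fun x => f x * H x) := by
  have h1 : IntegrableOn (fun x => f x * H x) (Icc A B) := by
    refine Measure.integrableOn_of_bounded (M := C * D) (by simp) (hf.mul hH).aestronglyMeasurable ?_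
    refine (ae_restrict_iff' measurableSet_Icc).2 (Eventually.of_forall ?_)
    intro x hx
    rw [norm_mul, Real.norm_eq_abs, Real.norm_eq_abs, abs_of_nonneg (h0 x)]
    exact mul_le_mul (hC x) (hD x hx) (abs_nonneg _) (le_trans (h0 x) (hC x))
  refine (integrableOn_iff_integrable_of_support_subset ?_).1 h1
  intro x hx
  by_contra hc
  exact hx (by simp [hs x hc])

theorem tri_one {v : ℕ → ℂ} {b : ℕ → ℝ → ℝ} (hp : ∀ i, v (i + 3) = v i)
    (hne : ∀ i, v (i + 1) ≠ v i) (hb : Dens 3 b) {g : ℂ} {s r : ℝ} (hs : 0 < s) (hr : 0 < r)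
    (h0 : ip (v 1 - v 0) g = s * len v 0) (h1 : ip (v 2 - v 1) g = s * len v 1)
    (h2 : ip (v 0 - v 2) g = -(r * len v 2)) :
    Real.pi ^ 2 / 32 * Mm 3 (len v) b ^ 4 ≤ (1 / s + 1 / r) * Bm 3 (len v) b *
      ∑ i ∈ Finset.range 3, ∑ j ∈ Finset.range 3, ∫ t in (0 : ℝ)..len v i,
        ∫ u in (0 : ℝ)..len v j,
          |ip (side (len v) v i t - side (len v) v j u) g| * (b i t * b j u) := by
  obtain ⟨C, hC⟩ := hb.bdd
  have hl : ∀ i, 0 < len v i := fun i => norm_pos_iff.2 (sub_ne_zero.2 (hne i))
  have hC0 : 0 ≤ C := le_trans (hC 0 0).1 (hC 0 0).2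
  have ipsub : ∀ x y : ℂ, ip (x - y) g = ip x g - ip y g := by
    intro x y; simp only [ip, Complex.sub_re, Complex.sub_im]; ring
  have hv1 : ip (v 1) g = ip (v 0) g + s * len v 0 := by
    have := h0; rw [ipsub] at this; linarith
  have hv2 : ip (v 2) g = ip (v 0) g + s * len v 0 + s * len v 1 := by
    have := h1; rw [ipsub] at this; linarith
  have hL : s * len v 0 + s * len v 1 = r * len v 2 := by
    have := h2; rw [ipsub] at this; linarith
  -- base points and speeds
  set P : ℕ → ℝ := fun i => ip (v i) g with hP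
  set c : ℕ → ℝ := fun i => if i = 2 then -r else s with hcdef
  have hc0 : ∀ i, c i ≠ 0 := by
    intro i; simp only [hcdef]; split_ifs
    · exact neg_ne_zero.2 hr.ne'
    · exact hs.ne'
  have hval : ∀ i ∈ Finset.range 3, ∀ t, ip (side (len v) v i t) g = P i + c i * t := by
    intro i hi t
    have e : ip (side (len v) v i t) g = ip (v i) g + t / len v i * ip (v (i + 1) - v i) g := by
      simp only [side, ip, Complex.add_re, Complex.add_im, Complex.mul_re, Complex.mul_im,
        Complex.ofReal_re, Complex.ofReal_im, Complex.sub_re, Complex.sub_im]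
      ring
    have hli := (hl i).ne'
    rw [e]
    simp only [Finset.mem_range] at hi
    interval_cases i
    · simp only [hP, hcdef, zero_add, h0]; simp; field_simp
    · have : ip (v (1 + 1) - v 1) g = s * len v 1 := h1
      simp only [hP, hcdef, this]; simp; field_simp
    · have : ip (v (2 + 1) - v 2) g = -(r * len v 2) := by
        rw [show v (2 + 1) = v 0 from hp 0]; exact h2
      simp only [hP, hcdef, this]; simp; field_simp
  -- the densities
  set φ : ℕ → ℝ → ℝ := fun i => ph (P i) (c i) (len v i) (b i) with hφ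
  have hφm : ∀ i, Measurable (φ i) := fun i => ph_meas (hb.meas i)
  have hφ0 : ∀ i x, 0 ≤ φ i x := fun i x => ph_nonneg (fun t => (hC i t).1) x
  have hφC : ∀ i x, φ i x ≤ |c i|⁻¹ * C := fun i x => ph_le (fun t => hC i t) x
  set A : ℝ := P 0 with hA
  set B : ℝ := P 0 + r * len v 2 with hB
  have hφs : ∀ i ∈ Finset.range 3, ∀ x, x ∉ Icc A B → φ i x = 0 := by
    intro i hi x hx
    refine ph_zero ?_
    rintro ⟨ha, hb'⟩
    apply hx
    have l0 := hl 0
    have l1 := hl 1
    have l2 := hl 2
    have s0 := mul_pos hs l0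
    have s1 := mul_pos hs l1
    simp only [Finset.mem_range] at hi
    interval_cases i
    · simp only [hcdef] at ha hb'
      norm_num at ha hb'
      have ha' := (div_pos_iff_of_pos_right hs).1 ha
      have hb'' := (div_le_iff₀ hs).1 hb'
      constructor
      · linarith
      · rw [hB]; nlinarith
    · simp only [hcdef] at ha hb'
      norm_num at ha hb'
      have ha' := (div_pos_iff_of_pos_right hs).1 ha
      have hb'' := (div_le_iff₀ hs).1 hb'
      have hP1 : P 1 = P 0 + s * len v 0 := hv1
      constructor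
      · rw [hA]; linarith
      · rw [hB]; nlinarith
    · simp only [hcdef] at ha hb'
      simp only [if_true] at ha hb'
      have hP2 : P 2 = P 0 + s * len v 0 + s * len v 1 := hv2
      have e : (x - P 2) / -r = (P 2 - x) / r := by field_simp; ring
      rw [e] at ha hb'
      have ha' := (div_pos_iff_of_pos_right hr).1 ha
      have hb'' := (div_le_iff₀ hr).1 hb'
      constructor
      · rw [hA]; nlinarith
      · rw [hB]; nlinarith
  have key : ∀ i ∈ Finset.range 3, ∀ H : ℝ → ℝ, ∫ X, φ i X * H X =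
      ∫ t in (0 : ℝ)..len v i, H (P i + c i * t) * b i t :=
    fun i _ H => ph_int (hc0 i) (hl i).le H
  set D : ℝ := C * (|c 0|⁻¹ + |c 1|⁻¹ + |c 2|⁻¹) with hD
  have hDi : ∀ i ∈ Finset.range 3, |c i|⁻¹ * C ≤ D := by
    intro i hi
    have a0 : 0 ≤ |c 0|⁻¹ := inv_nonneg.2 (abs_nonneg _)
    have a1 : 0 ≤ |c 1|⁻¹ := inv_nonneg.2 (abs_nonneg _)
    have a2 : 0 ≤ |c 2|⁻¹ := inv_nonneg.2 (abs_nonneg _)
    simp only [Finset.mem_range] at hi
    rw [hD, mul_comm C]
    interval_cases i
    · exact mul_le_mul_of_nonneg_right (by linarith) hC0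
    · exact mul_le_mul_of_nonneg_right (by linarith) hC0
    · exact mul_le_mul_of_nonneg_right (by linarith) hC0
  have hinteg : ∀ i ∈ Finset.range 3, ∀ (H : ℝ → ℝ) (E : ℝ), Measurable H →
      (∀ x ∈ Icc A B, |H x| ≤ E) → Integrable (fun x => φ i x * H x) := by
    intro i hi H E hH hE
    exact ph_integrable (hφm i) (hφ0 i) (fun x => (hφC i x).trans (hDi i hi)) (hφs i hi) hH hE
  set f : ℝ → ℝ := fun x => ∑ i ∈ Finset.range 3, φ i x with hf
  have hfm : Measurable f := Finset.measurable_sum _ (fun i _ => hφm i)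
  have hf0 : ∀ x, 0 ≤ f x := fun x => Finset.sum_nonneg (fun i _ => hφ0 i x)
  have hfC : ∀ x, f x ≤ 3 * D := by
    intro x
    calc f x ≤ ∑ i ∈ Finset.range 3, D :=
          Finset.sum_le_sum (fun i hi => (hφC i x).trans (hDi i hi))
      _ = 3 * D := by simp
  have hfs : ∀ x, x ∉ Icc A B → f x = 0 := by
    intro x hx
    exact Finset.sum_eq_zero (fun i hi => hφs i hi x hx)
  have main := cdf_ineq hfm hf0 hfC hfs
  -- total mass
  have hM : ∫ x, f x = Mm 3 (len v) b := by
    have e : ∀ i ∈ Finset.range 3, Integrable (fun x => φ i x) := by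
      intro i hi
      have := hinteg i hi (fun _ => 1) 1 measurable_const (by simp)
      simpa using this
    rw [hf, integral_finset_sum _ e]
    unfold Mm
    refine Finset.sum_congr rfl (fun i hi => ?_)
    have := key i hi (fun _ => 1)
    simpa using this
  -- the double integral
  have hK : ∀ j ∈ Finset.range 3, ∀ X, ∫ Y, |X - Y| * φ j Y =
      ∫ u in (0 : ℝ)..len v j, |X - (P j + c j * u)| * b j u := by
    intro j hj X
    have := key j hj (fun Y => |X - Y|)
    rw [← this]
    exact integral_congr_ae (Eventually.of_forall (fun Y => mul_comm _ _))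
  have hKm : ∀ j, Measurable (fun X => ∫ Y, |X - Y| * φ j Y) := by
    intro j
    have : StronglyMeasurable (Function.uncurry (fun X Y : ℝ => |X - Y| * φ j Y)) := by
      refine Measurable.stronglyMeasurable ?_
      have h1 : Measurable (fun z : ℝ × ℝ => |z.1 - z.2|) :=
        ((continuous_fst.sub continuous_snd).abs).measurable
      exact h1.mul ((hφm j).comp measurable_snd)
    exact (this.integral_prod_right (ν := volume)).measurable
  have hφi : ∀ j ∈ Finset.range 3, Integrable (fun x => φ j x) := by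
    intro i hi
    have := hinteg i hi (fun _ => 1) 1 measurable_const (by simp)
    simpa using this
  have hKi : ∀ j ∈ Finset.range 3, ∀ X, Integrable (fun Y => |X - Y| * φ j Y) := by
    intro j hj X
    have := hinteg j hj (fun Y => |X - Y|) (|X| + (|A| + |B|))
      ((continuous_const.sub continuous_id).abs.measurable) ?_
    · exact this.congr (Eventually.of_forall (fun Y => mul_comm _ _))
    · intro Y hY
      rw [abs_abs]
      have h3 : |Y| ≤ |A| + |B| := by
        rw [abs_le]
        constructor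
        · have := neg_abs_le A; have := abs_nonneg B; linarith [hY.1]
        · have := le_abs_self B; have := abs_nonneg A; linarith [hY.2]
      calc |X - Y| ≤ |X| + |Y| := abs_sub X Y
        _ ≤ _ := by linarith
  have hKb : ∀ j ∈ Finset.range 3, ∀ X ∈ Icc A B, |∫ Y, |X - Y| * φ j Y| ≤
      (2 * (|A| + |B|)) * ∫ Y, φ j Y := by
    intro j hj X hX
    have habs : ∀ Z ∈ Icc A B, |Z| ≤ |A| + |B| := by
      intro Y hY
      rw [abs_le]
      constructor
      · have := neg_abs_le A; have := abs_nonneg B; linarith [hY.1]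
      · have := le_abs_self B; have := abs_nonneg A; linarith [hY.2]
    rw [abs_of_nonneg (integral_nonneg (fun Y => mul_nonneg (abs_nonneg _) (hφ0 j Y))),
      ← integral_const_mul]
    refine integral_mono (hKi j hj X) ((hφi j hj).const_mul _) ?_
    intro Y
    by_cases hY : Y ∈ Icc A B
    · refine mul_le_mul_of_nonneg_right ?_ (hφ0 j Y)
      have := abs_sub X Y
      have := habs X hX
      have := habs Y hY
      linarith
    · simp only [hφs j hj Y hY, mul_zero]; exact le_refl _
  have hT : ∫ x, ∫ y, |x - y| * (f x * f y) = ∑ i ∈ Finset.range 3, ∑ j ∈ Finset.range 3,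
      ∫ t in (0 : ℝ)..len v i, ∫ u in (0 : ℝ)..len v j,
          |ip (side (len v) v i t - side (len v) v j u) g| * (b i t * b j u) := by
    have e1 : ∀ x, ∫ y, |x - y| * (f x * f y) =
        ∑ i ∈ Finset.range 3, ∑ j ∈ Finset.range 3, φ i x * ∫ y, |x - y| * φ j y := by
      intro x
      have : ∀ y, |x - y| * (f x * f y) = f x * ∑ j ∈ Finset.range 3, |x - y| * φ j y := by
        intro y
        rw [← Finset.mul_sum]
        simp only [hf]; ring
      rw [integral_congr_ae (Eventually.of_forall this), integral_const_mul,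
        integral_finset_sum _ (fun j hj => hKi j hj x), hf, Finset.sum_mul]
      exact Finset.sum_congr rfl (fun i _ => Finset.mul_sum _ _ _)
    rw [integral_congr_ae (Eventually.of_forall e1)]
    have e2 : ∀ i ∈ Finset.range 3, ∀ j ∈ Finset.range 3,
        Integrable (fun x => φ i x * ∫ y, |x - y| * φ j y) := by
      intro i hi j hj
      exact hinteg i hi _ _ (hKm j) (hKb j hj)
    rw [integral_finset_sum _ (fun i hi => integrable_finset_sum _ (fun j hj => e2 i hi j hj))]
    refine Finset.sum_congr rfl (fun i hi => ?_)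
    rw [integral_finset_sum _ (fun j hj => e2 i hi j hj)]
    refine Finset.sum_congr rfl (fun j hj => ?_)
    rw [key i hi]
    refine intervalIntegral.integral_congr (fun t _ => ?_)
    beta_reduce
    rw [hK j hj, mul_comm, ← intervalIntegral.integral_const_mul]
    refine intervalIntegral.integral_congr (fun u _ => ?_)
    beta_reduce
    rw [ipsub, hval i hi, hval j hj]
    ring
  -- the square
  have hB2 : ∫ x, f x ^ 2 ≤ (1 / s + 1 / r) * Bm 3 (len v) b := by
    have hdis : ∀ x, φ 0 x * φ 1 x = 0 := by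
      intro x
      by_cases hx0 : (x - P 0) / c 0 ∈ Ioc 0 (len v 0)
      · have : φ 1 x = 0 := by
          refine ph_zero ?_
          rintro ⟨ha, -⟩
          have hP1 : P 1 = P 0 + s * len v 0 := hv1
          have hb' := hx0.2
          simp only [hcdef] at ha hb'
          norm_num at ha hb'
          have ha' := (div_pos_iff_of_pos_right hs).1 ha
          have hb'' := (div_le_iff₀ hs).1 hb'
          nlinarith
        rw [this, mul_zero]
      · have : φ 0 x = 0 := ph_zero hx0
        rw [this, zero_mul]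
    have hsq : ∀ i ∈ Finset.range 3, |c i| * ∫ x, φ i x ^ 2 = ∫ t in (0 : ℝ)..len v i, b i t ^ 2 := by
      intro i hi
      have e : ∀ x, φ i x ^ 2 = |c i|⁻¹ * (ph (P i) (c i) (len v i) (fun t => b i t ^ 2) x * 1) := by
        intro x
        simp only [hφ, ph]
        by_cases h : (x - P i) / c i ∈ Ioc 0 (len v i)
        · rw [indicator_of_mem h, indicator_of_mem h]; ring
        · rw [indicator_of_notMem h, indicator_of_notMem h]; ring
      rw [integral_congr_ae (Eventually.of_forall e), integral_const_mul, ← mul_assoc,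
        mul_inv_cancel₀ (abs_ne_zero.2 (hc0 i)), one_mul, ph_int (hc0 i) (hl i).le (fun _ => 1)]
      simp
    have hi2 : ∀ i ∈ Finset.range 3, Integrable (fun x => φ i x ^ 2) := by
      intro i hi
      have := hinteg i hi (φ i) D (hφm i) (fun x _ => by
        rw [abs_of_nonneg (hφ0 i x)]; exact (hφC i x).trans (hDi i hi))
      exact this.congr (Eventually.of_forall (fun x => by simp only; ring))
    have m0 : (0 : ℕ) ∈ Finset.range 3 := by simp
    have m1 : (1 : ℕ) ∈ Finset.range 3 := by simp
    have m2 : (2 : ℕ) ∈ Finset.range 3 := by simp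
    have hc0' : |c 0| = s := by simp [hcdef, abs_of_pos hs]
    have hc1' : |c 1| = s := by simp [hcdef, abs_of_pos hs]
    have hc2' : |c 2| = r := by simp [hcdef, abs_of_pos hr]
    have hpt : ∀ x, f x ^ 2 ≤ (1 / s + 1 / r) *
        (s * φ 0 x ^ 2 + s * φ 1 x ^ 2 + r * φ 2 x ^ 2) := by
      intro x
      have e : f x = φ 0 x + φ 1 x + φ 2 x := by
        simp only [hf, Finset.sum_range_succ, Finset.sum_range_zero, zero_add]
      have hd := hdis x
      rw [e]
      have e2 : (1 / s + 1 / r) * (s * φ 0 x ^ 2 + s * φ 1 x ^ 2 + r * φ 2 x ^ 2)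
          - (φ 0 x + φ 1 x + φ 2 x) ^ 2 =
          (s * (φ 0 x + φ 1 x) - r * φ 2 x) ^ 2 / (s * r) -
            2 * (1 + s / r) * (φ 0 x * φ 1 x) := by
        field_simp
        ring
      have e3 : 0 ≤ (s * (φ 0 x + φ 1 x) - r * φ 2 x) ^ 2 / (s * r) := by positivity
      rw [hd] at e2
      linarith
    have hint : Integrable (fun x => (1 / s + 1 / r) *
        (s * φ 0 x ^ 2 + s * φ 1 x ^ 2 + r * φ 2 x ^ 2)) :=
      ((((hi2 0 m0).const_mul s).add ((hi2 1 m1).const_mul s)).add
        ((hi2 2 m2).const_mul r)).const_mul _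
    have hfint : Integrable (fun x => f x ^ 2) := by
      have := ph_integrable hfm hf0 hfC hfs hfm (D := 3 * D) (fun x _ => by
        rw [abs_of_nonneg (hf0 x)]; exact hfC x)
      exact this.congr (Eventually.of_forall (fun x => by simp only; ring))
    calc ∫ x, f x ^ 2 ≤ ∫ x, (1 / s + 1 / r) *
        (s * φ 0 x ^ 2 + s * φ 1 x ^ 2 + r * φ 2 x ^ 2) := integral_mono hfint hint hpt
      _ = (1 / s + 1 / r) * (s * (∫ x, φ 0 x ^ 2) + s * (∫ x, φ 1 x ^ 2)
            + r * (∫ x, φ 2 x ^ 2)) := by
          have w1 : ∫ x, (s * φ 0 x ^ 2 + s * φ 1 x ^ 2 + r * φ 2 x ^ 2) =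
              (∫ x, (s * φ 0 x ^ 2 + s * φ 1 x ^ 2)) + ∫ x, r * φ 2 x ^ 2 :=
            integral_add (((hi2 0 m0).const_mul s).add ((hi2 1 m1).const_mul s))
              ((hi2 2 m2).const_mul r)
          have w2 : ∫ x, (s * φ 0 x ^ 2 + s * φ 1 x ^ 2) =
              (∫ x, s * φ 0 x ^ 2) + ∫ x, s * φ 1 x ^ 2 :=
            integral_add ((hi2 0 m0).const_mul s) ((hi2 1 m1).const_mul s)
          rw [integral_const_mul, w1, w2,
            integral_const_mul, integral_const_mul, integral_const_mul]
      _ = (1 / s + 1 / r) * Bm 3 (len v) b := by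
          have q0 := hsq 0 m0
          have q1 := hsq 1 m1
          have q2 := hsq 2 m2
          rw [hc0'] at q0
          rw [hc1'] at q1
          rw [hc2'] at q2
          rw [q0, q1, q2]
          unfold Bm
          simp only [Finset.sum_range_succ, Finset.sum_range_zero, zero_add]
  have hT0 : 0 ≤ ∫ x, ∫ y, |x - y| * (f x * f y) :=
    integral_nonneg (fun x => integral_nonneg (fun y =>
      mul_nonneg (abs_nonneg _) (mul_nonneg (hf0 x) (hf0 y))))
  rw [hM] at main
  calc Real.pi ^ 2 / 32 * Mm 3 (len v) b ^ 4 ≤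
      (∫ x, f x ^ 2) * ∫ x, ∫ y, |x - y| * (f x * f y) := main
    _ ≤ (1 / s + 1 / r) * Bm 3 (len v) b * ∫ x, ∫ y, |x - y| * (f x * f y) :=
        mul_le_mul_of_nonneg_right hB2 hT0
    _ = _ := by rw [hT]

end Pool.Agent.Helper83.CP
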