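import Pool.Agent.Helper83.CP.Defs
import Pool.Agent.Helper83.CP.TriOne

/-!
# Project CP (helper83), module Tri
The planar lemma for triangles (degenerate triangles are allowed, the orientation is not needed).

Vertices `v0 v1 v2`, side lengths `c = len 0`, `a = len 1`, `b = len 2`, unit side vectors `E0 = (v1-v0)/c`,
`E1 = (v2-v1)/a`, `E2 = (v0-v2)/b`, so `c E0 + a E1 + b E2 = 0`.
Put `g0 = (E1+E2)/2`, `g1 = (E2+E0)/2`, `g2 = (E0+E1)/2`, `q0 = <E1,E2>`, `q1 = <E2,E0>`, `q2 = <E0,E1>` (`<,> = ip`).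

(i) `|<w,g0>| + |<w,g1>| + |<w,g2>| ≤ |w|`: for signs `e_i` the vector `e0 g0 + e1 g1 + e2 g2` is one of `±E0, ±E1, ±E2`
 (two signs equal, one different: `g1 + g2 - g0 = E0` etc.) or `±(E0+E1+E2)`, and `|E0+E1+E2| ≤ 1`:
 `|E0+E1+E2|² = 3 + 2 (q0+q1+q2)`, and `1 + q0 + q1 + q2 ≤ 0`, because `q0 = (c²-a²-b²)/(2ab)` etc.
 (take the square of `c E0 = -(a E1 + b E2)`), and `-(1+q0+q1+q2) = (a+b-c)(b+c-a)(c+a-b)/(2abc) ≥ 0`
 (cos A + cos B + cos C ≥ 1; triangle inequality).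
(ii) For `g2`: `s2 := (1+q2)/2 = <E0,g2> = <E1,g2> ≥ 0` and `r2 := -<E2,g2>`, with `b r2 = (a+c) s2` (closing relation).
 If `s2 > 0`, `tri_one` gives `p2 (π²/64) Mm⁴ ≤ Bm ∬ |<x-x',g2>| b b` with `p2 := 2/(1/s2+1/r2) = 2 s2 (a+c)/(a+b+c)`. If `s2 = 0` then `p2 = 0` and this is trivial.
 The same for `g0` (apply `tri_one` to the rotated triangle `v(·+1)`, `b(·+1)`) and `g1` (`v(·+2)`, `b(·+2)`); `Mm`, `Bm` and the double sums do not change under rotation.
(iii) `p0+p1+p2 = 1`: `p0 = (1+q0)(a+b)/(a+b+c)`, `p1 = (1+q1)(b+c)/(a+b+c)`, `p2 = (1+q2)(c+a)/(a+b+c)`; the sum of the numerators is `a+b+c`, because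
 `b q0 + c q2 = -a`, `a q0 + c q1 = -b`, `a q2 + b q1 = -c` (inner products of the closing relation with `E1`, `E2`, `E0`).
Sum (ii) over the three functionals and use (i) with `w = x - x'` under the integral.
-/

set_option autoImplicit false

open MeasureTheory Set Filter Topology Metric
open scoped RealInnerProductSpace ENNReal NNReal

namespace Pool.Agent.Helper83.CP

open Pool.Agent.Helper1.CK (E3 nEnergy V1 Content Good)

/-! ### scalar algebra -/

/-- the algebra of the three unit side vectors -/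
private lemma alg {x0 y0 x1 y1 x2 y2 a0 a1 a2 : ℝ} (h0 : 0 < a0) (h1 : 0 < a1) (h2 : 0 < a2)
    (u0 : x0 ^ 2 + y0 ^ 2 = 1) (u1 : x1 ^ 2 + y1 ^ 2 = 1) (u2 : x2 ^ 2 + y2 ^ 2 = 1)
    (cx : a0 * x0 + a1 * x1 + a2 * x2 = 0) (cy : a0 * y0 + a1 * y1 + a2 * y2 = 0) :
    a0 + a1 * (x0 * x1 + y0 * y1) + a2 * (x2 * x0 + y2 * y0) = 0 ∧
    a0 * (x0 * x1 + y0 * y1) + a1 + a2 * (x1 * x2 + y1 * y2) = 0 ∧
    a0 * (x2 * x0 + y2 * y0) + a1 * (x1 * x2 + y1 * y2) + a2 = 0 ∧
    (x0 + x1 + x2) ^ 2 + (y0 + y1 + y2) ^ 2 ≤ 1 := by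
  have r0 : a0 + a1 * (x0 * x1 + y0 * y1) + a2 * (x2 * x0 + y2 * y0) = 0 := by
    linear_combination x0 * cx + y0 * cy - a0 * u0
  have r1 : a0 * (x0 * x1 + y0 * y1) + a1 + a2 * (x1 * x2 + y1 * y2) = 0 := by
    linear_combination x1 * cx + y1 * cy - a1 * u1
  have r2 : a0 * (x2 * x0 + y2 * y0) + a1 * (x1 * x2 + y1 * y2) + a2 = 0 := by
    linear_combination x2 * cx + y2 * cy - a2 * u2
  refine ⟨r0, r1, r2, ?_⟩
  set q2 := x0 * x1 + y0 * y1 with hq2
  set q1 := x2 * x0 + y2 * y0 with hq1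
  set q0 := x1 * x2 + y1 * y2 with hq0
  have b2 : -1 ≤ q2 := by nlinarith [sq_nonneg (x0 + x1), sq_nonneg (y0 + y1)]
  have b1 : -1 ≤ q1 := by nlinarith [sq_nonneg (x0 + x2), sq_nonneg (y0 + y2)]
  have b0 : -1 ≤ q0 := by nlinarith [sq_nonneg (x1 + x2), sq_nonneg (y1 + y2)]
  have t0 : a0 ≤ a1 + a2 := by
    nlinarith [mul_le_mul_of_nonneg_left b2 h1.le, mul_le_mul_of_nonneg_left b1 h2.le]
  have t1 : a1 ≤ a0 + a2 := by
    nlinarith [mul_le_mul_of_nonneg_left b2 h0.le, mul_le_mul_of_nonneg_left b0 h2.le]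
  have t2 : a2 ≤ a0 + a1 := by
    nlinarith [mul_le_mul_of_nonneg_left b1 h0.le, mul_le_mul_of_nonneg_left b0 h1.le]
  have key : 2 * (a0 * a1 * a2) * (1 + q0 + q1 + q2) =
      -((a0 + a1 - a2) * (a1 + a2 - a0) * (a2 + a0 - a1)) := by
    linear_combination (a0 * a1 + a0 * a2 - a0 ^ 2) * r0 + (a0 * a1 + a1 * a2 - a1 ^ 2) * r1 +
      (a0 * a2 + a1 * a2 - a2 ^ 2) * r2
  have key2 : 1 + q0 + q1 + q2 ≤ 0 := by
    have hp : 0 ≤ (a0 + a1 - a2) * (a1 + a2 - a0) * (a2 + a0 - a1) :=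
      mul_nonneg (mul_nonneg (by linarith) (by linarith)) (by linarith)
    have ha : 0 < 2 * (a0 * a1 * a2) := by positivity
    by_contra hc
    push Not at hc
    have := mul_pos ha hc
    linarith
  have e : (x0 + x1 + x2) ^ 2 + (y0 + y1 + y2) ^ 2 = 3 + 2 * (q0 + q1 + q2) := by
    rw [hq0, hq1, hq2]
    linear_combination u0 + u1 + u2
  rw [e]; linarith

/-- the three half sums -/
private lemma three_abs {α β γ N : ℝ} (h0 : |α| ≤ N) (h1 : |β| ≤ N) (h2 : |γ| ≤ N)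
    (h3 : |α + β + γ| ≤ N) : |(β + γ) / 2| + |(γ + α) / 2| + |(α + β) / 2| ≤ N := by
  obtain ⟨a1, a2⟩ := abs_le.1 h0
  obtain ⟨b1, b2⟩ := abs_le.1 h1
  obtain ⟨c1, c2⟩ := abs_le.1 h2
  obtain ⟨d1, d2⟩ := abs_le.1 h3
  rcases abs_cases ((β + γ) / 2) with ⟨e, _⟩ | ⟨e, _⟩ <;>
  rcases abs_cases ((γ + α) / 2) with ⟨f, _⟩ | ⟨f, _⟩ <;>
  rcases abs_cases ((α + β) / 2) with ⟨g, _⟩ | ⟨g, _⟩ <;>
  rw [e, f, g] <;> linarith

/-- Cauchy-Schwarz in the plane -/
private lemma abs_ip_le {w e : ℂ} (he : e.re ^ 2 + e.im ^ 2 ≤ 1) : |ip w e| ≤ ‖w‖ := by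
  refine abs_le_of_sq_le_sq ?_ (norm_nonneg _)
  have h1 : ‖w‖ ^ 2 = w.re ^ 2 + w.im ^ 2 := by
    rw [← Complex.normSq_eq_norm_sq, Complex.normSq_apply]; ring
  rw [h1]
  unfold ip
  nlinarith [sq_nonneg (w.re * e.im - w.im * e.re), sq_nonneg w.re, sq_nonneg w.im,
    mul_nonneg (add_nonneg (sq_nonneg w.re) (sq_nonneg w.im)) (sub_nonneg.2 he)]

/-! ### the unit side vectors -/

private noncomputable def EE (v : ℕ → ℂ) (i : ℕ) : ℂ :=
  (((len v i)⁻¹ : ℝ) : ℂ) * (v (i + 1) - v i)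

private lemma EE_mul {v : ℕ → ℂ} (hne : ∀ i, v (i + 1) ≠ v i) (i : ℕ) :
    v (i + 1) - v i = ((len v i : ℝ) : ℂ) * EE v i := by
  have h : 0 < len v i := norm_pos_iff.2 (sub_ne_zero.2 (hne i))
  unfold EE
  rw [← mul_assoc, ← Complex.ofReal_mul, mul_inv_cancel₀ h.ne', Complex.ofReal_one, one_mul]

private lemma EE_unit {v : ℕ → ℂ} (hne : ∀ i, v (i + 1) ≠ v i) (i : ℕ) :
    (EE v i).re ^ 2 + (EE v i).im ^ 2 = 1 := by
  have h : 0 < len v i := norm_pos_iff.2 (sub_ne_zero.2 (hne i))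
  have h1 : ‖EE v i‖ = 1 := by
    unfold EE
    rw [norm_mul, Complex.norm_real, Real.norm_of_nonneg (inv_nonneg.2 h.le)]
    exact inv_mul_cancel₀ h.ne'
  have h2 : ‖EE v i‖ ^ 2 = (EE v i).re ^ 2 + (EE v i).im ^ 2 := by
    rw [← Complex.normSq_eq_norm_sq, Complex.normSq_apply]; ring
  rw [← h2, h1]; norm_num

/-! ### the double sums -/

private noncomputable def TT (v : ℕ → ℂ) (b : ℕ → ℝ → ℝ) (g : ℂ) : ℝ :=
  ∑ i ∈ Finset.range 3, ∑ j ∈ Finset.range 3, ∫ t in (0 : ℝ)..len v i,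
    ∫ u in (0 : ℝ)..len v j, |ip (side (len v) v i t - side (len v) v j u) g| * (b i t * b j u)

private lemma TT_nonneg {v : ℕ → ℂ} {b : ℕ → ℝ → ℝ} (hb : Dens 3 b) (g : ℂ) : 0 ≤ TT v b g := by
  obtain ⟨C, hC⟩ := hb.bdd
  refine Finset.sum_nonneg fun i _ => Finset.sum_nonneg fun j _ => ?_
  refine intervalIntegral.integral_nonneg (norm_nonneg _) fun t _ => ?_
  refine intervalIntegral.integral_nonneg (norm_nonneg _) fun u _ => ?_
  exact mul_nonneg (abs_nonneg _) (mul_nonneg (hC i t).1 (hC j u).1)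

private lemma Bm_nonneg {v : ℕ → ℂ} {b : ℕ → ℝ → ℝ} : 0 ≤ Bm 3 (len v) b := by
  refine Finset.sum_nonneg fun i _ => ?_
  exact intervalIntegral.integral_nonneg (norm_nonneg _) fun t _ => sq_nonneg _

private lemma TT_rot {v : ℕ → ℂ} {b : ℕ → ℝ → ℝ} (hv : ∀ i, v (i + 3) = v i)
    (hb : ∀ i, b (i + 3) = b i) (g : ℂ) :
    TT (fun i => v (i + 1)) (fun i => b (i + 1)) g = TT v b g := by
  have hv3 : v 3 = v 0 := hv 0
  have hv4 : v 4 = v 1 := hv 1
  have hb3 : b 3 = b 0 := hb 0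
  have hl3 : len v 3 = len v 0 := by unfold len; rw [hv3]; rw [show (3 + 1 : ℕ) = 4 from rfl, hv4]
  have hs3 : ∀ t, side (len v) v 3 t = side (len v) v 0 t := by
    intro t
    unfold side
    rw [hl3, hv3, show (3 + 1 : ℕ) = 4 from rfl, hv4]
  have hsh : ∀ i t, side (len fun i => v (i + 1)) (fun i => v (i + 1)) i t =
      side (len v) v (i + 1) t := fun i t => rfl
  have hlh : ∀ i, len (fun i => v (i + 1)) i = len v (i + 1) := fun i => rfl
  unfold TT
  simp only [hsh, hlh, Finset.sum_range_succ, Finset.sum_range_zero]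
  norm_num
  simp only [hs3, hl3, hb3]
  ring

private lemma Mm_rot3 {v : ℕ → ℂ} {b : ℕ → ℝ → ℝ} (hv : ∀ i, v (i + 3) = v i)
    (hb : ∀ i, b (i + 3) = b i) :
    Mm 3 (len fun i => v (i + 1)) (fun i => b (i + 1)) = Mm 3 (len v) b := by
  have hv3 : v 3 = v 0 := hv 0
  have hv4 : v 4 = v 1 := hv 1
  have hb3 : b 3 = b 0 := hb 0
  have hl3 : len v 3 = len v 0 := by unfold len; rw [hv3]; rw [show (3 + 1 : ℕ) = 4 from rfl, hv4]
  have hlh : ∀ i, len (fun i => v (i + 1)) i = len v (i + 1) := fun i => rfl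
  unfold Mm
  simp only [hlh, Finset.sum_range_succ, Finset.sum_range_zero]
  norm_num
  simp only [hl3, hb3]
  ring

private lemma Bm_rot3 {v : ℕ → ℂ} {b : ℕ → ℝ → ℝ} (hv : ∀ i, v (i + 3) = v i)
    (hb : ∀ i, b (i + 3) = b i) :
    Bm 3 (len fun i => v (i + 1)) (fun i => b (i + 1)) = Bm 3 (len v) b := by
  have hv3 : v 3 = v 0 := hv 0
  have hv4 : v 4 = v 1 := hv 1
  have hb3 : b 3 = b 0 := hb 0
  have hl3 : len v 3 = len v 0 := by unfold len; rw [hv3]; rw [show (3 + 1 : ℕ) = 4 from rfl, hv4]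
  have hlh : ∀ i, len (fun i => v (i + 1)) i = len v (i + 1) := fun i => rfl
  unfold Bm
  simp only [hlh, Finset.sum_range_succ, Finset.sum_range_zero]
  norm_num
  simp only [hl3, hb3]
  ring

/-! ### one functional -/

private lemma one_fun {v : ℕ → ℂ} {b : ℕ → ℝ → ℝ} (hp : ∀ i, v (i + 3) = v i)
    (hne : ∀ i, v (i + 1) ≠ v i) (hb : Dens 3 b) :
    (1 + ip (EE v 0) (EE v 1)) * (len v 0 + len v 1) / (len v 0 + len v 1 + len v 2) *
      (Real.pi ^ 2 / 64 * Mm 3 (len v) b ^ 4) ≤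
      Bm 3 (len v) b * TT v b ((EE v 0 + EE v 1) / 2) := by
  have hl : ∀ i, 0 < len v i := fun i => norm_pos_iff.2 (sub_ne_zero.2 (hne i))
  have l0 := hl 0
  have l1 := hl 1
  have l2 := hl 2
  set g : ℂ := (EE v 0 + EE v 1) / 2 with hg
  set q : ℝ := ip (EE v 0) (EE v 1) with hq
  have gre : g.re = ((EE v 0).re + (EE v 1).re) / 2 := by
    rw [hg, show ((EE v 0 + EE v 1) / 2 : ℂ) = (((1 / 2 : ℝ)) : ℂ) * (EE v 0 + EE v 1) by
      push_cast; ring, Complex.re_ofReal_mul, Complex.add_re]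
    ring
  have gim : g.im = ((EE v 0).im + (EE v 1).im) / 2 := by
    rw [hg, show ((EE v 0 + EE v 1) / 2 : ℂ) = (((1 / 2 : ℝ)) : ℂ) * (EE v 0 + EE v 1) by
      push_cast; ring, Complex.im_ofReal_mul, Complex.add_im]
    ring
  have u0 := EE_unit hne 0
  have u1 := EE_unit hne 1
  have i0 : ip (v 1 - v 0) g = (1 + q) / 2 * len v 0 := by
    have e := EE_mul hne 0
    rw [show (0 + 1 : ℕ) = 1 from rfl] at e
    rw [e]
    unfold ip
    rw [Complex.re_ofReal_mul, Complex.im_ofReal_mul, gre, gim, hq]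
    unfold ip
    linear_combination (len v 0 / 2) * u0
  have i1 : ip (v 2 - v 1) g = (1 + q) / 2 * len v 1 := by
    have e := EE_mul hne 1
    rw [show (1 + 1 : ℕ) = 2 from rfl] at e
    rw [e]
    unfold ip
    rw [Complex.re_ofReal_mul, Complex.im_ofReal_mul, gre, gim, hq]
    unfold ip
    linear_combination (len v 1 / 2) * u1
  have i2 : ip (v 0 - v 2) g = -((1 + q) / 2 * (len v 0 + len v 1) / len v 2 * len v 2) := by
    have e : ip (v 0 - v 2) g = -(ip (v 1 - v 0) g + ip (v 2 - v 1) g) := by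
      simp only [ip, Complex.sub_re, Complex.sub_im]; ring
    rw [e, i0, i1]
    field_simp
  have hq1 : 0 ≤ 1 + q := by
    rw [hq]; unfold ip
    nlinarith [sq_nonneg ((EE v 0).re + (EE v 1).re), sq_nonneg ((EE v 0).im + (EE v 1).im)]
  rcases hq1.eq_or_lt with h | h
  · rw [← h]
    simp only [zero_mul, zero_div]
    exact mul_nonneg Bm_nonneg (TT_nonneg hb g)
  · have hs : 0 < (1 + q) / 2 := by linarith
    have hr : 0 < (1 + q) / 2 * (len v 0 + len v 1) / len v 2 := by positivity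
    have key := tri_one hp hne hb hs hr i0 i1 i2
    have e1 : (1 / ((1 + q) / 2) + 1 / ((1 + q) / 2 * (len v 0 + len v 1) / len v 2)) =
        2 * (len v 0 + len v 1 + len v 2) / ((1 + q) * (len v 0 + len v 1)) := by
      field_simp
    rw [e1] at key
    have hT : (∑ i ∈ Finset.range 3, ∑ j ∈ Finset.range 3, ∫ t in (0 : ℝ)..len v i,
        ∫ u in (0 : ℝ)..len v j,
          |ip (side (len v) v i t - side (len v) v j u) g| * (b i t * b j u)) = TT v b g := rfl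
    rw [hT] at key
    have hc : 0 < (1 + q) * (len v 0 + len v 1) / (len v 0 + len v 1 + len v 2) := by positivity
    have := mul_le_mul_of_nonneg_left key hc.le
    have e2 : (1 + q) * (len v 0 + len v 1) / (len v 0 + len v 1 + len v 2) *
        (2 * (len v 0 + len v 1 + len v 2) / ((1 + q) * (len v 0 + len v 1)) *
          Bm 3 (len v) b * TT v b g) = 2 * (Bm 3 (len v) b * TT v b g) := by
      have : 1 + q ≠ 0 := h.ne'
      field_simp
    rw [e2] at this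
    nlinarith [this]

/-! ### the sum of the three functionals -/

private lemma side_cont (v : ℕ → ℂ) (i : ℕ) : Continuous (side (len v) v i) := by
  unfold side
  fun_prop

private lemma int_K {K : ℝ × ℝ → ℝ} (hK : Continuous K) {p q : ℝ} {β γ : ℝ → ℝ} {C : ℝ}
    (hβ : Measurable β) (hγ : Measurable γ) (hβC : ∀ t, 0 ≤ β t ∧ β t ≤ C)
    (hγC : ∀ t, 0 ≤ γ t ∧ γ t ≤ C) :
    IntegrableOn (fun z : ℝ × ℝ => K z * (β z.1 * γ z.2)) (Ioc 0 p ×ˢ Ioc 0 q) := by
  obtain ⟨D, hD⟩ := (isCompact_Icc.prod isCompact_Icc : IsCompact (Icc (0 : ℝ) p ×ˢ Icc (0 : ℝ) q)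
    ).exists_bound_of_continuousOn hK.continuousOn
  have hC0 : 0 ≤ C := le_trans (hβC 0).1 (hβC 0).2
  refine Measure.integrableOn_of_bounded (M := D * (C * C)) ?_ ?_ ?_
  · rw [Measure.volume_eq_prod, Measure.prod_prod]
    exact (ENNReal.mul_lt_top (by simp) (by simp)).ne
  · exact (hK.measurable.mul ((hβ.comp measurable_fst).mul
      (hγ.comp measurable_snd))).aestronglyMeasurable
  · refine (ae_restrict_iff' (measurableSet_Ioc.prod measurableSet_Ioc)).2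
      (Eventually.of_forall ?_)
    rintro ⟨t, u⟩ ⟨ht, hu⟩
    have h1 : ‖K (t, u)‖ ≤ D := hD (t, u) ⟨Ioc_subset_Icc_self ht, Ioc_subset_Icc_self hu⟩
    have h2 : ‖β t * γ u‖ ≤ C * C := by
      rw [Real.norm_of_nonneg (mul_nonneg (hβC t).1 (hγC u).1)]
      exact mul_le_mul (hβC t).2 (hγC u).2 (hγC u).1 hC0
    rw [norm_mul]
    exact mul_le_mul h1 h2 (norm_nonneg _) (le_trans (norm_nonneg _) h1)

private lemma dbl {K : ℝ × ℝ → ℝ} (hK : Continuous K) {p q : ℝ} (hp : 0 ≤ p) (hq : 0 ≤ q)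
    {β γ : ℝ → ℝ} {C : ℝ} (hβ : Measurable β) (hγ : Measurable γ)
    (hβC : ∀ t, 0 ≤ β t ∧ β t ≤ C) (hγC : ∀ t, 0 ≤ γ t ∧ γ t ≤ C) :
    ∫ t in (0 : ℝ)..p, ∫ u in (0 : ℝ)..q, K (t, u) * (β t * γ u) =
      ∫ z in Ioc 0 p ×ˢ Ioc 0 q, K z * (β z.1 * γ z.2) := by
  have h := int_K (p := p) (q := q) hK hβ hγ hβC hγC
  rw [Measure.volume_eq_prod] at h ⊢
  rw [setIntegral_prod _ h, intervalIntegral.integral_of_le hp]
  simp only [intervalIntegral.integral_of_le hq]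

private lemma TT_sum_le {v : ℕ → ℂ} {b : ℕ → ℝ → ℝ} (hb : Dens 3 b) {g0 g1 g2 : ℂ}
    (hg : ∀ w : ℂ, |ip w g0| + |ip w g1| + |ip w g2| ≤ ‖w‖) :
    TT v b g0 + TT v b g1 + TT v b g2 ≤ Tm 3 (len v) v b := by
  obtain ⟨C, hC⟩ := hb.bdd
  unfold TT Tm
  rw [← Finset.sum_add_distrib, ← Finset.sum_add_distrib]
  refine Finset.sum_le_sum fun i _ => ?_
  rw [← Finset.sum_add_distrib, ← Finset.sum_add_distrib]
  refine Finset.sum_le_sum fun j _ => ?_
  have hli : 0 ≤ len v i := norm_nonneg _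
  have hlj : 0 ≤ len v j := norm_nonneg _
  have hcont : Continuous fun z : ℝ × ℝ => side (len v) v i z.1 - side (len v) v j z.2 :=
    ((side_cont v i).comp continuous_fst).sub ((side_cont v j).comp continuous_snd)
  have hKg : ∀ g : ℂ, Continuous fun z : ℝ × ℝ =>
      |ip (side (len v) v i z.1 - side (len v) v j z.2) g| := by
    intro g
    have : Continuous fun w : ℂ => |ip w g| := by unfold ip; fun_prop
    exact this.comp hcont
  have hKn : Continuous fun z : ℝ × ℝ => ‖side (len v) v i z.1 - side (len v) v j z.2‖ :=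
    hcont.norm
  have E : ∀ g : ℂ, ∫ t in (0 : ℝ)..len v i, ∫ u in (0 : ℝ)..len v j,
      |ip (side (len v) v i t - side (len v) v j u) g| * (b i t * b j u) =
      ∫ z in Ioc 0 (len v i) ×ˢ Ioc 0 (len v j),
        |ip (side (len v) v i z.1 - side (len v) v j z.2) g| * (b i z.1 * b j z.2) := fun g =>
    dbl (hKg g) hli hlj (hb.meas i) (hb.meas j) (hC i) (hC j)
  have En : ∫ t in (0 : ℝ)..len v i, ∫ u in (0 : ℝ)..len v j,
      ‖side (len v) v i t - side (len v) v j u‖ * (b i t * b j u) =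
      ∫ z in Ioc 0 (len v i) ×ˢ Ioc 0 (len v j),
        ‖side (len v) v i z.1 - side (len v) v j z.2‖ * (b i z.1 * b j z.2) :=
    dbl hKn hli hlj (hb.meas i) (hb.meas j) (hC i) (hC j)
  have I : ∀ g : ℂ, IntegrableOn (fun z : ℝ × ℝ =>
      |ip (side (len v) v i z.1 - side (len v) v j z.2) g| * (b i z.1 * b j z.2))
      (Ioc 0 (len v i) ×ˢ Ioc 0 (len v j)) := fun g =>
    int_K (hKg g) (hb.meas i) (hb.meas j) (hC i) (hC j)
  have In : IntegrableOn (fun z : ℝ × ℝ =>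
      ‖side (len v) v i z.1 - side (len v) v j z.2‖ * (b i z.1 * b j z.2))
      (Ioc 0 (len v i) ×ˢ Ioc 0 (len v j)) :=
    int_K hKn (hb.meas i) (hb.meas j) (hC i) (hC j)
  have A1 := integral_add (I g0) (I g1)
  have A2 := integral_add ((I g0).add (I g1)) (I g2)
  simp only [Pi.add_apply] at A1 A2
  rw [E g0, E g1, E g2, En, ← A1, ← A2]
  refine integral_mono (((I g0).add (I g1)).add (I g2)) In fun z => ?_
  have h1 := hg (side (len v) v i z.1 - side (len v) v j z.2)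
  have h2 : 0 ≤ b i z.1 * b j z.2 := mul_nonneg (hC i z.1).1 (hC j z.2).1
  have h3 := mul_le_mul_of_nonneg_right h1 h2
  simp only [Pi.add_apply]
  linarith

theorem PL_three : PL 3 := by
  intro v b hv hne hb
  have hp := hv.per
  have hl : ∀ i, 0 < len v i := fun i => norm_pos_iff.2 (sub_ne_zero.2 (hne i))
  have l0 := hl 0
  have l1 := hl 1
  have l2 := hl 2
  have hv3 : v 3 = v 0 := hp 0
  have hv4 : v 4 = v 1 := hp 1
  have hE3 : EE v 3 = EE v 0 := by
    unfold EE len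
    rw [show (3 + 1 : ℕ) = 4 from rfl, hv3, hv4]
  have hl3 : len v 3 = len v 0 := by
    unfold len
    rw [show (3 + 1 : ℕ) = 4 from rfl, hv3, hv4]
  -- the rotated data
  have hp1 : ∀ i, (fun i => v (i + 1)) (i + 3) = (fun i => v (i + 1)) i := by
    intro i
    have := hp (i + 1)
    rwa [add_right_comm] at this
  have hne1 : ∀ i, (fun i => v (i + 1)) (i + 1) ≠ (fun i => v (i + 1)) i := fun i => hne (i + 1)
  have hb1 : Dens 3 (fun i => b (i + 1)) := by
    refine ⟨fun i => ?_, fun i => hb.meas (i + 1), ?_⟩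
    · have := hb.per (i + 1)
      rwa [add_right_comm] at this
    · obtain ⟨C, hC⟩ := hb.bdd
      exact ⟨C, fun i t => hC (i + 1) t⟩
  have hp2 : ∀ i, (fun i => v (i + 1 + 1)) (i + 3) = (fun i => v (i + 1 + 1)) i := by
    intro i
    have := hp (i + 1 + 1)
    rwa [add_right_comm, add_right_comm i 1 3] at this
  have hne2 : ∀ i, (fun i => v (i + 1 + 1)) (i + 1) ≠ (fun i => v (i + 1 + 1)) i :=
    fun i => hne (i + 1 + 1)
  have hb2 : Dens 3 (fun i => b (i + 1 + 1)) := by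
    refine ⟨fun i => ?_, fun i => hb.meas (i + 1 + 1), ?_⟩
    · have := hb.per (i + 1 + 1)
      rwa [add_right_comm, add_right_comm i 1 3] at this
    · obtain ⟨C, hC⟩ := hb.bdd
      exact ⟨C, fun i t => hC (i + 1 + 1) t⟩
  have F2 := one_fun hp hne hb
  have F0 := one_fun (v := fun i => v (i + 1)) (b := fun i => b (i + 1)) hp1 hne1 hb1
  have F1 := one_fun (v := fun i => v (i + 1 + 1)) (b := fun i => b (i + 1 + 1)) hp2 hne2 hb2
  rw [TT_rot hp hb.per, Mm_rot3 hp hb.per, Bm_rot3 hp hb.per] at F0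
  rw [TT_rot (v := fun i => v (i + 1)) (b := fun i => b (i + 1)) hp1 hb1.per,
    Mm_rot3 (v := fun i => v (i + 1)) (b := fun i => b (i + 1)) hp1 hb1.per,
    Bm_rot3 (v := fun i => v (i + 1)) (b := fun i => b (i + 1)) hp1 hb1.per,
    TT_rot hp hb.per, Mm_rot3 hp hb.per, Bm_rot3 hp hb.per] at F1
  have c00 : EE (fun i => v (i + 1)) 0 = EE v 1 := rfl
  have c01 : EE (fun i => v (i + 1)) 1 = EE v 2 := rfl
  have c10 : EE (fun i => v (i + 1 + 1)) 0 = EE v 2 := rfl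
  have c11 : EE (fun i => v (i + 1 + 1)) 1 = EE v 0 := hE3
  have d00 : len (fun i => v (i + 1)) 0 = len v 1 := rfl
  have d01 : len (fun i => v (i + 1)) 1 = len v 2 := rfl
  have d02 : len (fun i => v (i + 1)) 2 = len v 0 := hl3
  have hl4 : len v 4 = len v 1 := by
    unfold len
    rw [show (4 + 1 : ℕ) = 5 from rfl, hv4, show v 5 = v 2 from hp 2]
  have d10 : len (fun i => v (i + 1 + 1)) 0 = len v 2 := rfl
  have d11 : len (fun i => v (i + 1 + 1)) 1 = len v 0 := hl3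
  have d12 : len (fun i => v (i + 1 + 1)) 2 = len v 1 := hl4
  rw [c00, c01, d00, d01, d02] at F0
  rw [c10, c11, d10, d11, d12] at F1
  -- algebra
  have u0 := EE_unit hne 0
  have u1 := EE_unit hne 1
  have u2 := EE_unit hne 2
  have e0 := EE_mul hne 0
  have e1 := EE_mul hne 1
  have e2 := EE_mul hne 2
  have ecl : ((len v 0 : ℝ) : ℂ) * EE v 0 + ((len v 1 : ℝ) : ℂ) * EE v 1 +
      ((len v 2 : ℝ) : ℂ) * EE v 2 = 0 := by
    rw [← e0, ← e1, ← e2, show (0 + 1 : ℕ) = 1 from rfl, show (1 + 1 : ℕ) = 2 from rfl,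
      show (2 + 1 : ℕ) = 3 from rfl, hv3]
    ring
  have cx := congrArg Complex.re ecl
  have cy := congrArg Complex.im ecl
  rw [Complex.add_re, Complex.add_re, Complex.re_ofReal_mul, Complex.re_ofReal_mul,
    Complex.re_ofReal_mul, Complex.zero_re] at cx
  rw [Complex.add_im, Complex.add_im, Complex.im_ofReal_mul, Complex.im_ofReal_mul,
    Complex.im_ofReal_mul, Complex.zero_im] at cy
  obtain ⟨r0, r1, r2, hE⟩ := alg l0 l1 l2 u0 u1 u2 cx cy
  have half : ∀ w x y : ℂ, ip w ((x + y) / 2) = (ip w x + ip w y) / 2 := by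
    intro w x y
    rw [show ((x + y) / 2 : ℂ) = (((1 / 2 : ℝ)) : ℂ) * (x + y) by push_cast; ring]
    unfold ip
    rw [Complex.re_ofReal_mul, Complex.im_ofReal_mul, Complex.add_re, Complex.add_im]
    ring
  have hg : ∀ w : ℂ, |ip w ((EE v 1 + EE v 2) / 2)| + |ip w ((EE v 2 + EE v 0) / 2)| +
      |ip w ((EE v 0 + EE v 1) / 2)| ≤ ‖w‖ := by
    intro w
    rw [half, half, half]
    refine three_abs (abs_ip_le u0.le) (abs_ip_le u1.le) (abs_ip_le u2.le) ?_
    have h1 : ip w (EE v 0) + ip w (EE v 1) + ip w (EE v 2) = ip w (EE v 0 + EE v 1 + EE v 2) := by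
      unfold ip
      rw [Complex.add_re, Complex.add_re, Complex.add_im, Complex.add_im]
      ring
    rw [h1]
    refine abs_ip_le ?_
    rw [Complex.add_re, Complex.add_re, Complex.add_im, Complex.add_im]
    exact hE
  have hT := TT_sum_le (v := v) hb hg
  have hB : 0 ≤ Bm 3 (len v) b := Bm_nonneg
  have hBT := mul_le_mul_of_nonneg_left hT hB
  have hsum : (1 + ip (EE v 0) (EE v 1)) * (len v 0 + len v 1) / (len v 0 + len v 1 + len v 2) +
      (1 + ip (EE v 1) (EE v 2)) * (len v 1 + len v 2) / (len v 1 + len v 2 + len v 0) +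
      (1 + ip (EE v 2) (EE v 0)) * (len v 2 + len v 0) / (len v 2 + len v 0 + len v 1) = 1 := by
    have s1 : len v 1 + len v 2 + len v 0 = len v 0 + len v 1 + len v 2 := by ring
    have s2 : len v 2 + len v 0 + len v 1 = len v 0 + len v 1 + len v 2 := by ring
    rw [s1, s2, ← add_div, ← add_div, div_eq_one_iff_eq (by positivity)]
    unfold ip
    linear_combination r0 + r1 + r2
  set X : ℝ := Real.pi ^ 2 / 64 * Mm 3 (len v) b ^ 4 with hX
  rw [mul_add, mul_add] at hBT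
  have htot := congrArg (fun z => z * X) hsum
  beta_reduce at htot
  generalize (1 + ip (EE v 0) (EE v 1)) * (len v 0 + len v 1) /
    (len v 0 + len v 1 + len v 2) = p2 at htot F2
  generalize (1 + ip (EE v 1) (EE v 2)) * (len v 1 + len v 2) /
    (len v 1 + len v 2 + len v 0) = p0 at htot F0
  generalize (1 + ip (EE v 2) (EE v 0)) * (len v 2 + len v 0) /
    (len v 2 + len v 0 + len v 1) = p1 at htot F1
  rw [add_mul, add_mul, one_mul] at htot
  linarith

end Pool.Agent.Helper83.CP
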