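import Pool.Agent.Helper83.CP.Defs
import Pool.Agent.Helper83.CP.Tri
import Pool.Agent.Helper83.CP.Min
import Pool.Agent.Helper83.CP.Rot
import Pool.Agent.Helper83.CP.MergeLast

/-!
# Project CP (helper83), module PLmain
The planar lemma for all polygons (induction on the number of vertices): `n = 3`: `PL_three`. `n ≥ 4`: take `v'` from `exists_min` (same lengths, so `Mm`, `Bm` are the same, `Tm` not larger), a flat vertex
`i+1` of `v'`; rotate (`Rot`) until it is the vertex `n-1`, and apply `merge_last`.
-/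

set_option autoImplicit false

open MeasureTheory Set Filter Topology Metric
open scoped RealInnerProductSpace ENNReal NNReal

namespace Pool.Agent.Helper83.CP

open Pool.Agent.Helper1.CK (E3 nEnergy V1 Content Good)

private theorem rot_all {n : ℕ} {v : ℕ → ℂ} {b : ℕ → ℝ → ℝ} (hv : CPoly n v)
    (hne : ∀ i, v (i + 1) ≠ v i) (hb : Dens n b) (r : ℕ) :
    CPoly n (fun i => v (i + r)) ∧ (∀ i, (fun i => v (i + r)) (i + 1) ≠ (fun i => v (i + r)) i) ∧
    Dens n (fun i => b (i + r)) ∧
    Mm n (len (fun i => v (i + r))) (fun i => b (i + r)) = Mm n (len v) b ∧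
    Bm n (len (fun i => v (i + r))) (fun i => b (i + r)) = Bm n (len v) b ∧
    Tm n (len (fun i => v (i + r))) (fun i => v (i + r)) (fun i => b (i + r)) =
      Tm n (len v) v b := by
  induction r with
  | zero => exact ⟨hv, hne, hb, rfl, rfl, rfl⟩
  | succ r ih =>
    obtain ⟨h1, h2, h3, h4, h5, h6⟩ := ih
    have e1 : (fun i => v (i + (r + 1))) = fun i => (fun i => v (i + r)) (i + 1) := by
      funext i
      show v (i + (r + 1)) = v (i + 1 + r)
      congr 1; omega
    have e2 : (fun i => b (i + (r + 1))) = fun i => (fun i => b (i + r)) (i + 1) := by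
      funext i
      show b (i + (r + 1)) = b (i + 1 + r)
      congr 1; omega
    have hl : ∀ i, len (fun i => v (i + r)) (i + n) = len (fun i => v (i + r)) i := by
      intro i
      have h7 : v (i + n + r) = v (i + r) := h1.per i
      have h' : v (i + 1 + n + r) = v (i + 1 + r) := h1.per (i + 1)
      show ‖v (i + n + 1 + r) - v (i + n + r)‖ = ‖v (i + 1 + r) - v (i + r)‖
      rw [show i + n + 1 + r = i + 1 + n + r by omega, h', h7]
    have e3 : len (fun i => v (i + (r + 1))) = fun i => len (fun i => v (i + r)) (i + 1) := by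
      rw [e1]; rfl
    refine ⟨?_, ?_, ?_, ?_, ?_, ?_⟩
    · rw [e1]; exact CPoly_rot h1
    · intro i
      have h7 : v (i + 1 + 1 + r) ≠ v (i + 1 + r) := h2 (i + 1)
      show v (i + 1 + (r + 1)) ≠ v (i + (r + 1))
      rw [show i + 1 + (r + 1) = i + 1 + 1 + r by omega, show i + (r + 1) = i + 1 + r by omega]
      exact h7
    · rw [e2]; exact Dens_rot h3
    · rw [e3, e2]
      exact (Mm_rot (b := fun i => b (i + r)) hl h3.per).trans h4
    · rw [e3, e2]
      exact (Bm_rot (b := fun i => b (i + r)) hl h3.per).trans h5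
    · rw [e3, e2, e1]
      exact (Tm_rot (v := fun i => v (i + r)) (b := fun i => b (i + r)) hl h1.per h3.per).trans h6

theorem PL_of_flat {n : ℕ} (hn : 4 ≤ n) (hPL : PL (n - 1)) {v : ℕ → ℂ} {b : ℕ → ℝ → ℝ}
    (hv : CPoly n v) (hne : ∀ i, v (i + 1) ≠ v i) (hb : Dens n b) (hf : ¬ NoFlat v) :
    Real.pi ^ 2 / 64 * Mm n (len v) b ^ 4 ≤ Bm n (len v) b * Tm n (len v) v b := by
  unfold NoFlat at hf
  push Not at hf
  obtain ⟨i, hi⟩ := hf
  obtain ⟨h1, h2, h3, h4, h5, h6⟩ := rot_all hv hne hb (i + 2)
  have key := merge_last hn hPL h1 h2 h3 (by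
    show v (n - 1 + (i + 2)) ∈ segment ℝ (v (n - 2 + (i + 2))) (v (n + (i + 2)))
    rw [show n - 1 + (i + 2) = i + 1 + n by omega, show n - 2 + (i + 2) = i + n by omega,
      show n + (i + 2) = i + 2 + n by omega, hv.per, hv.per, hv.per]
    exact hi)
  rw [h4, h5, h6] at key
  exact key

theorem PL_all {n : ℕ} (hn : 3 ≤ n) : PL n := by
  induction n, hn using Nat.le_induction with
  | base => exact PL_three
  | succ n hn ih =>
    intro v b hv hne hb
    have h4 : 4 ≤ n + 1 := by omega
    obtain ⟨v', h1, h2, h3, h5⟩ := exists_min h4 hv hne hb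
    have hl : len v' = len v := funext h2
    have hne' : ∀ i, v' (i + 1) ≠ v' i := by
      intro i h
      have h6 : len v' i = 0 := by unfold len; rw [h, sub_self, norm_zero]
      rw [h2 i] at h6
      unfold len at h6
      exact hne i (sub_eq_zero.1 (norm_eq_zero.1 h6))
    have h7 := PL_of_flat h4 (by simpa using ih) h1 hne' hb h5
    rw [hl] at h7
    refine h7.trans ?_
    have h8 : 0 ≤ Bm (n + 1) (len v) b := by
      unfold Bm
      refine Finset.sum_nonneg fun i _ => intervalIntegral.integral_nonneg (norm_nonneg _) ?_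
      intro t _
      positivity
    exact mul_le_mul_of_nonneg_left h3 h8

end Pool.Agent.Helper83.CP
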