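import Pool.Agent.Helper83.CP.Defs

/-!
# Project CP (helper83), module RadCyc
Orientation of three frontier points.

`x_i = x(φi) = r_i e^{iφi}`. `cr(x2-x1,x3-x1) = [x1,x2]+[x2,x3]+[x3,x1]`, where `[xi,xj] = cr(xi,xj) = ri rj sin(φj-φi)`. If all three gaps `φ2-φ1`, `φ3-φ2`, `φ1+2π-φ3` are `≤ π` all terms
are `≥ 0`. Otherwise exactly one gap is `> π`; after a cyclic renaming (`(φ1,φ2,φ3) → (φ2,φ3,φ1+2π)`, the value of the expression does not change) it is the last one, so `φ3-φ1 < π`; then the ray in direction `φ2` meets the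
segment `[x1,x3] ⊆ C` at a point `y = ρ e^{iφ2}`, `ρ > 0`, and `ρ ≤ r2` (the points `ρ e^{iφ2}` with `ρ > r2` are not in `C`: otherwise `x2` would be an interior point of `C`, as a point of the half open segment from the
interior point `0` to a point of `C`). `cr(x2-x1,x3-x1) = [x1,x2]+[x2,x3]+[x3,x1]` is a linear function of `x2` that vanishes at `x2 = y`, and its linear part in the direction `e^{iφ2}` is
`r1 sin(φ2-φ1) + r3 sin(φ3-φ2) ≥ 0`. This is the claim. (Explicitly: `ρ (r1 sin(φ2-φ1) + r3 sin(φ3-φ2)) = r1 r3 sin(φ3-φ1)`.)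
-/

set_option autoImplicit false

open MeasureTheory Set Filter Topology Metric
open scoped RealInnerProductSpace ENNReal NNReal

namespace Pool.Agent.Helper83.CP

open Pool.Agent.Helper1.CK (E3 nEnergy V1 Content Good)

private theorem frontier_mem {C : Set ℂ} (hk : IsCompact C) {z : ℂ} (hz : z ∈ frontier C) : z ∈ C :=
  hk.isClosed.frontier_subset hz

private theorem exp_re (φ : ℝ) : (Complex.exp (φ * Complex.I)).re = Real.cos φ :=
  Complex.exp_ofReal_mul_I_re φ

private theorem exp_im (φ : ℝ) : (Complex.exp (φ * Complex.I)).im = Real.sin φ :=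
  Complex.exp_ofReal_mul_I_im φ

private theorem core {C : Set ℂ} (hc : Convex ℝ C) (hk : IsCompact C) (h0 : (0 : ℂ) ∈ interior C)
    {x : ℝ → ℂ} (hx : Rad C x) {a b c ra rb rc : ℝ} (hab : a < b) (hbc : b < c)
    (hca : c < a + Real.pi) (h1 : 0 < ra) (h2 : 0 < rb) (h3 : 0 < rc)
    (ha : x a = ra * Complex.exp (a * Complex.I)) (hb : x b = rb * Complex.exp (b * Complex.I))
    (hcx : x c = rc * Complex.exp (c * Complex.I)) :
    ra * rc * Real.sin (c - a) ≤ rb * (ra * Real.sin (b - a) + rc * Real.sin (c - b)) := by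
  have hs1 : 0 < Real.sin (b - a) := Real.sin_pos_of_pos_of_lt_pi (by linarith) (by linarith)
  have hs2 : 0 < Real.sin (c - b) := Real.sin_pos_of_pos_of_lt_pi (by linarith) (by linarith)
  have hs3 : 0 < Real.sin (c - a) := Real.sin_pos_of_pos_of_lt_pi (by linarith) (by linarith)
  set Dn := ra * Real.sin (b - a) + rc * Real.sin (c - b) with hDn
  have hD : 0 < Dn := by positivity
  by_contra hlt
  push Not at hlt
  set ρ := ra * rc * Real.sin (c - a) / Dn with hρ
  have hρ0 : 0 < ρ := by positivity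
  have hρb : rb < ρ := by
    rw [hρ, lt_div_iff₀ hD]
    exact hlt
  -- the point y
  have hy : (rc * Real.sin (c - b) / Dn) • x a + (ra * Real.sin (b - a) / Dn) • x c =
      ρ * Complex.exp (b * Complex.I) := by
    rw [ha, hcx]
    apply Complex.ext
    · simp only [Complex.add_re, Complex.real_smul, Complex.mul_re, Complex.ofReal_re,
        Complex.ofReal_im, exp_re, exp_im, zero_mul, sub_zero]
      rw [hρ]
      have hD' : Dn ≠ 0 := hD.ne'
      field_simp
      have e1 : Real.sin (c - b) * Real.cos a + Real.sin (b - a) * Real.cos c =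
          Real.sin (c - a) * Real.cos b := by
        rw [Real.sin_sub, Real.sin_sub, Real.sin_sub]
        ring
      nlinarith [e1]
    · simp only [Complex.add_im, Complex.real_smul, Complex.mul_im, Complex.ofReal_re,
        Complex.ofReal_im, exp_re, exp_im, zero_mul, add_zero]
      rw [hρ]
      have hD' : Dn ≠ 0 := hD.ne'
      field_simp
      have e1 : Real.sin (c - b) * Real.sin a + Real.sin (b - a) * Real.sin c =
          Real.sin (c - a) * Real.sin b := by
        rw [Real.sin_sub, Real.sin_sub, Real.sin_sub]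
        ring
      nlinarith [e1]
  have hyC : (ρ : ℂ) * Complex.exp (b * Complex.I) ∈ C := by
    rw [← hy]
    refine hc (frontier_mem hk (hx.mem a)) (frontier_mem hk (hx.mem c)) (by positivity)
      (by positivity) ?_
    rw [← add_div, div_eq_one_iff_eq hD.ne', hDn]
    ring
  have hint : x b ∈ interior C := by
    have hθ0 : 0 < rb / ρ := by positivity
    have hθ1 : rb / ρ < 1 := by rw [div_lt_one hρ0]; exact hρb
    have h5 : x b = (1 - rb / ρ) • (0 : ℂ) + (rb / ρ) • ((ρ : ℂ) * Complex.exp (b * Complex.I)) := by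
      rw [hb, smul_zero, zero_add, Complex.real_smul, ← mul_assoc, ← Complex.ofReal_mul,
        div_mul_cancel₀ _ hρ0.ne']
    rw [h5]
    exact hc.combo_interior_self_mem_interior h0 hyC (by linarith) hθ0.le (by ring)
  exact disjoint_interior_frontier.le_bot ⟨hint, hx.mem b⟩

theorem rad_cyc {C : Set ℂ} (hc : Convex ℝ C) (hk : IsCompact C) (h0 : (0 : ℂ) ∈ interior C)
    {x : ℝ → ℂ} (hx : Rad C x) {φ1 φ2 φ3 : ℝ} (h12 : φ1 < φ2) (h23 : φ2 < φ3)
    (h31 : φ3 < φ1 + 2 * Real.pi) : 0 ≤ cr (x φ2 - x φ1) (x φ3 - x φ1) := by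
  obtain ⟨r1, hr1, hx1⟩ := hx.dir φ1
  obtain ⟨r2, hr2, hx2⟩ := hx.dir φ2
  obtain ⟨r3, hr3, hx3⟩ := hx.dir φ3
  have hper : ∀ φ : ℝ, Complex.exp (((φ + 2 * Real.pi : ℝ) : ℂ) * Complex.I) =
      Complex.exp ((φ : ℂ) * Complex.I) := by
    intro φ
    rw [Complex.ofReal_add, add_mul, Complex.exp_add]
    have : Complex.exp (((2 * Real.pi : ℝ) : ℂ) * Complex.I) = 1 := by
      push_cast
      exact Complex.exp_two_pi_mul_I
    rw [this, mul_one]
  have hx1' : x (φ1 + 2 * Real.pi) = r1 * Complex.exp (((φ1 + 2 * Real.pi : ℝ) : ℂ) * Complex.I) := by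
    rw [hx.per, hper, hx1]
  have hx2' : x (φ2 + 2 * Real.pi) = r2 * Complex.exp (((φ2 + 2 * Real.pi : ℝ) : ℂ) * Complex.I) := by
    rw [hx.per, hper, hx2]
  have key : cr (x φ2 - x φ1) (x φ3 - x φ1) = r1 * r2 * Real.sin (φ2 - φ1) +
      r2 * r3 * Real.sin (φ3 - φ2) + r3 * r1 * Real.sin (φ1 - φ3) := by
    rw [hx1, hx2, hx3]
    unfold cr
    simp only [Complex.sub_re, Complex.sub_im, Complex.mul_re, Complex.mul_im, Complex.ofReal_re,
      Complex.ofReal_im, exp_re, exp_im, zero_mul, sub_zero, add_zero]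
    rw [Real.sin_sub, Real.sin_sub, Real.sin_sub]
    ring
  rw [key]
  have hs13 : Real.sin (φ1 - φ3) = Real.sin (φ1 + 2 * Real.pi - φ3) := by
    rw [show φ1 + 2 * Real.pi - φ3 = (φ1 - φ3) + 2 * Real.pi by ring, Real.sin_add_two_pi]
  rcases lt_or_ge (φ3 - φ1) Real.pi with hA | hA
  · have h := core hc hk h0 hx h12 h23 (by linarith) hr1 hr2 hr3 hx1 hx2 hx3
    have e : Real.sin (φ1 - φ3) = - Real.sin (φ3 - φ1) := by
      rw [← Real.sin_neg]; ring_nf
    rw [e]
    nlinarith [h]
  · rcases lt_or_ge (φ1 + 2 * Real.pi - φ2) Real.pi with hB | hB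
    · have h := core hc hk h0 hx h23 h31 (by linarith) hr2 hr3 hr1 hx2 hx3 hx1'
      have e : Real.sin (φ1 + 2 * Real.pi - φ2) = - Real.sin (φ2 - φ1) := by
        rw [show φ1 + 2 * Real.pi - φ2 = -(φ2 - φ1) + 2 * Real.pi by ring, Real.sin_add_two_pi,
          Real.sin_neg]
      rw [e] at h
      rw [hs13]
      nlinarith [h]
    · rcases lt_or_ge (φ2 + 2 * Real.pi - φ3) Real.pi with hC | hC
      · have h := core hc hk h0 hx h31 (show φ1 + 2 * Real.pi < φ2 + 2 * Real.pi by linarith)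
          (by linarith) hr3 hr1 hr2 hx3 hx1' hx2'
        have e : Real.sin (φ2 + 2 * Real.pi - φ3) = - Real.sin (φ3 - φ2) := by
          rw [show φ2 + 2 * Real.pi - φ3 = -(φ3 - φ2) + 2 * Real.pi by ring, Real.sin_add_two_pi,
            Real.sin_neg]
        have e2 : φ2 + 2 * Real.pi - (φ1 + 2 * Real.pi) = φ2 - φ1 := by ring
        rw [e, e2] at h
        rw [hs13]
        nlinarith [h]
      · have s1 : 0 ≤ Real.sin (φ2 - φ1) :=
          Real.sin_nonneg_of_nonneg_of_le_pi (by linarith) (by linarith)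
        have s2 : 0 ≤ Real.sin (φ3 - φ2) :=
          Real.sin_nonneg_of_nonneg_of_le_pi (by linarith) (by linarith)
        have s3 : 0 ≤ Real.sin (φ1 + 2 * Real.pi - φ3) :=
          Real.sin_nonneg_of_nonneg_of_le_pi (by linarith) (by linarith)
        rw [hs13]
        positivity

end Pool.Agent.Helper83.CP
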