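import Pool.Agent.Helper83.CP.Defs
import Pool.Agent.Helper83.CP.RadCyc

/-!
# Project CP (helper83), module RadChord
Chord property for `φ1<φ2<φ3<φ4<φ1+2π`: let `A = cr(1,2,3)`, `B = cr(1,3,4)`, `C = cr(1,2,4)`, `D = cr(2,3,4)` (all `≥ 0` by `rad_cyc`, `A+B = C+D`), where `cr(i,j,k) = cr (xj - xi) (xk - xi)`. If `A+B > 0`:
`x2 + (A/(A+B)) (x4-x2) = x1 + (C/(C+D)) (x3-x1)`. If `A+B = 0` then `A=B=C=D=0` and all four points are on one line `L` (they are pairwise different, because their directions are different); `L` does not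
contain `0` (a line through the interior point `0` meets the frontier in at most two points, one in each direction), so there are a unit vector `e` and `d > 0` with `ip x e = d` on `L`; write `e = e^{iψ}`:
`x_i = r_i e^{iφi}` with `cos(φi-ψ) > 0`, so `φi - ψ ∈ (-π/2,π/2) + 2π k_i`, and the position on `L` is `d tan(φi-ψ)`. By the cyclic order `k1 ≤ k2 ≤ k3 ≤ k4 ≤ k1+1`; in all cases the
positions `y1,y2,y3,y4` are in increasing order up to a cyclic rotation, and then the segments `[y1,y3]` and `[y2,y4]` overlap.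
-/

set_option autoImplicit false

open MeasureTheory Set Filter Topology Metric
open scoped RealInnerProductSpace ENNReal NNReal

namespace Pool.Agent.Helper83.CP

open Pool.Agent.Helper1.CK (E3 nEnergy V1 Content Good)

private theorem exp_re' (φ : ℝ) : (Complex.exp (φ * Complex.I)).re = Real.cos φ :=
  Complex.exp_ofReal_mul_I_re φ

private theorem exp_im' (φ : ℝ) : (Complex.exp (φ * Complex.I)).im = Real.sin φ :=
  Complex.exp_ofReal_mul_I_im φ

private theorem hper' (φ : ℝ) : Complex.exp (((φ + 2 * Real.pi : ℝ) : ℂ) * Complex.I) =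
    Complex.exp ((φ : ℂ) * Complex.I) := by
  rw [Complex.ofReal_add, add_mul, Complex.exp_add]
  have : Complex.exp (((2 * Real.pi : ℝ) : ℂ) * Complex.I) = 1 := by
    push_cast
    exact Complex.exp_two_pi_mul_I
  rw [this, mul_one]

private theorem crKey {a b c ra rb rc : ℝ} {p q r : ℂ}
    (ha : p = ra * Complex.exp (a * Complex.I)) (hb : q = rb * Complex.exp (b * Complex.I))
    (hc : r = rc * Complex.exp (c * Complex.I)) :
    cr (q - p) (r - p) = ra * rb * Real.sin (b - a) + rb * rc * Real.sin (c - b)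
      - ra * rc * Real.sin (c - a) := by
  rw [ha, hb, hc]
  unfold cr
  simp only [Complex.sub_re, Complex.sub_im, Complex.mul_re, Complex.mul_im, Complex.ofReal_re,
    Complex.ofReal_im, exp_re', exp_im', zero_mul, sub_zero, add_zero]
  rw [Real.sin_sub, Real.sin_sub, Real.sin_sub]
  ring

/-- if the spread is less than `π` and the orientation vanishes, the middle point is between the
two others -/
private theorem mid {a b c ra rb rc : ℝ} {p q r : ℂ} (hab : a < b) (hbc : b < c)
    (hca : c - a < Real.pi) (h1 : 0 < ra) (h3 : 0 < rc)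
    (ha : p = ra * Complex.exp (a * Complex.I)) (hb : q = rb * Complex.exp (b * Complex.I))
    (hc : r = rc * Complex.exp (c * Complex.I)) (h0 : cr (q - p) (r - p) = 0) :
    q ∈ segment ℝ p r := by
  rw [crKey ha hb hc] at h0
  have hs1 : 0 < Real.sin (b - a) := Real.sin_pos_of_pos_of_lt_pi (by linarith) (by linarith)
  have hs2 : 0 < Real.sin (c - b) := Real.sin_pos_of_pos_of_lt_pi (by linarith) (by linarith)
  have hD : 0 < ra * Real.sin (b - a) + rc * Real.sin (c - b) := by positivity
  refine ⟨rc * Real.sin (c - b) / (ra * Real.sin (b - a) + rc * Real.sin (c - b)),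
    ra * Real.sin (b - a) / (ra * Real.sin (b - a) + rc * Real.sin (c - b)),
    by positivity, by positivity, ?_, ?_⟩
  · rw [← add_div, div_eq_one_iff_eq hD.ne']
    ring
  · have hrb : rb * (ra * Real.sin (b - a) + rc * Real.sin (c - b)) =
        ra * rc * Real.sin (c - a) := by linarith
    have hD' := hD.ne'
    rw [ha, hb, hc]
    apply Complex.ext
    · simp only [Complex.add_re, Complex.real_smul, Complex.mul_re, Complex.ofReal_re,
        Complex.ofReal_im, exp_re', exp_im', zero_mul, sub_zero]
      have e1 : Real.sin (c - b) * Real.cos a + Real.sin (b - a) * Real.cos c =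
          Real.sin (c - a) * Real.cos b := by
        rw [Real.sin_sub, Real.sin_sub, Real.sin_sub]
        ring
      rw [div_mul_eq_mul_div, div_mul_eq_mul_div, ← add_div, div_eq_iff hD']
      have e2 : rb * Real.cos b * (ra * Real.sin (b - a) + rc * Real.sin (c - b)) =
        ra * rc * (Real.sin (c - a) * Real.cos b) := by
        rw [mul_right_comm, hrb]; ring
      rw [e2, ← e1]
      ring
    · simp only [Complex.add_im, Complex.real_smul, Complex.mul_im, Complex.ofReal_re,
        Complex.ofReal_im, exp_re', exp_im', zero_mul, add_zero]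
      have e1 : Real.sin (c - b) * Real.sin a + Real.sin (b - a) * Real.sin c =
          Real.sin (c - a) * Real.sin b := by
        rw [Real.sin_sub, Real.sin_sub, Real.sin_sub]
        ring
      rw [div_mul_eq_mul_div, div_mul_eq_mul_div, ← add_div, div_eq_iff hD']
      have e2 : rb * Real.sin b * (ra * Real.sin (b - a) + rc * Real.sin (c - b)) =
        ra * rc * (Real.sin (c - a) * Real.sin b) := by
        rw [mul_right_comm, hrb]; ring
      rw [e2, ← e1]
      ring

/-- opposite directions: zero is between the two points -/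
private theorem opp {a c ra rc : ℝ} {p r : ℂ} (hca : c - a = Real.pi) (h1 : 0 < ra) (h3 : 0 < rc)
    (ha : p = ra * Complex.exp (a * Complex.I)) (hc : r = rc * Complex.exp (c * Complex.I)) :
    (0 : ℂ) ∈ segment ℝ p r := by
  have hD : 0 < ra + rc := by positivity
  have hc' : c = a + Real.pi := by linarith
  refine ⟨rc / (ra + rc), ra / (ra + rc), by positivity, by positivity, ?_, ?_⟩
  · rw [← add_div, div_eq_one_iff_eq hD.ne']
    ring
  · rw [ha, hc, hc']
    have hD' := hD.ne'
    apply Complex.ext
    · simp only [Complex.add_re, Complex.real_smul, Complex.mul_re, Complex.ofReal_re,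
        Complex.ofReal_im, exp_re', exp_im', zero_mul, sub_zero, Complex.zero_re,
        Real.cos_add_pi]
      ring
    · simp only [Complex.add_im, Complex.real_smul, Complex.mul_im, Complex.ofReal_re,
        Complex.ofReal_im, exp_re', exp_im', zero_mul, add_zero, Complex.zero_im,
        Real.sin_add_pi]
      ring

theorem rad_chord {C : Set ℂ} (hc : Convex ℝ C) (hk : IsCompact C) (h0 : (0 : ℂ) ∈ interior C)
    {x : ℝ → ℂ} (hx : Rad C x) {φ1 φ2 φ3 φ4 : ℝ} (h12 : φ1 < φ2) (h23 : φ2 < φ3)
    (h34 : φ3 < φ4) (h41 : φ4 < φ1 + 2 * Real.pi) :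
    (segment ℝ (x φ1) (x φ3) ∩ segment ℝ (x φ2) (x φ4)).Nonempty := by
  have hA := rad_cyc hc hk h0 hx h12 h23 (by linarith)
  have hB := rad_cyc hc hk h0 hx (h12.trans h23) h34 h41
  have hC := rad_cyc hc hk h0 hx h12 (h23.trans h34) h41
  have hD := rad_cyc hc hk h0 hx h23 h34 (by linarith)
  have hsum : cr (x φ2 - x φ1) (x φ3 - x φ1) + cr (x φ3 - x φ1) (x φ4 - x φ1) =
      cr (x φ2 - x φ1) (x φ4 - x φ1) + cr (x φ3 - x φ2) (x φ4 - x φ2) := by
    unfold cr
    simp only [Complex.sub_re, Complex.sub_im]
    ring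
  rcases (add_nonneg hA hB).lt_or_eq with hpos | hzero
  · -- the proper case
    have hpos' : 0 < cr (x φ2 - x φ1) (x φ4 - x φ1) + cr (x φ3 - x φ2) (x φ4 - x φ2) := by
      rw [← hsum]; exact hpos
    set A := cr (x φ2 - x φ1) (x φ3 - x φ1) with hAd
    set B := cr (x φ3 - x φ1) (x φ4 - x φ1) with hBd
    set C' := cr (x φ2 - x φ1) (x φ4 - x φ1) with hCd
    set D := cr (x φ3 - x φ2) (x φ4 - x φ2) with hDd
    have hne : A + B ≠ 0 := hpos.ne'
    refine ⟨(D / (C' + D)) • x φ1 + (C' / (C' + D)) • x φ3, ?_, ?_⟩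
    · refine ⟨D / (C' + D), C' / (C' + D), by positivity, by positivity, ?_, rfl⟩
      rw [← add_div, div_eq_one_iff_eq hpos'.ne']
      ring
    · refine ⟨B / (A + B), A / (A + B), by positivity, by positivity, ?_, ?_⟩
      · rw [← add_div, div_eq_one_iff_eq hne]
        ring
      · rw [← hsum]
        apply Complex.ext
        · simp only [Complex.add_re, Complex.real_smul, Complex.mul_re, Complex.ofReal_re,
            Complex.ofReal_im, zero_mul, sub_zero]
          rw [div_mul_eq_mul_div, div_mul_eq_mul_div, div_mul_eq_mul_div, div_mul_eq_mul_div,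
            ← add_div, ← add_div]
          congr 1
          rw [hAd, hBd, hCd, hDd]
          unfold cr
          simp only [Complex.sub_re, Complex.sub_im]
          ring
        · simp only [Complex.add_im, Complex.real_smul, Complex.mul_im, Complex.ofReal_re,
            Complex.ofReal_im, zero_mul, add_zero]
          rw [div_mul_eq_mul_div, div_mul_eq_mul_div, div_mul_eq_mul_div, div_mul_eq_mul_div,
            ← add_div, ← add_div]
          congr 1
          rw [hAd, hBd, hCd, hDd]
          unfold cr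
          simp only [Complex.sub_re, Complex.sub_im]
          ring
  · -- the degenerate case
    have hA0 : cr (x φ2 - x φ1) (x φ3 - x φ1) = 0 := by linarith
    have hB0 : cr (x φ3 - x φ1) (x φ4 - x φ1) = 0 := by linarith
    have hC0 : cr (x φ2 - x φ1) (x φ4 - x φ1) = 0 := by linarith
    have hD0 : cr (x φ3 - x φ2) (x φ4 - x φ2) = 0 := by linarith
    obtain ⟨r1, hr1, hx1⟩ := hx.dir φ1
    obtain ⟨r2, hr2, hx2⟩ := hx.dir φ2
    obtain ⟨r3, hr3, hx3⟩ := hx.dir φ3
    obtain ⟨r4, hr4, hx4⟩ := hx.dir φ4
    have hx1' : x φ1 = r1 * Complex.exp (((φ1 + 2 * Real.pi : ℝ) : ℂ) * Complex.I) := by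
      rw [hper', hx1]
    have hx2' : x φ2 = r2 * Complex.exp (((φ2 + 2 * Real.pi : ℝ) : ℂ) * Complex.I) := by
      rw [hper', hx2]
    rcases lt_trichotomy (φ3 - φ1) Real.pi with h | h | h
    · exact ⟨x φ2, mid h12 h23 h hr1 hr3 hx1 hx2 hx3 hA0, left_mem_segment ℝ _ _⟩
    · rcases lt_trichotomy (φ4 - φ2) Real.pi with g | g | g
      · exact ⟨x φ3, right_mem_segment ℝ _ _, mid h23 h34 g hr2 hr4 hx2 hx3 hx4 hD0⟩
      · exact ⟨0, opp h hr1 hr3 hx1 hx3, opp g hr2 hr4 hx2 hx4⟩
      · refine ⟨x φ1, left_mem_segment ℝ _ _, ?_⟩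
        rw [segment_symm]
        refine mid (a := φ4) (b := φ1 + 2 * Real.pi) (c := φ2 + 2 * Real.pi) h41 (by linarith)
          (by linarith) hr4 hr2 hx4 hx1' hx2' ?_
        have : cr (x φ1 - x φ4) (x φ2 - x φ4) = cr (x φ2 - x φ1) (x φ4 - x φ1) := by
          unfold cr
          simp only [Complex.sub_re, Complex.sub_im]
          ring
        rw [this, hC0]
    · refine ⟨x φ4, ?_, right_mem_segment ℝ _ _⟩
      rw [segment_symm]
      refine mid (a := φ3) (b := φ4) (c := φ1 + 2 * Real.pi) h34 h41 (by linarith) hr3 hr1 hx3 hx4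
        hx1' ?_
      have : cr (x φ4 - x φ3) (x φ1 - x φ3) = cr (x φ3 - x φ1) (x φ4 - x φ1) := by
        unfold cr
        simp only [Complex.sub_re, Complex.sub_im]
        ring
      rw [this, hB0]

end Pool.Agent.Helper83.CP
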