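import Pool.Agent.Helper83.CP.Defs

/-!
# Project CP (helper83), module RadialEx
The frontier of a compact convex set with `0` in the interior, parametrised by the angle: `x(φ) = e^{iφ}/gauge_C(e^{iφ})`. `gauge C` is continuous (`continuous_gauge`), positive away from `0` (boundedness),
`gauge = 1` exactly on the frontier (`gauge_eq_one_iff_mem_frontier`), positively homogeneous.
-/

set_option autoImplicit false

open MeasureTheory Set Filter Topology Metric
open scoped RealInnerProductSpace ENNReal NNReal

namespace Pool.Agent.Helper83.CP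

open Pool.Agent.Helper1.CK (E3 nEnergy V1 Content Good)

theorem exists_rad {C : Set ℂ} (hc : Convex ℝ C) (hk : IsCompact C)
    (h0 : (0 : ℂ) ∈ interior C) : ∃ x : ℝ → ℂ, Rad C x := by
  have hn : C ∈ 𝓝 (0 : ℂ) := mem_interior_iff_mem_nhds.mp h0
  have hcont : Continuous (gauge C) := continuous_gauge hc hn
  have hpos : ∀ φ : ℝ, 0 < gauge C (Complex.exp (φ * Complex.I)) := by
    intro φ
    exact (gauge_pos (absorbent_nhds_zero hn)
      (NormedSpace.isVonNBounded_of_isBounded ℝ hk.isBounded)).mpr (Complex.exp_ne_zero _)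
  have hec : Continuous fun φ : ℝ => Complex.exp (φ * Complex.I) := by fun_prop
  refine ⟨fun φ => ((gauge C (Complex.exp (φ * Complex.I)))⁻¹ : ℝ) *
    Complex.exp (φ * Complex.I), ?_, ?_, ?_, ?_, ?_⟩
  · refine Continuous.mul (Complex.continuous_ofReal.comp ?_) hec
    exact (hcont.comp hec).inv₀ fun φ => (hpos φ).ne'
  · intro φ
    have : Complex.exp (((φ + 2 * Real.pi : ℝ) : ℂ) * Complex.I) =
        Complex.exp ((φ : ℂ) * Complex.I) := by
      rw [show ((φ + 2 * Real.pi : ℝ) : ℂ) * Complex.I =
        (φ : ℂ) * Complex.I + 2 * Real.pi * Complex.I by push_cast; ring]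
      exact Complex.exp_periodic _
    simp only [this]
  · intro φ
    refine (gauge_eq_one_iff_mem_frontier hc hn).mp ?_
    have := gauge_smul_of_nonneg (s := C) (inv_nonneg.mpr (hpos φ).le)
      (Complex.exp (φ * Complex.I))
    rw [Complex.real_smul] at this
    rw [this, smul_eq_mul, inv_mul_cancel₀ (hpos φ).ne']
  · intro φ
    exact ⟨_, inv_pos.mpr (hpos φ), rfl⟩
  · intro z hz φ r hr hzr
    have h1 := (gauge_eq_one_iff_mem_frontier hc hn).mpr hz
    have := gauge_smul_of_nonneg (s := C) hr.le (Complex.exp (φ * Complex.I))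
    rw [Complex.real_smul, ← hzr, h1, smul_eq_mul] at this
    have h2 : r = (gauge C (Complex.exp (φ * Complex.I)))⁻¹ :=
      eq_inv_of_mul_eq_one_left this.symm
    rw [hzr, ← h2]

end Pool.Agent.Helper83.CP
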