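import Pool.Agent.Helper83.CP.Defs
import Pool.Agent.Helper83.CP.PLmain
import Pool.Agent.Helper83.CP.RadialEx
import Pool.Agent.Helper83.CP.RadChord
import Pool.Agent.Helper83.CP.ArcSum

/-!
# Project CP (helper83), module PLset
The planar lemma for finitely many segments in the frontier of a compact convex set, with constant weights.

Proof. Translate `C` (and the `a i`) so that `0` is an interior point. Take `x` with `Rad C x` (`exists_rad`). For `N ≥ 3`, `v = vv x N` is a `CPoly N` (`rad_cyc`, `rad_chord`, `Rad.per`) with nonzero sides (`vv_ne`). Density: constant on every side,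
`w k = ∑ i, if v k ∈ arc_i ∧ v (k+1) ∈ arc_i then b i else 0`; at most one `i` contributes because two different arcs have at most one common point and `v k ≠ v (k+1)`. So `w k ^ 2` is the same sum with `b i ^ 2`.
`PL N`: `(π²/64) Mm⁴ ≤ Bm Tm`, with `Mm = ∑_i b_i ∑_k [..] len k ≥ ∑_i b_i (β_i-α_i-δ)` for large `N` (`arc_lim`), `Bm = ∑_i b_i² ∑_k [..] len k ≤ ∑_i b_i² (β_i-α_i)` (`arc_sum` with `φ = 1`), `Tm ≤` the full double sum (`arc_sum`
twice: for fixed `l`, `u` with `φ z = ‖z - side l u‖`, then with `φ z = ∫_{α_j}^{β_j} ‖z - (a_j + t f_j)‖ dt`, continuous). Let `δ → 0`. (If `∑_i b_i (β_i-α_i-δ) < 0` the bound is useless, but for small `δ` it is `≥ 0` or the total mass is `0`.)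
-/

set_option autoImplicit false

open MeasureTheory Set Filter Topology Metric
open scoped RealInnerProductSpace ENNReal NNReal

namespace Pool.Agent.Helper83.CP

open Pool.Agent.Helper1.CK (E3 nEnergy V1 Content Good)

/-- the vertices of the inscribed polygon form a convex polygon -/
private lemma cpoly_vv {C : Set ℂ} (hc : Convex ℝ C) (hk : IsCompact C)
    (h0 : (0 : ℂ) ∈ interior C) {x : ℝ → ℂ} (hx : Rad C x) {N : ℕ} (hN : 3 ≤ N) :
    CPoly N (vv x N) := by
  have hN0 : (0 : ℝ) < N := by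
    have : 0 < N := by omega
    exact_mod_cast this
  have hpi := Real.pi_pos
  have hlt : ∀ i j : ℕ, i < j → 2 * Real.pi * (i : ℝ) / N < 2 * Real.pi * (j : ℝ) / N := by
    intro i j hij
    have : (i : ℝ) < j := by exact_mod_cast hij
    gcongr
  have hlast : ∀ i k : ℕ, k < i + N →
      2 * Real.pi * (k : ℝ) / N < 2 * Real.pi * (i : ℝ) / N + 2 * Real.pi := by
    intro i k hik
    have h1 : (k : ℝ) < i + N := by exact_mod_cast hik
    have h2 : 2 * Real.pi * (i : ℝ) / N + 2 * Real.pi = 2 * Real.pi * ((i : ℝ) + N) / N := by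
      field_simp
    rw [h2]
    gcongr
  refine ⟨?_, ?_, ?_⟩
  · intro i
    unfold vv
    have h2 : 2 * Real.pi * ((i + N : ℕ) : ℝ) / N = 2 * Real.pi * (i : ℝ) / N + 2 * Real.pi := by
      push_cast
      field_simp
    rw [h2, hx.per]
  · intro i j k hij hjk hki
    exact rad_cyc hc hk h0 hx (hlt i j hij) (hlt j k hjk) (hlast i k hki)
  · intro i j k l hij hjk hkl hli
    exact rad_chord hc hk h0 hx (hlt i j hij) (hlt j k hjk) (hlt k l hkl) (hlast i l hli)

private lemma side_continuous (l : ℕ → ℝ) (v : ℕ → ℂ) (i : ℕ) :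
    Continuous (fun t : ℝ => side l v i t) := by
  unfold side
  fun_prop

private lemma seg_continuous (a f : ℂ) : Continuous (fun t : ℝ => a + (t : ℂ) * f) := by
  fun_prop

open Classical in
/-- the double sums over the sides on two arcs -/
private lemma arc_double {C : Set ℂ} {x : ℝ → ℂ} (hx : Rad C x) {a f a' f' : ℂ} (hf : ‖f‖ = 1)
    (hf' : ‖f'‖ = 1) {α β α' β' : ℝ}
    (hαβ : α ≤ β) (hαβ' : α' ≤ β') (hfr : ∀ s ∈ Icc α β, a + (s : ℂ) * f ∈ frontier C)
    (hfr' : ∀ s ∈ Icc α' β', a' + (s : ℂ) * f' ∈ frontier C) {N : ℕ} (hN : 3 ≤ N) :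
    ∑ k ∈ Finset.range N,
      (if vv x N k ∈ arc a f α β ∧ vv x N (k + 1) ∈ arc a f α β then
        ∑ l ∈ Finset.range N,
          (if vv x N l ∈ arc a' f' α' β' ∧ vv x N (l + 1) ∈ arc a' f' α' β' then
            ∫ t in (0 : ℝ)..len (vv x N) k, ∫ s in (0 : ℝ)..len (vv x N) l,
              ‖side (len (vv x N)) (vv x N) k t - side (len (vv x N)) (vv x N) l s‖ else 0)
        else 0) ≤
      ∫ s in α..β, ∫ t in α'..β', ‖(a + (s : ℂ) * f) - (a' + (t : ℂ) * f')‖ := by
  set v := vv x N with hv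
  set L := len v with hL
  have hψc : Continuous (fun z : ℂ => ∫ t in α'..β', ‖z - (a' + (t : ℂ) * f')‖) := by
    apply intervalIntegral.continuous_parametric_intervalIntegral_of_continuous'
    fun_prop
  have hψ0 : ∀ z : ℂ, 0 ≤ ∫ t in α'..β', ‖z - (a' + (t : ℂ) * f')‖ := fun z =>
    intervalIntegral.integral_nonneg hαβ' (fun t _ => norm_nonneg _)
  refine le_trans ?_ (arc_sum hx hf hαβ hfr hN hψc hψ0)
  apply Finset.sum_le_sum
  intro k _
  split_ifs with hk
  swap
  · exact le_refl _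
  have hLk : 0 ≤ L k := norm_nonneg _
  have hcont : ∀ l, Continuous (fun t : ℝ => ∫ s in (0 : ℝ)..L l, ‖side L v k t - side L v l s‖) := by
    intro l
    apply intervalIntegral.continuous_parametric_intervalIntegral_of_continuous'
    have h1 := side_continuous L v k
    have h2 := side_continuous L v l
    exact ((h1.comp continuous_fst).sub (h2.comp continuous_snd)).norm
  have hcont' : ∀ l, Continuous (fun t : ℝ =>
      (if v l ∈ arc a' f' α' β' ∧ v (l + 1) ∈ arc a' f' α' β' then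
        ∫ s in (0 : ℝ)..L l, ‖side L v k t - side L v l s‖ else 0)) := by
    intro l
    split_ifs
    · exact hcont l
    · exact continuous_const
  have heq : ∑ l ∈ Finset.range N,
      (if v l ∈ arc a' f' α' β' ∧ v (l + 1) ∈ arc a' f' α' β' then
        ∫ t in (0 : ℝ)..L k, ∫ s in (0 : ℝ)..L l, ‖side L v k t - side L v l s‖ else 0) =
      ∫ t in (0 : ℝ)..L k, ∑ l ∈ Finset.range N,
        (if v l ∈ arc a' f' α' β' ∧ v (l + 1) ∈ arc a' f' α' β' then
          ∫ s in (0 : ℝ)..L l, ‖side L v k t - side L v l s‖ else 0) := by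
    rw [intervalIntegral.integral_finsetSum
      (fun l _ => (hcont' l).intervalIntegrable _ _)]
    apply Finset.sum_congr rfl
    intro l _
    split_ifs
    · rfl
    · simp
  rw [heq]
  apply intervalIntegral.integral_mono_on hLk
  · exact (continuous_finsetSum _ (fun l _ => hcont' l)).intervalIntegrable _ _
  · exact (hψc.comp (side_continuous L v k)).intervalIntegrable _ _
  · intro t _
    exact arc_sum hx hf' hαβ' hfr' hN (φ := fun z => ‖side L v k t - z‖)
      (by fun_prop) (fun z => norm_nonneg _)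

open Classical in
/-- the weight of the side `k` -/
private noncomputable def wt {ι : Type} [Fintype ι] (v : ℕ → ℂ) (a f : ι → ℂ) (α β b : ι → ℝ)
    (k : ℕ) : ℝ :=
  ∑ i, (if v k ∈ arc (a i) (f i) (α i) (β i) ∧ v (k + 1) ∈ arc (a i) (f i) (α i) (β i)
    then b i else 0)

open Classical in
private lemma wt_sq {ι : Type} [Fintype ι] {v : ℕ → ℂ} {a f : ι → ℂ} {α β b : ι → ℝ} {k : ℕ}
    (hne : v (k + 1) ≠ v k)
    (hdis : ∀ i j, i ≠ j → (arc (a i) (f i) (α i) (β i) ∩
      arc (a j) (f j) (α j) (β j)).Subsingleton) :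
    wt v a f α β b k ^ 2 =
      ∑ i, (if v k ∈ arc (a i) (f i) (α i) (β i) ∧ v (k + 1) ∈ arc (a i) (f i) (α i) (β i)
        then b i ^ 2 else 0) := by
  unfold wt
  rw [sq, Finset.sum_mul_sum]
  apply Finset.sum_congr rfl
  intro i _
  rw [Finset.sum_eq_single i]
  · split_ifs <;> ring
  · intro j _ hji
    by_cases hi : v k ∈ arc (a i) (f i) (α i) (β i) ∧ v (k + 1) ∈ arc (a i) (f i) (α i) (β i)
    · by_cases hj : v k ∈ arc (a j) (f j) (α j) (β j) ∧ v (k + 1) ∈ arc (a j) (f j) (α j) (β j)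
      · exact absurd (hdis i j (Ne.symm hji) ⟨hi.2, hj.2⟩ ⟨hi.1, hj.1⟩) hne
      · rw [if_neg hj, mul_zero]
    · rw [if_neg hi, zero_mul]
  · intro h
    exact absurd (Finset.mem_univ i) h

open Classical in
/-- the inequality for the inscribed `N`-gon -/
private lemma PLset_N {C : Set ℂ} (hc : Convex ℝ C) (hk : IsCompact C)
    (h0 : (0 : ℂ) ∈ interior C) {x : ℝ → ℂ} (hx : Rad C x)
    {ι : Type} [Fintype ι] (a f : ι → ℂ) (hf : ∀ i, ‖f i‖ = 1) (α β : ι → ℝ)
    (hαβ : ∀ i, α i ≤ β i)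
    (hfr : ∀ i, ∀ s ∈ Icc (α i) (β i), a i + (s : ℂ) * f i ∈ frontier C)
    (hdis : ∀ i j, i ≠ j → (arc (a i) (f i) (α i) (β i) ∩
      arc (a j) (f j) (α j) (β j)).Subsingleton)
    (b : ι → ℝ) (hb : ∀ i, 0 ≤ b i) {N : ℕ} (hN : 3 ≤ N) :
    Real.pi ^ 2 / 64 * (∑ i, b i * ∑ k ∈ Finset.range N,
      (if vv x N k ∈ arc (a i) (f i) (α i) (β i) ∧ vv x N (k + 1) ∈ arc (a i) (f i) (α i) (β i)
        then len (vv x N) k else 0)) ^ 4 ≤
      (∑ i, b i ^ 2 * (β i - α i)) *
      ∑ i, ∑ j, b i * b j * ∫ s in (α i)..(β i), ∫ t in (α j)..(β j),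
        ‖(a i + (s : ℂ) * f i) - (a j + (t : ℂ) * f j)‖ := by
  set v := vv x N with hv
  have hP := cpoly_vv hc hk h0 hx hN
  rw [← hv] at hP
  have hne : ∀ k, v (k + 1) ≠ v k := fun k => vv_ne hx hN k
  set w := wt v a f α β b with hw
  have hw0 : ∀ k, 0 ≤ w k := by
    intro k
    rw [hw]
    unfold wt
    apply Finset.sum_nonneg
    intro i _
    split_ifs
    · exact hb i
    · exact le_refl _
  have hwB : ∀ k, w k ≤ ∑ i, b i := by
    intro k
    rw [hw]
    unfold wt
    apply Finset.sum_le_sum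
    intro i _
    split_ifs
    · exact le_refl _
    · exact hb i
  have hD : Dens N (fun k _ => w k) := by
    refine ⟨?_, ?_, ?_⟩
    · intro i
      funext t
      simp only [hw]
      unfold wt
      have h1 : v (i + N) = v i := hP.per i
      have h2 : v (i + N + 1) = v (i + 1) := by
        have := hP.per (i + 1)
        rw [← this]
        congr 1
        omega
      rw [h1, h2]
    · intro i
      exact measurable_const
    · exact ⟨∑ i, b i, fun i t => ⟨hw0 i, hwB i⟩⟩
  have hPL := PL_all hN v (fun k _ => w k) hP hne hD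
  have hlen : ∀ k, 0 ≤ len v k := fun k => norm_nonneg _
  -- the mass
  have hM : Mm N (len v) (fun k _ => w k) = ∑ i, b i * ∑ k ∈ Finset.range N,
      (if v k ∈ arc (a i) (f i) (α i) (β i) ∧ v (k + 1) ∈ arc (a i) (f i) (α i) (β i)
        then len v k else 0) := by
    unfold Mm
    simp only [intervalIntegral.integral_const, sub_zero, smul_eq_mul]
    rw [hw]
    unfold wt
    simp only [Finset.mul_sum]
    rw [Finset.sum_comm]
    apply Finset.sum_congr rfl
    intro i _
    apply Finset.sum_congr rfl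
    intro k _
    split_ifs <;> ring
  -- the square
  have hB : Bm N (len v) (fun k _ => w k) ≤ ∑ i, b i ^ 2 * (β i - α i) := by
    have h1 : Bm N (len v) (fun k _ => w k) = ∑ i, b i ^ 2 * ∑ k ∈ Finset.range N,
      (if v k ∈ arc (a i) (f i) (α i) (β i) ∧ v (k + 1) ∈ arc (a i) (f i) (α i) (β i)
        then len v k else 0) := by
      unfold Bm
      simp only [intervalIntegral.integral_const, sub_zero, smul_eq_mul]
      have h2 : ∀ k, w k ^ 2 = _ := fun k => wt_sq (hne k) hdis
      simp only [h2]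
      simp only [Finset.mul_sum]
      rw [Finset.sum_comm]
      apply Finset.sum_congr rfl
      intro i _
      apply Finset.sum_congr rfl
      intro k _
      split_ifs <;> ring
    rw [h1]
    apply Finset.sum_le_sum
    intro i _
    apply mul_le_mul_of_nonneg_left _ (sq_nonneg _)
    have h3 := arc_sum hx (hf i) (hαβ i) (hfr i) hN (φ := fun _ => (1 : ℝ)) continuous_const
      (fun _ => zero_le_one)
    simpa only [intervalIntegral.integral_const, sub_zero, smul_eq_mul, mul_one, ← hv] using h3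
  -- the distance integral
  have hT : Tm N (len v) v (fun k _ => w k) ≤ ∑ i, ∑ j, b i * b j *
      ∫ s in (α i)..(β i), ∫ t in (α j)..(β j),
        ‖(a i + (s : ℂ) * f i) - (a j + (t : ℂ) * f j)‖ := by
    have h1 : Tm N (len v) v (fun k _ => w k) = ∑ i, ∑ j, b i * b j *
        ∑ k ∈ Finset.range N,
        (if v k ∈ arc (a i) (f i) (α i) (β i) ∧ v (k + 1) ∈ arc (a i) (f i) (α i) (β i) then
        ∑ l ∈ Finset.range N,
          (if v l ∈ arc (a j) (f j) (α j) (β j) ∧ v (l + 1) ∈ arc (a j) (f j) (α j) (β j) then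
            ∫ t in (0 : ℝ)..len v k, ∫ s in (0 : ℝ)..len v l,
              ‖side (len v) v k t - side (len v) v l s‖ else 0)
        else 0) := by
      unfold Tm
      have h2 : ∀ k l, (∫ t in (0 : ℝ)..len v k, ∫ s in (0 : ℝ)..len v l,
          ‖side (len v) v k t - side (len v) v l s‖ * (w k * w l)) =
          (∑ i, ∑ j, b i * b j *
          (if v k ∈ arc (a i) (f i) (α i) (β i) ∧ v (k + 1) ∈ arc (a i) (f i) (α i) (β i) then
          (if v l ∈ arc (a j) (f j) (α j) (β j) ∧ v (l + 1) ∈ arc (a j) (f j) (α j) (β j) then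
            (∫ t in (0 : ℝ)..len v k, ∫ s in (0 : ℝ)..len v l,
              ‖side (len v) v k t - side (len v) v l s‖) else 0) else 0)) := by
        intro k l
        simp only [intervalIntegral.integral_mul_const]
        rw [hw]
        unfold wt
        rw [Finset.sum_mul_sum, Finset.mul_sum]
        apply Finset.sum_congr rfl
        intro i _
        rw [Finset.mul_sum]
        apply Finset.sum_congr rfl
        intro j _
        split_ifs <;> ring
      simp only [h2]
      have h3 : ∀ F : ℕ → ℕ → ι → ι → ℝ,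
          ∑ k ∈ Finset.range N, ∑ l ∈ Finset.range N, ∑ i, ∑ j, F k l i j =
          ∑ i, ∑ j, ∑ k ∈ Finset.range N, ∑ l ∈ Finset.range N, F k l i j := by
        intro F
        calc ∑ k ∈ Finset.range N, ∑ l ∈ Finset.range N, ∑ i, ∑ j, F k l i j
            = ∑ k ∈ Finset.range N, ∑ i, ∑ l ∈ Finset.range N, ∑ j, F k l i j := by
              apply Finset.sum_congr rfl; intro k _; rw [Finset.sum_comm]
          _ = ∑ i, ∑ k ∈ Finset.range N, ∑ l ∈ Finset.range N, ∑ j, F k l i j := by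
              rw [Finset.sum_comm]
          _ = ∑ i, ∑ k ∈ Finset.range N, ∑ j, ∑ l ∈ Finset.range N, F k l i j := by
              apply Finset.sum_congr rfl; intro i _
              apply Finset.sum_congr rfl; intro k _; rw [Finset.sum_comm]
          _ = ∑ i, ∑ j, ∑ k ∈ Finset.range N, ∑ l ∈ Finset.range N, F k l i j := by
              apply Finset.sum_congr rfl; intro i _; rw [Finset.sum_comm]
      rw [h3]
      apply Finset.sum_congr rfl
      intro i _
      apply Finset.sum_congr rfl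
      intro j _
      rw [Finset.mul_sum]
      apply Finset.sum_congr rfl
      intro k _
      by_cases hik : v k ∈ arc (a i) (f i) (α i) (β i) ∧
        v (k + 1) ∈ arc (a i) (f i) (α i) (β i)
      · simp only [if_pos hik, Finset.mul_sum]
      · simp only [if_neg hik, mul_zero, Finset.sum_const_zero]
    rw [h1]
    apply Finset.sum_le_sum
    intro i _
    apply Finset.sum_le_sum
    intro j _
    apply mul_le_mul_of_nonneg_left _ (mul_nonneg (hb i) (hb j))
    exact arc_double hx (hf i) (hf j) (hαβ i) (hαβ j) (hfr i) (hfr j) hN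
  have hT0 : 0 ≤ Tm N (len v) v (fun k _ => w k) := by
    unfold Tm
    apply Finset.sum_nonneg
    intro k _
    apply Finset.sum_nonneg
    intro l _
    apply intervalIntegral.integral_nonneg (hlen k)
    intro t _
    apply intervalIntegral.integral_nonneg (hlen l)
    intro s _
    exact mul_nonneg (norm_nonneg _) (mul_nonneg (hw0 k) (hw0 l))
  have hBB0 : 0 ≤ ∑ i, b i ^ 2 * (β i - α i) := by
    apply Finset.sum_nonneg
    intro i _
    exact mul_nonneg (sq_nonneg _) (sub_nonneg.mpr (hαβ i))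
  rw [← hM]
  exact le_trans hPL (mul_le_mul hB hT hT0 hBB0)

private lemma PLset_zero {C : Set ℂ} (hc : Convex ℝ C) (hk : IsCompact C)
    (h0 : (0 : ℂ) ∈ interior C)
    {ι : Type} [Fintype ι] (a f : ι → ℂ) (hf : ∀ i, ‖f i‖ = 1) (α β : ι → ℝ)
    (hαβ : ∀ i, α i ≤ β i)
    (hfr : ∀ i, ∀ s ∈ Icc (α i) (β i), a i + (s : ℂ) * f i ∈ frontier C)
    (hdis : ∀ i j, i ≠ j → (arc (a i) (f i) (α i) (β i) ∩
      arc (a j) (f j) (α j) (β j)).Subsingleton)
    (b : ι → ℝ) (hb : ∀ i, 0 ≤ b i) :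
    Real.pi ^ 2 / 64 * (∑ i, b i * (β i - α i)) ^ 4 ≤ (∑ i, b i ^ 2 * (β i - α i)) *
      ∑ i, ∑ j, b i * b j * ∫ s in (α i)..(β i), ∫ t in (α j)..(β j),
        ‖(a i + (s : ℂ) * f i) - (a j + (t : ℂ) * f j)‖ := by
  classical
  obtain ⟨x, hx⟩ := exists_rad hc hk h0
  set R := (∑ i, b i ^ 2 * (β i - α i)) *
      ∑ i, ∑ j, b i * b j * ∫ s in (α i)..(β i), ∫ t in (α j)..(β j),
        ‖(a i + (s : ℂ) * f i) - (a j + (t : ℂ) * f j)‖ with hR
  have hR0 : 0 ≤ R := by
    rw [hR]
    apply mul_nonneg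
    · apply Finset.sum_nonneg
      intro i _
      exact mul_nonneg (sq_nonneg _) (sub_nonneg.mpr (hαβ i))
    · apply Finset.sum_nonneg
      intro i _
      apply Finset.sum_nonneg
      intro j _
      apply mul_nonneg (mul_nonneg (hb i) (hb j))
      apply intervalIntegral.integral_nonneg (hαβ i)
      intro s _
      apply intervalIntegral.integral_nonneg (hαβ j)
      intro t _
      exact norm_nonneg _
  set M := ∑ i, b i * (β i - α i) with hM
  have hM0 : 0 ≤ M := by
    rw [hM]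
    apply Finset.sum_nonneg
    intro i _
    exact mul_nonneg (hb i) (sub_nonneg.mpr (hαβ i))
  rcases hM0.eq_or_lt with hMz | hMp
  · rw [← hMz]
    simpa using hR0
  have key : ∀ δ : ℝ, 0 < δ → 0 ≤ M - δ * ∑ i, b i →
      Real.pi ^ 2 / 64 * (M - δ * ∑ i, b i) ^ 4 ≤ R := by
    intro δ hδ hnn
    have h1 : ∀ᶠ N : ℕ in atTop, ∀ i, β i - α i - δ ≤ ∑ k ∈ Finset.range N,
        (if vv x N k ∈ arc (a i) (f i) (α i) (β i) ∧
          vv x N (k + 1) ∈ arc (a i) (f i) (α i) (β i) then len (vv x N) k else 0) := by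
      rw [Filter.eventually_all]
      intro i
      exact arc_lim hx (hf i) (hαβ i) (hfr i) hδ
    obtain ⟨N, hN1, hN3⟩ := (h1.and (eventually_ge_atTop 3)).exists
    refine le_trans ?_ (PLset_N hc hk h0 hx a f hf α β hαβ hfr hdis b hb hN3)
    apply mul_le_mul_of_nonneg_left _ (by positivity)
    apply pow_le_pow_left₀ hnn
    rw [hM, Finset.mul_sum, ← Finset.sum_sub_distrib]
    apply Finset.sum_le_sum
    intro i _
    have := mul_le_mul_of_nonneg_left (hN1 i) (hb i)
    linarith [this]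
  have hcont : Continuous (fun δ : ℝ => Real.pi ^ 2 / 64 * (M - δ * ∑ i, b i) ^ 4) := by
    fun_prop
  have hlim : Tendsto (fun δ : ℝ => Real.pi ^ 2 / 64 * (M - δ * ∑ i, b i) ^ 4)
      (𝓝[>] 0) (𝓝 (Real.pi ^ 2 / 64 * M ^ 4)) := by
    have := (hcont.tendsto 0).mono_left (nhdsWithin_le_nhds (s := Ioi (0 : ℝ)))
    simpa using this
  have hcont2 : Continuous (fun δ : ℝ => M - δ * ∑ i, b i) := by fun_prop
  have hpos : ∀ᶠ δ : ℝ in 𝓝[>] 0, 0 ≤ M - δ * ∑ i, b i := by
    have h2 : Tendsto (fun δ : ℝ => M - δ * ∑ i, b i) (𝓝[>] 0) (𝓝 M) := by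
      have := (hcont2.tendsto 0).mono_left (nhdsWithin_le_nhds (s := Ioi (0 : ℝ)))
      simpa using this
    filter_upwards [h2.eventually (lt_mem_nhds hMp)] with δ hδ using hδ.le
  refine le_of_tendsto hlim ?_
  filter_upwards [hpos, self_mem_nhdsWithin] with δ h1 h2
  exact key δ h2 h1

theorem PLset {C : Set ℂ} (hc : Convex ℝ C) (hk : IsCompact C) (hi : (interior C).Nonempty)
    {ι : Type} [Fintype ι] (a f : ι → ℂ) (hf : ∀ i, ‖f i‖ = 1) (α β : ι → ℝ)
    (hαβ : ∀ i, α i ≤ β i)
    (hfr : ∀ i, ∀ s ∈ Icc (α i) (β i), a i + (s : ℂ) * f i ∈ frontier C)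
    (hdis : ∀ i j, i ≠ j → (arc (a i) (f i) (α i) (β i) ∩
      arc (a j) (f j) (α j) (β j)).Subsingleton)
    (b : ι → ℝ) (hb : ∀ i, 0 ≤ b i) :
    Real.pi ^ 2 / 64 * (∑ i, b i * (β i - α i)) ^ 4 ≤ (∑ i, b i ^ 2 * (β i - α i)) *
      ∑ i, ∑ j, b i * b j * ∫ s in (α i)..(β i), ∫ t in (α j)..(β j),
        ‖(a i + (s : ℂ) * f i) - (a j + (t : ℂ) * f j)‖ := by
  obtain ⟨p, hp⟩ := hi
  set e : ℂ ≃ₜ ℂ := Homeomorph.addLeft p with he
  have hee : ∀ z, e z = p + z := fun z => rfl
  have hc' : Convex ℝ (e ⁻¹' C) := hc.translate_preimage_right p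
  have hk' : IsCompact (e ⁻¹' C) := e.isCompact_preimage.mpr hk
  have h0' : (0 : ℂ) ∈ interior (e ⁻¹' C) := by
    rw [← e.preimage_interior, mem_preimage, hee, add_zero]
    exact hp
  have hfr' : ∀ i, ∀ s ∈ Icc (α i) (β i), (a i - p) + (s : ℂ) * f i ∈ frontier (e ⁻¹' C) := by
    intro i s hs
    rw [← e.preimage_frontier, mem_preimage, hee]
    have h := hfr i s hs
    have h2 : p + ((a i - p) + (s : ℂ) * f i) = a i + (s : ℂ) * f i := by ring
    rw [h2]
    exact h
  have harc : ∀ i z, z ∈ arc (a i - p) (f i) (α i) (β i) → z + p ∈ arc (a i) (f i) (α i) (β i) := by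
    rintro i z ⟨s, hs, rfl⟩
    exact ⟨s, hs, by ring⟩
  have hdis' : ∀ i j, i ≠ j → (arc (a i - p) (f i) (α i) (β i) ∩
      arc (a j - p) (f j) (α j) (β j)).Subsingleton := by
    intro i j hij z hz w hw
    have h := hdis i j hij ⟨harc i z hz.1, harc j z hz.2⟩ ⟨harc i w hw.1, harc j w hw.2⟩
    exact add_right_cancel h
  have h := PLset_zero hc' hk' h0' (fun i => a i - p) f hf α β hαβ hfr' hdis' b hb
  have hsimp : ∀ i j (s t : ℝ), (a i - p + (s : ℂ) * f i) - (a j - p + (t : ℂ) * f j) =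
      (a i + (s : ℂ) * f i) - (a j + (t : ℂ) * f j) := by
    intro i j s t
    ring
  simp only [hsimp] at h
  exact h

end Pool.Agent.Helper83.CP
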