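import Pool.Agent.Helper83.CP.Defs
import Pool.Agent.Helper83.CP.Face

/-!
# Project CP (helper83), module SecData
The plane section of the polytope at height `h` as a planar convex set.

Proof. `Q = QQ m c` is compact convex with interior points. `⟪g,.⟫` maps the interior of `Q` onto an open interval `J` and `Q` onto its closure (`Q` is the closure of its interior), so for almost every `h` either `h` is not in the image
of `Q` (then all `Us` are empty, because `⟪g, AA⟫ = h`), or `h ∈ J`. Let `h ∈ J`. Let `u1, u2` be an orthonormal basis of the plane orthogonal to `g`, `p(z) = (h/|g|²) g + z.re u1 + z.im u2`, an isometry of `ℂ` onto the plane `⟪g,x⟫ = h`, and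
`C = {z : p(z) ∈ Q}`: compact convex, and it has interior points (the preimage of the interior of `Q` is open and nonempty). If `Us i h` is nonempty: it is a compact interval `[α i, β i]` (closed, convex, bounded),
`AA g (m i) (c i) h s = p(a i + s f i)` with `f i = ⟪ff,u1⟫ + i ⟪ff,u2⟫`, `|f i| = 1` because `ff ⊥ g`. If `Us i h` is empty take `α i = β i = 0`, `f i = 1` and for `a i` any point of the frontier of `C` (nonempty).
* the points `a i + s f i` are in the frontier: they are in `C`, and `⟪m i, p(.)⟫` is maximal (`= c i`) over `C` there, and not constant because `m i` is not parallel to `g` (`Gen.par`).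
* two arcs `i ≠ j` have at most one common point: clear if one of them is degenerate. If `z ≠ z'` are common points, `w = p(z)-p(z') ≠ 0` is orthogonal to `g`, `m i`, `m j`. If `m i`, `m j` are linearly independent, `g` is not in their span
 (`Gen.pair`), so the three span `E3`: contradiction. Otherwise `m j = ± m i` (unit vectors). `m j = m i`: `c i = ⟪m i,p(z)⟫ = c j`, contradiction to `Ply.inj`. `m j = -m i`: `c j = -c i`, so `Q` is contained in the plane `⟪m i,x⟫ = c i`, contradiction to
 `Ply.int`.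
* distances: `p` is an isometry.
-/

set_option autoImplicit false

open MeasureTheory Set Filter Topology Metric
open scoped RealInnerProductSpace ENNReal NNReal

namespace Pool.Agent.Helper83.CP

open Pool.Agent.Helper1.CK (E3 nEnergy V1 Content Good)

private instance secd_fact : Fact (Module.finrank ℝ E3 = 2 + 1) := ⟨by simp⟩

/-- isometry from the plane onto the orthogonal complement of `g` -/
private theorem secd_iso {g : E3} (hg : g ≠ 0) :
    ∃ L : ℂ →ₗᵢ[ℝ] E3, (∀ z, ⟪g, L z⟫ = 0) ∧ ∀ w : E3, ⟪g, w⟫ = 0 → ∃ z, L z = w := by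
  let e1 : ℂ ≃ₗᵢ[ℝ] EuclideanSpace ℝ (Fin 2) := Complex.orthonormalBasisOneI.repr
  let e2 : (ℝ ∙ g)ᗮ ≃ₗᵢ[ℝ] EuclideanSpace ℝ (Fin 2) :=
    (OrthonormalBasis.fromOrthogonalSpanSingleton 2 hg).repr
  let e : ℂ ≃ₗᵢ[ℝ] (ℝ ∙ g)ᗮ := e1.trans e2.symm
  refine ⟨(ℝ ∙ g)ᗮ.subtypeₗᵢ.comp e.toLinearIsometry, ?_, ?_⟩
  · intro z
    have := (e z).2
    rw [Submodule.mem_orthogonal_singleton_iff_inner_right] at this
    exact this
  · intro w hw
    refine ⟨e.symm ⟨w, ?_⟩, ?_⟩
    · rw [Submodule.mem_orthogonal_singleton_iff_inner_right]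
      exact hw
    · simp

/-- a compact interval -/
private theorem secd_Us {ι : Type} [Fintype ι] {m : ι → E3} {c : ι → ℝ} (hP : Ply m c) {g : E3}
    (hg : Gen m g) (i : ι) (h : ℝ) (hne : (Us m c g i h).Nonempty) :
    ∃ α β : ℝ, α ≤ β ∧ Us m c g i h = Icc α β := by
  have hcl : IsClosed (Us m c g i h) := by
    have := (isClosed_Us m c g i).preimage (f := fun s : ℝ => ((h, s) : ℝ × ℝ)) (by fun_prop)
    exact this
  have hcv : Convex ℝ (Us m c g i h) := by
    intro s hs t ht a b ha hb hab
    have := convex_Us m c g i (x := (h, s)) hs (y := (h, t)) ht ha hb hab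
    have h2 : a • ((h, s) : ℝ × ℝ) + b • ((h, t) : ℝ × ℝ) = (h, a • s + b • t) := by
      ext
      · simp [← add_mul, hab]
      · simp
    rw [h2] at this
    exact this
  have hb : Bornology.IsBounded (Us m c g i h) := by
    have hb := bounded_Us hP.bdd (hP.unit i) (hg.par i) (g := g)
    have h3 : Bornology.IsBounded (Prod.snd '' {p : ℝ × ℝ | p.2 ∈ Us m c g i p.1}) :=
      hb.image_snd
    refine h3.subset ?_
    intro s hs
    exact ⟨(h, s), hs, rfl⟩
  have hcpt : IsCompact (Us m c g i h) := Metric.isCompact_of_isClosed_isBounded hcl hb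
  have hcon : IsConnected (Us m c g i h) := ⟨hne, hcv.isPreconnected⟩
  have := eq_Icc_of_connected_compact hcon hcpt
  refine ⟨_, _, ?_, this⟩
  have h4 := hne
  rw [this, nonempty_Icc] at h4
  exact h4

private theorem secd_AA (g n : E3) (c h s : ℝ) :
    AA g n c h s = AA g n c h 0 + s • ff g n := by
  unfold AA
  simp

/-- a small positive number -/
private theorem secd_pos {P : ℝ → Prop} (h : ∀ᶠ ε : ℝ in 𝓝 0, P ε) : ∃ ε : ℝ, 0 < ε ∧ P ε := by
  obtain ⟨r, hr, hb⟩ := Metric.eventually_nhds_iff.1 h
  refine ⟨r / 2, by linarith, hb ?_⟩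
  rw [Real.dist_eq, sub_zero, abs_of_pos (by linarith)]
  linarith

/-- three orthogonality relations -/
private theorem secd_zero {g a b w : E3} (hab : LinearIndependent ℝ ![a, b])
    (hg : g ∉ Submodule.span ℝ {a, b}) (h1 : ⟪g, w⟫ = 0) (h2 : ⟪a, w⟫ = 0) (h3 : ⟪b, w⟫ = 0) :
    w = 0 := by
  have hli : LinearIndependent ℝ ![g, a, b] := by
    refine (linearIndependent_finCons (x := g) (v := ![a, b])).2 ⟨hab, ?_⟩
    have : Set.range ![a, b] = {a, b} := by
      simp [Matrix.range_cons, Set.pair_comm]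
    rw [this]
    exact hg
  have hsp : Submodule.span ℝ (Set.range ![g, a, b]) = ⊤ := by
    apply hli.span_eq_top_of_card_eq_finrank
    simp
  have hw : w ∈ (Submodule.span ℝ (Set.range ![g, a, b]))ᗮ := by
    rw [Submodule.mem_orthogonal]
    intro u hu
    induction hu using Submodule.span_induction with
    | mem x hx =>
      obtain ⟨k, rfl⟩ := hx
      fin_cases k
      · simpa using h1
      · simpa using h2
      · simpa using h3
    | zero => simp
    | add x y _ _ hx hy => rw [inner_add_left, hx, hy, add_zero]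
    | smul r x _ hx => rw [inner_smul_left, hx, mul_zero]
  rw [hsp, Submodule.top_orthogonal_eq_bot] at hw
  simpa using hw

/-- dependent unit vectors -/
private theorem secd_dep {a b : E3} (ha : ‖a‖ = 1) (hb : ‖b‖ = 1)
    (hab : ¬ LinearIndependent ℝ ![a, b]) : b = a ∨ b = -a := by
  rw [LinearIndependent.pair_iff] at hab
  push Not at hab
  obtain ⟨s, t, hst, hne⟩ := hab
  have h1 : s • a = -(t • b) := by
    rw [eq_neg_iff_add_eq_zero]; exact hst
  have h2 : |s| = |t| := by
    have := congrArg norm h1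
    rw [norm_neg, norm_smul, norm_smul, ha, hb] at this
    simpa using this
  have hs : s ≠ 0 := by
    intro h0
    have ht : t = 0 := by
      rw [h0, abs_zero] at h2
      exact abs_eq_zero.1 h2.symm
    exact hne h0 ht
  rcases abs_eq_abs.1 h2 with h | h
  · right
    have ht : t ≠ 0 := h ▸ hs
    rw [h] at h1
    have h3 : t • (a + b) = 0 := by
      rw [smul_add, h1]; simp
    have h4 : a + b = 0 := (smul_eq_zero.1 h3).resolve_left ht
    exact (neg_eq_of_add_eq_zero_right h4).symm
  · left
    have ht : t ≠ 0 := by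
      intro h0
      apply hs
      rw [h, h0, neg_zero]
    rw [h] at h1
    have h3 : t • (b - a) = 0 := by
      have : -(t • a) = -(t • b) := by rw [← neg_smul]; exact h1
      rw [smul_sub, neg_inj.1 this]; simp
    exact sub_eq_zero.1 ((smul_eq_zero.1 h3).resolve_left ht)

/-- the main step: a height which is attained in the interior -/
private theorem secd_main {ι : Type} [Fintype ι] {m : ι → E3} {c : ι → ℝ} (hP : Ply m c) {g : E3}
    (hg : Gen m g) {h : ℝ} {x0 : E3} (hx0 : x0 ∈ interior (QQ m c)) (hx0h : ⟪g, x0⟫ = h) :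
      ∃ (C : Set ℂ) (a f : ι → ℂ) (α β : ι → ℝ), Convex ℝ C ∧ IsCompact C ∧
        (interior C).Nonempty ∧ (∀ i, ‖f i‖ = 1) ∧ (∀ i, α i ≤ β i) ∧
        (∀ i, ∀ s ∈ Icc (α i) (β i), a i + (s : ℂ) * f i ∈ frontier C) ∧
        (∀ i j, i ≠ j → (arc (a i) (f i) (α i) (β i) ∩
          arc (a j) (f j) (α j) (β j)).Subsingleton) ∧
        (∀ i, Us m c g i h = Icc (α i) (β i) ∨ (Us m c g i h = ∅ ∧ α i = β i)) ∧
        ∀ i j, ∀ s ∈ Us m c g i h, ∀ t ∈ Us m c g j h,
          ‖(a i + (s : ℂ) * f i) - (a j + (t : ℂ) * f j)‖ =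
            dist (AA g (m i) (c i) h s) (AA g (m j) (c j) h t) := by
  classical
  obtain ⟨L, hL, hsurj⟩ := secd_iso hg.ne
  set p : ℂ → E3 := fun z => x0 + L z with hp
  have hpc : Continuous p := by
    rw [hp]; exact continuous_const.add L.continuous
  set C : Set ℂ := p ⁻¹' (QQ m c) with hC
  have hCcl : IsClosed C := (isClosed_QQ m c).preimage hpc
  have hCcv : Convex ℝ C := by
    intro z hz w hw a b ha hb hab
    have := convex_QQ m c hz hw ha hb hab
    have h2 : a • p z + b • p w = p (a • z + b • w) := by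
      simp only [hp, map_add, map_smul, smul_add]
      have : x0 = a • x0 + b • x0 := by rw [← add_smul, hab, one_smul]
      conv_rhs => rw [this]
      abel
    rw [h2] at this
    exact this
  have hCb : Bornology.IsBounded C := by
    obtain ⟨R, hR⟩ := hP.bdd.exists_norm_le
    refine (isBounded_iff_forall_norm_le).2 ⟨R + ‖x0‖, fun z hz => ?_⟩
    have h1 : ‖p z‖ ≤ R := hR _ hz
    have h2 : ‖z‖ = ‖L z‖ := (L.norm_map z).symm
    have h3 : L z = p z - x0 := by simp [hp]
    rw [h2, h3]
    exact (norm_sub_le _ _).trans (by linarith)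
  have hCcpt : IsCompact C := Metric.isCompact_of_isClosed_isBounded hCcl hCb
  have hCint : (0 : ℂ) ∈ interior C := by
    have h1 : IsOpen (p ⁻¹' interior (QQ m c)) := isOpen_interior.preimage hpc
    have h2 : p ⁻¹' interior (QQ m c) ⊆ C := preimage_mono interior_subset
    apply interior_maximal h2 h1
    show p 0 ∈ interior (QQ m c)
    simpa [hp] using hx0
  -- the frontier is nonempty
  have hfr : (frontier C).Nonempty := by
    rw [nonempty_frontier_iff]
    refine ⟨⟨0, interior_subset hCint⟩, ?_⟩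
    intro hu
    rw [hu] at hCb
    exact (NormedSpace.noncompactSpace ℝ ℂ).noncompact_univ
      (Metric.isCompact_of_isClosed_isBounded isClosed_univ hCb)
  obtain ⟨zf, hzf⟩ := hfr
  -- the points
  have hA : ∀ i, ∃ z, L z = AA g (m i) (c i) h 0 - x0 := by
    intro i
    apply hsurj
    rw [inner_sub_right, (inner_AA (hP.unit i) (hg.par i) (c i) h 0).1, hx0h, sub_self]
  have hF : ∀ i, ∃ z, L z = ff g (m i) := fun i => hsurj _ (ff_spec g (m i)).2.1
  choose A hA using hA
  choose F hF using hF
  have hchoice : ∀ i, ∃ ab : ℝ × ℝ, (Us m c g i h).Nonempty → ab.1 ≤ ab.2 ∧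
      Us m c g i h = Icc ab.1 ab.2 := by
    intro i
    by_cases hne : (Us m c g i h).Nonempty
    · obtain ⟨α, β, h1, h2⟩ := secd_Us hP hg i h hne
      exact ⟨(α, β), fun _ => ⟨h1, h2⟩⟩
    · exact ⟨(0, 0), fun h => absurd h hne⟩
  choose ab hab using hchoice
  set a : ι → ℂ := fun i => if (Us m c g i h).Nonempty then A i else zf with ha
  set f : ι → ℂ := fun i => if (Us m c g i h).Nonempty then F i else 1 with hf
  set α : ι → ℝ := fun i => if (Us m c g i h).Nonempty then (ab i).1 else 0 with hα
  set β : ι → ℝ := fun i => if (Us m c g i h).Nonempty then (ab i).2 else 0 with hβ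
  have hpA : ∀ i, ∀ s : ℝ, p (A i + (s : ℂ) * F i) = AA g (m i) (c i) h s := by
    intro i s
    have h1 : (s : ℂ) * F i = s • F i := by rw [Complex.real_smul]
    rw [h1, secd_AA]
    simp only [hp, map_add, map_smul, hA, hF]
    abel
  -- key facts for nonempty sections
  have hcase : ∀ i, (Us m c g i h).Nonempty → a i = A i ∧ f i = F i ∧ α i = (ab i).1 ∧
      β i = (ab i).2 := by
    intro i hi
    simp only [ha, hf, hα, hβ, if_pos hi]
    exact ⟨trivial, trivial, trivial, trivial⟩
  have hcase' : ∀ i, ¬ (Us m c g i h).Nonempty → a i = zf ∧ f i = 1 ∧ α i = 0 ∧ β i = 0 := by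
    intro i hi
    simp only [ha, hf, hα, hβ, if_neg hi]
    exact ⟨trivial, trivial, trivial, trivial⟩
  refine ⟨C, a, f, α, β, hCcv, hCcpt, ⟨0, hCint⟩, ?_, ?_, ?_, ?_, ?_, ?_⟩
  · intro i
    by_cases hi : (Us m c g i h).Nonempty
    · rw [(hcase i hi).2.1, ← L.norm_map, hF]
      exact (ff_spec g (m i)).1
    · rw [(hcase' i hi).2.1]; simp
  · intro i
    by_cases hi : (Us m c g i h).Nonempty
    · rw [(hcase i hi).2.2.1, (hcase i hi).2.2.2]
      exact (hab i hi).1
    · rw [(hcase' i hi).2.2.1, (hcase' i hi).2.2.2]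
  · intro i s hs
    by_cases hi : (Us m c g i h).Nonempty
    · obtain ⟨e1, e2, e3, e4⟩ := hcase i hi
      rw [e3, e4, ← (hab i hi).2] at hs
      rw [e1, e2]
      have hmem : A i + (s : ℂ) * F i ∈ C := by
        show p _ ∈ QQ m c
        rw [hpA]; exact hs
      rw [hCcl.frontier_eq]
      refine ⟨hmem, fun hint => ?_⟩
      -- direction
      have hg2 : 0 < ‖g‖ ^ 2 := by
        have := norm_pos_iff.2 hg.ne
        positivity
      obtain ⟨z1, hz1⟩ := hsurj (m i - (⟪g, m i⟫ / ‖g‖ ^ 2) • g) (by
        rw [inner_sub_right, inner_smul_right, real_inner_self_eq_norm_sq,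
          div_mul_cancel₀ _ hg2.ne', sub_self])
      have hpos : 0 < ⟪m i, L z1⟫ := by
        rw [hz1, inner_sub_right, inner_smul_right, real_inner_self_eq_norm_sq, hP.unit i,
          real_inner_comm g (m i)]
        have h1 := hg.par i
        have h2 : ⟪g, m i⟫ / ‖g‖ ^ 2 * ⟪g, m i⟫ < 1 := by
          rw [div_mul_eq_mul_div, div_lt_one hg2, ← sq]
          exact h1
        nlinarith
      have hcont : Tendsto (fun ε : ℝ => A i + (s : ℂ) * F i + ε • z1) (𝓝 0)
          (𝓝 (A i + (s : ℂ) * F i)) := by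
        have : Continuous (fun ε : ℝ => A i + (s : ℂ) * F i + ε • z1) := by fun_prop
        have h2 := this.tendsto 0
        simpa using h2
      have hev : ∀ᶠ ε : ℝ in 𝓝 0, A i + (s : ℂ) * F i + ε • z1 ∈ C :=
        hcont.eventually (mem_interior_iff_mem_nhds.1 hint)
      obtain ⟨ε, hε, hεC⟩ := secd_pos hev
      have h5 : ⟪m i, p (A i + (s : ℂ) * F i + ε • z1)⟫ ≤ c i := hεC i
      have h6 : p (A i + (s : ℂ) * F i + ε • z1) = p (A i + (s : ℂ) * F i) + ε • L z1 := by
        simp only [hp, map_add, map_smul]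
        abel
      rw [h6, inner_add_right, inner_smul_right, hpA,
        (inner_AA (hP.unit i) (hg.par i) (c i) h s).2] at h5
      have h7 : 0 < ε * ⟪m i, L z1⟫ := mul_pos hε hpos
      linarith
    · obtain ⟨e1, e2, e3, e4⟩ := hcase' i hi
      rw [e3, e4, Icc_self, mem_singleton_iff] at hs
      rw [e1, e2, hs]
      simpa using hzf
  · intro i j hij
    by_cases hi : (Us m c g i h).Nonempty
    swap
    · obtain ⟨e1, e2, e3, e4⟩ := hcase' i hi
      rw [e1, e2, e3, e4]
      unfold arc
      rw [Icc_self, image_singleton]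
      exact subsingleton_singleton.anti inter_subset_left
    by_cases hj : (Us m c g j h).Nonempty
    swap
    · obtain ⟨e1, e2, e3, e4⟩ := hcase' j hj
      rw [e1, e2, e3, e4]
      unfold arc
      rw [Icc_self (0 : ℝ), image_singleton]
      exact subsingleton_singleton.anti inter_subset_right
    obtain ⟨e1, e2, e3, e4⟩ := hcase i hi
    obtain ⟨d1, d2, d3, d4⟩ := hcase j hj
    rw [e1, e2, e3, e4, d1, d2, d3, d4]
    have key : ∀ z, z ∈ arc (A i) (F i) (ab i).1 (ab i).2 ∩ arc (A j) (F j) (ab j).1 (ab j).2 →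
        ⟪m i, p z⟫ = c i ∧ ⟪m j, p z⟫ = c j := by
      rintro z ⟨⟨s, hs, hs2⟩, ⟨t, ht, ht2⟩⟩
      constructor
      · rw [← hs2]
        simp only
        rw [hpA]
        exact (inner_AA (hP.unit i) (hg.par i) (c i) h s).2
      · rw [← ht2]
        simp only
        rw [hpA]
        exact (inner_AA (hP.unit j) (hg.par j) (c j) h t).2
    intro z hz z' hz'
    by_contra hne
    obtain ⟨k1, k2⟩ := key z hz
    obtain ⟨k3, k4⟩ := key z' hz'
    have hwne : L (z - z') ≠ 0 := by
      intro h0
      apply hne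
      have : ‖z - z'‖ = 0 := by rw [← L.norm_map, h0, norm_zero]
      exact sub_eq_zero.1 (norm_eq_zero.1 this)
    have hw : L (z - z') = p z - p z' := by
      simp only [hp, map_sub]
      abel
    by_cases hli : LinearIndependent ℝ ![m i, m j]
    · apply hwne
      apply secd_zero hli (hg.pair i j hli) (hL _)
      · rw [hw, inner_sub_right, k1, k3, sub_self]
      · rw [hw, inner_sub_right, k2, k4, sub_self]
    · rcases secd_dep (hP.unit i) (hP.unit j) hli with h1 | h1
      · apply hij
        apply hP.inj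
        simp only [Prod.mk.injEq]
        refine ⟨h1.symm, ?_⟩
        rw [← k1, ← k2, h1]
      · have hcc : c j = - c i := by
          rw [← k1, ← k2, h1, inner_neg_left]
        have heq : ∀ x ∈ QQ m c, ⟪m i, x⟫ = c i := by
          intro x hx
          have h2 := hx i
          have h3 := hx j
          rw [h1, hcc, inner_neg_left] at h3
          linarith
        have hcont : Tendsto (fun ε : ℝ => x0 + ε • m i) (𝓝 0) (𝓝 x0) := by
          have : Continuous (fun ε : ℝ => x0 + ε • m i) := by fun_prop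
          have h2 := this.tendsto 0
          simpa using h2
        have hev : ∀ᶠ ε : ℝ in 𝓝 0, x0 + ε • m i ∈ QQ m c :=
          hcont.eventually (mem_interior_iff_mem_nhds.1 hx0)
        obtain ⟨ε, hε, hεC⟩ := secd_pos hev
        have h5 := heq _ hεC
        have h6 := heq _ (interior_subset hx0)
        rw [inner_add_right, inner_smul_right, real_inner_self_eq_norm_sq, hP.unit i, h6] at h5
        have : (0 : ℝ) < ε := hε
        linarith
  · intro i
    by_cases hi : (Us m c g i h).Nonempty
    · left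
      rw [(hcase i hi).2.2.1, (hcase i hi).2.2.2]
      exact (hab i hi).2
    · right
      rw [(hcase' i hi).2.2.1, (hcase' i hi).2.2.2]
      exact ⟨not_nonempty_iff_eq_empty.1 hi, rfl⟩
  · intro i j s hs t ht
    have hi : (Us m c g i h).Nonempty := ⟨s, hs⟩
    have hj : (Us m c g j h).Nonempty := ⟨t, ht⟩
    rw [(hcase i hi).1, (hcase i hi).2.1, (hcase j hj).1, (hcase j hj).2.1, ← L.norm_map,
      dist_eq_norm, ← hpA, ← hpA]
    congr 1
    simp only [hp, map_sub]
    abel

theorem sec_data {ι : Type} [Fintype ι] {m : ι → E3} {c : ι → ℝ} (hP : Ply m c) {g : E3}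
    (hg : Gen m g) : ∀ᵐ h : ℝ, (∀ i, Us m c g i h = ∅) ∨
      ∃ (C : Set ℂ) (a f : ι → ℂ) (α β : ι → ℝ), Convex ℝ C ∧ IsCompact C ∧
        (interior C).Nonempty ∧ (∀ i, ‖f i‖ = 1) ∧ (∀ i, α i ≤ β i) ∧
        (∀ i, ∀ s ∈ Icc (α i) (β i), a i + (s : ℂ) * f i ∈ frontier C) ∧
        (∀ i j, i ≠ j → (arc (a i) (f i) (α i) (β i) ∩
          arc (a j) (f j) (α j) (β j)).Subsingleton) ∧
        (∀ i, Us m c g i h = Icc (α i) (β i) ∨ (Us m c g i h = ∅ ∧ α i = β i)) ∧
        ∀ i j, ∀ s ∈ Us m c g i h, ∀ t ∈ Us m c g j h,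
          ‖(a i + (s : ℂ) * f i) - (a j + (t : ℂ) * f j)‖ =
            dist (AA g (m i) (c i) h s) (AA g (m j) (c j) h t) := by
  set J : Set ℝ := (fun x : E3 => ⟪g, x⟫) '' (QQ m c) with hJ
  have hJcv : Convex ℝ J := by
    have := (convex_QQ m c).linear_image (innerₛₗ ℝ g)
    exact this
  have hfr : volume (frontier J) = 0 := hJcv.addHaar_frontier volume
  have hae : ∀ᵐ h : ℝ, h ∉ frontier J := by
    rw [ae_iff]
    simpa using hfr
  filter_upwards [hae] with h hh
  by_cases hhJ : h ∈ J
  · right
    have hint : h ∈ interior J := by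
      by_contra hni
      exact hh ⟨subset_closure hhJ, hni⟩
    have hQcl : QQ m c ⊆ closure (interior (QQ m c)) := by
      rw [(convex_QQ m c).closure_interior_eq_closure_of_nonempty_interior hP.int]
      exact subset_closure
    have hcont : Continuous (fun x : E3 => ⟪g, x⟫) := by fun_prop
    obtain ⟨r, hr, hball⟩ := Metric.isOpen_iff.1 isOpen_interior h hint
    have hlo : h - r / 2 ∈ J := by
      apply interior_subset
      apply hball
      rw [Metric.mem_ball, Real.dist_eq]
      rw [abs_lt]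
      constructor <;> linarith
    have hhi : h + r / 2 ∈ J := by
      apply interior_subset
      apply hball
      rw [Metric.mem_ball, Real.dist_eq]
      rw [abs_lt]
      constructor <;> linarith
    obtain ⟨q1, hq1, hq1h⟩ := hlo
    obtain ⟨q2, hq2, hq2h⟩ := hhi
    simp only at hq1h hq2h
    obtain ⟨y1, hy1, hy1i⟩ := mem_closure_iff.1 (hQcl hq1) {x : E3 | ⟪g, x⟫ < h}
      (isOpen_lt hcont continuous_const) (by show ⟪g, q1⟫ < h; rw [hq1h]; linarith)
    obtain ⟨y2, hy2, hy2i⟩ := mem_closure_iff.1 (hQcl hq2) {x : E3 | h < ⟪g, x⟫}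
      (isOpen_lt continuous_const hcont) (by show h < ⟪g, q2⟫; rw [hq2h]; linarith)
    have hpre : IsPreconnected (interior (QQ m c)) := (convex_QQ m c).interior.isPreconnected
    obtain ⟨x0, hx0, hx0h⟩ := hpre.intermediate_value hy1i hy2i hcont.continuousOn
      ⟨le_of_lt hy1, le_of_lt hy2⟩
    exact secd_main hP hg hx0 hx0h
  · left
    intro i
    rw [eq_empty_iff_forall_notMem]
    intro s hs
    exact hhJ ⟨_, hs, (inner_AA (hP.unit i) (hg.par i) (c i) h s).1⟩

end Pool.Agent.Helper83.CP
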