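import Pool.Agent.Helper83.CP.Defs
import Pool.Agent.Helper83.CP.PLset
import Pool.Agent.Helper83.CP.SecData

/-!
# Project CP (helper83), module PLsec
The planar lemma applied to the plane sections of the polytope.

Proof. `sec_data`. If all `Us` are empty, `Bh = 0`. Otherwise apply `PLset` with the weights `b i = (rr g (m i))⁻¹` and rewrite: `volume (Us i h) = ofReal (β i - α i)`, `Bh = ofReal (∑ b i (β i - α i))`, `bh = ofReal (∑ b i² (β i - α i))`,
`Th = ofReal (∑ ∑ b i b j ∫∫ ‖..‖)` (the integral over `Us i h` is the interval integral; if `Us i h = ∅` both are `0`).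
-/

set_option autoImplicit false

open MeasureTheory Set Filter Topology Metric
open scoped RealInnerProductSpace ENNReal NNReal

namespace Pool.Agent.Helper83.CP

open Pool.Agent.Helper1.CK (E3 nEnergy V1 Content Good)

private theorem lint_eq {U : Set ℝ} {α β : ℝ} (h : α ≤ β) (hU : U = Icc α β ∨ (U = ∅ ∧ α = β))
    {F : ℝ → ℝ} (hF : Continuous F) (h0 : ∀ s, 0 ≤ F s) :
    ∫⁻ s in U, ENNReal.ofReal (F s) = ENNReal.ofReal (∫ s in α..β, F s) := by
  rcases hU with hU | ⟨hU, hab⟩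
  · rw [hU, intervalIntegral.integral_of_le h, ← integral_Icc_eq_integral_Ioc,
      ofReal_integral_eq_lintegral_ofReal]
    · exact hF.continuousOn.integrableOn_Icc
    · exact ae_of_all _ h0
  · rw [hU, hab, intervalIntegral.integral_same]
    simp

private theorem vol_eq {U : Set ℝ} {α β : ℝ} (hU : U = Icc α β ∨ (U = ∅ ∧ α = β)) :
    volume U = ENNReal.ofReal (β - α) := by
  rcases hU with hU | ⟨hU, hab⟩
  · rw [hU, Real.volume_Icc]
  · rw [hU, hab, sub_self, ENNReal.ofReal_zero, measure_empty]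

private theorem meas_eq {U : Set ℝ} {α β : ℝ} (hU : U = Icc α β ∨ (U = ∅ ∧ α = β)) :
    MeasurableSet U := by
  rcases hU with hU | ⟨hU, _⟩
  · rw [hU]; exact measurableSet_Icc
  · rw [hU]; exact MeasurableSet.empty

theorem PLsec {ι : Type} [Fintype ι] {m : ι → E3} {c : ι → ℝ} (hP : Ply m c) {g : E3}
    (hg : Gen m g) : ∀ᵐ h : ℝ,
      ENNReal.ofReal (Real.pi ^ 2 / 64) * Bh m c g h ^ 4 ≤ bh m c g h * Th m c g h := by
  filter_upwards [sec_data hP hg] with h hh
  rcases hh with hh | ⟨C, a, f, α, β, hC, hk, hi, hf, hαβ, hfr, hdis, hU, hd⟩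
  · have h1 : Bh m c g h = 0 := by
      unfold Bh
      refine Finset.sum_eq_zero fun i _ => ?_
      rw [hh i, measure_empty, mul_zero]
    rw [h1]
    simp
  · have hb : ∀ i, 0 ≤ (rr g (m i))⁻¹ := fun i => inv_nonneg.2 (Real.sqrt_nonneg _)
    have hba : ∀ i, 0 ≤ β i - α i := fun i => sub_nonneg.2 (hαβ i)
    have key := PLset hC hk hi a f hf α β hαβ hfr hdis (fun i => (rr g (m i))⁻¹) hb
    have hB : Bh m c g h = ENNReal.ofReal (∑ i, (rr g (m i))⁻¹ * (β i - α i)) := by
      unfold Bh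
      rw [ENNReal.ofReal_sum_of_nonneg fun i _ => mul_nonneg (hb i) (hba i)]
      refine Finset.sum_congr rfl fun i _ => ?_
      rw [vol_eq (hU i), ENNReal.ofReal_mul (hb i)]
    have hB2 : bh m c g h = ENNReal.ofReal (∑ i, (rr g (m i))⁻¹ ^ 2 * (β i - α i)) := by
      unfold bh
      rw [ENNReal.ofReal_sum_of_nonneg fun i _ => mul_nonneg (pow_nonneg (hb i) 2) (hba i)]
      refine Finset.sum_congr rfl fun i _ => ?_
      rw [vol_eq (hU i), ENNReal.ofReal_mul (pow_nonneg (hb i) 2), ENNReal.ofReal_pow (hb i)]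
    have hcF : ∀ i j, Continuous fun p : ℝ × ℝ =>
        ‖(a i + (p.1 : ℂ) * f i) - (a j + (p.2 : ℂ) * f j)‖ := by
      intro i j
      fun_prop
    have hcG : ∀ i j, Continuous fun s : ℝ => ∫ t in (α j)..(β j),
        ‖(a i + (s : ℂ) * f i) - (a j + (t : ℂ) * f j)‖ := by
      intro i j
      exact intervalIntegral.continuous_parametric_intervalIntegral_of_continuous' (hcF i j) _ _
    have hG0 : ∀ i j, ∀ s : ℝ, 0 ≤ ∫ t in (α j)..(β j),
        ‖(a i + (s : ℂ) * f i) - (a j + (t : ℂ) * f j)‖ := by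
      intro i j s
      exact intervalIntegral.integral_nonneg (hαβ j) fun t _ => norm_nonneg _
    have hII0 : ∀ i j, 0 ≤ ∫ s in (α i)..(β i), ∫ t in (α j)..(β j),
        ‖(a i + (s : ℂ) * f i) - (a j + (t : ℂ) * f j)‖ := by
      intro i j
      exact intervalIntegral.integral_nonneg (hαβ i) fun t _ => hG0 i j t
    have hpair : ∀ i j, (∫⁻ s in Us m c g i h, ∫⁻ s' in Us m c g j h,
        edist (AA g (m i) (c i) h s) (AA g (m j) (c j) h s')) =
        ENNReal.ofReal (∫ s in (α i)..(β i), ∫ t in (α j)..(β j),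
          ‖(a i + (s : ℂ) * f i) - (a j + (t : ℂ) * f j)‖) := by
      intro i j
      rw [← lint_eq (hαβ i) (hU i) (hcG i j) (hG0 i j)]
      refine setLIntegral_congr_fun (meas_eq (hU i)) fun s hs => ?_
      show (∫⁻ s' in Us m c g j h, edist (AA g (m i) (c i) h s) (AA g (m j) (c j) h s')) =
        ENNReal.ofReal (∫ t in (α j)..(β j), ‖(a i + (s : ℂ) * f i) - (a j + (t : ℂ) * f j)‖)
      rw [← lint_eq (hαβ j) (hU j) (F := fun t : ℝ =>
        ‖(a i + (s : ℂ) * f i) - (a j + (t : ℂ) * f j)‖) (by fun_prop) fun t => norm_nonneg _]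
      refine setLIntegral_congr_fun (meas_eq (hU j)) fun t ht => ?_
      show edist (AA g (m i) (c i) h s) (AA g (m j) (c j) h t) =
        ENNReal.ofReal ‖(a i + (s : ℂ) * f i) - (a j + (t : ℂ) * f j)‖
      rw [hd i j s hs t ht, edist_dist]
    have hT : Th m c g h = ENNReal.ofReal (∑ i, ∑ j, (rr g (m i))⁻¹ * (rr g (m j))⁻¹ *
        ∫ s in (α i)..(β i), ∫ t in (α j)..(β j),
          ‖(a i + (s : ℂ) * f i) - (a j + (t : ℂ) * f j)‖) := by
      unfold Th
      rw [ENNReal.ofReal_sum_of_nonneg fun i _ => Finset.sum_nonneg fun j _ =>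
        mul_nonneg (mul_nonneg (hb i) (hb j)) (hII0 i j)]
      refine Finset.sum_congr rfl fun i _ => ?_
      rw [ENNReal.ofReal_sum_of_nonneg fun j _ =>
        mul_nonneg (mul_nonneg (hb i) (hb j)) (hII0 i j)]
      refine Finset.sum_congr rfl fun j _ => ?_
      rw [hpair i j, ENNReal.ofReal_mul (mul_nonneg (hb i) (hb j)), ENNReal.ofReal_mul (hb i)]
    have hS0 : 0 ≤ ∑ i, (rr g (m i))⁻¹ * (β i - α i) :=
      Finset.sum_nonneg fun i _ => mul_nonneg (hb i) (hba i)
    have hS20 : 0 ≤ ∑ i, (rr g (m i))⁻¹ ^ 2 * (β i - α i) :=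
      Finset.sum_nonneg fun i _ => mul_nonneg (pow_nonneg (hb i) 2) (hba i)
    rw [hB, hB2, hT, ← ENNReal.ofReal_pow hS0, ← ENNReal.ofReal_mul (by positivity),
      ← ENNReal.ofReal_mul hS20]
    exact ENNReal.ofReal_le_ofReal key

end Pool.Agent.Helper83.CP
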