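import Pool.Agent.Helper83.CP.Defs
import Pool.Agent.Helper83.CP.FaceInt

/-!
# Project CP (helper83), module TeGe
`∫ Th dh ≤ liminf_k Te(σ,e_k,g)`.

`Te(σ,ε,g) = ∑_ij rr_i⁻¹ rr_j⁻¹ ∫ dh ∫_{Us_i(h)} ds ∫ dh' kk(ε,h-h') ∫_{Us_j(h')} ds' |AA_i(h,s) - AA_j(h',s')|` (`lintegral_sg` twice). Substitute `h' = h - ε r`:
`kk(ε,h-h') dh' = (1/2) 1[|r| < 1] dr`. Fatou in all variables `(h,s,r,s')` for `ε = e_k → 0`: the integrand with the indicator of `s' ∈ Us_j(h - ε r)`; for a.e. `(h,s')` the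
indicator is eventually at least the indicator of `s' ∈ Us_j(h)`, because `{(h,s') : s' ∈ Us_j(h)}` is a closed convex set (`isClosed_Us`, `convex_Us`), its frontier is null
(`Convex.addHaar_frontier`), and at interior points the indicator at `(h - ε r, s')` is eventually 1. The distance converges by continuity, and `∫ (1/2) 1[|r|<1] dr = 1`.
-/

set_option autoImplicit false

open MeasureTheory Set Filter Topology Metric
open scoped RealInnerProductSpace ENNReal NNReal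

namespace Pool.Agent.Helper83.CP

open Pool.Agent.Helper1.CK (E3 nEnergy V1 Content Good)

open Classical in
/-- indicator of the section parameters of the face `i` -/
private noncomputable def ii {ι : Type} (m : ι → E3) (c : ι → ℝ) (g : E3) (i : ι)
    (h s : ℝ) : ℝ≥0∞ :=
  if s ∈ Us m c g i h then 1 else 0

private theorem ii_of_mem {ι : Type} {m : ι → E3} {c : ι → ℝ} {g : E3} {i : ι} {h s : ℝ}
    (hs : s ∈ Us m c g i h) : ii m c g i h s = 1 := if_pos hs

private theorem ii_of_notMem {ι : Type} {m : ι → E3} {c : ι → ℝ} {g : E3} {i : ι} {h s : ℝ}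
    (hs : s ∉ Us m c g i h) : ii m c g i h s = 0 := if_neg hs

private theorem ii_ne_top {ι : Type} (m : ι → E3) (c : ι → ℝ) (g : E3) (i : ι) (h s : ℝ) :
    ii m c g i h s ≠ ⊤ := by
  unfold ii
  split_ifs
  · exact ENNReal.one_ne_top
  · exact ENNReal.zero_ne_top

private theorem measurable_ii {ι : Type} (m : ι → E3) (c : ι → ℝ) (g : E3) (i : ι) :
    Measurable fun p : ℝ × ℝ => ii m c g i p.1 p.2 := by
  unfold ii
  exact Measurable.ite (isClosed_Us m c g i).measurableSet measurable_const measurable_const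

private theorem measurableSet_Us {ι : Type} (m : ι → E3) (c : ι → ℝ) (g : E3) (i : ι) (h : ℝ) :
    MeasurableSet (Us m c g i h) := by
  have h1 : Measurable fun s : ℝ => (h, s) := measurable_const.prodMk measurable_id
  exact h1 (isClosed_Us m c g i).measurableSet

private theorem setL_Us {ι : Type} (m : ι → E3) (c : ι → ℝ) (g : E3) (i : ι) (h : ℝ)
    (F : ℝ → ℝ≥0∞) : ∫⁻ s in Us m c g i h, F s = ∫⁻ s, ii m c g i h s * F s := by
  rw [← lintegral_indicator (measurableSet_Us m c g i h)]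
  refine lintegral_congr fun s => ?_
  by_cases hs : s ∈ Us m c g i h
  · rw [indicator_of_mem hs, ii_of_mem hs, one_mul]
  · rw [indicator_of_notMem hs, ii_of_notMem hs, zero_mul]

private theorem measurable_kk (ε : ℝ) : Measurable (kk ε) := by
  unfold kk
  exact Measurable.ite (measurableSet_lt measurable_norm measurable_const) measurable_const
    measurable_const

private theorem lint_kk_one : ∫⁻ r, kk 1 r = 1 := by
  have h1 : (fun r => kk 1 r) = (Ioo (-1 : ℝ) 1).indicator fun _ => ENNReal.ofReal (1 / 2) := by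
    funext r
    unfold kk
    by_cases hh : |r| < 1
    · have hm : r ∈ Ioo (-1 : ℝ) 1 := abs_lt.1 hh
      rw [if_pos hh, indicator_of_mem hm, mul_one]
    · have hm : r ∉ Ioo (-1 : ℝ) 1 := fun hm => hh (abs_lt.2 hm)
      rw [if_neg hh, indicator_of_notMem hm]
  rw [h1, lintegral_indicator measurableSet_Ioo, setLIntegral_const, Real.volume_Ioo,
    ← ENNReal.ofReal_mul (by positivity)]
  have : (1 : ℝ) / 2 * (1 - -1) = 1 := by norm_num
  rw [this, ENNReal.ofReal_one]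

private theorem kk_ne_top (ε r : ℝ) : kk ε r ≠ ⊤ := by
  unfold kk
  split_ifs
  · exact ENNReal.ofReal_ne_top
  · exact ENNReal.zero_ne_top

/-- substitution `h' = a - ε r` -/
private theorem subst_kk {ε : ℝ} (hε : 0 < ε) (a : ℝ) {Ψ : ℝ → ℝ≥0∞} (hΨ : Measurable Ψ) :
    ∫⁻ h', kk ε (a - h') * Ψ h' = ∫⁻ r, kk 1 r * Ψ (a - ε * r) := by
  have hk := measurable_kk ε
  have hm : Measurable fun t : ℝ => kk ε t * Ψ (a - t) :=
    hk.mul (hΨ.comp (measurable_const.sub measurable_id))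
  have h1 : ∫⁻ h', kk ε (a - h') * Ψ h' = ∫⁻ t, kk ε t * Ψ (a - t) := by
    rw [← lintegral_sub_left_eq_self (fun t => kk ε t * Ψ (a - t)) a]
    refine lintegral_congr fun t => ?_
    rw [sub_sub_cancel]
  have h2 : ∫⁻ r, kk ε (ε * r) * Ψ (a - ε * r) =
      ENNReal.ofReal ε⁻¹ * ∫⁻ t, kk ε t * Ψ (a - t) := by
    have h3 : ∫⁻ r, kk ε (ε * r) * Ψ (a - ε * r) =
        ∫⁻ t, kk ε t * Ψ (a - t) ∂(Measure.map (ε * ·) volume) :=
      (lintegral_map (f := fun t => kk ε t * Ψ (a - t)) hm (measurable_const_mul ε)).symm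
    rw [h3, Real.map_volume_mul_left hε.ne', lintegral_smul_measure,
      abs_of_pos (inv_pos.2 hε), smul_eq_mul]
  have h4 : ∀ r, kk 1 r = ENNReal.ofReal ε * kk ε (ε * r) := by
    intro r
    unfold kk
    by_cases hr : |r| < 1
    · have h5 : |ε * r| < ε := by
        rw [abs_mul, abs_of_pos hε]
        calc ε * |r| < ε * 1 := mul_lt_mul_of_pos_left hr hε
          _ = ε := mul_one ε
      rw [if_pos hr, if_pos h5, ← ENNReal.ofReal_mul hε.le]
      congr 1
      field_simp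
    · have h5 : ¬ |ε * r| < ε := by
        intro h6
        apply hr
        rw [abs_mul, abs_of_pos hε] at h6
        nlinarith [abs_nonneg r]
      rw [if_neg hr, if_neg h5, mul_zero]
  have h6 : ∫⁻ r, kk 1 r * Ψ (a - ε * r) =
      ENNReal.ofReal ε * ∫⁻ r, kk ε (ε * r) * Ψ (a - ε * r) := by
    rw [← lintegral_const_mul' _ _ ENNReal.ofReal_ne_top]
    refine lintegral_congr fun r => ?_
    rw [h4 r, mul_assoc]
  rw [h6, h2, h1, ← mul_assoc, ← ENNReal.ofReal_mul hε.le, mul_inv_cancel₀ hε.ne',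
    ENNReal.ofReal_one, one_mul]

/-- the integrand -/
private noncomputable def GG (u v : ℝ → ℝ → ℝ≥0∞) (A B : ℝ → ℝ → E3)
    (ε h s r s' : ℝ) : ℝ≥0∞ :=
  u h s * (kk 1 r * (v (h - ε * r) s' * edist (A h s) (B (h - ε * r) s')))

private theorem measurable_GG {u v : ℝ → ℝ → ℝ≥0∞} {A B : ℝ → ℝ → E3}
    (hu : Measurable fun p : ℝ × ℝ => u p.1 p.2) (hv : Measurable fun p : ℝ × ℝ => v p.1 p.2)
    (hA : Measurable fun p : ℝ × ℝ => A p.1 p.2) (hB : Measurable fun p : ℝ × ℝ => B p.1 p.2)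
    (ε : ℝ) :
    Measurable fun q : ((ℝ × ℝ) × ℝ) × ℝ => GG u v A B ε q.1.1.1 q.1.1.2 q.1.2 q.2 := by
  unfold GG
  have h1 : Measurable fun q : ((ℝ × ℝ) × ℝ) × ℝ => (q.1.1.1, q.1.1.2) := by fun_prop
  have h2 : Measurable fun q : ((ℝ × ℝ) × ℝ) × ℝ => (q.1.1.1 - ε * q.1.2, q.2) := by fun_prop
  have h3 : Measurable fun q : ((ℝ × ℝ) × ℝ) × ℝ => kk 1 q.1.2 :=
    (measurable_kk 1).comp (by fun_prop)
  exact (hu.comp h1).mul (h3.mul ((hv.comp h2).mul ((hA.comp h1).edist (hB.comp h2))))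

private theorem measurable_G1 {u v : ℝ → ℝ → ℝ≥0∞} {A B : ℝ → ℝ → E3}
    (hu : Measurable fun p : ℝ × ℝ => u p.1 p.2) (hv : Measurable fun p : ℝ × ℝ => v p.1 p.2)
    (hA : Measurable fun p : ℝ × ℝ => A p.1 p.2) (hB : Measurable fun p : ℝ × ℝ => B p.1 p.2)
    (ε : ℝ) :
    Measurable fun q : (ℝ × ℝ) × ℝ => ∫⁻ s', GG u v A B ε q.1.1 q.1.2 q.2 s' :=
  (measurable_GG hu hv hA hB ε).lintegral_prod_right'

private theorem measurable_G2 {u v : ℝ → ℝ → ℝ≥0∞} {A B : ℝ → ℝ → E3}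
    (hu : Measurable fun p : ℝ × ℝ => u p.1 p.2) (hv : Measurable fun p : ℝ × ℝ => v p.1 p.2)
    (hA : Measurable fun p : ℝ × ℝ => A p.1 p.2) (hB : Measurable fun p : ℝ × ℝ => B p.1 p.2)
    (ε : ℝ) :
    Measurable fun q : ℝ × ℝ => ∫⁻ r, ∫⁻ s', GG u v A B ε q.1 q.2 r s' :=
  (measurable_G1 hu hv hA hB ε).lintegral_prod_right'

private theorem measurable_G3 {u v : ℝ → ℝ → ℝ≥0∞} {A B : ℝ → ℝ → E3}
    (hu : Measurable fun p : ℝ × ℝ => u p.1 p.2) (hv : Measurable fun p : ℝ × ℝ => v p.1 p.2)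
    (hA : Measurable fun p : ℝ × ℝ => A p.1 p.2) (hB : Measurable fun p : ℝ × ℝ => B p.1 p.2)
    (ε : ℝ) :
    Measurable fun h : ℝ => ∫⁻ s, ∫⁻ r, ∫⁻ s', GG u v A B ε h s r s' :=
  (measurable_G2 hu hv hA hB ε).lintegral_prod_right'

private theorem G_zero {u v : ℝ → ℝ → ℝ≥0∞} (A B : ℝ → ℝ → E3) (hu : ∀ h s, u h s ≠ ⊤)
    (h : ℝ) : ∫⁻ s, ∫⁻ r, ∫⁻ s', GG u v A B 0 h s r s' =
      ∫⁻ s, u h s * ∫⁻ s', v h s' * edist (A h s) (B h s') := by
  refine lintegral_congr fun s => ?_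
  unfold GG
  simp only [zero_mul, sub_zero]
  simp only [lintegral_const_mul' _ _ (hu h s), lintegral_const_mul' _ _ (kk_ne_top 1 _)]
  congr 1
  rw [lintegral_mul_const _ (measurable_kk 1), lint_kk_one, one_mul]

/-- the inner integral -/
private noncomputable def KK (g : E3) (v : ℝ → ℝ → ℝ≥0∞) (B : ℝ → ℝ → E3) (ε : ℝ) (x : E3) :
    ℝ≥0∞ :=
  ∫⁻ r, ∫⁻ s', kk 1 r * (v (⟪g, x⟫ - ε * r) s' * edist x (B (⟪g, x⟫ - ε * r) s'))

private theorem measurable_KK (g : E3) {v : ℝ → ℝ → ℝ≥0∞} {B : ℝ → ℝ → E3}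
    (hv : Measurable fun p : ℝ × ℝ => v p.1 p.2)
    (hB : Measurable fun p : ℝ × ℝ => B p.1 p.2) (ε : ℝ) : Measurable (KK g v B ε) := by
  have hin : Measurable fun x : E3 => ⟪g, x⟫ := (continuous_const.inner continuous_id).measurable
  have h2 : Measurable fun q : (E3 × ℝ) × ℝ => (⟪g, q.1.1⟫ - ε * q.1.2, q.2) :=
    ((hin.comp (measurable_fst.comp measurable_fst)).sub (by fun_prop)).prodMk measurable_snd
  have h3 : Measurable fun q : (E3 × ℝ) × ℝ => kk 1 q.1.2 :=
    (measurable_kk 1).comp (by fun_prop)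
  have hK : Measurable fun q : (E3 × ℝ) × ℝ => kk 1 q.1.2 *
      (v (⟪g, q.1.1⟫ - ε * q.1.2) q.2 *
          edist q.1.1 (B (⟪g, q.1.1⟫ - ε * q.1.2) q.2)) :=
    h3.mul ((hv.comp h2).mul ((measurable_fst.comp measurable_fst).edist (hB.comp h2)))
  exact (hK.lintegral_prod_right' : Measurable fun q : E3 × ℝ => ∫⁻ s', kk 1 q.2 *
      (v (⟪g, q.1⟫ - ε * q.2) s' *
          edist q.1 (B (⟪g, q.1⟫ - ε * q.2) s'))).lintegral_prod_right'

private theorem KK_eq (g : E3) {v : ℝ → ℝ → ℝ≥0∞} {B : ℝ → ℝ → E3}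
    (hv : Measurable fun p : ℝ × ℝ => v p.1 p.2)
    (hB : Measurable fun p : ℝ × ℝ => B p.1 p.2) {ε : ℝ} (hε : 0 < ε) (x : E3) :
    ∫⁻ h', ∫⁻ s', v h' s' * (kk ε (⟪g, x⟫ - h') * edist x (B h' s')) = KK g v B ε x := by
  have hΨ : Measurable fun h' : ℝ => ∫⁻ s', v h' s' * edist x (B h' s') := by
    have : Measurable fun p : ℝ × ℝ => v p.1 p.2 * edist x (B p.1 p.2) :=
      hv.mul (measurable_const.edist hB)
    exact this.lintegral_prod_right'
  have h1 := subst_kk hε ⟪g, x⟫ hΨ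
  unfold KK
  simp only [lintegral_const_mul' _ _ (kk_ne_top 1 _)]
  rw [← h1]
  refine lintegral_congr fun h' => ?_
  rw [← lintegral_const_mul' _ _ (kk_ne_top _ _)]
  refine lintegral_congr fun s' => ?_
  ring

private theorem GG_KK (g : E3) {u v : ℝ → ℝ → ℝ≥0∞} {A B : ℝ → ℝ → E3}
    (hu : ∀ h s, u h s ≠ ⊤) (hA : ∀ h s, ⟪g, A h s⟫ = h) (ε : ℝ) :
    ∫⁻ h, ∫⁻ s, u h s * KK g v B ε (A h s) =
      ∫⁻ h, ∫⁻ s, ∫⁻ r, ∫⁻ s', GG u v A B ε h s r s' := by
  refine lintegral_congr fun h => lintegral_congr fun s => ?_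
  unfold KK GG
  rw [hA, ← lintegral_const_mul' _ _ (hu h s)]
  refine lintegral_congr fun r => ?_
  rw [← lintegral_const_mul' _ _ (hu h s)]

private theorem sum_liminf {κ : Type} [Fintype κ] (a : ℕ → κ → ℝ≥0∞) :
    ∑ i, liminf (fun k => a k i) atTop ≤ liminf (fun k => ∑ i, a k i) atTop := by
  let _ : MeasurableSpace κ := ⊤
  have _ : MeasurableSingletonClass κ := ⟨fun _ => trivial⟩
  have h := lintegral_liminf_le (μ := (Measure.count : Measure κ)) (f := a)
    (u := (atTop : Filter ℕ)) (fun k => measurable_from_top)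
  simpa only [lintegral_count, tsum_fintype] using h

private theorem tendsto_ek (h r : ℝ) : Tendsto (fun k => h - ek k * r) atTop (𝓝 h) := by
  have h1 : Tendsto ek atTop (𝓝 0) := by
    unfold ek
    exact tendsto_one_div_add_atTop_nhds_zero_nat
  have h2 := (h1.mul_const r).const_sub h
  simpa using h2

private theorem GG_liminf {u v : ℝ → ℝ → ℝ≥0∞} {A B : ℝ → ℝ → E3} (hu : ∀ h s, u h s ≠ ⊤)
    (hB : Continuous fun p : ℝ × ℝ => B p.1 p.2) (h s r s' : ℝ)
    (hv : v h s' = 0 ∨ ∀ᶠ p : ℝ × ℝ in 𝓝 (h, s'), v p.1 p.2 = 1) :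
    GG u v A B 0 h s r s' ≤ liminf (fun k => GG u v A B (ek k) h s r s') atTop := by
  rcases hv with hs | hs
  · have h0 : GG u v A B 0 h s r s' = 0 := by
      unfold GG
      rw [zero_mul, sub_zero, hs, zero_mul, mul_zero, mul_zero]
    rw [h0]
    exact bot_le
  · have ht : Tendsto (fun k => (h - ek k * r, s')) atTop (𝓝 (h, s')) :=
      (tendsto_ek h r).prodMk_nhds tendsto_const_nhds
    have hev : ∀ᶠ k in atTop, v (h - ek k * r) s' = 1 := ht.eventually hs
    have hed : Tendsto (fun k => edist (A h s) (B (h - ek k * r) s')) atTop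
        (𝓝 (edist (A h s) (B h s'))) := by
      have h1 : Tendsto (fun k => B (h - ek k * r) s') atTop (𝓝 (B h s')) :=
        (hB.tendsto (h, s')).comp ht
      exact tendsto_const_nhds.edist h1
    have hT : Tendsto (fun k => u h s * (kk 1 r * edist (A h s) (B (h - ek k * r) s'))) atTop
        (𝓝 (u h s * (kk 1 r * edist (A h s) (B h s')))) :=
      ENNReal.Tendsto.const_mul (ENNReal.Tendsto.const_mul hed (Or.inr (kk_ne_top 1 r)))
        (Or.inr (hu h s))
    have hT' : Tendsto (fun k => GG u v A B (ek k) h s r s') atTop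
        (𝓝 (GG u v A B 0 h s r s')) := by
      have h0 : GG u v A B 0 h s r s' = u h s * (kk 1 r * edist (A h s) (B h s')) := by
        unfold GG
        have h1 : v h s' = 1 := hs.self_of_nhds
        rw [zero_mul, sub_zero, h1, one_mul]
      rw [h0]
      refine hT.congr' ?_
      filter_upwards [hev] with k hk
      unfold GG
      rw [hk, one_mul]
    rw [hT'.liminf_eq]

private theorem pair_liminf {u v : ℝ → ℝ → ℝ≥0∞} {A B : ℝ → ℝ → E3} (hu : ∀ h s, u h s ≠ ⊤)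
    (hum : Measurable fun p : ℝ × ℝ => u p.1 p.2) (hvm : Measurable fun p : ℝ × ℝ => v p.1 p.2)
    (hA : Continuous fun p : ℝ × ℝ => A p.1 p.2) (hB : Continuous fun p : ℝ × ℝ => B p.1 p.2)
    (hv : ∀ᵐ h : ℝ, ∀ᵐ s' : ℝ, v h s' = 0 ∨ ∀ᶠ p : ℝ × ℝ in 𝓝 (h, s'), v p.1 p.2 = 1) :
    ∫⁻ h, ∫⁻ s, ∫⁻ r, ∫⁻ s', GG u v A B 0 h s r s' ≤
      liminf (fun k => ∫⁻ h, ∫⁻ s, ∫⁻ r, ∫⁻ s', GG u v A B (ek k) h s r s') atTop := by
  calc ∫⁻ h, ∫⁻ s, ∫⁻ r, ∫⁻ s', GG u v A B 0 h s r s'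
      ≤ ∫⁻ h, ∫⁻ s, ∫⁻ r, ∫⁻ s', liminf (fun k => GG u v A B (ek k) h s r s') atTop := by
        refine lintegral_mono_ae ?_
        filter_upwards [hv] with h hh
        refine lintegral_mono fun s => lintegral_mono fun r => lintegral_mono_ae ?_
        filter_upwards [hh] with s' hs'
        exact GG_liminf hu hB h s r s' hs'
    _ ≤ ∫⁻ h, ∫⁻ s, ∫⁻ r, liminf (fun k => ∫⁻ s', GG u v A B (ek k) h s r s') atTop := by
        refine lintegral_mono fun h => lintegral_mono fun s => lintegral_mono fun r => ?_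
        refine lintegral_liminf_le fun k => ?_
        exact (measurable_GG hum hvm hA.measurable hB.measurable (ek k)).comp
          (measurable_const.prodMk measurable_id : Measurable fun s' : ℝ => (((h, s), r), s'))
    _ ≤ ∫⁻ h, ∫⁻ s, liminf (fun k => ∫⁻ r, ∫⁻ s', GG u v A B (ek k) h s r s') atTop := by
        refine lintegral_mono fun h => lintegral_mono fun s => ?_
        refine lintegral_liminf_le fun k => ?_
        exact (measurable_G1 hum hvm hA.measurable hB.measurable (ek k)).comp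
          (measurable_const.prodMk measurable_id : Measurable fun r : ℝ => ((h, s), r))
    _ ≤ ∫⁻ h, liminf (fun k => ∫⁻ s, ∫⁻ r, ∫⁻ s', GG u v A B (ek k) h s r s') atTop := by
        refine lintegral_mono fun h => ?_
        refine lintegral_liminf_le fun k => ?_
        exact (measurable_G2 hum hvm hA.measurable hB.measurable (ek k)).comp
          (measurable_const.prodMk measurable_id : Measurable fun s : ℝ => (h, s))
    _ ≤ liminf (fun k => ∫⁻ h, ∫⁻ s, ∫⁻ r, ∫⁻ s', GG u v A B (ek k) h s r s') atTop :=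
        lintegral_liminf_le fun k => measurable_G3 hum hvm hA.measurable hB.measurable (ek k)

private theorem ii_ae {ι : Type} (m : ι → E3) (c : ι → ℝ) (g : E3) (j : ι) :
    ∀ᵐ h : ℝ, ∀ᵐ s' : ℝ, ii m c g j h s' = 0 ∨
      ∀ᶠ p : ℝ × ℝ in 𝓝 (h, s'), ii m c g j p.1 p.2 = 1 := by
  obtain ⟨C, hC⟩ : ∃ C : Set (ℝ × ℝ), C = {p : ℝ × ℝ | p.2 ∈ Us m c g j p.1} := ⟨_, rfl⟩
  have hcl : IsClosed C := by
    rw [hC]
    exact isClosed_Us m c g j
  have hconv : Convex ℝ C := by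
    rw [hC]
    exact convex_Us m c g j
  have h1 : ∀ p : ℝ × ℝ, p ∈ C → ii m c g j p.1 p.2 = 1 := by
    intro p hp
    rw [hC] at hp
    exact ii_of_mem hp
  have h0 : ∀ p : ℝ × ℝ, p ∉ C → ii m c g j p.1 p.2 = 0 := by
    intro p hp
    rw [hC] at hp
    exact ii_of_notMem hp
  have hnull : (volume : Measure (ℝ × ℝ)) (frontier C) = 0 := hconv.addHaar_frontier volume
  have h4 : ∀ᵐ p : ℝ × ℝ, p ∉ frontier C := by
    exact measure_eq_zero_iff_ae_notMem.1 hnull
  have h5 : ∀ᵐ h : ℝ, ∀ᵐ s' : ℝ, (h, s') ∉ frontier C := Measure.ae_ae_of_ae_prod h4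
  filter_upwards [h5] with h hh
  filter_upwards [hh] with s' hs'
  by_cases hmem : (h, s') ∈ C
  · right
    have hint : (h, s') ∈ interior C := by
      by_contra hni
      apply hs'
      rw [hcl.frontier_eq]
      exact ⟨hmem, hni⟩
    filter_upwards [mem_interior_iff_mem_nhds.1 hint] with p hp
    exact h1 p hp
  · left
    exact h0 (h, s') hmem

private theorem Th_eq {ι : Type} (m : ι → E3) (c : ι → ℝ) (g : E3) (i j : ι) (h : ℝ) :
    ∫⁻ s in Us m c g i h, ∫⁻ s' in Us m c g j h,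
      edist (AA g (m i) (c i) h s) (AA g (m j) (c j) h s') =
    ∫⁻ s, ∫⁻ r, ∫⁻ s', GG (ii m c g i) (ii m c g j) (AA g (m i) (c i)) (AA g (m j) (c j))
      0 h s r s' := by
  rw [G_zero _ _ (ii_ne_top m c g i), setL_Us]
  refine lintegral_congr fun s => ?_
  rw [setL_Us]

theorem measurable_Th {ι : Type} [Fintype ι] (m : ι → E3) (c : ι → ℝ) (g : E3) :
    Measurable (Th m c g) := by
  unfold Th
  refine Finset.measurable_fun_sum _ fun i _ => Finset.measurable_fun_sum _ fun j _ => ?_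
  refine Measurable.const_mul ?_ _
  simp only [Th_eq]
  exact measurable_G3 (measurable_ii m c g i) (measurable_ii m c g j)
    (continuous_AA g (m i) (c i)).measurable (continuous_AA g (m j) (c j)).measurable 0

private theorem Te_pair {ι : Type} {m : ι → E3} {c : ι → ℝ} {g : E3} (i j : ι)
    (hi : ‖m i‖ = 1) (hj : ‖m j‖ = 1) (hgi : ⟪g, m i⟫ ^ 2 < ‖g‖ ^ 2)
    (hgj : ⟪g, m j⟫ ^ 2 < ‖g‖ ^ 2) {ε : ℝ} (hε : 0 < ε) :
    ∫⁻ x, ∫⁻ y, kk ε ⟪g, x - y⟫ * edist x y ∂(sg m c j) ∂(sg m c i) =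
      ENNReal.ofReal (rr g (m i))⁻¹ * ENNReal.ofReal (rr g (m j))⁻¹ *
        ∫⁻ h, ∫⁻ s, ∫⁻ r, ∫⁻ s', GG (ii m c g i) (ii m c g j) (AA g (m i) (c i))
          (AA g (m j) (c j)) ε h s r s' := by
  have hAj : Measurable fun p : ℝ × ℝ => AA g (m j) (c j) p.1 p.2 :=
    (continuous_AA g (m j) (c j)).measurable
  -- the inner integral
  have h1 : ∀ x : E3, ∫⁻ y, kk ε ⟪g, x - y⟫ * edist x y ∂(sg m c j) =
      ENNReal.ofReal (rr g (m j))⁻¹ * KK g (ii m c g j) (AA g (m j) (c j)) ε x := by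
    intro x
    have hF : Measurable fun y : E3 => kk ε ⟪g, x - y⟫ * edist x y :=
      ((measurable_kk ε).comp (continuous_const.inner
        (continuous_const.sub continuous_id)).measurable).mul
        (measurable_const.edist measurable_id)
    rw [lintegral_sg m c hj hgj hF, ← KK_eq g (measurable_ii m c g j) hAj hε x]
    congr 1
    refine lintegral_congr fun h' => ?_
    rw [setL_Us]
    refine lintegral_congr fun s' => ?_
    rw [inner_sub_right, (inner_AA hj hgj (c j) h' s').1]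
  have hM := measurable_KK g (measurable_ii m c g j) hAj ε
  rw [lintegral_congr h1, lintegral_const_mul _ hM, lintegral_sg m c hi hgi hM, ← mul_assoc,
    mul_comm (ENNReal.ofReal (rr g (m j))⁻¹),
    ← GG_KK g (ii_ne_top m c g i) (fun h s => (inner_AA hi hgi (c i) h s).1)]
  congr 1
  refine lintegral_congr fun h => ?_
  rw [setL_Us]

theorem Te_ge {ι : Type} [Fintype ι] {m : ι → E3} {c : ι → ℝ} (hP : Ply m c) {g : E3}
    (hg : ∀ i, ⟪g, m i⟫ ^ 2 < ‖g‖ ^ 2) :
    ∫⁻ h, Th m c g h ≤ liminf (fun k => Te (sgm m c) (ek k) g) atTop := by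
  have hek : ∀ k, 0 < ek k := fun k => by
    unfold ek
    positivity
  -- the left hand side
  have hmeas : ∀ i j, Measurable fun h => ∫⁻ s, ∫⁻ r, ∫⁻ s', GG (ii m c g i) (ii m c g j)
      (AA g (m i) (c i)) (AA g (m j) (c j)) 0 h s r s' := fun i j =>
    measurable_G3 (measurable_ii m c g i) (measurable_ii m c g j)
      (continuous_AA g (m i) (c i)).measurable (continuous_AA g (m j) (c j)).measurable 0
  have hL : ∫⁻ h, Th m c g h = ∑ q : ι × ι, ENNReal.ofReal (rr g (m q.1))⁻¹ *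
      ENNReal.ofReal (rr g (m q.2))⁻¹ *
        ∫⁻ h, ∫⁻ s, ∫⁻ r, ∫⁻ s', GG (ii m c g q.1) (ii m c g q.2)
          (AA g (m q.1) (c q.1)) (AA g (m q.2) (c q.2)) 0 h s r s' := by
    unfold Th
    simp only [Th_eq]
    rw [Fintype.sum_prod_type, lintegral_finsetSum]
    · refine Finset.sum_congr rfl fun i _ => ?_
      rw [lintegral_finsetSum]
      · refine Finset.sum_congr rfl fun j _ => ?_
        rw [lintegral_const_mul _ (hmeas i j)]
      · intro j _
        exact (hmeas i j).const_mul _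
    · intro i _
      exact Finset.measurable_fun_sum _ fun j _ => (hmeas i j).const_mul _
  -- the right hand side
  have hR : ∀ k, Te (sgm m c) (ek k) g = ∑ q : ι × ι, ENNReal.ofReal (rr g (m q.1))⁻¹ *
      ENNReal.ofReal (rr g (m q.2))⁻¹ *
        ∫⁻ h, ∫⁻ s, ∫⁻ r, ∫⁻ s', GG (ii m c g q.1) (ii m c g q.2)
          (AA g (m q.1) (c q.1)) (AA g (m q.2) (c q.2)) (ek k) h s r s' := by
    intro k
    unfold Te sgm
    rw [Fintype.sum_prod_type, lintegral_finsetSum_measure]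
    refine Finset.sum_congr rfl fun i _ => ?_
    simp only [lintegral_finsetSum_measure]
    have hF : Measurable fun q : E3 × E3 => kk (ek k) ⟪g, q.1 - q.2⟫ * edist q.1 q.2 :=
      ((measurable_kk (ek k)).comp (continuous_const.inner
        (continuous_fst.sub continuous_snd)).measurable).mul
        (measurable_fst.edist measurable_snd)
    have hfin : ∀ j, IsFiniteMeasure (sg m c j) := fun j => ⟨sg_univ_lt_top hP.bdd j⟩
    rw [lintegral_finsetSum]
    · refine Finset.sum_congr rfl fun j _ => ?_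
      exact Te_pair i j (hP.unit i) (hP.unit j) (hg i) (hg j) (hek k)
    · intro j _
      exact hF.lintegral_prod_right'
  rw [hL]
  simp only [hR]
  refine le_trans (Finset.sum_le_sum fun q _ => ?_) (sum_liminf _)
  have hc : ENNReal.ofReal (rr g (m q.1))⁻¹ * ENNReal.ofReal (rr g (m q.2))⁻¹ ≠ ⊤ :=
    ENNReal.mul_ne_top ENNReal.ofReal_ne_top ENNReal.ofReal_ne_top
  rw [ENNReal.liminf_const_mul_of_ne_top hc]
  exact mul_le_mul_right (pair_liminf (ii_ne_top m c g q.1) (measurable_ii m c g q.1)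
    (measurable_ii m c g q.2) (continuous_AA g (m q.1) (c q.1))
    (continuous_AA g (m q.2) (c q.2)) (ii_ae m c g q.2)) _

end Pool.Agent.Helper83.CP
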