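import Pool.Agent.Helper83.CP.Defs
import Pool.Agent.Helper83.CP.JeLe
import Pool.Agent.Helper83.CP.TeGe
import Pool.Agent.Helper83.CP.PLsec

/-!
# Project CP (helper83), module DirIneq
For a direction in general position: `(π²/64) Je² ≤ be · liminf Te`.

Proof. `Je ≤ ∫ Bh²` (`Je_le`), `Bh² ≤ (8/π) √(bh Th)` a.e. (`PLsec`), Cauchy-Schwarz in `h`: `(∫ √(bh Th))² ≤ ∫ bh ∫ Th`, `∫ bh = be`, `∫ Th ≤ liminf Te`.
-/

set_option autoImplicit false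

open MeasureTheory Set Filter Topology Metric
open scoped RealInnerProductSpace ENNReal NNReal

namespace Pool.Agent.Helper83.CP

open Pool.Agent.Helper1.CK (E3 nEnergy V1 Content Good)

theorem cs_aux {κ : ℝ≥0∞} (hκ0 : κ ≠ 0) (hκ : κ ≠ ⊤) {B b T : ℝ → ℝ≥0∞}
    (hb : Measurable b) (hT : Measurable T)
    (h : ∀ᵐ x : ℝ, κ * B x ^ 4 ≤ b x * T x) :
    κ * (∫⁻ x, B x ^ 2) ^ 2 ≤ (∫⁻ x, b x) * ∫⁻ x, T x := by
  have h1 : ∀ᵐ x : ℝ, B x ^ 2 ≤ (b x) ^ (1 / 2 : ℝ) * (κ⁻¹ * T x) ^ (1 / 2 : ℝ) := by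
    filter_upwards [h] with x hx
    have h2 : B x ^ 4 ≤ b x * (κ⁻¹ * T x) := by
      calc B x ^ 4 = κ⁻¹ * (κ * B x ^ 4) := by
            rw [← mul_assoc, ENNReal.inv_mul_cancel hκ0 hκ, one_mul]
        _ ≤ κ⁻¹ * (b x * T x) := by gcongr
        _ = b x * (κ⁻¹ * T x) := by ring
    rw [← ENNReal.mul_rpow_of_nonneg _ _ (by norm_num : (0 : ℝ) ≤ 1 / 2)]
    have h3 := ENNReal.rpow_le_rpow h2 (by norm_num : (0 : ℝ) ≤ 1 / 2)
    refine le_trans (le_of_eq ?_) h3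
    rw [← ENNReal.rpow_natCast (B x) 4, ← ENNReal.rpow_mul, ← ENNReal.rpow_natCast (B x) 2]
    norm_num
  have hmb : Measurable fun x => (b x) ^ (1 / 2 : ℝ) := hb.pow_const _
  have hmT : Measurable fun x => (κ⁻¹ * T x) ^ (1 / 2 : ℝ) := (hT.const_mul _).pow_const _
  have h2 : ∫⁻ x, B x ^ 2 ≤
      (∫⁻ x, b x) ^ (1 / 2 : ℝ) * (κ⁻¹ * ∫⁻ x, T x) ^ (1 / 2 : ℝ) := by
    have hh : Real.HolderConjugate 2 2 := by
      rw [Real.holderConjugate_iff]; norm_num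
    have h3 := ENNReal.lintegral_mul_le_Lp_mul_Lq volume hh hmb.aemeasurable hmT.aemeasurable
    refine (lintegral_mono_ae h1).trans (h3.trans (le_of_eq ?_))
    have e1 : ∀ a : ℝ≥0∞, (a ^ (1 / 2 : ℝ)) ^ (2 : ℝ) = a := by
      intro a
      rw [← ENNReal.rpow_mul]; norm_num
    simp only [e1]
    rw [lintegral_const_mul _ hT]
  calc κ * (∫⁻ x, B x ^ 2) ^ 2
      ≤ κ * ((∫⁻ x, b x) ^ (1 / 2 : ℝ) * (κ⁻¹ * ∫⁻ x, T x) ^ (1 / 2 : ℝ)) ^ 2 := by gcongr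
    _ = κ * ((∫⁻ x, b x) * (κ⁻¹ * ∫⁻ x, T x)) := by
        congr 1
        rw [mul_pow, ← ENNReal.rpow_natCast, ← ENNReal.rpow_natCast, ← ENNReal.rpow_mul,
          ← ENNReal.rpow_mul]
        norm_num
    _ = (∫⁻ x, b x) * ∫⁻ x, T x := by
        calc κ * ((∫⁻ x, b x) * (κ⁻¹ * ∫⁻ x, T x))
            = (κ * κ⁻¹) * ((∫⁻ x, b x) * ∫⁻ x, T x) := by ring
          _ = (∫⁻ x, b x) * ∫⁻ x, T x := by
            rw [ENNReal.mul_inv_cancel hκ0 hκ, one_mul]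

theorem dir_ineq {ι : Type} [Fintype ι] {m : ι → E3} {c : ι → ℝ} (hP : Ply m c) {g : E3}
    (hg : Gen m g) {ε : ℝ} (hε : 0 < ε) :
    ENNReal.ofReal (Real.pi ^ 2 / 64) * Je (sgm m c) ε g ^ 2 ≤
      be m c g * liminf (fun k => Te (sgm m c) (ek k) g) atTop := by
  have h1 := Je_le hP hg.par hε
  have h3 := Te_ge hP hg.par
  have h4 := lintegral_bh hP hg.par
  have hκ0 : ENNReal.ofReal (Real.pi ^ 2 / 64) ≠ 0 := by
    rw [ne_eq, ENNReal.ofReal_eq_zero, not_le]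
    positivity
  have h5 := cs_aux hκ0 ENNReal.ofReal_ne_top (measurable_bh m c g) (measurable_Th m c g)
    (PLsec hP hg)
  calc ENNReal.ofReal (Real.pi ^ 2 / 64) * Je (sgm m c) ε g ^ 2
      ≤ ENNReal.ofReal (Real.pi ^ 2 / 64) * (∫⁻ h, Bh m c g h ^ 2) ^ 2 := by gcongr
    _ ≤ (∫⁻ h, bh m c g h) * ∫⁻ h, Th m c g h := h5
    _ ≤ be m c g * liminf (fun k => Te (sgm m c) (ek k) g) atTop := by
        rw [h4]; gcongr

end Pool.Agent.Helper83.CP
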