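import Pool.Agent.Helper83.CP.Defs
import Pool.Agent.Helper1.CK.Field

/-!
# Project CP (helper83), module DualM
The dual inequality for a finite measure of finite energy: `4π (∫ u dμ)² ≤ (∫ |∇u|²) nEnergy(μ)`.

Proof: the same as `Helper1.CK.dual` (files Helper1/CK/Field.lean and Dual.lean), with `μ` instead of the Lebesgue measure on a bounded set `A`: let `V(y) = ∫ (x-y)/|x-y|³ dμ(x)`;
`newton` gives `4π u(z) = ∫ ⟪∇u(y), (z - y)/|z-y|³⟫ dy` up to the sign convention there, so `4π ∫ u dμ = ∫ ⟪∇u, V⟫` (Fubini: `∇u` is bounded with compact support and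
`∫ |x-y|⁻² dy` over a bounded set is bounded uniformly in `x`), and `∫ |V|² = 4π nEnergy(μ)` (`kernel_abs`, `kernel_int`; the diagonal is `μ × μ`-null because the energy is finite;
here only `≤` is needed). Cauchy-Schwarz: `(4π ∫ u dμ)² ≤ ∫ |∇u|² · 4π nEnergy(μ)`.
-/

set_option autoImplicit false

open MeasureTheory Set Filter Topology Metric
open scoped RealInnerProductSpace ENNReal NNReal

namespace Pool.Agent.Helper83.CP

open Pool.Agent.Helper1.CK (E3 nEnergy V1 Content Good)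

/-- the Newtonian field of the measure -/
private noncomputable def VM (μ : Measure E3) (y : E3) : E3 :=
  ∫ x, Pool.Agent.Helper1.CK.Fld.kk x y ∂μ

private theorem VM_measurable {μ : Measure E3} [IsFiniteMeasure μ] : Measurable (VM μ) := by
  have h1 : StronglyMeasurable fun p : E3 × E3 => Pool.Agent.Helper1.CK.Fld.kk p.2 p.1 :=
    (Pool.Agent.Helper1.CK.Fld.measurable_kk.comp measurable_swap).stronglyMeasurable
  exact (h1.integral_prod_right (ν := μ)).measurable

/-- the uniform bound -/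
private theorem unif_int (B : Set E3) (x : E3) :
    ∫⁻ y in B, ((edist x y)⁻¹) ^ 2 ≤
      volume B + ENNReal.ofReal 1 * (volume : Measure E3).toSphere univ := by
  calc ∫⁻ y in B, ((edist x y)⁻¹) ^ 2
      ≤ ∫⁻ y in B, (1 + (ball x 1).indicator (fun y : E3 => ((edist x y)⁻¹) ^ 2) y) := by
        refine lintegral_mono fun y => ?_
        by_cases hy : y ∈ ball x 1
        · rw [indicator_of_mem hy]
          exact le_add_self
        · rw [indicator_of_notMem hy, add_zero]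
          have h1 : (1 : ℝ) ≤ dist x y := by
            rw [mem_ball, not_lt, dist_comm] at hy
            exact hy
          have h2 : (1 : ℝ≥0∞) ≤ edist x y := by
            rw [edist_dist, ← ENNReal.ofReal_one]
            exact ENNReal.ofReal_le_ofReal h1
          have h3 : (edist x y)⁻¹ ≤ 1 := ENNReal.inv_le_one.2 h2
          exact pow_le_one' h3 2
    _ = volume B + ∫⁻ y in B, (ball x 1).indicator (fun y : E3 => ((edist x y)⁻¹) ^ 2) y := by
        rw [lintegral_add_left measurable_const, setLIntegral_const, one_mul]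
    _ ≤ volume B + ∫⁻ y in ball x 1, ((edist x y)⁻¹) ^ 2 := by
        refine add_le_add le_rfl ?_
        rw [← lintegral_indicator measurableSet_ball]
        exact setLIntegral_le_lintegral _ _
    _ ≤ _ := by
        gcongr
        exact Pool.Agent.Helper1.CK.Fld.ball_int x 1

private theorem bd_lt_top {B : Set E3} (hB : volume B < ⊤) :
    volume B + ENNReal.ofReal 1 * (volume : Measure E3).toSphere univ < ⊤ :=
  ENNReal.add_lt_top.2 ⟨hB, ENNReal.mul_lt_top ENNReal.ofReal_lt_top (measure_lt_top _ _)⟩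

private theorem ae_int {μ : Measure E3} [IsFiniteMeasure μ] :
    ∀ᵐ y : E3, Integrable (fun x => Pool.Agent.Helper1.CK.Fld.kk x y) μ := by
  have h1 : ∀ n : ℕ, ∀ᵐ y ∂(volume.restrict (ball (0 : E3) n)),
      ∫⁻ x, ((edist x y)⁻¹) ^ 2 ∂μ < ⊤ := by
    intro n
    have hm : Measurable (Function.uncurry fun (y x : E3) => ((edist x y)⁻¹) ^ 2) := by
      change Measurable fun p : E3 × E3 => ((edist p.2 p.1)⁻¹) ^ 2
      fun_prop
    refine ae_lt_top hm.lintegral_prod_right ?_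
    rw [lintegral_lintegral_swap hm.aemeasurable]
    refine ne_of_lt (lt_of_le_of_lt (lintegral_mono fun x => unif_int (ball (0 : E3) n) x) ?_)
    rw [lintegral_const]
    exact ENNReal.mul_lt_top (bd_lt_top measure_ball_lt_top) (measure_lt_top _ _)
  have h2 : ∀ᵐ y : E3, ∫⁻ x, ((edist x y)⁻¹) ^ 2 ∂μ < ⊤ := by
    have h3 : ∀ n : ℕ, ∀ᵐ y : E3, y ∈ ball (0 : E3) n → ∫⁻ x, ((edist x y)⁻¹) ^ 2 ∂μ < ⊤ :=
      fun n => (ae_restrict_iff' measurableSet_ball).1 (h1 n)
    filter_upwards [ae_all_iff.2 h3] with y hy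
    obtain ⟨n, hn⟩ := exists_nat_gt ‖y‖
    exact hy n (by simpa using hn)
  filter_upwards [h2] with y hy
  refine ⟨(Pool.Agent.Helper1.CK.Fld.measurable_kk.comp
    (measurable_id.prodMk measurable_const)).aestronglyMeasurable, ?_⟩
  exact lt_of_le_of_lt
    (lintegral_mono fun x => Pool.Agent.Helper1.CK.Fld.enorm_kk_le x y) hy

private theorem energy_prod {μ : Measure E3} [IsFiniteMeasure μ] :
    nEnergy μ = ∫⁻ q, (edist q.1 q.2)⁻¹ ∂(μ.prod μ) := by
  rw [lintegral_prod _ (by fun_prop)]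
  rfl

private theorem ae_ne {μ : Measure E3} [IsFiniteMeasure μ] (hE : nEnergy μ < ⊤) :
    ∀ᵐ q ∂(μ.prod μ), q.1 ≠ q.2 := by
  rw [energy_prod] at hE
  have h1 : ∀ᵐ q ∂(μ.prod μ), (edist q.1 q.2)⁻¹ < ⊤ := ae_lt_top (by fun_prop) hE.ne
  filter_upwards [h1] with q hq h
  rw [h, edist_self, ENNReal.inv_zero] at hq
  exact lt_irrefl _ hq

private theorem integrable_FFM {μ : Measure E3} [IsFiniteMeasure μ] (hE : nEnergy μ < ⊤) :
    Integrable Pool.Agent.Helper1.CK.Fld.FF ((μ.prod μ).prod volume) := by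
  refine ⟨Pool.Agent.Helper1.CK.Fld.measurable_FF.aestronglyMeasurable, ?_⟩
  obtain ⟨C, hC⟩ := Pool.Agent.Helper1.CK.kernel_abs
  rw [hasFiniteIntegral_iff_enorm,
    lintegral_prod _ Pool.Agent.Helper1.CK.Fld.measurable_FF.enorm.aemeasurable]
  have h1 : ∀ q : E3 × E3, ∫⁻ y, ‖Pool.Agent.Helper1.CK.Fld.FF (q, y)‖ₑ ≤
      C * (edist q.1 q.2)⁻¹ := fun q =>
    (lintegral_mono fun y => Pool.Agent.Helper1.CK.Fld.FF_le q.1 q.2 y).trans (hC q.1 q.2)
  refine lt_of_le_of_lt (lintegral_mono h1) ?_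
  rw [lintegral_const_mul _ (by fun_prop)]
  refine ENNReal.mul_lt_top ENNReal.coe_lt_top ?_
  rw [← energy_prod]
  exact hE

private theorem VM_norm_sq {μ : Measure E3} [IsFiniteMeasure μ] {y : E3}
    (h1 : Integrable (fun x => Pool.Agent.Helper1.CK.Fld.kk x y) μ) :
    ‖VM μ y‖ ^ 2 = ∫ q, Pool.Agent.Helper1.CK.Fld.FF (q, y) ∂(μ.prod μ) := by
  have h2 : Integrable (fun q : E3 × E3 => Pool.Agent.Helper1.CK.Fld.FF (q, y)) (μ.prod μ) := by
    have h3 : Integrable (fun q : E3 × E3 => ‖Pool.Agent.Helper1.CK.Fld.kk q.1 y‖ *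
        ‖Pool.Agent.Helper1.CK.Fld.kk q.2 y‖) (μ.prod μ) := h1.norm.mul_prod h1.norm
    refine h3.mono' (Pool.Agent.Helper1.CK.Fld.measurable_FF.comp
      (measurable_id.prodMk measurable_const)).aestronglyMeasurable
      (Eventually.of_forall fun q => ?_)
    rw [Pool.Agent.Helper1.CK.Fld.FF]
    exact norm_inner_le_norm _ _
  rw [integral_prod _ h2, ← real_inner_self_eq_norm_sq]
  have h5 : ∀ v : E3, ⟪v, VM μ y⟫ = ∫ x, ⟪v, Pool.Agent.Helper1.CK.Fld.kk x y⟫ ∂μ := fun v => by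
    rw [VM, integral_inner h1]
  rw [h5]
  refine integral_congr_ae (Eventually.of_forall fun x => ?_)
  simp only
  rw [real_inner_comm, h5]
  rfl

private theorem VM_sq {μ : Measure E3} [IsFiniteMeasure μ] (hE : nEnergy μ < ⊤) :
    Integrable (fun y => ‖VM μ y‖ ^ 2) ∧
      ∫ y, ‖VM μ y‖ ^ 2 = 4 * Real.pi * (nEnergy μ).toReal := by
  have h1 := integrable_FFM hE
  have h2 := h1.integral_prod_right
  have h0 : (fun y => ∫ q, Pool.Agent.Helper1.CK.Fld.FF (q, y) ∂(μ.prod μ)) =ᵐ[volume]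
      fun y => ‖VM μ y‖ ^ 2 := by
    filter_upwards [ae_int (μ := μ)] with y hy
    exact (VM_norm_sq hy).symm
  refine ⟨h2.congr h0, ?_⟩
  have h3 : ∫ y, ‖VM μ y‖ ^ 2 =
      ∫ q, (∫ y, Pool.Agent.Helper1.CK.Fld.FF (q, y)) ∂(μ.prod μ) := by
    rw [← integral_congr_ae h0]
    exact (integral_integral_swap (f := fun q y => Pool.Agent.Helper1.CK.Fld.FF (q, y)) h1).symm
  have h4 := ae_ne hE
  have h5 : ∫ q, (∫ y, Pool.Agent.Helper1.CK.Fld.FF (q, y)) ∂(μ.prod μ) =
      ∫ q, 4 * Real.pi * ‖q.1 - q.2‖⁻¹ ∂(μ.prod μ) := by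
    refine integral_congr_ae ?_
    filter_upwards [h4] with q hq
    have h6 : ∀ y, Pool.Agent.Helper1.CK.Fld.FF (q, y) =
        ⟪q.1 - y, q.2 - y⟫ / (‖q.1 - y‖ ^ 3 * ‖q.2 - y‖ ^ 3) :=
      fun y => Pool.Agent.Helper1.CK.Fld.FF_eq q.1 q.2 y
    simp only [h6]
    rw [Pool.Agent.Helper1.CK.kernel_int hq, div_eq_mul_inv]
  rw [h3, h5, integral_const_mul]
  congr 1
  rw [integral_eq_lintegral_of_nonneg_ae (Eventually.of_forall fun q => by positivity)
    (by fun_prop)]
  congr 1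
  rw [energy_prod]
  refine lintegral_congr_ae ?_
  filter_upwards [h4] with q hq
  rw [Pool.Agent.Helper1.CK.Fld.edist_inv hq]

private theorem pairingM {μ : Measure E3} [IsFiniteMeasure μ] {u : E3 → ℝ}
    (hu : ContDiff ℝ 1 u) (hc : HasCompactSupport u) :
    4 * Real.pi * ∫ x, u x ∂μ = ∫ y, fderiv ℝ u y (VM μ y) := by
  have hcont : Continuous (fderiv ℝ u) := hu.continuous_fderiv (by norm_num)
  have hcs : HasCompactSupport (fderiv ℝ u) := hc.fderiv (𝕜 := ℝ)
  obtain ⟨M, hM⟩ := hcs.exists_bound_of_continuous hcont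
  -- the inner integral
  have h1 : ∀ x : E3, ∫ y, fderiv ℝ u y (Pool.Agent.Helper1.CK.Fld.kk x y) =
      4 * Real.pi * u x := by
    intro x
    have h2 := Pool.Agent.Helper1.CK.newton hu hc x
    have h3 : (fun y => fderiv ℝ u y (Pool.Agent.Helper1.CK.Fld.kk x y)) =
        fun y => -(fderiv ℝ u y (y - x) / ‖y - x‖ ^ 3) := by
      funext y
      have h4 : x - y = -(y - x) := (neg_sub _ _).symm
      rw [Pool.Agent.Helper1.CK.Fld.kk, map_smul, smul_eq_mul, h4, map_neg, norm_neg]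
      ring
    rw [h3, integral_neg, h2]
    ring
  -- measurability
  have hmeas : Measurable fun p : E3 × E3 =>
      fderiv ℝ u p.2 (Pool.Agent.Helper1.CK.Fld.kk p.1 p.2) := by
    have h2 : (fun p : E3 × E3 => fderiv ℝ u p.2 (Pool.Agent.Helper1.CK.Fld.kk p.1 p.2)) =
        fun p : E3 × E3 => ∑ i : Fin 3, fderiv ℝ u p.2 (EuclideanSpace.single i (1 : ℝ)) *
          (Pool.Agent.Helper1.CK.Fld.kk p.1 p.2) i := by
      funext p
      exact (Pool.Agent.Helper1.CK.Fld.sum_coord' _ _).symm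
    rw [h2]
    refine Finset.measurable_sum _ fun i _ => Measurable.mul ?_ ?_
    · have h3 : Continuous fun y : E3 => fderiv ℝ u y (EuclideanSpace.single i (1 : ℝ)) :=
        hcont.clm_apply continuous_const
      exact h3.measurable.comp measurable_snd
    · exact (EuclideanSpace.proj i : E3 →L[ℝ] ℝ).continuous.measurable.comp
        Pool.Agent.Helper1.CK.Fld.measurable_kk
  have hint : Integrable (fun p : E3 × E3 =>
      fderiv ℝ u p.2 (Pool.Agent.Helper1.CK.Fld.kk p.1 p.2)) (μ.prod volume) := by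
    refine ⟨hmeas.aestronglyMeasurable, ?_⟩
    have hsup : volume (tsupport u) < ⊤ := hc.isCompact.measure_lt_top
    rw [hasFiniteIntegral_iff_enorm, lintegral_prod _ hmeas.enorm.aemeasurable]
    have h2 : ∀ x : E3, ∫⁻ y, ‖fderiv ℝ u y (Pool.Agent.Helper1.CK.Fld.kk x y)‖ₑ ≤
        ENNReal.ofReal M * (volume (tsupport u) +
          ENNReal.ofReal 1 * (volume : Measure E3).toSphere univ) := by
      intro x
      calc ∫⁻ y, ‖fderiv ℝ u y (Pool.Agent.Helper1.CK.Fld.kk x y)‖ₑ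
          ≤ ∫⁻ y, (tsupport u).indicator
              (fun y => ENNReal.ofReal M * ((edist x y)⁻¹) ^ 2) y := by
            refine lintegral_mono fun y => ?_
            by_cases hy : y ∈ tsupport u
            · rw [indicator_of_mem hy]
              calc ‖fderiv ℝ u y (Pool.Agent.Helper1.CK.Fld.kk x y)‖ₑ
                  ≤ ‖fderiv ℝ u y‖ₑ * ‖Pool.Agent.Helper1.CK.Fld.kk x y‖ₑ := by
                    rw [← ofReal_norm, ← ofReal_norm, ← ofReal_norm,
                      ← ENNReal.ofReal_mul (norm_nonneg _)]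
                    exact ENNReal.ofReal_le_ofReal (ContinuousLinearMap.le_opNorm _ _)
                _ ≤ ENNReal.ofReal M * ((edist x y)⁻¹) ^ 2 := by
                    refine mul_le_mul' ?_ (Pool.Agent.Helper1.CK.Fld.enorm_kk_le x y)
                    rw [← ofReal_norm]
                    exact ENNReal.ofReal_le_ofReal (hM y)
            · have h3 : fderiv ℝ u y = 0 := by
                by_contra h4
                exact hy (support_fderiv_subset ℝ h4)
              rw [h3]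
              simp
        _ = ENNReal.ofReal M * ∫⁻ y in tsupport u, ((edist x y)⁻¹) ^ 2 := by
            rw [lintegral_indicator (isClosed_tsupport u).measurableSet,
              lintegral_const_mul _ (by fun_prop)]
        _ ≤ _ := by
            gcongr
            exact unif_int _ x
    refine lt_of_le_of_lt (lintegral_mono h2) ?_
    rw [lintegral_const]
    exact ENNReal.mul_lt_top (ENNReal.mul_lt_top ENNReal.ofReal_lt_top (bd_lt_top hsup))
      (measure_lt_top _ _)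
  rw [← integral_const_mul]
  calc ∫ x, 4 * Real.pi * u x ∂μ =
      ∫ x, ∫ y, fderiv ℝ u y (Pool.Agent.Helper1.CK.Fld.kk x y) ∂volume ∂μ := by
        refine integral_congr_ae (Eventually.of_forall fun x => ?_)
        exact (h1 x).symm
    _ = ∫ y, ∫ x, fderiv ℝ u y (Pool.Agent.Helper1.CK.Fld.kk x y) ∂μ :=
        integral_integral_swap
          (f := fun x y => fderiv ℝ u y (Pool.Agent.Helper1.CK.Fld.kk x y)) hint
    _ = ∫ y, fderiv ℝ u y (VM μ y) := by
        refine integral_congr_ae ?_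
        filter_upwards [ae_int (μ := μ)] with y hy
        rw [VM, ContinuousLinearMap.integral_comp_comm _ hy]

theorem dualM {μ : Measure E3} [IsFiniteMeasure μ] (hE : nEnergy μ < ⊤) {u : E3 → ℝ}
    (hu : ContDiff ℝ 1 u) (hc : HasCompactSupport u) :
    4 * Real.pi * (∫ x, u x ∂μ) ^ 2 ≤ (∫ x, ‖fderiv ℝ u x‖ ^ 2) * (nEnergy μ).toReal := by
  have hp := pairingM (μ := μ) hu hc
  obtain ⟨hi, hsq⟩ := VM_sq hE
  have hfc : Continuous (fun y => ‖fderiv ℝ u y‖) := (hu.continuous_fderiv (by norm_num)).norm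
  have hfs : HasCompactSupport (fun y => ‖fderiv ℝ u y‖) := (hc.fderiv (𝕜 := ℝ)).norm
  have hf2 : MemLp (fun y => ‖fderiv ℝ u y‖) (ENNReal.ofReal 2) := by
    exact hfc.memLp_of_hasCompactSupport hfs
  have hgm : AEStronglyMeasurable (fun y => ‖VM μ y‖) volume :=
    (VM_measurable (μ := μ)).norm.aestronglyMeasurable
  have hg2' : MemLp (fun y => ‖VM μ y‖) 2 := (memLp_two_iff_integrable_sq hgm).2 hi
  have hg2 : MemLp (fun y => ‖VM μ y‖) (ENNReal.ofReal 2) := by
    simpa using hg2'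
  have hH : (∫ y, ‖fderiv ℝ u y‖ * ‖VM μ y‖)
      ≤ (∫ y, ‖fderiv ℝ u y‖ ^ (2 : ℝ)) ^ (1 / (2 : ℝ)) * (∫ y, ‖VM μ y‖ ^ (2 : ℝ)) ^ (1 / (2 : ℝ)) :=
    integral_mul_le_Lp_mul_Lq_of_nonneg Real.HolderConjugate.two_two
      (Filter.Eventually.of_forall fun y => norm_nonneg _)
      (Filter.Eventually.of_forall fun y => norm_nonneg _) hf2 hg2
  simp only [Real.rpow_two] at hH
  have h1 : |4 * Real.pi * ∫ x, u x ∂μ| ≤ ∫ y, ‖fderiv ℝ u y‖ * ‖VM μ y‖ := by
    rw [hp]
    calc |∫ y, fderiv ℝ u y (VM μ y)| ≤ ∫ y, |fderiv ℝ u y (VM μ y)| := abs_integral_le_integral_abs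
      _ ≤ ∫ y, ‖fderiv ℝ u y‖ * ‖VM μ y‖ := by
          refine integral_mono_of_nonneg (Filter.Eventually.of_forall fun y => abs_nonneg _) ?_
            (Filter.Eventually.of_forall fun y => ?_)
          · have h22 : (ENNReal.ofReal 2) = 2 := by norm_num
            rw [h22] at hf2 hg2
            exact hf2.integrable_mul hg2
          · simpa using (fderiv ℝ u y).le_opNorm (VM μ y)
  have hF0 : 0 ≤ ∫ y, ‖fderiv ℝ u y‖ ^ 2 := integral_nonneg fun y => sq_nonneg _
  have hG0 : 0 ≤ ∫ y, ‖VM μ y‖ ^ 2 := integral_nonneg fun y => sq_nonneg _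
  have h2 : (4 * Real.pi * ∫ x, u x ∂μ) ^ 2 ≤
      (∫ y, ‖fderiv ℝ u y‖ ^ 2) * (∫ y, ‖VM μ y‖ ^ 2) := by
    rw [← sq_abs]
    have h3 : |4 * Real.pi * ∫ x, u x ∂μ|
        ≤ (∫ y, ‖fderiv ℝ u y‖ ^ 2) ^ (1 / (2 : ℝ)) * (∫ y, ‖VM μ y‖ ^ 2) ^ (1 / (2 : ℝ)) :=
      h1.trans hH
    rw [← Real.sqrt_eq_rpow, ← Real.sqrt_eq_rpow] at h3
    calc |4 * Real.pi * ∫ x, u x ∂μ| ^ 2
        ≤ (√(∫ y, ‖fderiv ℝ u y‖ ^ 2) * √(∫ y, ‖VM μ y‖ ^ 2)) ^ 2 :=
          pow_le_pow_left₀ (abs_nonneg _) h3 2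
      _ = (∫ y, ‖fderiv ℝ u y‖ ^ 2) * (∫ y, ‖VM μ y‖ ^ 2) := by
          rw [mul_pow, Real.sq_sqrt hF0, Real.sq_sqrt hG0]
  rw [hsq] at h2
  have hpi : 0 < 4 * Real.pi := by positivity
  have h4 : (4 * Real.pi) * (4 * Real.pi * (∫ x, u x ∂μ) ^ 2)
      ≤ (4 * Real.pi) * ((∫ x, ‖fderiv ℝ u x‖ ^ 2) * (nEnergy μ).toReal) := by
    calc (4 * Real.pi) * (4 * Real.pi * (∫ x, u x ∂μ) ^ 2)
        = (4 * Real.pi * ∫ x, u x ∂μ) ^ 2 := by ring
      _ ≤ _ := h2
      _ = _ := by ring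
  exact le_of_mul_le_mul_left h4 hpi

end Pool.Agent.Helper83.CP
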