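import Pool.Agent.Helper83.CP.Defs

/-!
# Project CP (helper83), module GenAe
Almost every `g` is in general position: the exceptional set is contained in a finite union of proper subspaces of `E3`
(`⟪g, m i⟫² = ‖g‖²` means that `g` is a multiple of `m i`; spans of two vectors; `Measure.addHaar_submodule`).
-/

set_option autoImplicit false

open MeasureTheory Set Filter Topology Metric
open scoped RealInnerProductSpace ENNReal NNReal

namespace Pool.Agent.Helper83.CP

open Pool.Agent.Helper1.CK (E3 nEnergy V1 Content Good)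

private lemma ae_notMem_span2 (a b : E3) :
    ∀ᵐ g : E3, g ∉ Submodule.span ℝ ({a, b} : Set E3) := by
  have hne : Submodule.span ℝ ({a, b} : Set E3) ≠ ⊤ := by
    intro h
    have h1 : Module.finrank ℝ (Submodule.span ℝ ({a, b} : Set E3)) ≤ 2 := by
      have h2 := finrank_span_finset_le_card (R := ℝ) ({a, b} : Finset E3)
      have h3 : ((({a, b} : Finset E3) : Set E3)) = ({a, b} : Set E3) := by simp
      rw [h3] at h2
      exact h2.trans Finset.card_le_two
    rw [h, finrank_top] at h1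
    have h4 : Module.finrank ℝ E3 = 3 := by simp [E3]
    omega
  have h0 := Measure.addHaar_submodule (volume : Measure E3) _ hne
  rw [ae_iff]
  simpa using h0

private lemma ae_ne_zero : ∀ᵐ g : E3, g ≠ 0 := by
  filter_upwards [ae_notMem_span2 0 0] with g hg h
  apply hg
  rw [h]
  exact Submodule.zero_mem _

private lemma mem_span_of_inner {g n : E3} (hn : ‖n‖ = 1) (h : ‖g‖ ^ 2 ≤ ⟪g, n⟫ ^ 2) :
    g ∈ Submodule.span ℝ ({n, n} : Set E3) := by
  have h1 : ‖g - ⟪g, n⟫ • n‖ ^ 2 = ‖g‖ ^ 2 - ⟪g, n⟫ ^ 2 := by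
    rw [norm_sub_sq_real, inner_smul_right, norm_smul, hn, mul_one, Real.norm_eq_abs, sq_abs]
    ring
  have h2 : ‖g - ⟪g, n⟫ • n‖ = 0 := by
    have h3 : ‖g - ⟪g, n⟫ • n‖ ^ 2 ≤ 0 := by rw [h1]; linarith
    have h4 : 0 ≤ ‖g - ⟪g, n⟫ • n‖ := norm_nonneg _
    nlinarith
  rw [norm_eq_zero, sub_eq_zero] at h2
  rw [h2]
  exact Submodule.smul_mem _ _ (Submodule.subset_span (by simp))

theorem gen_ae {ι : Type} [Fintype ι] {m : ι → E3} (hu : ∀ i, ‖m i‖ = 1) :
    ∀ᵐ g : E3, Gen m g := by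
  have hP : ∀ᵐ g : E3, ∀ i j, g ∉ Submodule.span ℝ ({m i, m j} : Set E3) := by
    rw [ae_all_iff]
    intro i
    rw [ae_all_iff]
    intro j
    exact ae_notMem_span2 _ _
  filter_upwards [hP, ae_ne_zero] with g hg h0
  refine ⟨h0, ?_, fun i j _ => hg i j⟩
  intro i
  by_contra hlt
  exact hg i i (mem_span_of_inner (hu i) (not_lt.mp hlt))

end Pool.Agent.Helper83.CP
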