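import Pool.Agent.Helper83.CP.Defs
import Pool.Agent.Helper83.CP.BallKK
import Pool.Agent.Helper83.CP.BallRR
import Pool.Agent.Helper83.CP.DirIneq
import Pool.Agent.Helper83.CP.GenAe

/-!
# Project CP (helper83), module EnergyPoly
`nEnergy(σ)² ≤ (64/π) S³` for the boundary measure of a polytope.

Proof. With `B` the unit ball: `π nEnergy ≤ ∬ liminf_k ∫_B kk(e_k,⟪g,x-y⟫) dg ≤ liminf_k ∫_B Je(e_k,g) dg` (`ball_kk_liminf`, Fatou, Tonelli), and for a.e. `g` and every `k`: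
`Je(e_k,g) ≤ (8/π) (be · liminf Te)^{1/2}`, so `π nEnergy ≤ (8/π) (∫_B be)^{1/2} (∫_B liminf Te)^{1/2}` (Cauchy-Schwarz), `∫_B be ≤ π² S` (`ball_rr`),
`∫_B liminf Te ≤ liminf ∫_B Te ≤ π S²` (Fatou, Tonelli, `ball_kk_mul`).
-/

set_option autoImplicit false

open MeasureTheory Set Filter Topology Metric
open scoped RealInnerProductSpace ENNReal NNReal

namespace Pool.Agent.Helper83.CP

open Pool.Agent.Helper1.CK (E3 nEnergy V1 Content Good)

private lemma ep_kk_meas (ε : ℝ) : Measurable (kk ε) := by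
  unfold kk
  refine Measurable.ite ?_ measurable_const measurable_const
  exact measurableSet_lt (by fun_prop) measurable_const

private lemma ep_ek_pos (k : ℕ) : 0 < ek k := by unfold ek; positivity

private lemma ep_kk_meas3 (ε : ℝ) :
    Measurable fun p : E3 × (E3 × E3) => kk ε ⟪p.1, p.2.1 - p.2.2⟫ :=
  (ep_kk_meas ε).comp (by fun_prop)

private lemma ep_Je_eq {σ : Measure E3} [IsFiniteMeasure σ] (ε : ℝ) (g : E3) :
    Je σ ε g = ∫⁻ z : E3 × E3, kk ε ⟪g, z.1 - z.2⟫ ∂(σ.prod σ) := by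
  unfold Je
  rw [lintegral_prod]
  exact ((ep_kk_meas ε).comp (by fun_prop)).aemeasurable

private lemma ep_Te_eq {σ : Measure E3} [IsFiniteMeasure σ] (ε : ℝ) (g : E3) :
    Te σ ε g = ∫⁻ z : E3 × E3, kk ε ⟪g, z.1 - z.2⟫ * edist z.1 z.2 ∂(σ.prod σ) := by
  unfold Te
  rw [lintegral_prod]
  exact (((ep_kk_meas ε).comp (by fun_prop)).mul (by fun_prop)).aemeasurable

private lemma ep_Te_meas {σ : Measure E3} [IsFiniteMeasure σ] (ε : ℝ) :
    Measurable (Te σ ε) := by
  have h : Te σ ε = fun g => ∫⁻ z : E3 × E3, kk ε ⟪g, z.1 - z.2⟫ * edist z.1 z.2 ∂(σ.prod σ) := by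
    funext g; exact ep_Te_eq ε g
  rw [h]
  refine Measurable.lintegral_prod_right' (f := fun p : E3 × (E3 × E3) =>
    kk ε ⟪p.1, p.2.1 - p.2.2⟫ * edist p.2.1 p.2.2) ?_
  exact (ep_kk_meas3 ε).mul (by fun_prop)

private lemma ep_rr_meas (n : E3) : Measurable fun g : E3 => rr g n := by
  unfold rr
  fun_prop

private lemma ep_be_meas {ι : Type} [Fintype ι] (m : ι → E3) (c : ι → ℝ) :
    Measurable (be m c) := by
  unfold be
  refine Finset.measurable_sum _ fun i _ => ?_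
  exact ((ep_rr_meas (m i)).inv.ennreal_ofReal).mul_const _

private lemma ep_int_be {ι : Type} [Fintype ι] {m : ι → E3} {c : ι → ℝ}
    (hu : ∀ i, ‖m i‖ = 1) :
    ∫⁻ g in ball (0 : E3) 1, be m c g ≤ ENNReal.ofReal (Real.pi ^ 2) * sgm m c univ := by
  unfold be
  rw [lintegral_finsetSum]
  · have : sgm m c univ = ∑ i, sg m c i univ := by
      unfold sgm
      rw [Measure.finsetSum_apply]
    rw [this, Finset.mul_sum]
    refine Finset.sum_le_sum fun i _ => ?_
    have hm : Measurable fun g : E3 => ENNReal.ofReal (rr g (m i))⁻¹ :=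
      (ep_rr_meas (m i)).inv.ennreal_ofReal
    rw [lintegral_mul_const _ hm]
    exact mul_le_mul_left (ball_rr (hu i)) _
  · intro i _
    exact ((ep_rr_meas (m i)).inv.ennreal_ofReal).mul_const _

private lemma ep_int_Te {σ : Measure E3} [IsFiniteMeasure σ] {ε : ℝ} (hε : 0 < ε) :
    ∫⁻ g in ball (0 : E3) 1, Te σ ε g ≤ ENNReal.ofReal Real.pi * σ univ ^ 2 := by
  have h1 : ∫⁻ g in ball (0 : E3) 1, Te σ ε g =
      ∫⁻ z : E3 × E3, (∫⁻ g in ball (0 : E3) 1, kk ε ⟪g, z.1 - z.2⟫) * edist z.1 z.2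
        ∂(σ.prod σ) := by
    simp_rw [ep_Te_eq]
    rw [lintegral_lintegral_swap]
    · refine lintegral_congr fun z => ?_
      have hm : Measurable fun g : E3 => kk ε ⟪g, z.1 - z.2⟫ :=
        (ep_kk_meas ε).comp (by fun_prop)
      rw [lintegral_mul_const _ hm]
    · exact ((ep_kk_meas3 ε).mul (by fun_prop)).aemeasurable
  rw [h1]
  calc ∫⁻ z : E3 × E3, (∫⁻ g in ball (0 : E3) 1, kk ε ⟪g, z.1 - z.2⟫) * edist z.1 z.2
        ∂(σ.prod σ)
      ≤ ∫⁻ _ : E3 × E3, ENNReal.ofReal Real.pi ∂(σ.prod σ) := by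
        refine lintegral_mono fun z => ?_
        have := ball_kk_mul hε (z.1 - z.2)
        rwa [← dist_eq_norm, ← edist_dist] at this
    _ = ENNReal.ofReal Real.pi * σ univ ^ 2 := by
        rw [lintegral_const, ← Set.univ_prod_univ, Measure.prod_prod, sq]

private lemma ep_energy {σ : Measure E3} [IsFiniteMeasure σ] :
    ENNReal.ofReal Real.pi * nEnergy σ ≤
      liminf (fun k => ∫⁻ g in ball (0 : E3) 1, Je σ (ek k) g) atTop := by
  have h0 : nEnergy σ = ∫⁻ z : E3 × E3, (edist z.1 z.2)⁻¹ ∂(σ.prod σ) := by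
    unfold nEnergy
    rw [lintegral_prod]
    exact (Measurable.inv (by fun_prop)).aemeasurable
  have h1 : ENNReal.ofReal Real.pi * nEnergy σ ≤
      ∫⁻ z : E3 × E3, liminf (fun k => ∫⁻ g in ball (0 : E3) 1, kk (ek k) ⟪g, z.1 - z.2⟫) atTop
        ∂(σ.prod σ) := by
    have hm : Measurable fun z : E3 × E3 => (edist z.1 z.2)⁻¹ := Measurable.inv (by fun_prop)
    rw [h0, ← lintegral_const_mul _ hm]
    refine lintegral_mono fun z => ?_
    have := ball_kk_liminf (z.1 - z.2)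
    rwa [← edist_eq_enorm_sub] at this
  refine h1.trans ((lintegral_liminf_le fun k => ?_).trans (le_of_eq ?_))
  · refine Measurable.lintegral_prod_left' (f := fun p : E3 × (E3 × E3) =>
      kk (ek k) ⟪p.1, p.2.1 - p.2.2⟫) (ep_kk_meas3 _)
  · congr 1
    funext k
    rw [lintegral_lintegral_swap]
    · refine lintegral_congr fun g => ?_
      rw [ep_Je_eq]
    · exact ((ep_kk_meas (ek k)).comp (by fun_prop)).aemeasurable

theorem energy_poly {ι : Type} [Fintype ι] {m : ι → E3} {c : ι → ℝ} (hP : Ply m c) :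
    nEnergy (sgm m c) ^ 2 ≤ ENNReal.ofReal (64 / Real.pi) * sgm m c univ ^ 3 := by
  set σ := sgm m c with hσ
  have hpi := Real.pi_pos
  by_cases hfin : σ univ = ⊤
  · rw [hfin]
    have : ENNReal.ofReal (64 / Real.pi) * (⊤ : ℝ≥0∞) ^ 3 = ⊤ := by
      rw [ENNReal.top_pow (by norm_num), ENNReal.mul_top]
      rw [Ne, ENNReal.ofReal_eq_zero, not_le]
      positivity
    rw [this]
    exact le_top
  have : IsFiniteMeasure σ := ⟨lt_top_iff_ne_top.2 hfin⟩
  set L : E3 → ℝ≥0∞ := fun g => liminf (fun k => Te σ (ek k) g) atTop with hL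
  have hLm : Measurable L := Measurable.liminf fun k => ep_Te_meas (ek k)
  set C : ℝ≥0∞ := ENNReal.ofReal (64 / Real.pi ^ 2) with hC
  have hCmul : C * ENNReal.ofReal (Real.pi ^ 2 / 64) = 1 := by
    rw [hC, ← ENNReal.ofReal_mul (by positivity)]
    rw [show 64 / Real.pi ^ 2 * (Real.pi ^ 2 / 64) = 1 by field_simp]
    exact ENNReal.ofReal_one
  have hJe : ∀ k : ℕ, ∀ g : E3, Gen m g →
      Je σ (ek k) g ≤ C ^ (1 / 2 : ℝ) * ((be m c g) ^ (1 / 2 : ℝ) * (L g) ^ (1 / 2 : ℝ)) := by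
    intro k g hg
    have h1 := dir_ineq hP hg (ep_ek_pos k)
    have h2 : Je σ (ek k) g ^ 2 ≤ C * (be m c g * L g) := by
      calc Je σ (ek k) g ^ 2 = C * (ENNReal.ofReal (Real.pi ^ 2 / 64) * Je σ (ek k) g ^ 2) := by
            rw [← mul_assoc, hCmul, one_mul]
        _ ≤ C * (be m c g * L g) := mul_le_mul_right h1 _
    have h3 : Je σ (ek k) g = (Je σ (ek k) g ^ 2) ^ (1 / 2 : ℝ) := by
      rw [← ENNReal.rpow_natCast, ← ENNReal.rpow_mul]
      norm_num
    rw [h3]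
    calc (Je σ (ek k) g ^ 2) ^ (1 / 2 : ℝ) ≤ (C * (be m c g * L g)) ^ (1 / 2 : ℝ) :=
          ENNReal.rpow_le_rpow h2 (by norm_num)
      _ = C ^ (1 / 2 : ℝ) * ((be m c g) ^ (1 / 2 : ℝ) * (L g) ^ (1 / 2 : ℝ)) := by
          rw [ENNReal.mul_rpow_of_nonneg _ _ (by norm_num),
            ENNReal.mul_rpow_of_nonneg _ _ (by norm_num)]
  have hintL : ∫⁻ g in ball (0 : E3) 1, L g ≤ ENNReal.ofReal Real.pi * σ univ ^ 2 := by
    refine (lintegral_liminf_le fun k => ep_Te_meas (ek k)).trans ?_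
    calc liminf (fun k => ∫⁻ g in ball (0 : E3) 1, Te σ (ek k) g) atTop
        ≤ liminf (fun _ : ℕ => ENNReal.ofReal Real.pi * σ univ ^ 2) atTop :=
          liminf_le_liminf (Eventually.of_forall fun k => ep_int_Te (ep_ek_pos k))
      _ = _ := liminf_const _
  have hbm : Measurable (be m c) := ep_be_meas m c
  set R : ℝ≥0∞ := C * ((ENNReal.ofReal (Real.pi ^ 2) * σ univ) *
    (ENNReal.ofReal Real.pi * σ univ ^ 2)) with hR
  have hJk : ∀ k : ℕ, ∫⁻ g in ball (0 : E3) 1, Je σ (ek k) g ≤ R ^ (1 / 2 : ℝ) := by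
    intro k
    calc ∫⁻ g in ball (0 : E3) 1, Je σ (ek k) g
        ≤ ∫⁻ g in ball (0 : E3) 1,
            C ^ (1 / 2 : ℝ) * ((be m c g) ^ (1 / 2 : ℝ) * (L g) ^ (1 / 2 : ℝ)) := by
          refine lintegral_mono_ae ?_
          exact ae_restrict_of_ae ((gen_ae hP.unit).mono fun g hg => hJe k g hg)
      _ = C ^ (1 / 2 : ℝ) * ∫⁻ g in ball (0 : E3) 1,
            ((be m c g) ^ (1 / 2 : ℝ) * (L g) ^ (1 / 2 : ℝ)) := by
          rw [lintegral_const_mul]
          exact (hbm.pow_const _).mul (hLm.pow_const _)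
      _ ≤ C ^ (1 / 2 : ℝ) * ((∫⁻ g in ball (0 : E3) 1, be m c g) ^ (1 / 2 : ℝ) *
            (∫⁻ g in ball (0 : E3) 1, L g) ^ (1 / 2 : ℝ)) := by
          refine mul_le_mul_right ?_ _
          have := ENNReal.lintegral_mul_le_Lp_mul_Lq (μ := volume.restrict (ball (0 : E3) 1))
            (p := 2) (q := 2) (by constructor <;> norm_num)
            (f := fun g => (be m c g) ^ (1 / 2 : ℝ)) (g := fun g => (L g) ^ (1 / 2 : ℝ))
            (hbm.pow_const _).aemeasurable (hLm.pow_const _).aemeasurable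
          simp only [Pi.mul_apply, ← ENNReal.rpow_mul] at this
          norm_num at this
          norm_num
          exact this
      _ ≤ C ^ (1 / 2 : ℝ) * ((ENNReal.ofReal (Real.pi ^ 2) * σ univ) ^ (1 / 2 : ℝ) *
            (ENNReal.ofReal Real.pi * σ univ ^ 2) ^ (1 / 2 : ℝ)) := by
          refine mul_le_mul_right ?_ _
          exact mul_le_mul' (ENNReal.rpow_le_rpow (ep_int_be hP.unit) (by norm_num))
            (ENNReal.rpow_le_rpow hintL (by norm_num))
      _ = R ^ (1 / 2 : ℝ) := by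
          rw [hR, ENNReal.mul_rpow_of_nonneg C _ (by norm_num),
            ENNReal.mul_rpow_of_nonneg (ENNReal.ofReal (Real.pi ^ 2) * σ univ) _ (by norm_num)]
  have hE : ENNReal.ofReal Real.pi * nEnergy σ ≤ R ^ (1 / 2 : ℝ) := by
    refine ep_energy.trans ?_
    calc liminf (fun k => ∫⁻ g in ball (0 : E3) 1, Je σ (ek k) g) atTop
        ≤ liminf (fun _ : ℕ => R ^ (1 / 2 : ℝ)) atTop :=
          liminf_le_liminf (Eventually.of_forall hJk)
      _ = _ := liminf_const _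
  have hE2 : (ENNReal.ofReal Real.pi * nEnergy σ) ^ 2 ≤ R := by
    calc (ENNReal.ofReal Real.pi * nEnergy σ) ^ 2 ≤ (R ^ (1 / 2 : ℝ)) ^ 2 :=
          pow_le_pow_left' hE 2
      _ = R := by
          rw [← ENNReal.rpow_natCast, ← ENNReal.rpow_mul]
          norm_num
  have hcc : ENNReal.ofReal (1 / Real.pi ^ 2) * ENNReal.ofReal Real.pi ^ 2 = 1 := by
    rw [← ENNReal.ofReal_pow hpi.le, ← ENNReal.ofReal_mul (by positivity)]
    rw [show 1 / Real.pi ^ 2 * Real.pi ^ 2 = 1 by field_simp]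
    exact ENNReal.ofReal_one
  calc nEnergy σ ^ 2 = ENNReal.ofReal (1 / Real.pi ^ 2) *
        (ENNReal.ofReal Real.pi * nEnergy σ) ^ 2 := by
        rw [mul_pow, ← mul_assoc, hcc, one_mul]
    _ ≤ ENNReal.ofReal (1 / Real.pi ^ 2) * R := mul_le_mul_right hE2 _
    _ = ENNReal.ofReal (64 / Real.pi) * σ univ ^ 3 := by
        rw [hR, hC]
        have : ENNReal.ofReal (1 / Real.pi ^ 2) * (ENNReal.ofReal (64 / Real.pi ^ 2) *
            (ENNReal.ofReal (Real.pi ^ 2) * σ univ * (ENNReal.ofReal Real.pi * σ univ ^ 2))) =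
            (ENNReal.ofReal (1 / Real.pi ^ 2) * (ENNReal.ofReal (64 / Real.pi ^ 2) *
            (ENNReal.ofReal (Real.pi ^ 2) * ENNReal.ofReal Real.pi))) * σ univ ^ 3 := by ring
        rw [this]
        congr 1
        rw [← ENNReal.ofReal_mul (by positivity), ← ENNReal.ofReal_mul (by positivity),
          ← ENNReal.ofReal_mul (by positivity)]
        congr 1
        field_simp

end Pool.Agent.Helper83.CP
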