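import Pool.Agent.Helper83.CP.Defs
import Pool.Agent.Helper83.CP.EnergyPoly
import Pool.Agent.Helper83.CP.ContentLe
import Pool.Agent.Helper1.CK.Weak

/-!
# Project CP (helper83), module V1Poly
`V1 K ≤ 8/√(π S)`.

Proof. `weak_limit` (Helper1/CK/Weak): for `η > 0` take `Q = QQ m c` from `exists_outer`, `σ = sgm m c`, `S' = σ(univ)`, `S ≤ S' < ⊤` (`content_le`, `sgm_univ_lt_top`). `μ = S'⁻¹ • σ` is a probability measure on `Q ⊆ K_η` (`sgm_compl`) with
`nEnergy μ = nEnergy σ / S'² ≤ 8/√(π S') ≤ 8/√(π S)` (`energy_poly`).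
-/

set_option autoImplicit false

open MeasureTheory Set Filter Topology Metric
open scoped RealInnerProductSpace ENNReal NNReal

namespace Pool.Agent.Helper83.CP

open Pool.Agent.Helper1.CK (E3 nEnergy V1 Content Good)

private theorem nEnergy_smul {a : ℝ≥0∞} (ha : a ≠ ⊤) (σ : Measure E3) :
    nEnergy (a • σ) = a * (a * nEnergy σ) := by
  unfold nEnergy
  rw [lintegral_smul_measure]
  simp only [lintegral_smul_measure, smul_eq_mul]
  rw [lintegral_const_mul' _ _ ha]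

private theorem real_aux {e t S : ℝ} (he : 0 ≤ e) (hS : 0 < S) (hSt : S ≤ t)
    (h : e ^ 2 ≤ 64 / Real.pi * t ^ 3) : t⁻¹ * (t⁻¹ * e) ≤ 8 / √(Real.pi * S) := by
  have ht : 0 < t := hS.trans_le hSt
  have hpi := Real.pi_pos
  have h1 : 8 / √(Real.pi * S) = √(64 / (Real.pi * S)) := by
    rw [Real.sqrt_div (by norm_num), show (64 : ℝ) = 8 ^ 2 by norm_num,
      Real.sqrt_sq (by norm_num)]
  rw [h1]
  apply Real.le_sqrt_of_sq_le
  have h2 : (t⁻¹ * (t⁻¹ * e)) ^ 2 = e ^ 2 / t ^ 4 := by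
    field_simp
  rw [h2]
  calc e ^ 2 / t ^ 4 ≤ (64 / Real.pi * t ^ 3) / t ^ 4 := by gcongr
    _ = 64 / (Real.pi * t) := by field_simp
    _ ≤ 64 / (Real.pi * S) := by gcongr

theorem V1_le_sharp {K : Set E3} (hK : Good K) {S : ℝ} (hS : 0 < S) (hC : Content K S) :
    V1 K ≤ ENNReal.ofReal (8 / √(Real.pi * S)) := by
  refine Pool.Agent.Helper1.CK.weak_limit hK.cpt fun η hη => ?_
  obtain ⟨ι, hι, m, c, hP, h1, h2⟩ := exists_outer hK hη
  have hT : sgm m c univ < ⊤ := sgm_univ_lt_top hP.bdd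
  have hTS : ENNReal.ofReal S ≤ sgm m c univ := content_le hK hC hP h1
  have hT0 : sgm m c univ ≠ 0 := by
    intro h0
    rw [h0, nonpos_iff_eq_zero, ENNReal.ofReal_eq_zero] at hTS
    linarith
  have hE := energy_poly hP
  have hTi : (sgm m c univ)⁻¹ ≠ ⊤ := ENNReal.inv_ne_top.2 hT0
  refine ⟨(sgm m c univ)⁻¹ • sgm m c, ⟨?_⟩, ?_, ?_⟩
  · rw [Measure.smul_apply, smul_eq_mul, ENNReal.inv_mul_cancel hT0 hT.ne]
  · rw [Measure.smul_apply, smul_eq_mul]
    have h3 : sgm m c (cthickening η K)ᶜ = 0 :=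
      measure_mono_null (compl_subset_compl.2 h2) (sgm_compl m c)
    rw [h3, mul_zero]
  · rw [nEnergy_smul hTi]
    refine le_trans ?_ le_self_add
    generalize sgm m c univ = T at hT hTS hT0 hE hTi
    generalize nEnergy (sgm m c) = E at hE
    lift T to ℝ≥0 using hT.ne
    have hEt : E ≠ ⊤ := by
      rintro rfl
      have h4 : ENNReal.ofReal (64 / Real.pi) * (T : ℝ≥0∞) ^ 3 < ⊤ :=
        ENNReal.mul_lt_top ENNReal.ofReal_lt_top (ENNReal.pow_lt_top ENNReal.coe_lt_top)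
      rw [show (⊤ : ℝ≥0∞) ^ 2 = ⊤ by simp] at hE
      exact absurd (lt_of_le_of_lt hE h4) (lt_irrefl _)
    lift E to ℝ≥0 using hEt
    have hT0' : T ≠ 0 := by simpa using hT0
    have h5 : S ≤ (T : ℝ) := by
      rw [← ENNReal.ofReal_coe_nnreal] at hTS
      exact (ENNReal.ofReal_le_ofReal_iff T.coe_nonneg).1 hTS
    have h6 : (E : ℝ) ^ 2 ≤ 64 / Real.pi * (T : ℝ) ^ 3 := by
      rw [← ENNReal.ofReal_coe_nnreal (p := T), ← ENNReal.ofReal_coe_nnreal (p := E),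
        ← ENNReal.ofReal_pow E.coe_nonneg, ← ENNReal.ofReal_pow T.coe_nonneg,
        ← ENNReal.ofReal_mul (by positivity)] at hE
      exact (ENNReal.ofReal_le_ofReal_iff (by positivity)).1 hE
    have h7 := real_aux E.coe_nonneg hS h5 h6
    have h8 : (T : ℝ≥0∞)⁻¹ * ((T : ℝ≥0∞)⁻¹ * (E : ℝ≥0∞)) =
        ENNReal.ofReal ((T : ℝ)⁻¹ * ((T : ℝ)⁻¹ * (E : ℝ))) := by
      have hTpos : (0 : ℝ) < T := by
        exact lt_of_lt_of_le hS h5
      rw [ENNReal.ofReal_mul (by positivity), ENNReal.ofReal_mul (by positivity),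
        ENNReal.ofReal_inv_of_pos hTpos, ENNReal.ofReal_coe_nnreal, ENNReal.ofReal_coe_nnreal]
    rw [h8]
    exact ENNReal.ofReal_le_ofReal h7

end Pool.Agent.Helper83.CP
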