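import Pool.Agent.Helper83.CP.Defs
import Pool.Agent.Helper83.CP.V1Poly
import Pool.Agent.Helper83.CP.DualM

/-!
# Project CP (helper83), module Final
The theorem. (`nonempty_of_content` and `exists_admissible` are copied from Helper1/CK/Final.)
-/

set_option autoImplicit false

open MeasureTheory Set Filter Topology Metric
open scoped RealInnerProductSpace ENNReal NNReal

namespace Pool.Agent.Helper83.CP

open Pool.Agent.Helper1.CK (E3 nEnergy V1 Content Good)

/-- positive content forces `K` nonempty -/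
private theorem nonempty_of_content {K : Set E3} {S : ℝ} (hS : 0 < S) (hC : Content K S) :
    K.Nonempty := by
  rcases K.eq_empty_or_nonempty with h | h
  · exfalso
    subst h
    have h1 : Tendsto (fun _ : ℝ => (0 : ℝ)) (𝓝[>] (0 : ℝ)) (𝓝 S) := by
      refine hC.congr (fun ε => ?_)
      rw [Metric.cthickening_empty, sub_self, zero_div]
    have h2 : Tendsto (fun _ : ℝ => (0 : ℝ)) (𝓝[>] (0 : ℝ)) (𝓝 0) := tendsto_const_nhds
    exact hS.ne' (tendsto_nhds_unique h1 h2)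
  · exact h

/-- admissible functions exist for the Dirichlet capacity -/
private theorem exists_admissible {K : Set E3} (hK : IsCompact K) : ∃ u : E3 → ℝ, ContDiff ℝ 1 u ∧
    HasCompactSupport u ∧ ∀ x ∈ K, 1 ≤ u x := by
  obtain ⟨r, hr0, hr⟩ := hK.isBounded.subset_closedBall_lt 0 (0 : E3)
  let f : ContDiffBump (0 : E3) := ⟨r, r + 1, hr0, by linarith⟩
  refine ⟨f, f.contDiff, f.hasCompactSupport, fun x hx => ?_⟩
  exact (f.one_of_mem_closedBall (hr hx)).ge

/-- the Dirichlet integral against the energy of one measure -/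
private theorem dirichlet_one {K : Set E3} {μ : Measure E3} [IsProbabilityMeasure μ]
    (hμ : μ Kᶜ = 0) (hE : nEnergy μ < ⊤) {u : E3 → ℝ} (hu : ContDiff ℝ 1 u)
    (hc : HasCompactSupport u) (h1 : ∀ x ∈ K, 1 ≤ u x) :
    4 * Real.pi ≤ (∫ x, ‖fderiv ℝ u x‖ ^ 2) * (nEnergy μ).toReal := by
  have h2 := dualM hE hu hc
  have hint : Integrable u μ := hu.continuous.integrable_of_hasCompactSupport hc
  have h3 : (1 : ℝ) ≤ ∫ x, u x ∂μ := by
    have h4 : ∫ _ : E3, (1 : ℝ) ∂μ ≤ ∫ x, u x ∂μ := by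
      refine integral_mono_ae (integrable_const _) hint ?_
      have h5 : ∀ᵐ x ∂μ, x ∈ K := by
        rw [ae_iff]; exact hμ
      filter_upwards [h5] with x hx
      exact h1 x hx
    simpa using h4
  have hpi := Real.pi_pos
  refine le_trans ?_ h2
  have h6 : (1 : ℝ) ≤ (∫ x, u x ∂μ) ^ 2 := one_le_pow₀ h3
  nlinarith

private theorem dirichlet_ge {K : Set E3} {S : ℝ} (hS : 0 < S)
    (hV : V1 K ≤ ENNReal.ofReal (8 / √(Real.pi * S)))
    {u : E3 → ℝ} (hu : ContDiff ℝ 1 u) (hc : HasCompactSupport u) (h1 : ∀ x ∈ K, 1 ≤ u x) :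
    Real.pi / 2 * √(Real.pi * S) ≤ ∫ x, ‖fderiv ℝ u x‖ ^ 2 := by
  have hpi := Real.pi_pos
  set D := ∫ x, ‖fderiv ℝ u x‖ ^ 2 with hD
  have hD0 : 0 ≤ D := integral_nonneg fun x => sq_nonneg _
  have hsq : 0 < √(Real.pi * S) := Real.sqrt_pos.2 (by positivity)
  have hpre : ∀ η : ℝ, 0 < η → 4 * Real.pi ≤ D * (8 / √(Real.pi * S) + η) := by
    intro η hη
    have h2 : V1 K < ENNReal.ofReal (8 / √(Real.pi * S) + η) := by
      refine lt_of_le_of_lt hV ?_
      exact (ENNReal.ofReal_lt_ofReal_iff (by positivity)).2 (by linarith)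
    unfold V1 at h2
    simp only [iInf_lt_iff] at h2
    obtain ⟨μ, hμ, hμK, hE⟩ := h2
    have h3 := dirichlet_one hμK (hE.trans ENNReal.ofReal_lt_top) hu hc h1
    refine h3.trans (mul_le_mul_of_nonneg_left ?_ hD0)
    exact ENNReal.toReal_le_of_le_ofReal (by positivity) hE.le
  have hlim : 4 * Real.pi ≤ D * (8 / √(Real.pi * S) + 0) := by
    have hc2 : Continuous fun θ : ℝ => D * (8 / √(Real.pi * S) + θ) := by fun_prop
    have t2 : Tendsto (fun θ : ℝ => D * (8 / √(Real.pi * S) + θ)) (𝓝[>] 0)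
        (𝓝 (D * (8 / √(Real.pi * S) + 0))) := (hc2.tendsto 0).mono_left nhdsWithin_le_nhds
    refine ge_of_tendsto t2 ?_
    filter_upwards [self_mem_nhdsWithin] with θ hθ
    exact hpre θ hθ
  have h4 : Real.pi / 2 * √(Real.pi * S) * (8 / √(Real.pi * S)) = 4 * Real.pi := by
    field_simp
    ring
  have h5 : (0 : ℝ) < 8 / √(Real.pi * S) := by positivity
  refine le_of_mul_le_mul_right ?_ h5
  rw [h4]
  linarith

theorem final (K : Set E3) (hK : IsCompact K) (hc : Convex ℝ K) (S : ℝ) (hS : 0 < S)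
    (hC : Content K S) :
    V1 K ≤ ENNReal.ofReal (8 / √(Real.pi * S)) ∧
    Real.pi / 2 * √(Real.pi * S) ≤
      sInf {E : ℝ | ∃ u : E3 → ℝ, ContDiff ℝ 1 u ∧ HasCompactSupport u ∧
          (∀ x ∈ K, 1 ≤ u x) ∧ E = ∫ x, ‖fderiv ℝ u x‖ ^ 2} := by
  have hG : Good K := ⟨hK, hc, nonempty_of_content hS hC⟩
  have hV := V1_le_sharp hG hS hC
  refine ⟨hV, ?_⟩
  apply le_csInf
  · obtain ⟨u, h1, h2, h3⟩ := exists_admissible hK
    exact ⟨_, u, h1, h2, h3, rfl⟩
  · rintro E ⟨u, h1, h2, h3, rfl⟩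
    exact dirichlet_ge hS hV h1 h2 h3

end Pool.Agent.Helper83.CP
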